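import Pool.Agent.helper21.WV.StA

/-! The coefficients of the minimal polynomial in case II are rational functions of `C(x)`. -/

namespace WildV

open Polynomial WildRat WildS

variable {K : Type} [Field K] [Algebra ℂ K]

theorem StB_GG_monic {C : RF} (hm : C.P.Monic) (hlt : C.Q.natDegree < C.P.natDegree) :
    (GG C).Monic := by
  unfold GG
  refine (hm.map _).sub_of_left ?_
  calc (Polynomial.C (elt C) * C.Q.map (algebraMap ℂ E)).degree
      ≤ (C.Q.map (algebraMap ℂ E)).degree := by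
        rw [← smul_eq_C_mul]; exact degree_smul_le _ _
    _ = C.Q.degree := degree_map _ _
    _ < C.P.degree := degree_lt_degree hlt
    _ = (C.P.map (algebraMap ℂ E)).degree := (degree_map _ _).symm

theorem StB_finrank {C : RF} (hn : 1 ≤ C.n) :
    Module.finrank (IntermediateField.adjoin ℂ {elt C}) E = C.n := by
  obtain ⟨C', h1, h2, h3⟩ := exists_RF (elt C) (elt_nonConst C hn)
  rw [RatFunc.finrank_eq_max_natDegree, ← h3, (congr_elt h1 h2 hn).1]

theorem StB_fix {L : Type} [Field L] [Algebra ℂ L] [IsAlgClosed L] {F : L[X]} (hF : F.Monic)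
    (τ : L →ₐ[ℂ] L) (h : ∀ w, F.IsRoot w → τ w = w) : F.map τ.toRingHom = F := by
  have hs : F.Splits := IsAlgClosed.splits F
  have h1 := hs.eq_prod_roots_of_monic hF
  conv_lhs => rw [h1]
  conv_rhs => rw [h1]
  rw [Polynomial.map_multiset_prod, Multiset.map_map]
  congr 1
  refine Multiset.map_congr rfl fun w hw => ?_
  have h2 : τ w = w := h w ((mem_roots'.1 hw).2)
  simp only [Function.comp_apply, Polynomial.map_sub, map_X, map_C]
  rw [show τ.toRingHom w = w from h2]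

theorem StB_root {L : Type} [Field L] [Algebra ℂ L] (C : RF) (θ : E →ₐ[ℂ] L) (w : L) :
    ((GG C).map θ.toRingHom).IsRoot w ↔ aeval w C.P = θ (elt C) * aeval w C.Q := by
  rw [Block_GG, IsRoot.def, eval_sub, eval_mul, eval_C, eval_map_algebraMap, eval_map_algebraMap,
    sub_eq_zero]

theorem StB_exists {L : Type} [Field L] [Algebra ℂ L] [IsAlgClosed L] {C : RF} (hn : 2 ≤ C.n)
    (hm : C.P.Monic) (hlt : C.Q.natDegree < C.P.natDegree) (θ : E →ₐ[ℂ] L) :
    ∃ x' : L, x' ≠ θ RatFunc.X ∧ aeval x' C.P = θ (elt C) * aeval x' C.Q := by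
  classical
  have hn1 : 1 ≤ C.n := by omega
  have hmon : ((GG C).map θ.toRingHom).Monic := (StB_GG_monic hm hlt).map _
  have hsep : ((GG C).map θ.toRingHom).Separable := (GG_separable C hn1).map
  have hcard : Multiset.card ((GG C).map θ.toRingHom).roots = C.n := by
    rw [← (IsAlgClosed.splits _).natDegree_eq_card_roots, (StB_GG_monic hm hlt).natDegree_map,
      GG_natDegree C hn1]
  have hfin : 1 < ((GG C).map θ.toRingHom).roots.toFinset.card := by
    rw [Multiset.toFinset_card_of_nodup (nodup_roots hsep), hcard]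
    omega
  obtain ⟨x', hx', hne⟩ := Finset.exists_mem_ne hfin (θ RatFunc.X)
  rw [Multiset.mem_toFinset, mem_roots hmon.ne_zero, StB_root] at hx'
  exact ⟨x', hne, hx'⟩

theorem StB_self {L : Type} [Field L] [Algebra ℂ L] {C : RF} (hn : 1 ≤ C.n) (θ : E →ₐ[ℂ] L) :
    aeval (θ RatFunc.X) C.P = θ (elt C) * aeval (θ RatFunc.X) C.Q := by
  have hQ : aeval (θ RatFunc.X) C.Q ≠ 0 := (coord_nonConst θ).aeval_ne_zero (C.Q_ne_zero hn)
  rw [coord_elt]
  unfold RF.app
  rw [div_mul_cancel₀ _ hQ]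

/-- The elements `u` of `E` on which the clique pair agrees are rational functions of `elt C`.

Proof.  Let `F = Luroth_F φ0 ψ0` (WS/Luroth).  By `Luroth_finrank_le` with `N = NN φ0 ψ0 = (T - x) mu0 =
GG C` (its coefficients are `p_i - (elt C) q_i ∈ F`, it vanishes at `x`), `[E : F] ≤ C.n`.  `ℂ(elt C) ≤ F`
and `[E : ℂ(elt C)] = C.n` (`deg_elt`, `deg_E`, `RatFunc.finrank_eq_max_natDegree`), so they are equal
(`IntermediateField.eq_of_le_of_finrank_le` or the tower formula). -/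
theorem StB_field {A B C : RF} {c q : ℂ} {mu0 : E[X]} (h : Cl A B C c q mu0) {K0 : Type}
    [Field K0] [Algebra ℂ K0] {φ0 ψ0 : E →ₐ[ℂ] K0} (hφ : FinC φ0) (hne : φ0 ≠ ψ0)
    (hC : φ0 (elt C) = ψ0 (elt C)) {u : E} (hu : φ0 u = ψ0 u) :
    u ∈ IntermediateField.adjoin ℂ {elt C} := by
  have hCn2 := h.facts.1
  have hn : 1 ≤ C.n := by omega
  have hmu := mu_pos φ0 hφ (ψ0 RatFunc.X)
  have hdvd := NN_dvd C hn hne hC
  rw [h.gg] at hdvd
  unfold NN at hdvd
  have hdvd2 : mu φ0 (ψ0 RatFunc.X) ∣ mu0 := (mul_dvd_mul_iff_left (X_sub_C_ne_zero _)).1 hdvd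
  have hmu0 : mu φ0 (ψ0 RatFunc.X) = mu0 := by
    rcases h.irr.dvd_iff.1 hdvd2 with h1 | h1
    · have := natDegree_eq_zero_of_isUnit h1
      omega
    · exact eq_of_monic_of_associated hmu.1 h.mon0 h1.symm
  have hGd : (NN φ0 ψ0).natDegree = C.n := by
    unfold NN
    rw [hmu0, ← h.gg, GG_natDegree C hn]
  have hCF : elt C ∈ Luroth_F φ0 ψ0 := hC
  have hFbot : Luroth_F φ0 ψ0 ≠ ⊥ := by
    intro hb
    rw [hb, IntermediateField.mem_bot] at hCF
    obtain ⟨c, hc⟩ := hCF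
    exact elt_nonConst C hn c hc.symm
  have hgen := RatFunc.Luroth.eq_adjoin_generator (E := Luroth_F φ0 ψ0)
  have hv : NonConst (RatFunc.Luroth.generator (Luroth_F φ0 ψ0)) := fun c hc =>
    RatFunc.Luroth.generator_ne_C hFbot ⟨c, by rw [hc]; rfl⟩
  have hvF : RatFunc.Luroth.generator (Luroth_F φ0 ψ0) ∈ Luroth_F φ0 ψ0 :=
    RatFunc.Luroth.generator_mem
  have hfin := Luroth_finrank_congr hgen
  rw [RatFunc.finrank_eq_max_natDegree] at hfin
  generalize RatFunc.Luroth.generator (Luroth_F φ0 ψ0) = v at hgen hv hvF hfin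
  obtain ⟨C', hC'1, hC'2, hC'3⟩ := exists_RF v hv
  have hC' : φ0 (elt C') = ψ0 (elt C') := by
    rw [hC'1]
    exact hvF
  have hle := natDegree_le_of_dvd (NN_dvd C' hC'2 hne hC') (Gauss_GG_ne C' hC'2)
  rw [hGd, GG_natDegree C' hC'2, hC'3, ← hfin] at hle
  have hF0 := StB_finrank hn
  have hsub : IntermediateField.adjoin ℂ {elt C} ≤ Luroth_F φ0 ψ0 :=
    IntermediateField.adjoin_simple_le_iff.2 hC
  have : FiniteDimensional (IntermediateField.adjoin ℂ {elt C}) E :=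
    Module.finite_of_finrank_pos (by rw [hF0]; exact hn)
  have heq := IntermediateField.eq_of_le_of_finrank_le' hsub (by rw [hF0]; exact hle)
  rw [heq]
  exact hu

/-- The coefficients of `mu`.

Proof.  `L = AlgebraicClosure K`, `x = φ X`.  There is `x' ≠ x` in `L` with `C(x') = C(x)`: `GG C` mapped by
`φ` to `L` is separable (`GG_separable`) of degree `C.n ≥ 2`, so it has a root `x' ≠ x`.  Let `τ` be the
swap of `x, x'`.  All roots `w` of `mu` in `L` are roots of `A(·) = t` (`StA_root`) and different from `x`,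
`x'` (`StA_ne`), so `τ w = w`; `mu` splits in `L`, so `τ` fixes the coefficients of `mu` mapped to `L`
(compare `Block_swap`).  Let `φ' : E → L`, `X ↦ x'`; `τ ∘ φ = φ'` (`coord_ext`).  So `φ (a) = φ' (a)` in `L`
for every coefficient `a` of `mu`, and `StB_field` does not apply directly because `L` is not finite
over `E`; apply it to the subfield `K0` of `L` generated by `x, x'` over `ℂ`
(`IntermediateField.adjoin K {x'}` is finite over `K` because `x'` is algebraic), or factor through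
`Swap_embed`: there are `K1, φ1, ψ1, θ` with `θ ∘ φ1 = φ`, `θ ∘ ψ1 = φ'`, and `θ` is injective, so
`φ1 (a) = ψ1 (a)`, and `φ1 (elt C) = ψ1 (elt C)`. -/
theorem StB_coeff {A B C : RF} {c q : ℂ} {mu0 : E[X]} (h : Cl A B C c q mu0)
    {φ ψ : E →ₐ[ℂ] K} (hφ : FinC φ) (hA : φ (elt A) = ψ (elt A)) (hC : φ (elt C) ≠ ψ (elt C))
    (i : ℕ) :
    (mu φ (ψ RatFunc.X)).coeff i ∈ IntermediateField.adjoin ℂ {elt C} := by
  have hC2 := h.facts.1
  have hn : 1 ≤ C.n := by omega
  have hA : 1 ≤ A.n := by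
    have h1 := h.norm.two
    have h2 : A.P.natDegree ≤ A.n := le_max_left _ _
    omega
  have hne : φ ≠ ψ := by
    rintro rfl
    exact hC rfl
  obtain ⟨θ, hθ⟩ : ∃ θ : E →ₐ[ℂ] AlgebraicClosure K,
      ∀ u, θ u = algebraMap K (AlgebraicClosure K) (φ u) :=
    ⟨(IsScalarTower.toAlgHom ℂ K (AlgebraicClosure K)).comp φ, fun u => rfl⟩
  obtain ⟨x', hx'ne, hx'⟩ := StB_exists hC2 h.monic h.lt θ
  have hx := StB_self hn θ
  have hxA := StB_self hA θ
  have hCC : aeval (θ RatFunc.X) C.P * aeval x' C.Q = aeval x' C.P * aeval (θ RatFunc.X) C.Q := by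
    rw [hx, hx']
    ring
  obtain ⟨τ, hτ1, hτ2, hτ3⟩ := swap h hφ (z := θ RatFunc.X) (z' := x')
    (by rw [hxA, hθ (elt A)]) hCC hx'ne.symm
  have hmap : ((mu φ (ψ RatFunc.X)).map θ.toRingHom) =
      (((mu φ (ψ RatFunc.X)).map φ.toRingHom).map (algebraMap K (AlgebraicClosure K))) := by
    rw [Polynomial.map_map]
    congr 1
    ext u
    exact hθ u
  have hfix : ((mu φ (ψ RatFunc.X)).map θ.toRingHom).map τ.toRingHom =
      (mu φ (ψ RatFunc.X)).map θ.toRingHom := by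
    refine StB_fix ((mu_pos φ hφ (ψ RatFunc.X)).1.map _) τ fun w hw => ?_
    have hw' : aeval w ((mu φ (ψ RatFunc.X)).map φ.toRingHom) = 0 := by
      rw [IsRoot.def, hmap, eval_map_algebraMap] at hw
      exact hw
    obtain ⟨h1, h2⟩ := StA_root hA hφ hne (by assumption) hw'
    have h3 := StA_ne h hφ (by assumption) hC hw'
    refine hτ3 w ?_ ?_ h1
    · rintro rfl
      exact h3 (by rw [hx, hθ (elt C)])
    · rintro rfl
      exact h3 (by rw [hx', hθ (elt C)])
  have hcoeff : τ (θ ((mu φ (ψ RatFunc.X)).coeff i)) = θ ((mu φ (ψ RatFunc.X)).coeff i) := by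
    have h1 := congrArg (fun p => p.coeff i) hfix
    simp only [coeff_map] at h1
    exact h1
  obtain ⟨K1, i1, i2, φ1, ψ1, P, ι, hφ1, hne1, hA1, hP1, hP2, hι1, hι2⟩ :=
    Swap_embed h (L := AlgebraicClosure K) (z := θ RatFunc.X) (z' := x') (coord_nonConst θ) hCC
      hx'ne.symm
  have e1 : ι.comp φ1 = θ := coord_ext hι1
  have e2 : ι.comp ψ1 = τ.comp θ := coord_ext (by
    show ι (ψ1 RatFunc.X) = τ (θ RatFunc.X)
    rw [hι2, hτ1])
  refine StB_field h hφ1 hne1 (h.uniq K1 φ1 ψ1 P hφ1 hne1 hA1 hP1 hP2) ?_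
  have hinj : Function.Injective ι := ι.toRingHom.injective
  apply hinj
  have h1 : ι (φ1 ((mu φ (ψ RatFunc.X)).coeff i)) = θ ((mu φ (ψ RatFunc.X)).coeff i) :=
    DFunLike.congr_fun e1 _
  have h2 : ι (ψ1 ((mu φ (ψ RatFunc.X)).coeff i)) = τ (θ ((mu φ (ψ RatFunc.X)).coeff i)) :=
    DFunLike.congr_fun e2 _
  rw [h1, h2, hcoeff]

/-- The order at `a` of a rational function of `elt C`.

Proof.  `v = R(elt C)`: the homomorphism `γ : E → E`, `X ↦ elt C`, has range `ℂ(elt C)`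
(`Deg_fieldRange`), so `v = γ r`, `r ≠ 0`.  `plE a ∈ fib γ p`, and
`ord_coord` (WS/Fibre) gives `(plE a).ord (γ r) = (plE p).ord r * (plE a).ord (elt C - p)`, and
`(plE a).ord (elt C - p) = C.e a` (`Pair_ord`, `e_fC`).  Take `k = (plE p).ord r`. -/
theorem StB_ord {C : RF} (hn : 1 ≤ C.n) (hlt : C.Q.natDegree < C.P.natDegree) {v : E}
    (hv : v ∈ IntermediateField.adjoin ℂ {elt C}) (hv0 : v ≠ 0) (p : ℂ) :
    ∃ k : ℤ, ∀ a ∈ fC C p, (plE a).ord v = C.e (some a) * k := by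
  obtain ⟨γ, hγ⟩ := exists_subst (elt_nonConst C hn)
  rw [← hγ, ← Deg_fieldRange γ] at hv
  obtain ⟨r, hr⟩ := hv
  have hr' : γ r = v := hr
  have hr0 : r ≠ 0 := by
    rintro rfl
    rw [map_zero] at hr'
    exact hv0 hr'.symm
  refine ⟨(plE p).ord r, fun a ha => ?_⟩
  obtain ⟨hQ, hP⟩ := (mem_fC' hn).1 ha
  obtain ⟨-, -, -, -, h5⟩ := Pair_ord C hlt a p
  have hQm : C.Q.rootMultiplicity a = 0 := rootMultiplicity_eq_zero (fun h0 => hQ h0)
  rw [← e_fC hn ha, hQm] at h5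
  have hpos : 1 ≤ C.e (some a) := C.one_le_e hn _
  have h6 : (plE a).ord (γ RatFunc.X - algebraMap ℂ E p) = (C.e (some a) : ℤ) := by
    rw [hγ, h5]
    simp
  have hfib : plE a ∈ fib γ p := by
    show 0 < (plE a).ord (γ RatFunc.X - algebraMap ℂ E p)
    rw [h6]
    exact_mod_cast hpos
  rw [← hr', ord_coord hfib hr0, h6, mul_comm]

/-- **Structure of `mu` in case II.**

Proof.  `StA_eval` gives `d'`.  For `b` with `C(b) = p'` finite, `mu(b) ∈ ℂ(elt C)` (`StB_coeff`, `b` is a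
constant) and `mu(b) ≠ 0` (`mu ∣ GG A`, and `(GG A)(b) = P(b) - A(x) Q(b) ≠ 0`), so `StB_ord` gives
`k(p, b)` with `ord_a mu(b) = C.e a * k(p, b)` for all `a` over `p`.  By `StA_eval` `ord_a mu(b)`, hence
`k(p, b)`, only depends on `p' = C(b)` (the factors `C.Q(b) ^ d'` are nonzero constants).  Nonnegative:
if `A(a)` is finite, then the coefficients of `GG A` are regular at `a`, and `gauss`,
`Gauss_eval_nonneg` apply.  Choose `M p p' = k(p, b).toNat`. -/
theorem struct_mu {A B C : RF} {c q : ℂ} {mu0 : E[X]} (h : Cl A B C c q mu0)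
    {φ ψ : E →ₐ[ℂ] K} (hφ : FinC φ) (hA : φ (elt A) = ψ (elt A)) (hC : φ (elt C) ≠ ψ (elt C)) :
    ∃ (d' : ℕ) (M : ℂ → ℂ → ℕ), 1 ≤ d' ∧ (mu φ (ψ RatFunc.X)).natDegree = C.n * d' ∧
      ∀ p p' t0 : ℂ, p ∈ fC B t0 → ∀ a ∈ fC C p, ∀ b ∈ fC C p',
        (plE a).ord ((mu φ (ψ RatFunc.X)).eval (algebraMap ℂ E b)) =
          (C.e (some a) : ℤ) * M p p' := by
  classical
  obtain ⟨hC2, hB, hmul, hval, he, -⟩ := h.facts
  have hn : 1 ≤ C.n := by omega
  have hAn : 1 ≤ A.n := by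
    have h1 := h.norm.two
    have h2 : A.P.natDegree ≤ A.n := le_max_left _ _
    omega
  have hne : φ ≠ ψ := by
    rintro rfl
    exact hC rfl
  obtain ⟨d', hd1, hd2, hd3⟩ := StA_eval h hφ hA hC
  obtain ⟨hmm, hmpos⟩ := mu_pos φ hφ (ψ RatFunc.X)
  -- a point over each value
  have hb : ∀ p' : ℂ, ∃ b, b ∈ fC C p' := by
    intro p'
    have h1 := sum_fC hn h.lt p'
    rcases (fC C p').eq_empty_or_nonempty with h2 | h2
    · rw [h2, Finset.sum_empty] at h1
      omega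
    · exact h2
  choose b0 hb0 using hb
  have hne0 : ∀ b : ℂ, (mu φ (ψ RatFunc.X)).eval (algebraMap ℂ E b) ≠ 0 := by
    intro b
    obtain ⟨m, -, -, hm⟩ := mu_norm φ hφ (ψ RatFunc.X)
    exact (hm 0 b (coord_nonConst ψ b)).1
  have hmem : ∀ b : ℂ, (mu φ (ψ RatFunc.X)).eval (algebraMap ℂ E b) ∈
      IntermediateField.adjoin ℂ {elt C} := by
    intro b
    rw [eval_eq_sum_range]
    refine sum_mem fun i _ => mul_mem (StB_coeff h hφ hA hC i) (pow_mem ?_ _)
    exact IntermediateField.algebraMap_mem _ b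
  have hk : ∀ p p' : ℂ, ∃ k : ℤ, ∀ a ∈ fC C p,
      (plE a).ord ((mu φ (ψ RatFunc.X)).eval (algebraMap ℂ E (b0 p'))) = C.e (some a) * k :=
    fun p p' => StB_ord hn h.lt (hmem _) (hne0 _) p
  choose k hk' using hk
  refine ⟨d', fun p p' => (k p p').toNat, hd1, hd2, fun p p' t0 hp a ha b hb => ?_⟩
  have hpos : 1 ≤ C.e (some a) := C.one_le_e hn _
  obtain ⟨hQb, hPb⟩ := (mem_fC' hn).1 hb
  obtain ⟨hQb0, hPb0⟩ := (mem_fC' hn).1 (hb0 p')
  have hconst : ∀ c : ℂ, c ≠ 0 → algebraMap ℂ E c ≠ 0 := fun c hc =>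
    (map_ne_zero (algebraMap ℂ E)).2 hc
  have heq : (plE a).ord ((mu φ (ψ RatFunc.X)).eval (algebraMap ℂ E b)) =
      (plE a).ord ((mu φ (ψ RatFunc.X)).eval (algebraMap ℂ E (b0 p'))) := by
    have h1 := congrArg (plE a).ord (hd3 b (b0 p') p' hPb hPb0)
    rw [(plE a).ord_mul (hne0 _) (hconst _ (pow_ne_zero _ hQb0)), (plE a).ord_C,
      (plE a).ord_mul (hne0 _) (hconst _ (pow_ne_zero _ hQb)), (plE a).ord_C, add_zero,
      add_zero] at h1
    exact h1
  have hnonneg : 0 ≤ (plE a).ord ((mu φ (ψ RatFunc.X)).eval (algebraMap ℂ E (b0 p'))) := by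
    refine Gauss_eval_nonneg a (gauss a (StB_GG_monic h.norm.monic h.norm.lt) hmm
      ((dvd_mul_left _ _).trans (NN_dvd A hAn hne hA)) ?_) _
    have hAa : A.val (some a) = some t0 := by
      rw [hval, (mem_fC hn).1 ha]
      exact (mem_fC hB).1 hp
    obtain ⟨hQa, hPa⟩ := (Quad_val_some A).1 hAa
    have hordA : 0 ≤ (plE a).ord (elt A) := by
      obtain ⟨-, -, -, -, h5⟩ := Pair_ord A h.norm.lt a 0
      rw [map_zero, sub_zero] at h5
      have hQm : A.Q.rootMultiplicity a = 0 := rootMultiplicity_eq_zero (fun h0 => hQa h0)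
      rw [h5, hQm]
      simp
    intro i
    have hco : (GG A).coeff i =
        algebraMap ℂ E (A.P.coeff i) - elt A * algebraMap ℂ E (A.Q.coeff i) := by
      unfold GG
      rw [coeff_sub, coeff_C_mul, coeff_map, coeff_map]
    rw [hco]
    refine (plE a).ord_nonneg_sub ?_ ((plE a).ord_nonneg_mul hordA ?_)
    · rw [(plE a).ord_C]
    · rw [(plE a).ord_C]
  rw [heq, hk' p p' a ha] at *
  have hk0 : 0 ≤ k p p' := by
    by_contra hlt
    push Not at hlt
    have h1 : (C.e (some a) : ℤ) * k p p' < 0 :=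
      mul_neg_of_pos_of_neg (by exact_mod_cast hpos) hlt
    linarith
  rw [Int.toNat_of_nonneg hk0]

end WildV
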