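import Pool.Agent.helper21.WV.CDefs

/-! Normalisation with one simple value; transport of the types. -/

namespace WildV

open Polynomial WildRat WildS

/-- The types are invariant under a change of the source coordinate.  Proof: transport the points. -/
theorem Typ_transport {C C' : RF} (hn : C.n = C'.n) {σ : P1 → P1} (hσ : Function.Bijective σ)
    (hv : ∀ z, C.val z = C'.val (σ z)) (he : ∀ z, C.e z = C'.e (σ z)) (h : Typ C') : Typ C := by
  obtain ⟨τ, hτ⟩ : ∃ τ : P1 → P1, ∀ z, σ (τ z) = z :=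
    ⟨fun z => (hσ.2 z).choose, fun z => (hσ.2 z).choose_spec⟩
  have hτv : ∀ z, C.val (τ z) = C'.val z := fun z => by rw [hv, hτ]
  have hτe : ∀ z, C.e (τ z) = C'.e z := fun z => by rw [he, hτ]
  have hτi : ∀ {z w}, z ≠ w → τ z ≠ τ w := by
    intro z w hzw h
    apply hzw
    rw [← hτ z, ← hτ w, h]
  rcases h with h | h | h | h | h | h | h
  · exact Or.inl (hn.trans h)
  · obtain ⟨h0, z, z1, z2, h1, h2, h3, h4⟩ := h
    refine Or.inr (Or.inl ⟨by rw [hn]; exact h0, τ z, τ z1, τ z2, ?_, hτi h2, ?_, ?_⟩)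
    · rw [hτe, hn, h1]
    · rw [hτv, hτv, h3]
    · rw [hτe, hτe, hn, h4]
  · obtain ⟨h0, z, h1⟩ := h
    exact Or.inr (Or.inr (Or.inl ⟨hn.trans h0, τ z, by rw [hτe, h1]⟩))
  · obtain ⟨h0, z1, z2, u, h1, h2, h3, h4, h5⟩ := h
    refine Or.inr (Or.inr (Or.inr (Or.inl ⟨hn.trans h0, τ z1, τ z2, τ u, hτi h1, ?_, ?_, ?_, ?_⟩)))
    · rw [hτv, hτv, h2]
    · rw [hτe, h3]
    · rw [hτe, h4]
    · rw [hτe, h5]
  · obtain ⟨h0, z1, z2, u, h1, h2, h3, h4, h5⟩ := h
    refine Or.inr (Or.inr (Or.inr (Or.inr (Or.inl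
      ⟨hn.trans h0, τ z1, τ z2, τ u, hτi h1, ?_, ?_, ?_, ?_⟩))))
    · rw [hτv, hτv, h2]
    · rw [hτe, h3]
    · rw [hτe, h4]
    · rw [hτe, h5]
  · obtain ⟨h0, z1, z2, u, v, h1, h2, h3, h4, h5, h6, h7⟩ := h
    refine Or.inr (Or.inr (Or.inr (Or.inr (Or.inr (Or.inl
      ⟨hn.trans h0, τ z1, τ z2, τ u, τ v, hτi h1, ?_, ?_, ?_, ?_, ?_, ?_⟩)))))
    · rw [hτv, hτv, h2]
    · rw [hτe, h3]
    · rw [hτe, h4]
    · rw [hτv, hτv, h5]
    · rw [hτe, h6]
    · rw [hτe, h7]
  · obtain ⟨h0, z1, z2, w1, w2, w3, u, h1, h2, h3, h4, h5, h6, h7, h8, h9, h10, h11, h12, h13,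
      h14⟩ := h
    refine Or.inr (Or.inr (Or.inr (Or.inr (Or.inr (Or.inr
      ⟨hn.trans h0, τ z1, τ z2, τ w1, τ w2, τ w3, τ u, hτi h1, ?_, ?_, ?_, hτi h5, hτi h6, hτi h7,
        ?_, ?_, ?_, ?_, ?_, ?_, ?_⟩)))))
    · rw [hτv, hτv, h2]
    · rw [hτe, h3]
    · rw [hτe, h4]
    · rw [hτv, hτv, h8]
    · rw [hτv, hτv, h9]
    · rw [hτe, h10]
    · rw [hτe, h11]
    · rw [hτe, h12]
    · rw [hτe, h13]
    · rw [hτv, hτv]
      exact h14

/-- Normalisation.  Proof: copy the proof of `normalise` in WS/Normal.lean (Moebius maps `Normal_S`,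
`Normal_T` in source and target sending a noncritical point over a noncritical value different from
`c` to infinity) with one value instead of three; in the last part the bijection `σ` is the value map
of the Moebius map `S'` (`moebius_facts`). -/
theorem normalise1 (A : RF) (hn : 2 ≤ A.n) (c : P1) (hs : A.SimpleVal c) :
    ∃ (A' : RF) (c' q' : ℂ), Norm1 A' c' q' ∧
      (∀ (K : Type) [Field K] [Algebra ℂ K] (φ ψ : E →ₐ[ℂ] K), φ ≠ ψ → φ (elt A) = ψ (elt A) →
        ∃ φ' ψ' : E →ₐ[ℂ] K, φ' ≠ ψ' ∧ φ' (elt A') = ψ' (elt A')) ∧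
      ∀ B' C' : RF, A'.IsComp B' C' → 1 ≤ C'.n → ∃ B C : RF, A.IsComp B C ∧ C.n = C'.n ∧
        ∃ σ : P1 → P1, Function.Bijective σ ∧ (∀ z, C.val z = C'.val (σ z)) ∧
          ∀ z, C.e z = C'.e (σ z) := by
  have hn1 : 1 ≤ A.n := by omega
  obtain ⟨z0, c0, hz0, hc0⟩ := Normal_exists_point A hn1
  obtain ⟨hSe, hSb, S', hS'n, hS'S, hSS', hSapp⟩ := moebius_facts (Normal_S z0) (Normal_S_n z0)
  obtain ⟨hTe, hTb, T', hT'n, hT'T, hTT', hTapp⟩ := moebius_facts (Normal_T c0) (Normal_T_n c0)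
  have hSn : 1 ≤ (Normal_S z0).n := by rw [Normal_S_n]
  have hTn : 1 ≤ (Normal_T c0).n := by rw [Normal_T_n]
  have hS'n1 : 1 ≤ S'.n := by rw [hS'n]
  have hT'n1 : 1 ≤ T'.n := by rw [hT'n]
  obtain ⟨A1, hA1, hA1n⟩ := exists_comp A (Normal_S z0) hn1 hSn
  obtain ⟨A2, hA2, hA2n⟩ := exists_comp (Normal_T c0) A1 hTn hA1n
  obtain ⟨A3, hA3, hmon, hA3n⟩ := Normal_monic A2 hA2n
  obtain ⟨-, hn1', hv1, he1⟩ := comp_facts hA1 hA1n hSn
  obtain ⟨-, hn2', hv2, he2⟩ := comp_facts hA2 hA2n hA1n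
  obtain ⟨hn3, hv3, he3⟩ := congr_elt hA3 hA3n hA2n
  have hval : ∀ z, A3.val z = (Normal_T c0).val (A.val ((Normal_S z0).val z)) := by
    intro z; rw [hv3, hv2, hv1]
  have he : ∀ z, A3.e z = A.e ((Normal_S z0).val z) := by
    intro z; rw [he3, he2, he1, hTe, hSe, one_mul, mul_one]
  have hnn : A3.n = A.n := by
    rw [hn3, hn2', hn1', Normal_S_n, Normal_T_n]; ring
  have hlt : A3.Q.natDegree < A3.P.natDegree := by
    have h1 : A3.val none = none := by
      rw [hval, Normal_S_none, hz0, Normal_T_some]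
    have h2 : A3.Q.coeff A3.n = 0 := by
      by_contra h3
      simp only [RF.val] at h1
      rw [if_neg h3] at h1
      exact absurd h1 (by simp)
    have hQ0 := A3.Q_ne_zero hA3n
    by_contra hcon
    push Not at hcon
    have h3 : A3.n = A3.Q.natDegree := max_eq_right hcon
    rw [h3, coeff_natDegree] at h2
    exact hQ0 (leadingCoeff_eq_zero.1 h2)
  have hPn : A3.P.natDegree = A3.n := (max_eq_left hlt.le).symm
  obtain ⟨p, hpv, hpe, hpu⟩ := hs
  have hcne : c ≠ some c0 := by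
    intro h
    have := hc0 p (by rw [hpv, h])
    rw [hpe] at this
    omega
  have hTc : ∃ t : ℂ, (Normal_T c0).val c = some t := by
    apply Option.ne_none_iff_exists'.1
    rw [← Normal_T_some c0]
    intro h
    exact hcne (hTb.1 h)
  obtain ⟨c', hc'⟩ := hTc
  have hpne : p ≠ some z0 := by
    intro h
    apply hcne
    rw [← hpv, h, hz0]
  have hSq : ∃ t : ℂ, S'.val p = some t := by
    apply Option.ne_none_iff_exists'.1
    intro h
    apply hpne
    rw [← hSS' p, h, Normal_S_none]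
  obtain ⟨q', hq'⟩ := hSq
  have hSq' : (Normal_S z0).val (some q') = p := by
    rw [← hq', hSS']
  have hqv : A3.val (some q') = some c' := by
    rw [hval, hSq', hpv, hc']
  refine ⟨A3, c', q', ⟨hmon, hlt, ?_, ?_, ?_, ?_, ?_, ?_⟩, ?_, ?_⟩
  · rw [hPn, hnn]; exact hn
  · exact ((Normal_val_some A3).1 hqv).1
  · exact ((Normal_val_some A3).1 hqv).2
  · have h1 := he (some q')
    rw [hSq', hpe] at h1
    unfold RF.e at h1
    rw [hqv] at h1
    exact h1
  · intro w hw hPw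
    have hQw : A3.Q.eval w ≠ 0 := by
      intro h0
      rw [h0, mul_zero] at hPw
      obtain ⟨u, v, huv⟩ := A3.cop
      have h := congrArg (eval w) huv
      simp [h0, hPw] at h
    have hvw : A3.val (some w) = some c' := (Normal_val_some A3).2 ⟨hQw, hPw⟩
    have h1 := he (some w)
    have h2 : A.val ((Normal_S z0).val (some w)) = c := by
      apply hTb.1
      rw [← hval, hvw, hc']
    rw [hpu _ ?_ h2] at h1
    · unfold RF.e at h1
      rw [hvw] at h1
      exact h1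
    · rw [← hSq']
      intro h
      exact hw (Option.some_injective _ (hSb.1 h))
  · intro z hz
    rw [he]
    apply hc0
    apply hTb.1
    rw [← hval, hz, Normal_T_some]
  · intro K _ _ φ ψ hne h
    have hφ := coord_nonConst φ
    have hψ := coord_nonConst ψ
    obtain ⟨φ', hφ'⟩ := exists_subst (S'.app_nonConst hS'n1 hφ)
    obtain ⟨ψ', hψ'⟩ := exists_subst (S'.app_nonConst hS'n1 hψ)
    have hkey : ∀ (χ χ' : E →ₐ[ℂ] K), NonConst (χ RatFunc.X) →
        χ' RatFunc.X = S'.app (χ RatFunc.X) → χ' (elt A3) = (Normal_T c0).app (χ (elt A)) := by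
      intro χ χ' hχ hχ'
      have hU : NonConst (S'.app (χ RatFunc.X)) := S'.app_nonConst hS'n1 hχ
      rw [hA3, coord_elt, coord_elt, hχ', hA2.app_eq hU, hA1.app_eq hU, (hSapp K _ hχ).1]
    refine ⟨φ', ψ', ?_, ?_⟩
    · intro heq
      apply coord_ne hne
      rw [← (hSapp K _ hφ).1, ← (hSapp K _ hψ).1, ← hφ', ← hψ', heq]
    · rw [hkey φ φ' hφ hφ', hkey ψ ψ' hψ hψ', h]
  · intro B' C' hcomp hC'n
    obtain ⟨hB'n, -, -, -⟩ := comp_facts hcomp hA3n hC'n
    obtain ⟨C1, hC1, hC1n⟩ := exists_comp C' S' hC'n hS'n1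
    obtain ⟨B1, hB1, hB1n⟩ := exists_comp T' B' hT'n1 hB'n
    obtain ⟨-, hC1n', hC1v, hC1e⟩ := comp_facts hC1 hC1n hS'n1
    obtain ⟨hS'e, hS'b, -⟩ := moebius_facts S' hS'n
    refine ⟨B1, C1, ?_, ?_, S'.val, hS'b, hC1v, ?_⟩
    · show A.app (RatFunc.X : RatFunc ℂ) = B1.app (C1.app (RatFunc.X : RatFunc ℂ))
      have hX := ratFuncX_nonConst
      have hSX := S'.app_nonConst hS'n1 hX
      have hC1X := C1.app_nonConst hC1n hX
      have h1 : A3.app (S'.app (RatFunc.X : RatFunc ℂ)) =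
          (Normal_T c0).app (A.app (RatFunc.X : RatFunc ℂ)) := by
        obtain ⟨σ, hσ⟩ := exists_subst hSX
        have h2 := congrArg σ hA3
        rw [coord_elt, coord_elt, hσ, hA2.app_eq hSX, hA1.app_eq hSX, (hSapp _ _ hX).1] at h2
        exact h2
      have h3 : A.app (RatFunc.X : RatFunc ℂ) =
          T'.app (A3.app (S'.app (RatFunc.X : RatFunc ℂ))) := by
        rw [h1, (hTapp _ _ (A.app_nonConst hn1 hX)).2]
      rw [h3, hcomp.app_eq hSX, hB1.app_eq hC1X, hC1.app_eq hX]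
    · rw [hC1n', hS'n, mul_one]
    · intro z
      rw [hC1e, hS'e, mul_one]

/-- Degree two is of type `TypAB`.  Proof: `rh_P1` gives a point `z` with `C.e z = 2 = C.n`; a value `c`
which is not a critical value (`ramified_finite`, `P1` is infinite) has a fibre with two points of
index one (`RF.sum_e`). -/
theorem typ_two {C : RF} (hn : C.n = 2) : TypAB C := by
  classical
  have hn1 : 1 ≤ C.n := by omega
  obtain ⟨z, hz⟩ : ∃ z, C.e z = 2 := by
    by_contra hcon
    push Not at hcon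
    have h1 := rh_P1 C hn1
    have h2 : (C.ramified_finite hn1).toFinset = ∅ := by
      rw [Finset.eq_empty_iff_forall_notMem]
      intro w hw
      have h3 : C.e w ≠ 1 := by simpa using hw
      have h4 := C.one_le_e hn1 w
      have h5 := C.e_le hn1 w
      have h6 := hcon w
      omega
    rw [h2, Finset.sum_empty, hn] at h1
    norm_num at h1
  obtain ⟨c, hc⟩ := Infinite.exists_notMem_finset ((C.ramified_finite hn1).toFinset.image C.val)
  have hone : ∀ w, C.val w = c → C.e w = 1 := by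
    intro w hw
    by_contra hne
    apply hc
    rw [Finset.mem_image]
    exact ⟨w, by simpa using hne, hw⟩
  have hsum := C.sum_e hn1 c
  rw [Finset.sum_congr rfl (fun w hw => hone w (by simpa using hw)), Finset.sum_const, smul_eq_mul,
    mul_one, hn] at hsum
  obtain ⟨z1, z2, hne, hz12⟩ := Finset.card_eq_two.1 hsum
  have hz1 : C.val z1 = c := by
    have : z1 ∈ (C.fiber_finite hn1 c).toFinset := by rw [hz12]; simp
    simpa using this
  have hz2 : C.val z2 = c := by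
    have : z2 ∈ (C.fiber_finite hn1 c).toFinset := by rw [hz12]; simp
    simpa using this
  exact ⟨by omega, z, z1, z2, by rw [hz, hn], hne, by rw [hz1, hz2],
    by rw [hone z1 hz1, hone z2 hz2, hn]⟩

end WildV
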