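import Pool.Agent.helper21.WV.CDefs

/-! Existence of the clique data. -/

namespace WildV

open Polynomial WildRat WildS

theorem Clique_n {A : RF} {c q : ℂ} (hA : Norm1 A c q) : 1 ≤ A.n := by
  have h1 : A.P.natDegree ≤ A.n := le_max_left _ _
  have := hA.two
  omega

theorem Clique_monic {A : RF} (hn : 1 ≤ A.n) (hm : A.P.Monic)
    (hlt : A.Q.natDegree < A.P.natDegree) : (GG A).Monic := by
  have hPm : (A.P.map (algebraMap ℂ E)).Monic := hm.map _
  unfold GG
  refine hPm.sub_of_left ?_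
  rw [degree_C_mul (elt_nonConst A hn).ne_zero, degree_map, degree_map]
  exact degree_lt_degree hlt

theorem Clique_coef {A : RF} {c q : ℂ} (hA : Norm1 A c q) (i : ℕ) :
    0 ≤ (plE q).ord ((GG A).coeff i) := by
  have hn := Clique_n hA
  have hQ0 := A.Q_ne_zero hn
  have hQE : algebraMap ℂ[X] E A.Q ≠ 0 := by
    rw [Ne, map_eq_zero_iff _ (RatFunc.algebraMap_injective ℂ)]
    exact hQ0
  have hPE : algebraMap ℂ[X] E A.P ≠ 0 := by
    rw [Ne, map_eq_zero_iff _ (RatFunc.algebraMap_injective ℂ)]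
    exact hA.monic.ne_zero
  have helt : 0 ≤ (plE q).ord (elt A) := by
    rw [elt_eq, Pl.ord_div _ hPE hQE, plE_poly q hA.monic.ne_zero, plE_poly q hQ0,
      rootMultiplicity_eq_zero (p := A.Q) hA.Qne]
    simp
  unfold GG
  rw [coeff_sub, coeff_C_mul, coeff_map, coeff_map]
  exact Pl.ord_nonneg_sub _ (by rw [Pl.ord_C]) (Pl.ord_nonneg_mul _ helt (by rw [Pl.ord_C]))

/-- Monic factors of `GG A` at the constant `q`. -/
theorem Clique_dvd {A : RF} {c q : ℂ} (hA : Norm1 A c q) {G : E[X]} (hG : G.Monic)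
    (hd : G ∣ GG A) : G.eval (algebraMap ℂ E q) ≠ 0 ∧
      0 ≤ (plE q).ord (G.eval (algebraMap ℂ E q)) := by
  have hn := Clique_n hA
  constructor
  · obtain ⟨hne0, -⟩ := ord_GG A hn hA.val hA.Qne hA.val hA.Qne
    obtain ⟨H, hH⟩ := hd
    rw [hH, eval_mul] at hne0
    exact left_ne_zero_of_mul hne0
  · exact Gauss_eval_nonneg q (gauss q (Clique_monic hn hA.monic hA.lt) hG hd (Clique_coef hA)) q

theorem Clique_find {A : RF} {c q : ℂ} (hA : Norm1 A c q) (n : ℕ) : ∀ G : E[X], G.Monic →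
    G.natDegree ≤ n → G ∣ GG A → 0 < (plE q).ord (G.eval (algebraMap ℂ E q)) →
    ∃ F : E[X], Irreducible F ∧ F.Monic ∧ F ∣ G ∧
      0 < (plE q).ord (F.eval (algebraMap ℂ E q)) := by
  induction n with
  | zero =>
    intro G hG hd _ hpos
    have h1 : G = 1 := hG.natDegree_eq_zero.1 (by omega)
    rw [h1, eval_one, Pl.ord_one] at hpos
    exact absurd hpos (lt_irrefl _)
  | succ n ih =>
    intro G hG hd hdv hpos
    have hu : ¬ IsUnit G := by
      intro hu
      rw [hG.isUnit_iff] at hu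
      rw [hu, eval_one, Pl.ord_one] at hpos
      exact absurd hpos (lt_irrefl _)
    obtain ⟨F, hFm, hFi, H, hH⟩ := exists_monic_irreducible_factor G hu
    have hHm : H.Monic := hFm.of_mul_monic_left (by rw [← hH]; exact hG)
    have hHd : H ∣ GG A := (Dvd.intro_left F hH.symm).trans hdv
    have hFd : F ∣ GG A := (Dvd.intro H hH.symm).trans hdv
    obtain ⟨f1, f2⟩ := Clique_dvd hA hFm hFd
    obtain ⟨h1, h2⟩ := Clique_dvd hA hHm hHd
    have h3 : (plE q).ord (G.eval (algebraMap ℂ E q)) =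
        (plE q).ord (F.eval (algebraMap ℂ E q)) + (plE q).ord (H.eval (algebraMap ℂ E q)) := by
      rw [hH, eval_mul, Pl.ord_mul _ f1 h1]
    rcases eq_or_lt_of_le f2 with f3 | f3
    · have hdeg : G.natDegree = F.natDegree + H.natDegree := by
        rw [hH, hFm.natDegree_mul hHm]
      have hFpos : 0 < F.natDegree := hFi.natDegree_pos
      obtain ⟨F', a1, a2, a3, a4⟩ := ih H hHm (by omega) hHd (by omega)
      exact ⟨F', a1, a2, a3.trans (Dvd.intro_left F hH.symm), a4⟩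
    · exact ⟨F, hFi, hFm, Dvd.intro H hH.symm, f3⟩

theorem Clique_x (q : ℂ) : (plE q).ord (algebraMap ℂ E q - RatFunc.X) = 1 := by
  have e1 : algebraMap ℂ E q - RatFunc.X = -(algebraMap ℂ[X] E (X - C q)) := by
    rw [map_sub, RatFunc.algebraMap_X, ← algC_E]
    ring
  rw [e1, Pl.ord_neg, plE_poly q (X_sub_C_ne_zero q), rootMultiplicity_X_sub_C_self]
  simp

/-- The component through `(q, q)`.

Proof.  `GG A` is monic (`A.P` monic, `Q` of smaller degree) and `GG A = (T - x) G0` (`GG_root`), `G0`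
monic.  By `ord_GG` (WS/Gauss) `ord_q (GG A)(q) = 2`, and `ord_q (q - x) = 1`, so `ord_q G0(q) = 1`.
Every monic factor of `GG A` has coefficients regular at `q` (`gauss`, the coefficients of `GG A` are
regular because `A.Q.eval q ≠ 0`), so `ord_q G(q) ≥ 0` (`Gauss_eval_nonneg`), and all values at `q` are
nonzero.  `G0` is a product of monic irreducible polynomials
(`UniqueFactorizationMonoid`/`WfDvdMonoid` induction, normalised); the orders add up to one, so exactly
one factor `F` has order one.  If `G ≠ F` is another monic irreducible factor, then `F`, `G` are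
coprime, `F G ∣ G0`, and `ord_q G(q) ≤ 0`. -/
theorem exists_F {A : RF} {c q : ℂ} (hA : Norm1 A c q) : ∃ F : E[X], Irreducible F ∧ F.Monic ∧
    (X - C RatFunc.X) * F ∣ GG A ∧ (plE q).ord (F.eval (algebraMap ℂ E q)) = 1 ∧
    ∀ G : E[X], Irreducible G → G.Monic → (X - C RatFunc.X) * G ∣ GG A → G ≠ F →
      (plE q).ord (G.eval (algebraMap ℂ E q)) = 0 := by
  have hn := Clique_n hA
  have hGm := Clique_monic hn hA.monic hA.lt
  have hroot : (X - C RatFunc.X : E[X]) ∣ GG A := by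
    rw [dvd_iff_isRoot, IsRoot.def]
    exact GG_root A hn
  obtain ⟨G0, hG0⟩ := hroot
  have hG0m : G0.Monic := (monic_X_sub_C _).of_mul_monic_left (by rw [← hG0]; exact hGm)
  have hG0d : G0 ∣ GG A := Dvd.intro_left _ hG0.symm
  obtain ⟨hne0, hord⟩ := ord_GG A hn hA.val hA.Qne hA.val hA.Qne
  rw [hA.mult, hG0, eval_mul, eval_sub, eval_X, eval_C] at hord
  rw [hG0, eval_mul, eval_sub, eval_X, eval_C] at hne0
  rw [Pl.ord_mul _ (left_ne_zero_of_mul hne0) (right_ne_zero_of_mul hne0), Clique_x] at hord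
  push_cast at hord
  obtain ⟨F, hFi, hFm, ⟨H, hH⟩, hFp⟩ := Clique_find hA G0.natDegree G0 hG0m le_rfl hG0d
    (by omega)
  have hHm : H.Monic := hFm.of_mul_monic_left (by rw [← hH]; exact hG0m)
  have hHd : H ∣ GG A := (Dvd.intro_left F hH.symm).trans hG0d
  have hFd : F ∣ GG A := (Dvd.intro H hH.symm).trans hG0d
  obtain ⟨f1, f2⟩ := Clique_dvd hA hFm hFd
  obtain ⟨h1, h2⟩ := Clique_dvd hA hHm hHd
  rw [hH, eval_mul, Pl.ord_mul _ f1 h1] at hord
  have hF1 : (plE q).ord (F.eval (algebraMap ℂ E q)) = 1 := by omega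
  have hH0 : (plE q).ord (H.eval (algebraMap ℂ E q)) = 0 := by omega
  refine ⟨F, hFi, hFm, ?_, hF1, ?_⟩
  · rw [hG0, hH]
    exact mul_dvd_mul_left _ (Dvd.intro H rfl)
  · intro G hGi hGmon hGd hGF
    rw [hG0, mul_dvd_mul_iff_left (X_sub_C_ne_zero _), hH] at hGd
    rcases hGi.prime.dvd_or_dvd hGd with h3 | h3
    · exact absurd (eq_of_monic_of_associated hGmon hFm
        (hGi.associated_of_dvd hFi h3)) hGF
    · obtain ⟨R, hR⟩ := h3
      have hRm : R.Monic := hGmon.of_mul_monic_left (by rw [← hR]; exact hHm)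
      obtain ⟨g1, g2⟩ := Clique_dvd hA hGmon ((Dvd.intro R hR.symm).trans hHd)
      obtain ⟨r1, r2⟩ := Clique_dvd hA hRm ((Dvd.intro_left G hR.symm).trans hHd)
      rw [hR, eval_mul, Pl.ord_mul _ g1 r1] at hH0
      omega

/-- Pairs with a place over `(q, q)` belong to `F`, and conversely.

Proof.  `mu_norm` for `u = ψ X`, `a = b = q`: the sum of `P.ord (ψ X - q)` over the places `P` over `q` is
`m * ord_q (mu (q))`, all terms are nonnegative (at a place of `fib φ q` the element `ψ X` has a finite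
value, `place_pair`).  So a place over `(q, q)` exists iff `ord_q mu(q) > 0`. -/
theorem place_qq {K : Type} [Field K] [Algebra ℂ K] {A : RF} {c q : ℂ} (hA : Norm1 A c q)
    {φ ψ : E →ₐ[ℂ] K} (hφ : FinC φ) (hψ : FinC ψ) (hne : φ ≠ ψ) (h : φ (elt A) = ψ (elt A)) :
    (∃ P, P ∈ fib φ q ∧ P ∈ fib ψ q) ↔
      (plE q).ord ((mu φ (ψ RatFunc.X)).eval (algebraMap ℂ E q)) ≠ 0 := by
  obtain ⟨m, hm0, -, hm⟩ := mu_norm φ hφ (ψ RatFunc.X)
  obtain ⟨-, hsum⟩ := hm q q (coord_nonConst ψ q)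
  have hnn : ∀ P ∈ fibS φ hφ q, 0 ≤ P.ord (ψ RatFunc.X - algebraMap ℂ K q) := by
    intro P hP
    rw [mem_fibS] at hP
    obtain ⟨b, hb, -, -, -⟩ := place_pair A hA.lt hψ h hP hA.Qne hA.val
    exact Pl.ord_nonneg_sub _ (P.ord_nonneg_of_value hb) (by rw [Pl.ord_C])
  constructor
  · rintro ⟨P, hP, hP'⟩ h0
    rw [h0, mul_zero] at hsum
    have h1 := (Finset.sum_eq_zero_iff_of_nonneg hnn).1 hsum P (mem_fibS.2 hP)
    have h2 : 0 < P.ord (ψ RatFunc.X - algebraMap ℂ K q) := hP'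
    omega
  · intro h0
    have h1 : ∑ P ∈ fibS φ hφ q, P.ord (ψ RatFunc.X - algebraMap ℂ K q) ≠ 0 := by
      rw [hsum]
      exact mul_ne_zero (by exact_mod_cast hm0.ne') h0
    obtain ⟨P, hP, hP0⟩ := Finset.exists_ne_zero_of_sum_ne_zero h1
    exact ⟨P, mem_fibS.1 hP, lt_of_le_of_ne (hnn P hP) (Ne.symm hP0)⟩

/-- Make the numerator monic. -/
theorem Clique_scale (A : RF) (hlt : A.Q.natDegree < A.P.natDegree) : ∃ A' : RF,
    elt A' = elt A ∧ A'.P.Monic ∧ A'.Q.natDegree < A'.P.natDegree ∧ A'.n = A.n := by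
  have hP : A.P ≠ 0 := by
    intro h0
    rw [h0, natDegree_zero] at hlt
    exact absurd hlt (Nat.not_lt_zero _)
  have hl : A.P.leadingCoeff ≠ 0 := leadingCoeff_ne_zero.2 hP
  have hu : IsUnit (C A.P.leadingCoeff⁻¹ : ℂ[X]) := by
    rw [isUnit_C]; exact (isUnit_iff_ne_zero.2 (inv_ne_zero hl))
  refine ⟨⟨C A.P.leadingCoeff⁻¹ * A.P, C A.P.leadingCoeff⁻¹ * A.Q,
    (isCoprime_mul_unit_left hu A.P A.Q).2 A.cop⟩, ?_, ?_, ?_, ?_⟩
  · unfold elt RF.app
    simp only [map_mul, aeval_C]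
    rw [mul_div_mul_left]
    intro h0
    exact inv_ne_zero hl ((algebraMap ℂ (RatFunc ℂ)).injective (by rw [h0, map_zero]))
  · show (C A.P.leadingCoeff⁻¹ * A.P).Monic
    rw [Monic, leadingCoeff_mul, leadingCoeff_C, inv_mul_cancel₀ hl]
  · show (C A.P.leadingCoeff⁻¹ * A.Q).natDegree < (C A.P.leadingCoeff⁻¹ * A.P).natDegree
    rw [natDegree_C_mul (inv_ne_zero hl), natDegree_C_mul (inv_ne_zero hl)]
    exact hlt
  · show max (C A.P.leadingCoeff⁻¹ * A.P).natDegree (C A.P.leadingCoeff⁻¹ * A.Q).natDegree = A.n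
    rw [natDegree_C_mul (inv_ne_zero hl), natDegree_C_mul (inv_ne_zero hl)]
    rfl

/-- `mu φ u` is irreducible and `u` is a root of its image. -/
theorem Clique_mu {K : Type} [Field K] [Algebra ℂ K] (φ : E →ₐ[ℂ] K) (hφ : FinC φ) (u : K) :
    Irreducible (mu φ u) ∧ ((mu φ u).map φ.toRingHom).IsRoot u := by
  unfold mu
  letI := φ.toRingHom.toAlgebra
  haveI : Module.Finite E K := hφ
  refine ⟨minpoly.irreducible (Algebra.IsIntegral.isIntegral _), ?_⟩
  have h1 := minpoly.aeval E u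
  rw [aeval_def, eval₂_eq_eval_map] at h1
  exact h1

/-- A root of the image of `GG C` has the same value. -/
theorem Clique_root {K : Type} [Field K] [Algebra ℂ K] {φ ψ : E →ₐ[ℂ] K} {C : RF}
    (hn : 1 ≤ C.n) (h : ((GG C).map φ.toRingHom).IsRoot (ψ RatFunc.X)) :
    φ (elt C) = ψ (elt C) := by
  rw [Block_GG, IsRoot.def, eval_sub, eval_mul, eval_C, eval_map_algebraMap,
    eval_map_algebraMap] at h
  rw [coord_elt ψ]
  unfold RF.app
  rw [eq_div_iff ((coord_nonConst ψ).aeval_ne_zero (C.Q_ne_zero hn))]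
  exact (sub_eq_zero.1 h).symm

/-- Proof.  `F` from `exists_F`, the pair `(K, φ, ψ)` of `exists_factor_pair` with `mu φ (ψ X) = F` (both
monic); a place over `(q, q)` by `place_qq` (`FinC ψ` by `finC_all`).  `block_identity` and `luroth_step`
give `A = B ∘ C` with `C.n = deg F + 1`, `φ (elt C) = ψ (elt C)`, `Q_C` of smaller degree than `P_C`;
replace `C` by a representation with monic `P_C` (same element `elt C`; compare `Normal_monic` in
WS/Normal.lean).  `NN_dvd` for `C`: `(T - x) F ∣ GG C`, both monic of degree `C.n` (`GG_natDegree`), so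
they are equal: `mu0 = F`.  Field `uniq`: for a pair with a place over `(q, q)`, `place_qq` and the
uniqueness in `exists_F` (`NN_dvd` for `A`) give `mu φ (ψ X) = F`, so `ψ X` is a root of `GG C` mapped by
`φ`, which says `φ (elt C) = ψ (elt C)` (the denominator `aeval (ψ X) C.Q` does not vanish). -/
theorem exists_Cl {A : RF} {c q : ℂ} (hA : Norm1 A c q) :
    ∃ (B C : RF) (mu0 : E[X]), Cl A B C c q mu0 := by
  have hn := Clique_n hA
  obtain ⟨F, hFi, hFm, hFd, hF1, hFu⟩ := exists_F hA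
  obtain ⟨K, i1, i2, φ, ψ, hφ, hne, heq, hass⟩ := exists_factor_pair A hn hFi hFd
  have hψ : FinC ψ := finC_all φ hφ ψ
  have hmuF : mu φ (ψ RatFunc.X) = F :=
    eq_of_monic_of_associated (mu_pos φ hφ _).1 hFm hass
  obtain ⟨P, hP, hP'⟩ := (place_qq hA hφ hψ hne heq).2 (by
    rw [hmuF, hF1]
    exact one_ne_zero)
  have hblock := block_identity hA.monic hA.lt hA.val hA.mult hA.simple hφ hne heq hP hP'
  obtain ⟨B, C0, hcomp, hlt, hdeg, hC0⟩ := luroth_step A hn hφ hne heq hblock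
  obtain ⟨C, hCe, hCm, hClt, hCn⟩ := Clique_scale C0 hlt
  have hCn1 : 1 ≤ C.n := by omega
  have hcomp' : A.IsComp B C := by
    have h0 : elt A = B.app (elt C0) := hcomp
    rw [← hCe] at h0
    exact h0
  have hC' : φ (elt C) = ψ (elt C) := by
    rw [hCe]
    exact hC0
  have hgg : GG C = (X - Polynomial.C RatFunc.X) * F := by
    have h1 := NN_dvd C hCn1 hne hC'
    have h2 : NN φ ψ = (X - Polynomial.C RatFunc.X) * F := by
      unfold NN
      rw [hmuF]
    rw [h2] at h1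
    refine eq_of_monic_of_dvd_of_natDegree_le ((monic_X_sub_C _).mul hFm)
      (Clique_monic hCn1 hCm hClt) h1 ?_
    rw [GG_natDegree C hCn1, (monic_X_sub_C _).natDegree_mul hFm, natDegree_X_sub_C, hCn, hdeg,
      hmuF, add_comm]
  refine ⟨B, C, F, ⟨hA, hcomp', hCm, hClt, hFi, hFm, hgg, hF1, ?_, ?_⟩⟩
  · intro K' _ _ φ' ψ' P' hφ' hne' heq' h1 h2
    have h3 := (place_qq hA hφ' (finC_all φ' hφ' ψ') hne' heq').1 ⟨P', h1, h2⟩
    obtain ⟨h4, h5⟩ := Clique_mu φ' hφ' (ψ' RatFunc.X)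
    have h6 : mu φ' (ψ' RatFunc.X) = F := by
      by_contra h7
      exact h3 (hFu _ h4 (mu_pos φ' hφ' _).1 (NN_dvd A hn hne' heq') h7)
    apply Clique_root hCn1
    rw [hgg, Polynomial.map_mul, IsRoot.def, eval_mul]
    rw [h6, IsRoot.def] at h5
    rw [h5, mul_zero]
  · exact ⟨K, i1, i2, φ, ψ, P, hφ, hne, heq, hmuF, hP, hP'⟩

end WildV
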