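import Pool.Agent.helper21.WV.NumDefs

/-! Numerical classification, `4 ≤ s ≤ 21`, by computation. -/

namespace WildV

open Multiset

/-- The partitions of `n` with parts at most `m`. -/
def NumFin_parts : ℕ → ℕ → ℕ → List (List ℕ)
  | 0, n, _ => if n = 0 then [[]] else []
  | fuel + 1, n, m =>
    if n = 0 then [[]]
    else (List.range (min m n)).reverse.flatMap fun k =>
      (NumFin_parts fuel (n - (k + 1)) (k + 1)).map (List.cons (k + 1))

/-- The weight of a list. -/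
def NumFin_wt (l : List ℕ) : ℕ := (l.map fun a => (l.map fun b => a - Nat.gcd a b).sum).sum

/-- The candidates, with their weights. -/
def NumFin_cand (s : ℕ) : List (List ℕ × ℕ) :=
  ((NumFin_parts s s s).map fun l => (l, NumFin_wt l)).filter
    fun p => decide (p.1.length < s) && decide (p.2 ≤ s)

/-- No common divisor of all parts. -/
def NumFin_compat (a b : List ℕ) : Bool := decide ((a ++ b).foldr Nat.gcd 0 < 2)

/-- The conclusion for a family of partitions. -/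
def NumFin_concl (s : ℕ) (ch : List (List ℕ)) : Bool :=
  (ch.any (fun l => l.length == 1) && ch.any (fun l => l.length == 2)) ||
  ((s == 4 && ch.any (fun l => l == [4])) ||
  ((s == 4 && (ch.any (fun l => l == [2, 2]) && ch.any (fun l => l == [3, 1]))) ||
  ((s == 5 && (ch.any (fun l => l == [5]) && ch.any (fun l => l == [2, 2, 1]))) ||
  ((s == 6 && (ch.any (fun l => l == [3, 3]) && ch.any (fun l => l == [4, 2]))) ||
  ((s == 6 && (ch.any (fun l => l == [3, 3]) && (ch.any (fun l => l == [2, 2, 2]) &&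
    ch.any (fun l => l == [3, 1, 1, 1])))) ||
  ((s == 2 * (s / 2) && decide (3 ≤ s / 2)) &&
    (ch.any (fun l => l == 1 :: 1 :: List.replicate (s / 2 - 1) 2 ||
      l == List.replicate (s / 2 - 1) 2 ++ [1, 1]) &&
    (ch.any (fun l => l == List.replicate (s / 2) 2) &&
      ch.any (fun l => l == [s / 2, s / 2])))))))))

/-- The search. -/
def NumFin_srch : ℕ → ℕ → ℕ → ℕ → List (List ℕ × ℕ) → List (List ℕ) → Bool
  | 0, _, _, _, _, _ => false
  | _ + 1, s, idx, _, [], ch => idx != 0 || NumFin_concl s ch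
  | n + 1, s, idx, w, a :: A, ch =>
    NumFin_srch n s idx w A ch &&
      (if s - a.1.length ≤ idx ∧ a.2 ≤ w ∧ ch.all (NumFin_compat a.1) = true then
        NumFin_srch n s (idx - (s - a.1.length)) (w - a.2) (a :: A) (a.1 :: ch) else true)

theorem NumFin_wt_eq (l : List ℕ) : wt (l : Multiset ℕ) = NumFin_wt l := by
  simp [wt, NumFin_wt]

theorem NumFin_parts_mem : ∀ (fuel n m : ℕ) (L : Multiset ℕ), n ≤ fuel → (∀ e ∈ L, 1 ≤ e) →
    (∀ e ∈ L, e ≤ m) → L.sum = n → ∃ l ∈ NumFin_parts fuel n m, (l : Multiset ℕ) = L := by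
  intro fuel
  induction fuel with
  | zero =>
    intro n m L hn hp hm hs
    have hn0 : n = 0 := by omega
    subst hn0
    have hL : L = 0 := by
      refine Multiset.eq_zero_of_forall_notMem fun e he => ?_
      have h1 := hp e he
      have h2 : e ≤ L.sum := Multiset.le_sum_of_mem he
      omega
    refine ⟨[], ?_, ?_⟩
    · simp [NumFin_parts]
    · rw [hL]
      rfl
  | succ fuel ih =>
    intro n m L hn hp hm hs
    by_cases hn0 : n = 0
    · subst hn0
      have hL : L = 0 := by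
        refine Multiset.eq_zero_of_forall_notMem fun e he => ?_
        have h1 := hp e he
        have h2 : e ≤ L.sum := Multiset.le_sum_of_mem he
        omega
      refine ⟨[], ?_, ?_⟩
      · simp [NumFin_parts]
      · rw [hL]
        rfl
    · have hne : L ≠ 0 := by
        intro h0
        rw [h0, Multiset.sum_zero] at hs
        exact hn0 hs.symm
      -- the largest part
      obtain ⟨k, hk, hkmax⟩ : ∃ k ∈ L, ∀ e ∈ L, e ≤ k := by
        have h1 : L.toFinset.Nonempty := by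
          rw [Multiset.toFinset_nonempty]
          exact hne
        obtain ⟨k, hk1, hk2⟩ := Finset.exists_max_image L.toFinset id h1
        exact ⟨k, Multiset.mem_toFinset.mp hk1, fun e he => hk2 e (Multiset.mem_toFinset.mpr he)⟩
      obtain ⟨L', rfl⟩ := Multiset.exists_cons_of_mem hk
      have hk1 : 1 ≤ k := hp k hk
      have hkm : k ≤ m := hm k hk
      rw [Multiset.sum_cons] at hs
      obtain ⟨l, hl1, hl2⟩ := ih (n - k) k L' (by omega)
        (fun e he => hp e (Multiset.mem_cons_of_mem he))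
        (fun e he => hkmax e (Multiset.mem_cons_of_mem he)) (by omega)
      refine ⟨k :: l, ?_, ?_⟩
      · rw [NumFin_parts, if_neg hn0, List.mem_flatMap]
        refine ⟨k - 1, ?_, ?_⟩
        · rw [List.mem_reverse, List.mem_range]
          have : k ≤ min m n := le_min hkm (by omega)
          omega
        · rw [Nat.sub_add_cancel hk1]
          exact List.mem_map.mpr ⟨l, hl1, rfl⟩
      · rw [← hl2]
        rfl

theorem NumFin_gcd_dvd : ∀ (l : List ℕ) (x : ℕ), x ∈ l → l.foldr Nat.gcd 0 ∣ x := by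
  intro l
  induction l with
  | nil =>
    intro x hx
    simp at hx
  | cons a l ih =>
    intro x hx
    rw [List.foldr_cons]
    rcases List.mem_cons.mp hx with h | h
    · rw [h]
      exact Nat.gcd_dvd_left _ _
    · exact (Nat.gcd_dvd_right _ _).trans (ih x h)

theorem NumFin_sound {ι : Type} [DecidableEq ι] (key : ι → List ℕ × ℕ) (s : ℕ) :
    ∀ (n idx w : ℕ) (A : List (List ℕ × ℕ)) (ch : List (List ℕ)) (T : Finset ι),
      NumFin_srch n s idx w A ch = true → (∀ c ∈ T, key c ∈ A) →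
      ∑ c ∈ T, (s - (key c).1.length) = idx → ∑ c ∈ T, (key c).2 ≤ w →
      (∀ c ∈ T, ∀ a ∈ ch, NumFin_compat (key c).1 a = true) →
      (∀ c ∈ T, ∀ c' ∈ T, c ≠ c' → NumFin_compat (key c).1 (key c').1 = true) →
      ∃ ch' : List (List ℕ), NumFin_concl s ch' = true ∧
        ∀ a ∈ ch', a ∈ ch ∨ ∃ c ∈ T, (key c).1 = a := by
  intro n
  induction n with
  | zero =>
    intro idx w A ch T h
    simp [NumFin_srch] at h
  | succ n ih =>
    intro idx w A ch T h hA hidx hw hch hT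
    cases A with
    | nil =>
      have hT0 : T = ∅ := by
        rw [Finset.eq_empty_iff_forall_notMem]
        intro c hc
        have := hA c hc
        simp at this
      subst hT0
      rw [Finset.sum_empty] at hidx
      rw [NumFin_srch, ← hidx] at h
      exact ⟨ch, by simpa using h, fun a ha => Or.inl ha⟩
    | cons a A =>
      rw [NumFin_srch, Bool.and_eq_true] at h
      obtain ⟨h1, h2⟩ := h
      by_cases hex : ∃ c ∈ T, key c = a
      · obtain ⟨c0, hc0, hk0⟩ := hex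
        have hs1 : (s - (key c0).1.length) + ∑ c ∈ T.erase c0, (s - (key c).1.length) = idx := by
          rw [Finset.add_sum_erase T (fun c => s - (key c).1.length) hc0]
          exact hidx
        have hs2 : (key c0).2 + ∑ c ∈ T.erase c0, (key c).2 ≤ w := by
          rw [Finset.add_sum_erase T (fun c => (key c).2) hc0]
          exact hw
        rw [hk0] at hs1 hs2
        have hcond : s - a.1.length ≤ idx ∧ a.2 ≤ w ∧ ch.all (NumFin_compat a.1) = true := by
          refine ⟨by omega, by omega, ?_⟩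
          rw [List.all_eq_true]
          intro b hb
          have h3 := hch c0 hc0 b hb
          rwa [hk0] at h3
        rw [if_pos hcond] at h2
        obtain ⟨ch', hc1, hc2⟩ := ih (idx - (s - a.1.length)) (w - a.2) (a :: A) (a.1 :: ch)
          (T.erase c0) h2 (fun c hc => hA c (Finset.mem_of_mem_erase hc)) (by omega) (by omega)
          (by
            intro c hc b hb
            rcases List.mem_cons.mp hb with h3 | h3
            · rw [h3, ← hk0]
              exact hT c (Finset.mem_of_mem_erase hc) c0 hc0 (Finset.ne_of_mem_erase hc)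
            · exact hch c (Finset.mem_of_mem_erase hc) b h3)
          (fun c hc c' hc' hne => hT c (Finset.mem_of_mem_erase hc) c'
            (Finset.mem_of_mem_erase hc') hne)
        refine ⟨ch', hc1, fun b hb => ?_⟩
        rcases hc2 b hb with h3 | ⟨c, hc, h3⟩
        · rcases List.mem_cons.mp h3 with h4 | h4
          · exact Or.inr ⟨c0, hc0, by rw [hk0, h4]⟩
          · exact Or.inl h4
        · exact Or.inr ⟨c, Finset.mem_of_mem_erase hc, h3⟩
      · refine ih idx w A ch T h1 (fun c hc => ?_) hidx hw hch hT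
        rcases List.mem_cons.mp (hA c hc) with h3 | h3
        · exact absurd ⟨c, hc, h3⟩ hex
        · exact h3

theorem NumFin_main {ι : Type} [DecidableEq ι] {T : Finset ι} {L : ι → Multiset ℕ} {s : ℕ}
    (h : NumHyp T L s) (hs : 4 ≤ s) (C : List (List ℕ × ℕ)) (hC : NumFin_cand s = C)
    (hS : NumFin_srch 80 s (2 * s - 3) s C [] = true) : NumConcl T L s := by
  have hkey : ∀ c ∈ T, ∃ p : List ℕ × ℕ, p ∈ C ∧ (p.1 : Multiset ℕ) = L c ∧ p.2 = wt (L c) := by
    intro c hc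
    have hwc : wt (L c) ≤ s :=
      (Finset.single_le_sum (f := fun c => wt (L c)) (fun _ _ => Nat.zero_le _) hc).trans h.wt
    obtain ⟨l, hl1, hl2⟩ := NumFin_parts_mem s s s (L c) le_rfl (h.pos c hc)
      (fun e he => (Multiset.le_sum_of_mem he).trans (h.sum c hc).le) (h.sum c hc)
    refine ⟨(l, NumFin_wt l), ?_, hl2, ?_⟩
    · rw [← hC]
      unfold NumFin_cand
      rw [List.mem_filter]
      refine ⟨List.mem_map.mpr ⟨l, hl1, rfl⟩, ?_⟩
      have h1 : l.length < s := by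
        have := h.lt c hc
        rw [← hl2] at this
        simpa using this
      have h2 : NumFin_wt l ≤ s := by
        rw [← NumFin_wt_eq, hl2]
        exact hwc
      simp [h1, h2]
    · rw [← hl2, NumFin_wt_eq]
  choose! key hk1 hk2 hk3 using hkey
  have hlen : ∀ c ∈ T, (key c).1.length = card (L c) := by
    intro c hc
    rw [← hk2 c hc]
    rfl
  obtain ⟨ch, hc1, hc2⟩ := NumFin_sound key s 80 (2 * s - 3) s C [] T hS hk1
    (by
      rw [Finset.sum_congr rfl fun c hc => by rw [hlen c hc]]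
      have := h.rh
      omega)
    (by
      rw [Finset.sum_congr rfl hk3]
      exact h.wt)
    (fun c _ a ha => by simp at ha)
    (by
      intro c hc c' hc' hne
      unfold NumFin_compat
      rw [decide_eq_true_eq]
      by_contra hcon
      refine h.gcd c hc c' hc' hne _ (Nat.not_lt.mp hcon) ⟨fun e he => ?_, fun e he => ?_⟩
      · rw [← hk2 c hc] at he
        exact NumFin_gcd_dvd _ e (List.mem_append_left _ (Multiset.mem_coe.mp he))
      · rw [← hk2 c' hc'] at he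
        exact NumFin_gcd_dvd _ e (List.mem_append_right _ (Multiset.mem_coe.mp he)))
  have hk : ∀ a ∈ ch, ∃ c ∈ T, L c = (a : Multiset ℕ) := by
    intro a ha
    rcases hc2 a ha with h1 | ⟨c, hc, h1⟩
    · simp at h1
    · exact ⟨c, hc, by rw [← h1, hk2 c hc]⟩
  unfold NumFin_concl at hc1
  simp only [Bool.or_eq_true, Bool.and_eq_true, List.any_eq_true, beq_iff_eq,
    decide_eq_true_eq] at hc1
  unfold NumConcl
  rcases hc1 with ⟨⟨x, hx, hx1⟩, ⟨y, hy, hy1⟩⟩ | ⟨h4, ⟨x, hx, hx1⟩⟩ |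
    ⟨h4, ⟨x, hx, hx1⟩, ⟨y, hy, hy1⟩⟩ | ⟨h4, ⟨x, hx, hx1⟩, ⟨y, hy, hy1⟩⟩ |
    ⟨h4, ⟨x, hx, hx1⟩, ⟨y, hy, hy1⟩⟩ | ⟨h4, ⟨x, hx, hx1⟩, ⟨y, hy, hy1⟩, ⟨z, hz, hz1⟩⟩ |
    ⟨⟨h4, h5⟩, ⟨x, hx, hx1⟩, ⟨y, hy, hy1⟩, ⟨z, hz, hz1⟩⟩
  · obtain ⟨c, hc, e1⟩ := hk x hx
    obtain ⟨c', hc', e2⟩ := hk y hy
    refine Or.inl ⟨c, hc, c', hc', ?_, ?_⟩
    · rw [e1]
      exact hx1
    · rw [e2]
      exact hy1
  · obtain ⟨c, hc, e1⟩ := hk x hx
    refine Or.inr (Or.inl ⟨h4, c, hc, ?_⟩)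
    rw [e1, hx1]
    rfl
  · obtain ⟨c, hc, e1⟩ := hk x hx
    obtain ⟨c', hc', e2⟩ := hk y hy
    refine Or.inr (Or.inr (Or.inl ⟨h4, c, hc, c', hc', ?_, ?_⟩))
    · rw [e1, hx1]
      rfl
    · rw [e2, hy1]
      rfl
  · obtain ⟨c, hc, e1⟩ := hk x hx
    obtain ⟨c', hc', e2⟩ := hk y hy
    refine Or.inr (Or.inr (Or.inr (Or.inl ⟨h4, c, hc, c', hc', ?_, ?_⟩)))
    · rw [e1, hx1]
      rfl
    · rw [e2, hy1]
      rfl
  · obtain ⟨c, hc, e1⟩ := hk x hx
    obtain ⟨c', hc', e2⟩ := hk y hy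
    refine Or.inr (Or.inr (Or.inr (Or.inr (Or.inl ⟨h4, c, hc, c', hc', ?_, ?_⟩))))
    · rw [e1, hx1]
      rfl
    · rw [e2, hy1]
      rfl
  · obtain ⟨c, hc, e1⟩ := hk x hx
    obtain ⟨c', hc', e2⟩ := hk y hy
    obtain ⟨c'', hc'', e3⟩ := hk z hz
    refine Or.inr (Or.inr (Or.inr (Or.inr (Or.inr (Or.inl ⟨h4, c, hc, c', hc', c'', hc'',
      ?_, ?_, ?_⟩)))))
    · rw [e1, hx1]
      rfl
    · rw [e2, hy1]
      rfl
    · rw [e3, hz1]
      rfl
  · obtain ⟨c1, hm1, e1⟩ := hk x hx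
    obtain ⟨c2, hm2, e2⟩ := hk y hy
    obtain ⟨c3, hm3, e3⟩ := hk z hz
    set k := s / 2 with hkdef
    have f1 : L c1 = 1 ::ₘ 1 ::ₘ ((List.replicate (k - 1) 2 : List ℕ) : Multiset ℕ) := by
      rw [e1]
      rcases hx1 with hx1 | hx1
      · rw [hx1]
        rfl
      · rw [hx1]
        have h6 : (List.replicate (k - 1) 2 ++ [1, 1] : List ℕ).Perm
            (1 :: 1 :: List.replicate (k - 1) 2) := List.perm_append_comm
        exact Multiset.coe_eq_coe.mpr h6
    have g1 : card (L c1) = k + 1 := by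
      rw [f1, Multiset.card_cons, Multiset.card_cons, Multiset.coe_card, List.length_replicate]
      omega
    have g2 : card (L c2) = k := by
      rw [e2, hy1, Multiset.coe_card, List.length_replicate]
    have g3 : card (L c3) = 2 := by
      rw [e3, hz1]
      rfl
    refine Or.inr (Or.inr (Or.inr (Or.inr (Or.inr (Or.inr ⟨c1, hm1, c2, hm2, c3, hm3, ?_, ?_, ?_,
      Or.inr ⟨⟨_, f1, ?_⟩, Or.inl ⟨?_, k, by omega, ?_, h4⟩⟩⟩)))))
    · intro h6
      rw [h6] at g1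
      omega
    · intro h6
      rw [h6] at g1
      omega
    · intro h6
      rw [h6] at g2
      omega
    · intro e he
      rw [Multiset.mem_coe] at he
      rw [List.eq_of_mem_replicate he]
    · intro e he
      rw [e2, hy1, Multiset.mem_coe] at he
      rw [List.eq_of_mem_replicate he]
    · intro e he
      rw [e3, hz1, Multiset.mem_coe] at he
      simp only [List.mem_cons, List.not_mem_nil, or_false, or_self] at he
      rw [he]

/-- The candidates for `s = 4`. -/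
def NumFin_C4 : List (List ℕ × ℕ) :=
  [([4], 0), ([3, 1], 2), ([2, 2], 0), ([2, 1, 1], 2)]

theorem NumFin_hC4 : NumFin_cand 4 = NumFin_C4 := by decide +kernel

theorem NumFin_hS4 : NumFin_srch 80 4 (2 * 4 - 3) 4 NumFin_C4 [] = true := by decide +kernel

/-- The candidates for `s = 5`. -/
def NumFin_C5 : List (List ℕ × ℕ) :=
  [([5], 0), ([4, 1], 3), ([3, 2], 3), ([3, 1, 1], 4), ([2, 2, 1], 2), ([2, 1, 1, 1], 3)]

theorem NumFin_hC5 : NumFin_cand 5 = NumFin_C5 := by decide +kernel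

theorem NumFin_hS5 : NumFin_srch 80 5 (2 * 5 - 3) 5 NumFin_C5 [] = true := by decide +kernel

/-- The candidates for `s = 6`. -/
def NumFin_C6 : List (List ℕ × ℕ) :=
  [([6], 0), ([5, 1], 4), ([4, 2], 2), ([4, 1, 1], 6), ([3, 3], 0), ([3, 2, 1], 6), ([3, 1, 1, 1],
  6), ([2, 2, 2], 0), ([2, 2, 1, 1], 4), ([2, 1, 1, 1, 1], 4)]

theorem NumFin_hC6 : NumFin_cand 6 = NumFin_C6 := by decide +kernel

theorem NumFin_hS6 : NumFin_srch 80 6 (2 * 6 - 3) 6 NumFin_C6 [] = true := by decide +kernel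

/-- The candidates for `s = 7`. -/
def NumFin_C7 : List (List ℕ × ℕ) :=
  [([7], 0), ([6, 1], 5), ([5, 2], 5), ([4, 3], 5), ([4, 2, 1], 6), ([3, 3, 1], 4), ([3, 2, 2],
  6), ([2, 2, 2, 1], 3), ([2, 2, 1, 1, 1], 6), ([2, 1, 1, 1, 1, 1], 5)]

theorem NumFin_hC7 : NumFin_cand 7 = NumFin_C7 := by decide +kernel

theorem NumFin_hS7 : NumFin_srch 80 7 (2 * 7 - 3) 7 NumFin_C7 [] = true := by decide +kernel

/-- The candidates for `s = 8`. -/
def NumFin_C8 : List (List ℕ × ℕ) :=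
  [([8], 0), ([7, 1], 6), ([6, 2], 4), ([5, 3], 6), ([4, 4], 0), ([4, 2, 2], 4), ([3, 3, 2], 6),
  ([3, 3, 1, 1], 8), ([2, 2, 2, 2], 0), ([2, 2, 2, 1, 1], 6), ([2, 2, 1, 1, 1, 1], 8), ([2, 1, 1,
  1, 1, 1, 1], 6)]

theorem NumFin_hC8 : NumFin_cand 8 = NumFin_C8 := by decide +kernel

theorem NumFin_hS8 : NumFin_srch 80 8 (2 * 8 - 3) 8 NumFin_C8 [] = true := by decide +kernel

/-- The candidates for `s = 9`. -/
def NumFin_C9 : List (List ℕ × ℕ) :=
  [([9], 0), ([8, 1], 7), ([7, 2], 7), ([6, 3], 3), ([5, 4], 7), ([4, 4, 1], 6), ([4, 2, 2, 1],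
  9), ([3, 3, 3], 0), ([3, 2, 2, 2], 9), ([2, 2, 2, 2, 1], 4), ([2, 2, 2, 1, 1, 1], 9), ([2, 1, 1,
  1, 1, 1, 1, 1], 7)]

theorem NumFin_hC9 : NumFin_cand 9 = NumFin_C9 := by decide +kernel

theorem NumFin_hS9 : NumFin_srch 80 9 (2 * 9 - 3) 9 NumFin_C9 [] = true := by decide +kernel

/-- The candidates for `s = 10`. -/
def NumFin_C10 : List (List ℕ × ℕ) :=
  [([10], 0), ([9, 1], 8), ([8, 2], 6), ([7, 3], 8), ([6, 4], 6), ([6, 3, 1], 10), ([6, 2, 2], 8),
  ([5, 5], 0), ([4, 4, 2], 4), ([4, 3, 3], 10), ([4, 2, 2, 2], 6), ([3, 3, 3, 1], 6), ([2, 2, 2,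
  2, 2], 0), ([2, 2, 2, 2, 1, 1], 8), ([2, 1, 1, 1, 1, 1, 1, 1, 1], 8)]

theorem NumFin_hC10 : NumFin_cand 10 = NumFin_C10 := by decide +kernel

theorem NumFin_hS10 : NumFin_srch 80 10 (2 * 10 - 3) 10 NumFin_C10 [] = true := by decide +kernel

/-- The candidates for `s = 11`. -/
def NumFin_C11 : List (List ℕ × ℕ) :=
  [([11], 0), ([10, 1], 9), ([9, 2], 9), ([8, 3], 9), ([7, 4], 9), ([6, 5], 9), ([6, 3, 2], 10),
  ([5, 5, 1], 8), ([4, 4, 3], 10), ([4, 4, 2, 1], 11), ([3, 3, 3, 2], 9), ([2, 2, 2, 2, 2, 1], 5),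
  ([2, 1, 1, 1, 1, 1, 1, 1, 1, 1], 9)]

theorem NumFin_hC11 : NumFin_cand 11 = NumFin_C11 := by decide +kernel

theorem NumFin_hS11 : NumFin_srch 80 11 (2 * 11 - 3) 11 NumFin_C11 [] = true := by decide +kernel

/-- The candidates for `s = 12`. -/
def NumFin_C12 : List (List ℕ × ℕ) :=
  [([12], 0), ([11, 1], 10), ([10, 2], 8), ([9, 3], 6), ([8, 4], 4), ([8, 2, 2], 12), ([7, 5],
  10), ([6, 6], 0), ([6, 4, 2], 12), ([6, 3, 3], 6), ([6, 2, 2, 2], 12), ([5, 5, 2], 10), ([4, 4,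
  4], 0), ([4, 4, 2, 2], 8), ([4, 2, 2, 2, 2], 8), ([3, 3, 3, 3], 0), ([2, 2, 2, 2, 2, 2], 0),
  ([2, 2, 2, 2, 2, 1, 1], 10), ([2, 1, 1, 1, 1, 1, 1, 1, 1, 1, 1], 10)]

theorem NumFin_hC12 : NumFin_cand 12 = NumFin_C12 := by decide +kernel

theorem NumFin_hS12 : NumFin_srch 80 12 (2 * 12 - 3) 12 NumFin_C12 [] = true := by decide +kernel

/-- The candidates for `s = 13`. -/
def NumFin_C13 : List (List ℕ × ℕ) :=
  [([13], 0), ([12, 1], 11), ([11, 2], 11), ([10, 3], 11), ([9, 4], 11), ([8, 5], 11), ([7, 6],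
  11), ([6, 6, 1], 10), ([5, 5, 3], 12), ([4, 4, 4, 1], 9), ([3, 3, 3, 3, 1], 8), ([2, 2, 2, 2, 2,
  2, 1], 6), ([2, 1, 1, 1, 1, 1, 1, 1, 1, 1, 1, 1], 11)]

theorem NumFin_hC13 : NumFin_cand 13 = NumFin_C13 := by decide +kernel

theorem NumFin_hS13 : NumFin_srch 80 13 (2 * 13 - 3) 13 NumFin_C13 [] = true := by decide +kernel

/-- The candidates for `s = 14`. -/
def NumFin_C14 : List (List ℕ × ℕ) :=
  [([14], 0), ([13, 1], 12), ([12, 2], 10), ([11, 3], 12), ([10, 4], 10), ([9, 5], 12), ([8, 6],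
  10), ([8, 4, 2], 12), ([7, 7], 0), ([6, 6, 2], 8), ([6, 4, 4], 12), ([5, 5, 4], 14), ([4, 4, 4,
  2], 6), ([4, 4, 2, 2, 2], 12), ([4, 2, 2, 2, 2, 2], 10), ([3, 3, 3, 3, 2], 12), ([2, 2, 2, 2, 2,
  2, 2], 0), ([2, 2, 2, 2, 2, 2, 1, 1], 12), ([2, 1, 1, 1, 1, 1, 1, 1, 1, 1, 1, 1, 1], 12)]

theorem NumFin_hC14 : NumFin_cand 14 = NumFin_C14 := by decide +kernel

theorem NumFin_hS14 : NumFin_srch 80 14 (2 * 14 - 3) 14 NumFin_C14 [] = true := by decide +kernel

/-- The candidates for `s = 15`. -/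
def NumFin_C15 : List (List ℕ × ℕ) :=
  [([15], 0), ([14, 1], 13), ([13, 2], 13), ([12, 3], 9), ([11, 4], 13), ([10, 5], 5), ([9, 6],
  9), ([9, 3, 3], 12), ([8, 7], 13), ([7, 7, 1], 12), ([6, 6, 3], 6), ([6, 3, 3, 3], 9), ([5, 5,
  5], 0), ([4, 4, 4, 3], 15), ([3, 3, 3, 3, 3], 0), ([2, 2, 2, 2, 2, 2, 2, 1], 7), ([2, 1, 1, 1,
  1, 1, 1, 1, 1, 1, 1, 1, 1, 1], 13)]

theorem NumFin_hC15 : NumFin_cand 15 = NumFin_C15 := by decide +kernel

theorem NumFin_hS15 : NumFin_srch 80 15 (2 * 15 - 3) 15 NumFin_C15 [] = true := by decide +kernel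

/-- The candidates for `s = 16`. -/
def NumFin_C16 : List (List ℕ × ℕ) :=
  [([16], 0), ([15, 1], 14), ([14, 2], 12), ([13, 3], 14), ([12, 4], 8), ([11, 5], 14), ([10, 6],
  12), ([9, 7], 14), ([8, 8], 0), ([8, 4, 4], 8), ([7, 7, 2], 14), ([6, 6, 4], 12), ([6, 6, 2, 2],
  16), ([5, 5, 5, 1], 12), ([4, 4, 4, 4], 0), ([4, 4, 4, 2, 2], 12), ([4, 4, 2, 2, 2, 2], 16),
  ([4, 2, 2, 2, 2, 2, 2], 12), ([3, 3, 3, 3, 3, 1], 10), ([2, 2, 2, 2, 2, 2, 2, 2], 0), ([2, 2, 2,
  2, 2, 2, 2, 1, 1], 14), ([2, 1, 1, 1, 1, 1, 1, 1, 1, 1, 1, 1, 1, 1, 1], 14)]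

theorem NumFin_hC16 : NumFin_cand 16 = NumFin_C16 := by decide +kernel

theorem NumFin_hS16 : NumFin_srch 80 16 (2 * 16 - 3) 16 NumFin_C16 [] = true := by decide +kernel

/-- The candidates for `s = 17`. -/
def NumFin_C17 : List (List ℕ × ℕ) :=
  [([17], 0), ([16, 1], 15), ([15, 2], 15), ([14, 3], 15), ([13, 4], 15), ([12, 5], 15), ([11, 6],
  15), ([10, 7], 15), ([9, 8], 15), ([8, 8, 1], 14), ([7, 7, 3], 16), ([6, 6, 3, 2], 17), ([5, 5,
  5, 2], 15), ([4, 4, 4, 4, 1], 12), ([3, 3, 3, 3, 3, 2], 15), ([2, 2, 2, 2, 2, 2, 2, 2, 1], 8),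
  ([2, 1, 1, 1, 1, 1, 1, 1, 1, 1, 1, 1, 1, 1, 1, 1], 15)]

theorem NumFin_hC17 : NumFin_cand 17 = NumFin_C17 := by decide +kernel

theorem NumFin_hS17 : NumFin_srch 80 17 (2 * 17 - 3) 17 NumFin_C17 [] = true := by decide +kernel

/-- The candidates for `s = 18`. -/
def NumFin_C18 : List (List ℕ × ℕ) :=
  [([18], 0), ([17, 1], 16), ([16, 2], 14), ([15, 3], 12), ([14, 4], 14), ([13, 5], 16), ([12, 6],
  6), ([12, 3, 3], 18), ([11, 7], 16), ([10, 8], 14), ([9, 9], 0), ([9, 6, 3], 18), ([9, 3, 3, 3],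
  18), ([8, 8, 2], 12), ([8, 4, 4, 2], 18), ([7, 7, 4], 18), ([6, 6, 6], 0), ([6, 6, 3, 3], 12),
  ([6, 4, 4, 4], 18), ([6, 3, 3, 3, 3], 12), ([5, 5, 5, 3], 18), ([4, 4, 4, 4, 2], 8), ([4, 4, 4,
  2, 2, 2], 18), ([4, 2, 2, 2, 2, 2, 2, 2], 14), ([3, 3, 3, 3, 3, 3], 0), ([2, 2, 2, 2, 2, 2, 2,
  2, 2], 0), ([2, 2, 2, 2, 2, 2, 2, 2, 1, 1], 16), ([2, 1, 1, 1, 1, 1, 1, 1, 1, 1, 1, 1, 1, 1, 1,
  1, 1], 16)]

theorem NumFin_hC18 : NumFin_cand 18 = NumFin_C18 := by decide +kernel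

theorem NumFin_hS18 : NumFin_srch 80 18 (2 * 18 - 3) 18 NumFin_C18 [] = true := by decide +kernel

/-- The candidates for `s = 19`. -/
def NumFin_C19 : List (List ℕ × ℕ) :=
  [([19], 0), ([18, 1], 17), ([17, 2], 17), ([16, 3], 17), ([15, 4], 17), ([14, 5], 17), ([13, 6],
  17), ([12, 7], 17), ([11, 8], 17), ([10, 9], 17), ([9, 9, 1], 16), ([8, 8, 3], 18), ([6, 6, 6,
  1], 15), ([3, 3, 3, 3, 3, 3, 1], 12), ([2, 2, 2, 2, 2, 2, 2, 2, 2, 1], 9), ([2, 1, 1, 1, 1, 1,
  1, 1, 1, 1, 1, 1, 1, 1, 1, 1, 1, 1], 17)]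

theorem NumFin_hC19 : NumFin_cand 19 = NumFin_C19 := by decide +kernel

theorem NumFin_hS19 : NumFin_srch 80 19 (2 * 19 - 3) 19 NumFin_C19 [] = true := by decide +kernel

/-- The candidates for `s = 20`. -/
def NumFin_C20 : List (List ℕ × ℕ) :=
  [([20], 0), ([19, 1], 18), ([18, 2], 16), ([17, 3], 18), ([16, 4], 12), ([15, 5], 10), ([14, 6],
  16), ([13, 7], 18), ([12, 8], 12), ([12, 6, 2], 20), ([12, 4, 4], 16), ([11, 9], 18), ([10, 10],
  0), ([10, 5, 5], 10), ([9, 9, 2], 18), ([8, 8, 4], 8), ([8, 6, 6], 20), ([8, 4, 4, 4], 12), ([6,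
  6, 6, 2], 12), ([5, 5, 5, 5], 0), ([4, 4, 4, 4, 4], 0), ([4, 4, 4, 4, 2, 2], 16), ([4, 2, 2, 2,
  2, 2, 2, 2, 2], 16), ([3, 3, 3, 3, 3, 3, 2], 18), ([2, 2, 2, 2, 2, 2, 2, 2, 2, 2], 0), ([2, 2,
  2, 2, 2, 2, 2, 2, 2, 1, 1], 18), ([2, 1, 1, 1, 1, 1, 1, 1, 1, 1, 1, 1, 1, 1, 1, 1, 1, 1, 1],
  18)]

theorem NumFin_hC20 : NumFin_cand 20 = NumFin_C20 := by decide +kernel

theorem NumFin_hS20 : NumFin_srch 80 20 (2 * 20 - 3) 20 NumFin_C20 [] = true := by decide +kernel

/-- The candidates for `s = 21`. -/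
def NumFin_C21 : List (List ℕ × ℕ) :=
  [([21], 0), ([20, 1], 19), ([19, 2], 19), ([18, 3], 15), ([17, 4], 19), ([16, 5], 19), ([15, 6],
  15), ([14, 7], 7), ([13, 8], 19), ([12, 9], 15), ([12, 6, 3], 18), ([11, 10], 19), ([10, 10, 1],
  18), ([9, 9, 3], 12), ([9, 6, 6], 18), ([7, 7, 7], 0), ([6, 6, 6, 3], 9), ([6, 6, 3, 3, 3], 18),
  ([6, 3, 3, 3, 3, 3], 15), ([5, 5, 5, 5, 1], 16), ([4, 4, 4, 4, 4, 1], 15), ([3, 3, 3, 3, 3, 3,
  3], 0), ([2, 2, 2, 2, 2, 2, 2, 2, 2, 2, 1], 10), ([2, 1, 1, 1, 1, 1, 1, 1, 1, 1, 1, 1, 1, 1, 1,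
  1, 1, 1, 1, 1], 19)]

theorem NumFin_hC21 : NumFin_cand 21 = NumFin_C21 := by decide +kernel

theorem NumFin_hS21 : NumFin_srch 80 21 (2 * 21 - 3) 21 NumFin_C21 [] = true := by decide +kernel

/-- Proof by a kernel computation (`decide` or `rfl` on a Boolean checker; no `native_decide`).

Suggested checker.  `partsF fuel n m : List (List ℕ)` lists the nonincreasing lists of positive
numbers `≤ m` with sum `n` (structural recursion on the fuel); for `s ≤ 21` there are at most 792 of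
them.  `cand s` keeps those with length `< s` and weight `≤ s` (at most 28 remain for every
`s ≤ 21`); each with its index `f = s - length ≥ 1` and its weight `w`.  `srch` enumerates all
multisets of candidates with total index `2 s - 3` and total weight `≤ s`, in the order of the list,
pruning when the index or weight is exceeded and when two members have a common divisor `≥ 2` of
all their parts (at most 94 nodes for every `s ≤ 21`), and checks the conclusion for each one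
found.  Up to order, the solutions are: two partitions with one and two parts;
`s = 4`: `[4], [2,1,1], [2,1,1]` and `[3,1], [2,2], [2,1,1]`; `s = 5`: `[5], [2,2,1], [2,1,1,1]`;
`s = 6`: `[4,2], [3,3], [2,1,1,1,1]`; `[3,3], [3,1,1,1], [2,2,2]`; `[3,3], [2,2,2], [2,2,1,1]`;
`s = 10, 14, 18`: `[k,k], [2 ^ k], [2 ^ (k-1), 1, 1]` with `k = s / 2`.
Soundness: every multiset of positive numbers with sum `s` is the multiset of a list in
`partsF s s s` (its sorted list, `Multiset.sort`), and the family `(L c), c ∈ T` is found by `srch`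
(induction over the candidate list, e.g. for the multiset `T.val.map (sorted list of L c)`, by counting
how often the head occurs).  Two members of the multiset come from two different elements of `T`.

It may be convenient to treat every `s` in a separate `decide`. -/
theorem numeric_small {ι : Type} [DecidableEq ι] {T : Finset ι} {L : ι → Multiset ℕ} {s : ℕ}
    (h : NumHyp T L s) (hs : 4 ≤ s) (hs' : s ≤ 21) : NumConcl T L s := by
  interval_cases s
  · exact NumFin_main h hs _ NumFin_hC4 NumFin_hS4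
  · exact NumFin_main h hs _ NumFin_hC5 NumFin_hS5
  · exact NumFin_main h hs _ NumFin_hC6 NumFin_hS6
  · exact NumFin_main h hs _ NumFin_hC7 NumFin_hS7
  · exact NumFin_main h hs _ NumFin_hC8 NumFin_hS8
  · exact NumFin_main h hs _ NumFin_hC9 NumFin_hS9
  · exact NumFin_main h hs _ NumFin_hC10 NumFin_hS10
  · exact NumFin_main h hs _ NumFin_hC11 NumFin_hS11
  · exact NumFin_main h hs _ NumFin_hC12 NumFin_hS12
  · exact NumFin_main h hs _ NumFin_hC13 NumFin_hS13
  · exact NumFin_main h hs _ NumFin_hC14 NumFin_hS14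
  · exact NumFin_main h hs _ NumFin_hC15 NumFin_hS15
  · exact NumFin_main h hs _ NumFin_hC16 NumFin_hS16
  · exact NumFin_main h hs _ NumFin_hC17 NumFin_hS17
  · exact NumFin_main h hs _ NumFin_hC18 NumFin_hS18
  · exact NumFin_main h hs _ NumFin_hC19 NumFin_hS19
  · exact NumFin_main h hs _ NumFin_hC20 NumFin_hS20
  · exact NumFin_main h hs _ NumFin_hC21 NumFin_hS21

end WildV
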