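import Pool.Agent.helper21.WV.NumD
import Pool.Agent.helper21.WV.NumFin

/-! The numerical classification. -/

namespace WildV

theorem numeric_main {ι : Type} [DecidableEq ι] {T : Finset ι} {L : ι → Multiset ℕ} {s : ℕ}
    (h : NumHyp T L s) (hs : 4 ≤ s) : NumConcl T L s := by
  rcases Nat.lt_or_ge s 22 with h1 | h1
  · exact numeric_small h hs (by omega)
  · exact numeric_large h h1

end WildV
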