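import Pool.Agent.helper21.WV.Elim
import Pool.Agent.helper21.WV.Num
import Pool.Agent.helper44.Wild.Types
import Pool.Agent.helper44.Wild.Max

/-! From the numerical classification to functions (helper44). -/

namespace WildV

open Polynomial WildRat WildS

/-- The types of the list are wild. -/
theorem typ_wild (C : RF) (h : Typ C) : C.Wild := by
  rcases h with h3 | ⟨hn, z, z1, z2, hz, h12, hv, hs⟩ | ⟨h4, z, hz⟩ |
    ⟨hn, z1, z2, u, h12, hv, e1, e2, eu⟩ | ⟨hn, z1, z2, u, h12, hv, e1, e2, eu⟩ |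
    ⟨hn, z1, z2, u, v, h12, hv, e1, e2, huv, eu, ev⟩ |
    ⟨hn, z1, z2, w1, w2, w3, u, h12, hv, e1, e2, k12, k13, k23, kv, kv', f1, f2, f3, eu, hu⟩
  · exact wild_n3 C h3
  · exact Or.inl (wild_two_points C hn hz h12 hv hs)
  · exact wild_n4_poly C h4 hz
  · exact wild_n4_22_3 C hn h12 hv e1 e2 eu
  · exact wild_n5_5_22 C hn eu h12 hv e1 e2
  · refine wild_n6_33_42 C hn h12 hv e1 e2 (z3 := u) (z4 := v) ?_ huv eu ev
    rintro rfl
    omega
  · refine wild_n6_33_222_3 C hn h12 hv e1 e2 k12 k13 k23 kv kv' f1 f2 f3 (v := u) ?_ ?_ eu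
    · rintro rfl
      exact hu rfl
    · rintro rfl
      exact hu hv.symm

/-- Taking a member out of a multiset of values. -/
theorem exists_erase {ι : Type} [DecidableEq ι] (f : ι → ℕ) {S : Finset ι} {a : ℕ}
    {M : Multiset ℕ} (h : S.val.map f = a ::ₘ M) :
    ∃ z ∈ S, f z = a ∧ (S.erase z).val.map f = M := by
  have ha : a ∈ S.val.map f := by rw [h]; exact Multiset.mem_cons_self a M
  obtain ⟨z, hz, hfz⟩ := Multiset.mem_map.1 ha
  refine ⟨z, hz, hfz, ?_⟩
  have h1 : (S.val.erase z).map f = (S.val.map f).erase (f z) := by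
    have h2 : S.val = z ::ₘ S.val.erase z := (Multiset.cons_erase hz).symm
    conv_rhs => rw [h2, Multiset.map_cons, Multiset.erase_cons_head]
  rw [Finset.erase_val, h1, h, hfz, Multiset.erase_cons_head]

theorem exists_one {C : RF} (hn : 1 ≤ C.n) {c : P1} {a : ℕ} {M : Multiset ℕ}
    (h : pas C c = a ::ₘ M) : ∃ z, C.val z = c ∧ C.e z = a ∧
      ∀ w, w ≠ z → C.val w = c → C.e w ∈ M := by
  classical
  obtain ⟨z, hz, hfz, hM⟩ := exists_erase C.e h
  refine ⟨z, (mem_fibP hn).1 hz, hfz, fun w hw hv => ?_⟩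
  rw [← hM, Multiset.mem_map]
  exact ⟨w, Finset.mem_erase.2 ⟨hw, (mem_fibP hn).2 hv⟩, rfl⟩

theorem exists_two {C : RF} (hn : 1 ≤ C.n) {c : P1} {a b : ℕ} {M : Multiset ℕ}
    (h : pas C c = a ::ₘ b ::ₘ M) : ∃ z1 z2, z1 ≠ z2 ∧ C.val z1 = c ∧ C.val z2 = c ∧
      C.e z1 = a ∧ C.e z2 = b ∧ ∀ w, w ≠ z1 → w ≠ z2 → C.val w = c → C.e w ∈ M := by
  classical
  obtain ⟨z, hz, hfz, hM⟩ := exists_erase C.e h
  obtain ⟨z2, hz2, hfz2, hM2⟩ := exists_erase C.e hM
  have hz2' := Finset.mem_erase.1 hz2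
  refine ⟨z, z2, hz2'.1.symm, (mem_fibP hn).1 hz, (mem_fibP hn).1 hz2'.2, hfz, hfz2,
    fun w hw hw2 hv => ?_⟩
  rw [← hM2, Multiset.mem_map]
  exact ⟨w, Finset.mem_erase.2 ⟨hw2, Finset.mem_erase.2 ⟨hw, (mem_fibP hn).2 hv⟩⟩, rfl⟩

theorem exists_three {C : RF} (hn : 1 ≤ C.n) {c : P1} {a b d : ℕ} {M : Multiset ℕ}
    (h : pas C c = a ::ₘ b ::ₘ d ::ₘ M) : ∃ z1 z2 z3, z1 ≠ z2 ∧ z1 ≠ z3 ∧ z2 ≠ z3 ∧
      C.val z1 = c ∧ C.val z2 = c ∧ C.val z3 = c ∧ C.e z1 = a ∧ C.e z2 = b ∧ C.e z3 = d := by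
  classical
  obtain ⟨z, hz, hfz, hM⟩ := exists_erase C.e h
  obtain ⟨z2, hz2, hfz2, hM2⟩ := exists_erase C.e hM
  obtain ⟨z3, hz3, hfz3, -⟩ := exists_erase C.e hM2
  have hz2' := Finset.mem_erase.1 hz2
  have hz3' := Finset.mem_erase.1 hz3
  have hz3'' := Finset.mem_erase.1 hz3'.2
  exact ⟨z, z2, z3, hz2'.1.symm, hz3''.1.symm, hz3'.1.symm, (mem_fibP hn).1 hz,
    (mem_fibP hn).1 hz2'.2, (mem_fibP hn).1 hz3''.2, hfz, hfz2, hfz3⟩

theorem mem_pas {C : RF} (hn : 1 ≤ C.n) {z : P1} {c : P1} (h : C.val z = c) :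
    C.e z ∈ pas C c :=
  Multiset.mem_map.2 ⟨z, (mem_fibP hn).2 h, rfl⟩

theorem pas_sum {C : RF} (hn : 1 ≤ C.n) (c : P1) : (pas C c).sum = C.n := by
  have h := C.sum_e hn c
  rw [← fibP_eq hn] at h
  exact h

theorem pas_pos {C : RF} (hn : 1 ≤ C.n) (c : P1) : ∀ e ∈ pas C c, 1 ≤ e := by
  intro e he
  obtain ⟨z, -, rfl⟩ := Multiset.mem_map.1 he
  exact C.one_le_e hn z

theorem card_pas (C : RF) (c : P1) : Multiset.card (pas C c) = (fibP C c).card := by
  unfold pas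
  rw [Multiset.card_map]
  rfl

/-- the index of a fibre -/
theorem sum_sub_one {C : RF} (hn : 1 ≤ C.n) (c : P1) :
    ∑ z ∈ fibP C c, ((C.e z : ℤ) - 1) = C.n - Multiset.card (pas C c) := by
  rw [Finset.sum_sub_distrib, Finset.sum_const, card_pas, nsmul_one]
  have h : ((∑ z ∈ fibP C c, C.e z : ℕ) : ℤ) = C.n := by
    have h1 := pas_sum hn c
    exact_mod_cast h1
  rw [Nat.cast_sum] at h
  rw [h]

theorem card_pas_le {C : RF} (hn : 1 ≤ C.n) (c : P1) : Multiset.card (pas C c) ≤ C.n := by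
  have h := sum_sub_one hn c
  have h1 : 0 ≤ ∑ z ∈ fibP C c, ((C.e z : ℤ) - 1) := by
    refine Finset.sum_nonneg fun z _ => ?_
    have := C.one_le_e hn z
    omega
  omega

theorem card_pas_lt {C : RF} (hn : 1 ≤ C.n) {c z : P1} (hz : C.val z = c) (he : 2 ≤ C.e z) :
    Multiset.card (pas C c) < C.n := by
  have h := sum_sub_one hn c
  have h1 : (C.e z : ℤ) - 1 ≤ ∑ z ∈ fibP C c, ((C.e z : ℤ) - 1) := by
    refine Finset.single_le_sum (f := fun z => (C.e z : ℤ) - 1) (fun w _ => ?_)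
      ((mem_fibP hn).2 hz)
    have := C.one_le_e hn w
    show (0 : ℤ) ≤ (C.e w : ℤ) - 1
    omega
  omega

/-- the critical values -/
noncomputable def critV (C : RF) (hn : 1 ≤ C.n) : Finset P1 := by
  classical
  exact (C.ramified_finite hn).toFinset.image C.val

theorem mem_critV {C : RF} (hn : 1 ≤ C.n) {c : P1} :
    c ∈ critV C hn ↔ ∃ z, C.val z = c ∧ 2 ≤ C.e z := by
  classical
  unfold critV
  rw [Finset.mem_image]
  constructor
  · rintro ⟨z, hz, rfl⟩
    exact ⟨z, rfl, (ram_mem C hn z).1 hz⟩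
  · rintro ⟨z, rfl, hz⟩
    exact ⟨z, (ram_mem C hn z).2 hz, rfl⟩

/-- Riemann-Hurwitz by fibres -/
theorem rh_fibres {C : RF} (hn : 1 ≤ C.n) :
    ∑ c ∈ critV C hn, ((C.n : ℤ) - Multiset.card (pas C c)) = 2 * C.n - 2 := by
  classical
  rw [← rh_P1 C hn]
  have h1 : ∀ c ∈ critV C hn, ((C.n : ℤ) - Multiset.card (pas C c)) =
      ∑ z ∈ (C.ramified_finite hn).toFinset with C.val z = c, ((C.e z : ℤ) - 1) := by
    intro c hc
    rw [← sum_sub_one hn c]
    symm
    refine Finset.sum_subset ?_ ?_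
    · intro z hz
      rw [mem_fibP hn]
      exact (Finset.mem_filter.1 hz).2
    · intro z hz hz'
      have h2 : ¬ 2 ≤ C.e z := by
        intro h3
        exact hz' (Finset.mem_filter.2 ⟨(ram_mem C hn z).2 h3, (mem_fibP hn).1 hz⟩)
      have := C.one_le_e hn z
      omega
  rw [Finset.sum_congr rfl h1]
  refine Finset.sum_fiberwise_of_maps_to (fun z hz => ?_) _
  unfold critV
  exact Finset.mem_image_of_mem _ hz

/-- the simple fibre -/
theorem simple_fibre {C : RF} (hn : 1 ≤ C.n) {q : P1} (hq : C.e q = 2)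
    (hq1 : ∀ w, w ≠ q → C.val w = C.val q → C.e w = 1) :
    pas C (C.val q) = 2 ::ₘ Multiset.replicate (C.n - 2) 1 := by
  classical
  have hqm : q ∈ (fibP C (C.val q)).val := (mem_fibP hn).2 rfl
  have h1 : pas C (C.val q) = C.e q ::ₘ ((fibP C (C.val q)).val.erase q).map C.e := by
    unfold pas
    conv_lhs => rw [← Multiset.cons_erase hqm, Multiset.map_cons]
  have h2 : ((fibP C (C.val q)).val.erase q).map C.e =
      Multiset.replicate (Multiset.card (((fibP C (C.val q)).val.erase q).map C.e)) 1 := by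
    rw [Multiset.eq_replicate]
    refine ⟨rfl, fun e he => ?_⟩
    obtain ⟨w, hw, rfl⟩ := Multiset.mem_map.1 he
    have hw' : w ∈ (fibP C (C.val q)).erase q := by
      rw [← Finset.mem_val, Finset.erase_val]
      exact hw
    have hw2 := Finset.mem_erase.1 hw'
    exact hq1 w hw2.1 ((mem_fibP hn).1 hw2.2)
  have h3 := pas_sum hn (C.val q)
  rw [h1, h2, Multiset.sum_cons, Multiset.sum_replicate, smul_eq_mul, mul_one, hq] at h3
  rw [h1, h2, hq]
  congr 2
  omega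

theorem wt_simple (k : ℕ) : wt (2 ::ₘ Multiset.replicate k 1) = k := by
  unfold wt
  simp

theorem Asm_numHyp {C : RF} (hn : 3 ≤ C.n) (hC : DT C) {q : P1} (hq : C.e q = 2)
    (hq1 : ∀ w, w ≠ q → C.val w = C.val q → C.e w = 1)
    (hW : ∀ T : Finset P1, ∑ c ∈ T, wt (pas C c) ≤ 2 * C.n - 2) :
    NumHyp ((critV C (by omega)).erase (C.val q)) (pas C) C.n := by
  classical
  have hn1 : 1 ≤ C.n := by omega
  have hqc : C.val q ∈ critV C hn1 := (mem_critV hn1).2 ⟨q, rfl, by omega⟩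
  have hsf := simple_fibre hn1 hq hq1
  constructor
  · intro c _
    exact pas_pos hn1 c
  · intro c _
    exact pas_sum hn1 c
  · intro c hc
    obtain ⟨z, hz, he⟩ := (mem_critV hn1).1 (Finset.mem_of_mem_erase hc)
    exact card_pas_lt hn1 hz he
  · have h1 := rh_fibres hn1
    rw [← Finset.add_sum_erase _ _ hqc, hsf, Multiset.card_cons, Multiset.card_replicate] at h1
    have h2 : ((∑ c ∈ (critV C hn1).erase (C.val q), (C.n - Multiset.card (pas C c)) : ℕ) : ℤ) =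
        ∑ c ∈ (critV C hn1).erase (C.val q), ((C.n : ℤ) - Multiset.card (pas C c)) := by
      rw [Nat.cast_sum]
      refine Finset.sum_congr rfl fun c _ => ?_
      rw [Nat.cast_sub (card_pas_le hn1 c)]
    have h4 : ((C.n - 2 : ℕ) : ℤ) = C.n - 2 := by omega
    rw [Nat.cast_add, Nat.cast_one, h4] at h1
    have h3 : ((∑ c ∈ (critV C hn1).erase (C.val q), (C.n - Multiset.card (pas C c)) : ℕ) : ℤ) +
        3 = 2 * C.n := by
      rw [h2]
      linarith
    exact_mod_cast h3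
  · have h1 := hW (critV C hn1)
    rw [← Finset.add_sum_erase _ _ hqc, hsf, wt_simple] at h1
    omega
  · intro c hc c' hc' hcc d hd hdd
    have h1 := Finset.mem_erase.1 hc
    have h2 := Finset.mem_erase.1 hc'
    exact DT_gcd (by omega) hC hcc hd (fun z hz => hdd.1 _ (mem_pas hn1 hz))
      (fun z hz => hdd.2 _ (mem_pas hn1 hz)) h1.1.symm h2.1.symm hq

/-- **From the numerical classification to functions.** -/
theorem typ_of_W {C : RF} (hn : 3 ≤ C.n) (hC : DT C) {q : P1} (hq : C.e q = 2)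
    (hq1 : ∀ w, w ≠ q → C.val w = C.val q → C.e w = 1)
    (hW : ∀ T : Finset P1, ∑ c ∈ T, wt (pas C c) ≤ 2 * C.n - 2) : Typ C := by
  classical
  rcases Nat.lt_or_ge C.n 4 with h3 | h4
  · exact Or.inl (by omega)
  have hn1 : 1 ≤ C.n := by omega
  have hH := Asm_numHyp hn hC hq hq1 hW
  have hT : ∀ c ∈ (critV C hn1).erase (C.val q), C.val q ≠ c :=
    fun c hc => (Finset.mem_erase.1 hc).1.symm
  rcases numeric_main hH h4 with ⟨c, hc, c', hc', h1, h2⟩ | ⟨hs, c, hc, h1⟩ |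
    ⟨hs, c, hc, c', hc', h1, h2⟩ | ⟨hs, c, hc, c', hc', h1, h2⟩ | ⟨hs, c, hc, c', hc', h1, h2⟩ |
    ⟨hs, c, hc, c', hc', c'', hc'', h1, h2, h3⟩ |
    ⟨c1, hc1, c2, hc2, c3, hc3, h12, h13, h23, hE⟩
  · right; left
    obtain ⟨a, ha⟩ := Multiset.card_eq_one.1 h1
    obtain ⟨b1, b2, hb⟩ := Multiset.card_eq_two.1 h2
    obtain ⟨z, hz, he, -⟩ := exists_one hn1 (M := 0) (a := a) (by rw [ha]; rfl)
    obtain ⟨z1, z2, h12, hz1, hz2, he1, he2, -⟩ := exists_two hn1 (M := 0) (a := b1) (b := b2)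
      (by rw [hb]; rfl)
    have hsa := pas_sum hn1 c
    have hsb := pas_sum hn1 c'
    rw [ha, Multiset.sum_singleton] at hsa
    rw [hb] at hsb
    refine ⟨by omega, z, z1, z2, by rw [he, hsa], h12, by rw [hz1, hz2], ?_⟩
    rw [he1, he2, ← hsb]
    simp
  · right; right; left
    obtain ⟨z, hz, he, -⟩ := exists_one hn1 (M := 0) (a := 4) (by rw [h1]; rfl)
    exact ⟨hs, z, he⟩
  · right; right; right; left
    obtain ⟨z1, z2, h12, hz1, hz2, he1, he2, -⟩ := exists_two hn1 (M := 0) (a := 2) (b := 2)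
      (by rw [h1]; rfl)
    obtain ⟨u, -, hu, -⟩ := exists_one hn1 (M := {1}) (a := 3) (by rw [h2]; rfl)
    exact ⟨hs, z1, z2, u, h12, by rw [hz1, hz2], he1, he2, hu⟩
  · right; right; right; right; left
    obtain ⟨u, -, hu, -⟩ := exists_one hn1 (M := 0) (a := 5) (by rw [h1]; rfl)
    obtain ⟨z1, z2, h12, hz1, hz2, he1, he2, -⟩ := exists_two hn1 (M := {1}) (a := 2) (b := 2)
      (by rw [h2]; rfl)
    exact ⟨hs, z1, z2, u, h12, by rw [hz1, hz2], he1, he2, hu⟩
  · right; right; right; right; right; left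
    obtain ⟨z1, z2, h12, hz1, hz2, he1, he2, -⟩ := exists_two hn1 (M := 0) (a := 3) (b := 3)
      (by rw [h1]; rfl)
    obtain ⟨u, v, -, hu, hv, heu, hev, -⟩ := exists_two hn1 (M := 0) (a := 4) (b := 2)
      (by rw [h2]; rfl)
    exact ⟨hs, z1, z2, u, v, h12, by rw [hz1, hz2], he1, he2, by rw [hu, hv], heu, hev⟩
  · right; right; right; right; right; right
    obtain ⟨z1, z2, h12, hz1, hz2, he1, he2, -⟩ := exists_two hn1 (M := 0) (a := 3) (b := 3)
      (by rw [h1]; rfl)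
    obtain ⟨w1, w2, w3, k12, k13, k23, hw1, hw2, hw3, f1, f2, f3⟩ :=
      exists_three hn1 (M := 0) (a := 2) (b := 2) (d := 2) (by rw [h2]; rfl)
    obtain ⟨u, hu, heu, -⟩ := exists_one hn1 (M := {1, 1, 1}) (a := 3) (by rw [h3]; rfl)
    refine ⟨hs, z1, z2, w1, w2, w3, u, h12, by rw [hz1, hz2], he1, he2, k12, k13, k23,
      by rw [hw1, hw2], by rw [hw1, hw3], f1, f2, f3, heu, ?_⟩
    intro h
    rw [hu, hz1] at h
    rw [h, h1] at h3
    have h4 := congrArg Multiset.card h3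
    simp at h4
  · exfalso
    set c : Fin 3 → P1 := ![c1, c2, c3] with hcdef
    have e0 : c 0 = c1 := rfl
    have e1 : c 1 = c2 := rfl
    have e2 : c 2 = c3 := rfl
    have hcinj : Function.Injective c := by
      intro i j hij
      fin_cases i <;> fin_cases j <;> first | rfl | skip
      · exact absurd hij h12
      · exact absurd hij h13
      · exact absurd hij.symm h12
      · exact absurd hij h23
      · exact absurd hij.symm h13
      · exact absurd hij.symm h23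
    have hqc : ∀ i, C.val q ≠ c i := by
      intro i
      fin_cases i
      · exact hT _ hc1
      · exact hT _ hc2
      · exact hT _ hc3
    have hDD : ∀ {d : ℕ} {c : P1}, DD d (pas C c) → ∀ x, C.val x = c → d ∣ C.e x :=
      fun h x hx => h _ (mem_pas hn1 hx)
    have hAD : ∀ {d : ℕ} {c : P1}, AD d (pas C c) → ∃ x0, ∀ x, x ≠ x0 → C.val x = c →
        d ∣ C.e x := by
      rintro d c ⟨a, M, hM, hd⟩
      obtain ⟨z, -, -, hz⟩ := exists_one hn1 hM
      exact ⟨z, fun x hx hv => hd _ (hz x hx hv)⟩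
    rcases hE with (⟨a1, a2, a3⟩ | ⟨a1, a2, a3⟩ | ⟨a1, a2, a3⟩) |
      ⟨⟨L', hL', hdL⟩, (⟨b2, k, hk, b3, hs⟩ | ⟨hs, b2, b3⟩ | ⟨hs, b2, b3⟩)⟩
    · obtain ⟨x0, hx0⟩ := hAD a1
      refine elim0 (m := ![2, 3, 5]) (N := 60) (by omega) hC (Or.inr (Or.inr ⟨rfl, rfl, rfl, rfl⟩))
        c hcinj hqc hq x0 ?_
      intro x hx i hi
      fin_cases i
      · exact hx0 x hx hi
      · exact hDD a2 x hi
      · exact hDD a3 x hi
    · obtain ⟨x0, hx0⟩ := hAD a2
      refine elim0 (m := ![2, 3, 5]) (N := 60) (by omega) hC (Or.inr (Or.inr ⟨rfl, rfl, rfl, rfl⟩))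
        c hcinj hqc hq x0 ?_
      intro x hx i hi
      fin_cases i
      · exact hDD a1 x hi
      · exact hx0 x hx hi
      · exact hDD a3 x hi
    · obtain ⟨x0, hx0⟩ := hAD a3
      refine elim0 (m := ![2, 3, 5]) (N := 60) (by omega) hC (Or.inr (Or.inr ⟨rfl, rfl, rfl, rfl⟩))
        c hcinj hqc hq x0 ?_
      intro x hx i hi
      fin_cases i
      · exact hDD a1 x hi
      · exact hDD a2 x hi
      · exact hx0 x hx hi
    all_goals
      obtain ⟨x0, x1, h01, hv0, hv1, -, -, hrest⟩ := exists_two hn1 hL'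
      have hq0 : q ≠ x0 := by
        rintro rfl
        exact hT _ hc1 hv0
      have hq1' : q ≠ x1 := by
        rintro rfl
        exact hT _ hc1 hv1
    · refine elim2 (m := ![2, 2, k]) (N := 2 * k) hC (Or.inl ⟨rfl, rfl, hk, rfl⟩) hs c hcinj hqc
        hq h01 hq0 hq1' ?_ ?_ ?_
      · intro i hi
        have hi0 : i = 0 := hcinj (by rw [← hi, hv0, e0])
        rw [hi0]; rfl
      · intro i hi
        have hi0 : i = 0 := hcinj (by rw [← hi, hv1, e0])
        rw [hi0]; rfl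
      · intro x hx hx' i hi
        fin_cases i
        · exact hdL _ (hrest x hx hx' hi)
        · exact hDD b2 x hi
        · exact hDD b3 x hi
    · refine elim2 (m := ![2, 3, 4]) (N := 24) hC (Or.inr (Or.inl ⟨rfl, rfl, rfl, rfl⟩)) hs c
        hcinj hqc hq h01 hq0 hq1' ?_ ?_ ?_
      · intro i hi
        have hi0 : i = 0 := hcinj (by rw [← hi, hv0, e0])
        rw [hi0]; rfl
      · intro i hi
        have hi0 : i = 0 := hcinj (by rw [← hi, hv1, e0])
        rw [hi0]; rfl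
      · intro x hx hx' i hi
        fin_cases i
        · exact hdL _ (hrest x hx hx' hi)
        · exact hDD b2 x hi
        · exact hDD b3 x hi
    · refine elim2 (m := ![2, 3, 5]) (N := 60) hC (Or.inr (Or.inr ⟨rfl, rfl, rfl, rfl⟩)) hs c
        hcinj hqc hq h01 hq0 hq1' ?_ ?_ ?_
      · intro i hi
        have hi0 : i = 0 := hcinj (by rw [← hi, hv0, e0])
        rw [hi0]; rfl
      · intro i hi
        have hi0 : i = 0 := hcinj (by rw [← hi, hv1, e0])
        rw [hi0]; rfl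
      · intro x hx hx' i hi
        fin_cases i
        · exact hdL _ (hrest x hx hx' hi)
        · exact hDD b2 x hi
        · exact hDD b3 x hi

end WildV
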