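import Pool.Agent.helper21.WV.WAll
import Pool.Agent.helper21.WV.Normal1
import Pool.Agent.helper21.WV.Asm
import Pool.Agent.helper44.Wild.Compose2

/-! Wild rational functions with one simple critical value (helper44). -/

namespace WildV

open Polynomial WildRat WildS

variable {K : Type} [Field K] [Algebra ℂ K]

theorem main1_good (hK : Good K) (A : RF) (hn : 2 ≤ A.n) (c : P1) (hs : A.SimpleVal c)
    (hsol : A.SolIn K) : ∃ B C : RF, A.IsComp B C ∧ Typ C := by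
  obtain ⟨U, V, hU, hUV, hE⟩ := hsol
  have hn1 : 1 ≤ A.n := by omega
  have hV : NonConst V := RF.Eqn.nonConst hn1 hU hE
  obtain ⟨φ, hφ⟩ := exists_subst hU
  obtain ⟨ψ, hψ⟩ := exists_subst hV
  have hne : φ ≠ ψ := by
    rintro rfl
    exact hUV (hφ.symm.trans hψ)
  have h : φ (elt A) = ψ (elt A) := by
    rw [coord_elt, coord_elt, hφ, hψ]
    exact RF.Eqn.app_eq hn1 hU hE
  obtain ⟨A', c', q', hA', htr, hback⟩ := normalise1 A hn c hs
  obtain ⟨φ', ψ', hne', h'⟩ := htr K φ ψ hne h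
  obtain ⟨B', C', mu0, hCl⟩ := exists_Cl hA'
  obtain ⟨hC2, hB1, hAn, hval, -, -, -, -, hCq, -, hrest, hDT⟩ := hCl.facts
  have hA1 : 1 ≤ A'.n := by
    rw [hAn]
    exact Nat.mul_pos hB1 (by omega)
  have hAq : A'.val (some q') = some c' := (Quad_val_some A').2 ⟨hA'.Qne, hA'.val⟩
  have hT : Typ C' := by
    rcases Nat.lt_or_ge C'.n 3 with h2 | h3
    · exact Or.inr (Or.inl (typ_two (by omega)))
    · refine typ_of_W h3 hDT hCq ?_ (fun T => W_all hK hCl hne' h' T)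
      intro w hw hv
      refine (hrest w hw ?_).1
      rw [hval w, hv, ← hval, hAq]
  obtain ⟨B, C, hcomp, hCn, σ, hσ, hv, he⟩ := hback B' C' hCl.comp (by omega)
  exact ⟨B, C, hcomp, Typ_transport hCn hσ hv he hT⟩

/-- The hard direction. -/
theorem main1_hard (A : RF) (hn : 2 ≤ A.n) (c : P1) (hs : A.SimpleVal c) (hw : A.Wild) :
    ∃ B C : RF, A.IsComp B C ∧ Typ C := by
  rcases hw with hr | ⟨f, hf3, hsq, hsol⟩
  · exact main1_good good_E A hn c hs hr
  · have := kf_fact f (by rw [hf3]; decide)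
    exact main1_good (good_KF f hf3 hsq) A hn c hs hsol

/-- The easy direction. -/
theorem main1_easy (A : RF) (hn : 2 ≤ A.n) {B C : RF} (h : A.IsComp B C) (hC : Typ C) :
    A.Wild := by
  have hC1 : 1 ≤ C.n := by
    rcases hC with h | ⟨h, -⟩ | ⟨h, -⟩ | ⟨h, -⟩ | ⟨h, -⟩ | ⟨h, -⟩ | ⟨h, -⟩ <;> omega
  exact wild_of_comp h (by omega) hC1 (typ_wild C hC)

theorem main1 (A : RF) (hn : 2 ≤ A.n) (c : P1) (hs : A.SimpleVal c) :
    A.Wild ↔ ∃ B C : RF, A.IsComp B C ∧ Typ C :=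
  ⟨main1_hard A hn c hs, fun ⟨_, _, h, hC⟩ => main1_easy A hn h hC⟩

end WildV
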