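import Pool.Agent.helper21.WV.Defs

/-! Derivations at a place: bounded poles, the exponent, the places at infinity. -/

namespace WildV

open Polynomial WildRat WildS

variable {K : Type} [Field K] [Algebra ℂ K]

/-- `u` is zero or its order is at least `n`. -/
def Bdd_big (P : Pl K) (n : ℤ) (u : K) : Prop := u = 0 ∨ n ≤ P.ord u

theorem Bdd_big_add (P : Pl K) {n : ℤ} {u w : K} (hu : Bdd_big P n u) (hw : Bdd_big P n w) :
    Bdd_big P n (u + w) := by
  rcases hu with hu | hu
  · rw [hu, zero_add]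
    exact hw
  · rcases hw with hw | hw
    · rw [hw, add_zero]
      exact Or.inr hu
    · by_cases h : u + w = 0
      · exact Or.inl h
      · right
        rcases P.ord_add h with h1 | h1 | h1
        · exact (le_min hu hw).trans h1
        · rw [h1, zero_add]
          exact hw
        · rw [h1, add_zero]
          exact hu

theorem Bdd_big_mul (P : Pl K) {n m : ℤ} {u w : K} (hu : Bdd_big P n u) (hw : Bdd_big P m w) :
    Bdd_big P (n + m) (u * w) := by
  rcases hu with hu | hu
  · left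
    rw [hu, zero_mul]
  · rcases hw with hw | hw
    · left
      rw [hw, mul_zero]
    · by_cases h1 : u = 0
      · left
        rw [h1, zero_mul]
      · by_cases h2 : w = 0
        · left
          rw [h2, mul_zero]
        · right
          rw [P.ord_mul h1 h2]
          exact add_le_add hu hw

theorem Bdd_big_le (P : Pl K) {n : ℤ} (hn : n ≤ 0) {u : K} (hu : Bdd_big P n u) : n ≤ P.ord u := by
  rcases hu with hu | hu
  · rw [hu, P.ord_zero]
    exact hn
  · exact hu

/-- A derivation has bounded poles on the valuation ring of a place over a finite point.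

Proof.  Let `z = φ X`, `B = integralClosure ℂ[X] K` (with `ℂ[X]` acting through `z`; `K` is finite
over `ℂ(z)`), a Dedekind domain with fraction field `K` and a finite `ℂ[X]`-module (see
`norm_formula` in WS/Norm.lean and `DInt_aux` in WS/DInt.lean for the setup of the instances; the
proof of `DInt_aux` uses `exists_quot` from WS/Chart.lean in exactly this way).  Let `b 1 .. b r`
generate `B` over `ℂ[X]`.  For `r = ∑ c i (z) b i` one has
`D r = ∑ (c i ' (z) D z) b i + c i (z) D (b i)`, so `P.ord (D r) ≥ N` with `N ≤ 0` a lower bound for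
`P.ord (D z)` and all `P.ord (D (b i))` (elements of `B` and polynomials in `z` have nonnegative
order at `P`, `DInt_integ`; mind that `P.ord 0 = 0`).  For `u` with `0 ≤ P.ord u`: `u * s = r` with
`r, s ∈ B`, `P.ord s = 0` (`exists_quot`), and `D u = (D r - u D s) / s` has order at least `N`. -/
theorem deriv_bdd (φ : E →ₐ[ℂ] K) (hφ : FinC φ) (D : Derivation ℂ K K) (P : Pl K)
    (hP : 0 ≤ P.ord (φ RatFunc.X)) :
    ∃ N : ℤ, N ≤ 0 ∧ ∀ u : K, 0 ≤ P.ord u → N ≤ P.ord (D u) := by
  let _ : Algebra E K := φ.toRingHom.toAlgebra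
  let _ : Algebra ℂ[X] K := (φ.toRingHom.comp (algebraMap ℂ[X] E)).toAlgebra
  have : IsScalarTower ℂ[X] E K := IsScalarTower.of_algebraMap_eq' rfl
  have : FiniteDimensional E K := hφ
  have : CharZero E := inferInstance
  have : Algebra.IsSeparable E K := inferInstance
  have : IsDedekindDomain (integralClosure ℂ[X] K) :=
    integralClosure.isDedekindDomain ℂ[X] E K
  have : IsFractionRing (integralClosure ℂ[X] K) K :=
    integralClosure.isFractionRing_of_finite_extension E K
  have hBf : Module.Finite ℂ[X] (integralClosure ℂ[X] K) :=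
    IsIntegralClosure.finite ℂ[X] E K (integralClosure ℂ[X] K)
  have hmap : algebraMap ℂ[X] K = (aeval (φ RatFunc.X) : ℂ[X] →ₐ[ℂ] K).toRingHom := by
    apply RingHom.ext
    intro p
    exact coord_poly φ p
  have hB : ∀ w : K, IsIntegral ℂ[X] w ↔ Integ (φ RatFunc.X) w := by
    intro w
    unfold IsIntegral Integ
    rw [hmap]
  have hnon : ∀ r : integralClosure ℂ[X] K,
      0 ≤ P.ord (algebraMap (integralClosure ℂ[X] K) K r) := by
    intro r
    exact DInt_integ P hP ((hB _).mp r.2)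
  obtain ⟨S, hS⟩ := hBf.fg_top
  set M : ℤ := |P.ord (D (φ RatFunc.X))| +
    ∑ b ∈ S, |P.ord (D (algebraMap (integralClosure ℂ[X] K) K b))| with hM
  have hM0 : 0 ≤ ∑ b ∈ S, |P.ord (D (algebraMap (integralClosure ℂ[X] K) K b))| :=
    Finset.sum_nonneg fun _ _ => abs_nonneg _
  have hN0 : -M ≤ 0 := by
    have := abs_nonneg (P.ord (D (φ RatFunc.X)))
    omega
  have hz : Bdd_big P (-M) (D (φ RatFunc.X)) := by
    right
    have := neg_abs_le (P.ord (D (φ RatFunc.X)))
    omega
  have hSb : ∀ b ∈ S, Bdd_big P (-M) (D (algebraMap (integralClosure ℂ[X] K) K b)) := by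
    intro b hb
    right
    have h1 := neg_abs_le (P.ord (D (algebraMap (integralClosure ℂ[X] K) K b)))
    have h2 := Finset.single_le_sum
      (f := fun b => |P.ord (D (algebraMap (integralClosure ℂ[X] K) K b))|)
      (fun _ _ => abs_nonneg _) hb
    have h3 := abs_nonneg (P.ord (D (φ RatFunc.X)))
    omega
  have hall : ∀ r : integralClosure ℂ[X] K,
      Bdd_big P (-M) (D (algebraMap (integralClosure ℂ[X] K) K r)) := by
    intro r
    have hr : r ∈ Submodule.span ℂ[X] (S : Set (integralClosure ℂ[X] K)) := by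
      rw [hS]
      exact Submodule.mem_top
    induction hr using Submodule.span_induction with
    | mem b hb => exact hSb b hb
    | zero =>
      left
      rw [map_zero, map_zero]
    | add a b _ _ ha hb =>
      rw [map_add, map_add]
      exact Bdd_big_add P ha hb
    | smul c b _ hb =>
      have e1 : algebraMap (integralClosure ℂ[X] K) K (c • b) =
          aeval (φ RatFunc.X) c * algebraMap (integralClosure ℂ[X] K) K b := by
        rw [Algebra.smul_def, map_mul]
        congr 1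
        have e2 : algebraMap (integralClosure ℂ[X] K) K
            (algebraMap ℂ[X] (integralClosure ℂ[X] K) c) = algebraMap ℂ[X] K c := rfl
        rw [e2, hmap]
        rfl
      rw [e1, Derivation.leibniz, Derivation.map_aeval]
      simp only [smul_eq_mul]
      refine Bdd_big_add P ?_ ?_
      · have := Bdd_big_mul P (n := 0) (Or.inr (DInt_aeval P hP c)) hb
        rwa [zero_add] at this
      · have h5 := Bdd_big_mul P (n := 0) (Or.inr (DInt_aeval P hP (derivative c))) hz
        have := Bdd_big_mul P (n := 0) (Or.inr (hnon b)) h5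
        rwa [zero_add, zero_add] at this
  refine ⟨-M, hN0, ?_⟩
  intro u hu
  obtain ⟨r, s, hs0, hs, hrs⟩ := exists_quot P hnon hu
  have hDr := hall r
  have hDs := hall s
  generalize algebraMap (integralClosure ℂ[X] K) K s = σ at *
  generalize algebraMap (integralClosure ℂ[X] K) K r = ρ at *
  have h3 : D ρ = u * D σ + σ * D u := by
    rw [← hrs, D.leibniz]
    simp [smul_eq_mul]
  have h4 : D u = (D ρ + -u * D σ) * σ⁻¹ := by
    rw [h3]
    field_simp
    ring
  apply Bdd_big_le P hN0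
  rw [h4]
  have h5 : Bdd_big P (0 + -M) (-u * D σ) :=
    Bdd_big_mul P (Or.inr (by rw [P.ord_neg]; exact hu)) hDs
  rw [zero_add] at h5
  have h6 := Bdd_big_mul P (m := 0) (Bdd_big_add P hDr h5) (w := σ⁻¹)
    (Or.inr (by rw [P.ord_inv, hs, neg_zero]))
  rwa [add_zero] at h6

/-- The same at every place.  Proof: if `P.ord (φ X) < 0` use the coordinate `φ.comp invE`
(its value at `X` is `(φ X)⁻¹`; `finC_comp`, `finC_invE`). -/
theorem deriv_bdd_all (φ : E →ₐ[ℂ] K) (hφ : FinC φ) (D : Derivation ℂ K K) (P : Pl K) :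
    ∃ N : ℤ, N ≤ 0 ∧ ∀ u : K, 0 ≤ P.ord u → N ≤ P.ord (D u) := by
  rcases le_or_gt 0 (P.ord (φ RatFunc.X)) with hP | hP
  · exact deriv_bdd φ hφ D P hP
  · have hX : (φ.comp invE) RatFunc.X = (φ RatFunc.X)⁻¹ := by
      rw [AlgHom.comp_apply, invE_X, map_inv₀]
    refine deriv_bdd (φ.comp invE) (finC_comp hφ finC_invE) D P ?_
    rw [hX, P.ord_inv]
    omega

/-- The residue field is `ℂ`.  Proof: if `u` is a constant, take `c = u`.  Otherwise `u = χ X` for
a coordinate `χ` (`exists_subst`), finite by `finC_all`, and `exists_value` applies. -/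
theorem exists_res (φ : E →ₐ[ℂ] K) (hφ : FinC φ) (P : Pl K) (u : K) (hu : 0 ≤ P.ord u) :
    ∃ c : ℂ, u = algebraMap ℂ K c ∨ 0 < P.ord (u - algebraMap ℂ K c) := by
  by_cases h : NonConst u
  · obtain ⟨χ, hχ⟩ := exists_subst h
    obtain ⟨a, ha⟩ := exists_value χ (finC_all φ hφ χ) P (by rw [hχ]; exact hu)
    refine ⟨a, Or.inr ?_⟩
    have h1 : 0 < P.ord (χ RatFunc.X - algebraMap ℂ K a) := ha
    rwa [hχ] at h1
  · unfold NonConst at h
    push Not at h
    obtain ⟨c, hc⟩ := h
    exact ⟨c, Or.inl hc⟩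

/-- The exponent of a derivation at a place.

Proof.  Let `t` be a uniformizer (`Pl.exists_unif`).  By `deriv_bdd_all` the set of the orders of
the nonzero `D u` with `0 ≤ P.ord u` is bounded below; it is nonempty (if `D w ≠ 0`, `P.ord w < 0`,
then `D w⁻¹ = - D w / w ^ 2 ≠ 0`).  Let `κ` be its minimum, attained at `u0`.  So `κ ≤ P.ord (D u)` for
all `u` with `0 ≤ P.ord u`, `D u ≠ 0`.  Claim: `D t ≠ 0` and `P.ord (D t) = κ`.  Write
`u0 = c + t * u1` with `c` constant and `0 ≤ P.ord u1` (`exists_res`), `D u0 = u1 * D t + t * D u1`; if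
`D t = 0` or `P.ord (D t) > κ`, then both terms have order `> κ` or vanish, contradiction.  Now let
`u ≠ 0`, `k = P.ord u`, `u = t ^ k * w` with `P.ord w = 0` (`Pl.exists_unit`).
`D u = k t ^ (k - 1) w D t + t ^ k D w`; the second term vanishes or has order at least `k + κ`.  If
`k ≠ 0` the first has order exactly `k - 1 + κ`.  (Use `Pl.ord_add_eq`; `Derivation.leibniz_zpow`
or a small lemma for `D (t ^ k)`.) -/
theorem exists_kappa (φ : E →ₐ[ℂ] K) (hφ : FinC φ) (D : Derivation ℂ K K) (hD : ∃ w, D w ≠ 0)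
    (P : Pl K) : ∃ κ : ℤ,
      (∀ u : K, u ≠ 0 → P.ord u ≠ 0 → D u ≠ 0 ∧ P.ord (D u) = P.ord u - 1 + κ) ∧
      ∀ u : K, 0 ≤ P.ord u → D u ≠ 0 → κ ≤ P.ord (D u) := by
  obtain ⟨t, ht0, ht1⟩ := P.exists_unif
  obtain ⟨N, _, hN⟩ := deriv_bdd_all φ hφ D P
  have hne : ∃ n : ℤ, ∃ u : K, 0 ≤ P.ord u ∧ D u ≠ 0 ∧ P.ord (D u) = n := by
    obtain ⟨w, hw⟩ := hD
    rcases le_or_gt 0 (P.ord w) with h | h
    · exact ⟨_, w, h, hw, rfl⟩
    · refine ⟨_, w⁻¹, ?_, ?_, rfl⟩
      · rw [P.ord_inv]
        omega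
      · intro h1
        have hw0 : w ≠ 0 := by
          intro h2
          rw [h2, map_zero] at hw
          exact hw rfl
        have h3 : D (w * w⁻¹) = 0 := by
          rw [mul_inv_cancel₀ hw0, D.map_one_eq_zero]
        rw [D.leibniz, h1, smul_zero, zero_add, smul_eq_mul] at h3
        rcases mul_eq_zero.1 h3 with h4 | h4
        · exact hw0 (inv_eq_zero.1 h4)
        · exact hw h4
  obtain ⟨κ, ⟨u0, hu0, hDu0, hκ⟩, hmin⟩ := Int.exists_least_of_bdd
    (P := fun n : ℤ => ∃ u : K, 0 ≤ P.ord u ∧ D u ≠ 0 ∧ P.ord (D u) = n)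
    ⟨N, by
      rintro z ⟨u, hu, _, rfl⟩
      exact hN u hu⟩ hne
  have hmin' : ∀ u : K, 0 ≤ P.ord u → D u ≠ 0 → κ ≤ P.ord (D u) :=
    fun u hu hDu => hmin _ ⟨u, hu, hDu, rfl⟩
  have hbig : ∀ u : K, 0 ≤ P.ord u → Bdd_big P κ (D u) := by
    intro u hu
    by_cases h : D u = 0
    · exact Or.inl h
    · exact Or.inr (hmin' u hu h)
  have hDt : D t ≠ 0 ∧ P.ord (D t) = κ := by
    by_contra hcon
    have hDt' : Bdd_big P (κ + 1) (D t) := by
      by_cases h : D t = 0
      · exact Or.inl h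
      · right
        have h1 := hmin' t (by rw [ht1]; norm_num) h
        have h2 : P.ord (D t) ≠ κ := fun h3 => hcon ⟨h, h3⟩
        omega
    obtain ⟨c, hc⟩ := exists_res φ hφ P u0 hu0
    rcases hc with hc | hc
    · apply hDu0
      rw [hc, D.map_algebraMap]
    · set v : K := u0 - algebraMap ℂ K c with hv
      have hv0 : v ≠ 0 := by
        intro h
        rw [h, P.ord_zero] at hc
        exact lt_irrefl _ hc
      have hDv : D v = D u0 := by
        rw [hv, map_sub, D.map_algebraMap, sub_zero]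
      have hv1 : v = t * (v * t⁻¹) := by
        field_simp
      have hu1 : 0 ≤ P.ord (v * t⁻¹) := by
        rw [P.ord_mul hv0 (inv_ne_zero ht0), P.ord_inv, ht1]
        omega
      have hD2 : D v = t * D (v * t⁻¹) + (v * t⁻¹) * D t := by
        conv_lhs => rw [hv1]
        rw [D.leibniz]
        simp only [smul_eq_mul]
      have h5 : Bdd_big P (κ + 1) (D v) := by
        rw [hD2]
        refine Bdd_big_add P ?_ ?_
        · have := Bdd_big_mul P (n := 1) (u := t) (Or.inr ht1.ge) (hbig _ hu1)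
          rwa [add_comm] at this
        · have := Bdd_big_mul P (n := 0) (u := v * t⁻¹) (Or.inr hu1) hDt'
          rwa [zero_add] at this
      rw [hDv] at h5
      rcases h5 with h5 | h5
      · exact hDu0 h5
      · omega
  refine ⟨κ, ?_, hmin'⟩
  intro u hu hord
  obtain ⟨w, hw0, hw, huw⟩ := P.exists_unit ht0 ht1 hu
  generalize P.ord u = k at *
  have h1 : D u = t ^ (k - 1) * (algebraMap ℂ K (k : ℂ) * w * D t + t * D w) := by
    have h2 : t ^ k = t ^ (k - 1) * t := by
      rw [← zpow_add_one₀ ht0, sub_add_cancel]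
    rw [huw, D.leibniz, D.leibniz_zpow]
    simp only [smul_eq_mul, zsmul_eq_mul]
    rw [h2]
    simp only [map_intCast]
    ring
  have hk0 : algebraMap ℂ K (k : ℂ) ≠ 0 := by
    rw [_root_.map_ne_zero]
    exact_mod_cast hord
  have h2 : algebraMap ℂ K (k : ℂ) * w * D t ≠ 0 :=
    mul_ne_zero (mul_ne_zero hk0 hw0) hDt.1
  have h3 : P.ord (algebraMap ℂ K (k : ℂ) * w * D t) = κ := by
    rw [P.ord_mul (mul_ne_zero hk0 hw0) hDt.1, P.ord_mul hk0 hw0, P.ord_C, hw, hDt.2]
    ring
  have h4 : t * D w = 0 ∨ P.ord (algebraMap ℂ K (k : ℂ) * w * D t) < P.ord (t * D w) := by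
    have := Bdd_big_mul P (n := 1) (u := t) (Or.inr ht1.ge) (hbig w hw.ge)
    rcases this with h | h
    · exact Or.inl h
    · right
      rw [h3]
      omega
  obtain ⟨h5, h6⟩ := P.ord_add_eq h2 h4
  rw [h1]
  refine ⟨mul_ne_zero (zpow_ne_zero _ ht0) h5, ?_⟩
  rw [P.ord_mul (zpow_ne_zero _ ht0) h5, RH_ord_zpow, ht1, h6, h3]
  ring

/-- At a place over infinity `d / dz` increases the order.

Proof.  Take `κ` from `exists_kappa`.  With `z = φ X` and `e = - P.ord z > 0`: `0 = P.ord (D z) = - e -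
1 + κ`, so `κ = e + 1 ≥ 2`.  If `P.ord u ≠ 0` then `P.ord (D u) = P.ord u + e`; if `P.ord u = 0` then
`P.ord (D u) ≥ κ ≥ 2`.  (`D u ≠ 0` gives `u ≠ 0`.) -/
theorem deriv_inf (φ : E →ₐ[ℂ] K) (hφ : FinC φ) (D : Derivation ℂ K K)
    (hD : D (φ RatFunc.X) = 1) (P : Pl K) (hP : P.ord (φ RatFunc.X) < 0) (u : K)
    (hu : D u ≠ 0) : P.ord u + 1 ≤ P.ord (D u) := by
  obtain ⟨κ, h1, h2⟩ := exists_kappa φ hφ D ⟨φ RatFunc.X, by rw [hD]; exact one_ne_zero⟩ P
  have hz0 : φ RatFunc.X ≠ 0 := by
    intro h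
    rw [h, P.ord_zero] at hP
    exact lt_irrefl _ hP
  have h3 := (h1 (φ RatFunc.X) hz0 hP.ne).2
  rw [hD, P.ord_one] at h3
  have hu0 : u ≠ 0 := by
    intro h
    rw [h, map_zero] at hu
    exact hu rfl
  by_cases h4 : P.ord u = 0
  · have h5 := h2 u h4.ge hu
    omega
  · have h5 := (h1 u hu0 h4).2
    omega

end WildV
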