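import Pool.Agent.helper21.WV.DTFacts

/-! Normalised functions with one simple value, clique data, finite fibres. -/

namespace WildV

open Polynomial WildRat WildS

/-- A normalised rational function with one simple critical value: `A(∞) = ∞`, infinity is not a
critical value, `c` is a simple critical value with critical point `q`. -/
structure Norm1 (A : RF) (c q : ℂ) : Prop where
  monic : A.P.Monic
  lt : A.Q.natDegree < A.P.natDegree
  two : 2 ≤ A.P.natDegree
  Qne : A.Q.eval q ≠ 0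
  val : A.P.eval q = c * A.Q.eval q
  mult : (A.P - C c * A.Q).rootMultiplicity q = 2
  simple : ∀ w, w ≠ q → A.P.eval w = c * A.Q.eval w →
    (A.P - C c * A.Q).rootMultiplicity w = 1
  unram : ∀ z : P1, A.val z = none → A.e z = 1

/-- The clique data: `A = B ∘ C`, `C(T) - C(x) = (T - x) mu0` up to the denominators, `mu0`
irreducible, and `mu0` is the component with a place over `(q, q)`. -/
structure Cl (A B C : RF) (c q : ℂ) (mu0 : E[X]) : Prop where
  norm : Norm1 A c q
  comp : A.IsComp B C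
  monic : C.P.Monic
  lt : C.Q.natDegree < C.P.natDegree
  irr : Irreducible mu0
  mon0 : mu0.Monic
  gg : GG C = (X - Polynomial.C RatFunc.X) * mu0
  ordq : (plE q).ord (mu0.eval (algebraMap ℂ E q)) = 1
  uniq : ∀ (K : Type) [Field K] [Algebra ℂ K] (φ ψ : E →ₐ[ℂ] K) (P : Pl K), FinC φ → φ ≠ ψ →
    φ (elt A) = ψ (elt A) → P ∈ fib φ q → P ∈ fib ψ q → φ (elt C) = ψ (elt C)
  pair : ∃ (K : Type) (_ : Field K) (_ : Algebra ℂ K) (φ ψ : E →ₐ[ℂ] K) (P : Pl K), FinC φ ∧
    φ ≠ ψ ∧ φ (elt A) = ψ (elt A) ∧ mu φ (ψ RatFunc.X) = mu0 ∧ P ∈ fib φ q ∧ P ∈ fib ψ q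

/-- The finite points over the finite value `p`. -/
noncomputable def fC (A : RF) (p : ℂ) : Finset ℂ := (A.P - C p * A.Q).roots.toFinset

/-- The multiset of the indices at the finite points over `p`. -/
noncomputable def pasF (A : RF) (p : ℂ) : Multiset ℕ :=
  (fC A p).val.map fun a => A.e (some a)

/-- Proof: `mem_roots`, `Quad_val_some` in WS/Quad.lean or `Normal_val_some`; `A.F (some p) ≠ 0`
(`RF.F_ne_zero`).  If `A.P.eval a = p * A.Q.eval a`, then `A.Q.eval a ≠ 0` by coprimality. -/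
theorem mem_fC {A : RF} (hn : 1 ≤ A.n) {p a : ℂ} : a ∈ fC A p ↔ A.val (some a) = some p := by
  unfold fC
  rw [Multiset.mem_toFinset, A.val_eq_iff hn]
  have hF : A.F (some p) ≠ 0 := A.F_ne_zero hn _
  show a ∈ (A.F (some p)).roots ↔ 0 < (A.F (some p)).rootMultiplicity a
  rw [mem_roots hF, rootMultiplicity_pos hF]

theorem mem_fC' {A : RF} (hn : 1 ≤ A.n) {p a : ℂ} :
    a ∈ fC A p ↔ A.Q.eval a ≠ 0 ∧ A.P.eval a = p * A.Q.eval a := by
  rw [mem_fC hn, Quad_val_some]

/-- Proof: `RF.e`, `RF.mult`, `RF.F`. -/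
theorem e_fC {A : RF} (hn : 1 ≤ A.n) {p a : ℂ} (h : a ∈ fC A p) :
    A.e (some a) = (A.P - C p * A.Q).rootMultiplicity a := by
  have h1 := (mem_fC hn).1 h
  unfold RF.e
  rw [h1]
  rfl

theorem CDefs_fib {A : RF} (hn : 1 ≤ A.n) (hlt : A.Q.natDegree < A.P.natDegree) (p : ℂ) :
    fibP A (some p) = (fC A p).map ⟨some, Option.some_injective ℂ⟩ := by
  ext z
  rw [mem_fibP hn, Finset.mem_map]
  constructor
  · intro h
    cases z with
    | none =>
      rw [Quad_val_none A hlt] at h
      exact absurd h (by simp)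
    | some a => exact ⟨a, (mem_fC hn).2 h, rfl⟩
  · rintro ⟨a, ha, rfl⟩
    exact (mem_fC hn).1 ha

/-- If `A(∞) = ∞`, the fibre over a finite value consists of finite points. -/
theorem pasF_eq {A : RF} (hn : 1 ≤ A.n) (hlt : A.Q.natDegree < A.P.natDegree) (p : ℂ) :
    pas A (some p) = pasF A p := by
  unfold pas pasF
  rw [CDefs_fib hn hlt, Finset.map_val, Multiset.map_map]
  rfl

/-- Proof: `RF.sum_e`, with `pasF_eq`. -/
theorem sum_fC {A : RF} (hn : 1 ≤ A.n) (hlt : A.Q.natDegree < A.P.natDegree) (p : ℂ) :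
    ∑ a ∈ fC A p, A.e (some a) = A.n := by
  rw [← A.sum_e hn (some p), ← fibP_eq hn, CDefs_fib hn hlt, Finset.sum_map]
  rfl

/-- Every finite point lies over a finite value or over infinity; if all points over infinity are
unramified and `A(∞) = ∞`, Riemann-Hurwitz (`rh_P1`) takes this form. -/
theorem rh_fin {A : RF} (hn : 1 ≤ A.n) (hlt : A.Q.natDegree < A.P.natDegree)
    (hun : ∀ z, A.val z = none → A.e z = 1) (R : Finset ℂ)
    (hR : ∀ a p : ℂ, A.val (some a) = some p → A.e (some a) ≠ 1 → p ∈ R) :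
    ∑ p ∈ R, ((A.n : ℤ) - (fC A p).card) = 2 * A.n - 2 := by
  classical
  have hcard : ∀ p : ℂ, (A.n : ℤ) - (fC A p).card = ∑ a ∈ fC A p, ((A.e (some a) : ℤ) - 1) := by
    intro p
    rw [Finset.sum_sub_distrib, ← Nat.cast_sum, sum_fC hn hlt]
    simp
  rw [← rh_P1 A hn, Finset.sum_congr rfl fun p _ => hcard p]
  have h0 : A.val none = none := Quad_val_none A hlt
  have hsub : (A.ramified_finite hn).toFinset ⊆
      R.biUnion fun p => (fC A p).map ⟨some, Option.some_injective ℂ⟩ := by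
    intro z hz
    have hz' : A.e z ≠ 1 := by simpa using hz
    cases z with
    | none => exact absurd (hun none h0) hz'
    | some a =>
      cases hv : A.val (some a) with
      | none => exact absurd (hun _ hv) hz'
      | some p =>
        rw [Finset.mem_biUnion]
        exact ⟨p, hR a p hv hz', Finset.mem_map.2 ⟨a, (mem_fC hn).2 hv, rfl⟩⟩
  rw [Finset.sum_subset hsub, Finset.sum_biUnion]
  · refine Finset.sum_congr rfl fun p _ => ?_
    rw [Finset.sum_map]
    rfl
  · intro p _ p' _ hne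
    rw [Function.onFun, Finset.disjoint_left]
    intro z hz hz'
    rw [Finset.mem_map] at hz hz'
    obtain ⟨a, ha, rfl⟩ := hz
    obtain ⟨a', ha', h1⟩ := hz'
    have h2 : a' = a := Option.some_injective ℂ h1
    rw [h2] at ha'
    have h3 := (mem_fC hn).1 ha
    rw [(mem_fC hn).1 ha'] at h3
    exact hne (Option.some_injective ℂ h3).symm
  · intro z _ hz
    have hz' : A.e z = 1 := by
      by_contra h
      exact hz (by simpa using h)
    rw [hz']
    norm_num

theorem CDefs_surj (A : RF) (hn : 1 ≤ A.n) (c : P1) : ∃ z, A.val z = c := by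
  have h1 := A.sum_e hn c
  by_contra h
  push Not at h
  have h2 : (A.fiber_finite hn c).toFinset = ∅ := by
    ext z
    simp [h z]
  rw [h2, Finset.sum_empty] at h1
  omega

/-- Consequences of `A = B ∘ C` and the normalisation.

Proof.  `comp_facts`.  `C(∞) = ∞` (`Quad_val_none`) and `A(∞) = ∞`, so `B(∞) = ∞`, which gives
`Q_B` smaller degree.  `A.e = B.e * C.e = 1` over infinity.  At `q`: `ord_GG` for `C` and
`(a, b) = (q, q)` gives `ord_q (GG C)(q) = C.e q`, and `gg`, `ordq`, `ord_q (q - x) = 1` give `2`.  So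
`B.e (C q) = 1`. -/
theorem Cl.facts {A B C : RF} {c q : ℂ} {mu0 : E[X]} (h : Cl A B C c q mu0) :
    2 ≤ C.n ∧ 1 ≤ B.n ∧ A.n = B.n * C.n ∧ (∀ z, A.val z = B.val (C.val z)) ∧
      (∀ z, A.e z = B.e (C.val z) * C.e z) ∧ B.Q.natDegree < B.P.natDegree ∧
      (∀ z, B.val z = none → B.e z = 1) ∧ (∀ z, A.val z = none → C.e z = 1) ∧
      C.e (some q) = 2 ∧ B.e (C.val (some q)) = 1 ∧
      (∀ w, w ≠ some q → A.val w = some c → C.e w = 1 ∧ B.e (C.val w) = 1) ∧ DT C := by
  have hA : 1 ≤ A.n := by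
    have h1 := h.norm.two
    have h2 : A.P.natDegree ≤ A.n := le_max_left _ _
    omega
  have hC : 1 ≤ C.n := by
    have h1 := h.lt
    have h2 : C.P.natDegree ≤ C.n := le_max_left _ _
    omega
  obtain ⟨hB, hmul, hval, he⟩ := comp_facts h.comp hA hC
  have hA0 : A.val none = none := Quad_val_none A h.norm.lt
  have hC0 : C.val none = none := Quad_val_none C h.lt
  have hB0 : B.val none = none := by
    have h1 := hval none
    rw [hA0, hC0] at h1
    exact h1.symm
  have hBlt : B.Q.natDegree < B.P.natDegree := by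
    by_contra hge
    push Not at hge
    have hBn : B.n = B.Q.natDegree := max_eq_right hge
    have h1 : B.Q.coeff B.n ≠ 0 := by
      rw [hBn]
      exact leadingCoeff_ne_zero.2 (B.Q_ne_zero hB)
    have h2 : B.val none = some (B.P.coeff B.n / B.Q.coeff B.n) := if_neg h1
    rw [hB0] at h2
    exact absurd h2 (by simp)
  have hAq : A.val (some q) = some c := (Quad_val_some A).2 ⟨h.norm.Qne, h.norm.val⟩
  have hCQ : C.Q.eval q ≠ 0 := by
    intro h0
    have h1 : C.val (some q) = none := if_pos h0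
    have h2 := hval (some q)
    rw [h1, hB0, hAq] at h2
    exact absurd h2 (by simp)
  obtain ⟨c', hc'⟩ : ∃ c', C.P.eval q = c' * C.Q.eval q :=
    ⟨C.P.eval q / C.Q.eval q, (div_mul_cancel₀ _ hCQ).symm⟩
  have hCe : C.e (some q) = 2 := by
    obtain ⟨h1, h2⟩ := ord_GG C hC hc' hCQ hc' hCQ
    have h3 : C.e (some q) = (C.P - Polynomial.C c' * C.Q).rootMultiplicity q :=
      e_fC hC ((mem_fC' hC).2 ⟨hCQ, hc'⟩)
    rw [h.gg, eval_mul, eval_sub, eval_X, eval_C] at h1 h2
    have h4 : (algebraMap ℂ E q - RatFunc.X : E) ≠ 0 := left_ne_zero_of_mul h1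
    have h5 : mu0.eval (algebraMap ℂ E q) ≠ 0 := right_ne_zero_of_mul h1
    have h6 : (plE q).ord (algebraMap ℂ E q - RatFunc.X : E) = 1 := by
      have h7 : (algebraMap ℂ E q - RatFunc.X : E) =
          -(algebraMap ℂ[X] E (X - Polynomial.C q)) := by
        rw [map_sub, RatFunc.algebraMap_X, algC_E]
        ring
      rw [h7, Pl.ord_neg, plE_poly q (X_sub_C_ne_zero q), rootMultiplicity_X_sub_C_self]
      rfl
    rw [(plE q).ord_mul h4 h5, h6, h.ordq, ← h3] at h2
    have h8 : (C.e (some q) : ℤ) = 2 := by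
      rw [← h2]
      norm_num
    exact_mod_cast h8
  have hAe : A.e (some q) = 2 := by
    rw [e_fC hA ((mem_fC' hA).2 ⟨h.norm.Qne, h.norm.val⟩), h.norm.mult]
  have hC2 : 2 ≤ C.n := by
    rw [← hCe]
    exact C.e_le hC _
  refine ⟨hC2, hB, hmul, hval, he, hBlt, ?_, ?_, hCe, ?_, ?_, ⟨mu0, h.irr, h.gg⟩⟩
  · intro z hz
    obtain ⟨w, hw⟩ := CDefs_surj C hC z
    have h1 : A.val w = none := by rw [hval w, hw, hz]
    have h2 := he w
    rw [h.norm.unram w h1, hw] at h2
    exact Nat.eq_one_of_mul_eq_one_right h2.symm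
  · intro z hz
    have h2 := he z
    rw [h.norm.unram z hz] at h2
    exact Nat.eq_one_of_mul_eq_one_left h2.symm
  · have h2 := he (some q)
    rw [hAe, hCe] at h2
    omega
  · intro w hw hwc
    have h1 : A.e w = 1 := by
      cases w with
      | none =>
        rw [hA0] at hwc
        exact absurd hwc (by simp)
      | some a =>
        have ha : a ≠ q := fun h1 => hw (by rw [h1])
        have h2 := (mem_fC hA).2 hwc
        rw [e_fC hA h2]
        exact h.norm.simple a ha ((mem_fC' hA).1 h2).2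
    have h2 := he w
    rw [h1] at h2
    exact ⟨Nat.eq_one_of_mul_eq_one_left h2.symm, Nat.eq_one_of_mul_eq_one_right h2.symm⟩

end WildV
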