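import Pool.Agent.helper21.WV.CDefs

/-! Counting places over pairs of points. -/

namespace WildV

open Polynomial WildRat WildS

variable {K : Type} [Field K] [Algebra ℂ K]

open Classical in
/-- The places over the pair `(a, b)`. -/
noncomputable def PS (hK : Good K) (φ ψ : E →ₐ[ℂ] K) (a b : ℂ) : Finset (Pl K) :=
  (fibS φ (hK.fin φ) a).filter fun P => P ∈ fib ψ b

theorem mem_PS (hK : Good K) {φ ψ : E →ₐ[ℂ] K} {a b : ℂ} {P : Pl K} :
    P ∈ PS hK φ ψ a b ↔ P ∈ fib φ a ∧ P ∈ fib ψ b := by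
  classical
  unfold PS
  rw [Finset.mem_filter, mem_fibS]

/-- The order of `t - t0` at a place over a point of the fibre. -/
theorem Cnt_ord {A : RF} (hn : 1 ≤ A.n) (hlt : A.Q.natDegree < A.P.natDegree)
    {φ : E →ₐ[ℂ] K} {a t0 : ℂ} (ha : a ∈ fC A t0) {P : Pl K} (hP : P ∈ fib φ a) :
    (A.e (some a) : ℤ) * P.ord (φ RatFunc.X - algebraMap ℂ K a) =
      P.ord (φ (elt A) - algebraMap ℂ K t0) := by
  obtain ⟨hne, -, -, -, hord⟩ := Pair_ord A hlt a t0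
  have hqa : A.Q.rootMultiplicity a = 0 := by
    rw [rootMultiplicity_eq_zero_iff]
    intro hr
    exact absurd hr ((mem_fC' hn).1 ha).1
  have h1 : φ (elt A) - algebraMap ℂ K t0 = φ (elt A - algebraMap ℂ E t0) := by
    rw [map_sub, coord_C]
  rw [h1, ord_coord hP hne, hord, hqa, e_fC hn ha]
  simp

/-- A place at which `t - t0` is positive lies over a point of the fibre. -/
theorem Cnt_pt {A : RF} (hn : 1 ≤ A.n) (hlt : A.Q.natDegree < A.P.natDegree)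
    {φ : E →ₐ[ℂ] K} (hφ : FinC φ) {t0 : ℂ} {P : Pl K}
    (hP : 0 < P.ord (φ (elt A) - algebraMap ℂ K t0)) : ∃ a ∈ fC A t0, P ∈ fib φ a := by
  obtain ⟨hne, hG, hQ0, heq, -⟩ := Pair_ord A hlt 0 t0
  have h1 : φ (elt A) - algebraMap ℂ K t0 = φ (elt A - algebraMap ℂ E t0) := by
    rw [map_sub, coord_C]
  rw [h1] at hP
  have hpos := hP
  have hnn : 0 ≤ P.ord (φ RatFunc.X) := by
    by_contra hneg
    push Not at hneg
    have hinj : Function.Injective (algebraMap ℂ[X] E) := IsFractionRing.injective ℂ[X] E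
    have hQ' : φ (algebraMap ℂ[X] E A.Q) ≠ 0 := by
      intro h0
      apply hQ0
      apply hinj
      rw [map_zero]
      exact coord_inj φ (by rw [h0, map_zero])
    have hG' : φ (algebraMap ℂ[X] E (A.P - C t0 * A.Q)) ≠ 0 := by
      intro h0
      apply hG
      apply hinj
      rw [map_zero]
      exact coord_inj φ (by rw [h0, map_zero])
    have hdeg : (A.P - C t0 * A.Q).natDegree = A.P.natDegree := by
      apply natDegree_sub_eq_left_of_natDegree_lt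
      exact lt_of_le_of_lt (natDegree_C_mul_le t0 A.Q) hlt
    rw [heq, map_div₀, P.ord_div hG' hQ', ord_coord_pole hneg hG, ord_coord_pole hneg hQ0,
      hdeg] at hpos
    have hlt' : (A.Q.natDegree : ℤ) < A.P.natDegree := by exact_mod_cast hlt
    nlinarith
  obtain ⟨a, ha⟩ := exists_value φ hφ P hnn
  obtain ⟨-, -, -, -, hord⟩ := Pair_ord A hlt a t0
  have hφpos : 0 < P.ord (φ RatFunc.X - algebraMap ℂ K a) := ha
  rw [ord_coord ha hne, hord] at hpos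
  have h3 : (A.Q.rootMultiplicity a : ℤ) < (A.P - C t0 * A.Q).rootMultiplicity a := by
    by_contra hcon
    push Not at hcon
    have : (((A.P - C t0 * A.Q).rootMultiplicity a : ℤ) - (A.Q.rootMultiplicity a : ℤ)) *
        P.ord (φ RatFunc.X - algebraMap ℂ K a) ≤ 0 :=
      mul_nonpos_of_nonpos_of_nonneg (by linarith) hφpos.le
    linarith
  have hmb : 0 < (A.P - C t0 * A.Q).rootMultiplicity a := by omega
  refine ⟨a, ?_, ha⟩
  unfold fC
  rw [Multiset.mem_toFinset, mem_roots hG]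
  exact (rootMultiplicity_pos hG).1 hmb

theorem Cnt_sum {ι κ : Type} (s : Finset ι) (t : Finset κ) (r : ι → κ → Prop)
    [∀ i k, Decidable (r i k)] (f : ι → ℤ) (h : ∀ i ∈ s, ∃ k ∈ t, r i k ∧ ∀ k', r i k' → k' = k) :
    ∑ i ∈ s, f i = ∑ k ∈ t, ∑ i ∈ s.filter fun i => r i k, f i := by
  simp only [Finset.sum_filter]
  rw [Finset.sum_comm]
  refine Finset.sum_congr rfl fun i hi => ?_
  obtain ⟨k, hk, hr, hu⟩ := h i hi
  rw [Finset.sum_eq_single k, if_pos hr]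
  · intro k' _ hne
    exact if_neg fun h' => hne (hu k' h')
  · intro h'
    exact absurd hk h'

/-- At a place over `(a, b)`: `A(a) = A(b)` and
`A.e a * ord (φ X - a) = A.e b * ord (ψ X - b) = ord (t - t0)`.  Proof: `place_pair`, `e_fC`, and
`Pair_ord` with `ord_coord` for the last equality. -/
theorem PS_ord (hK : Good K) {A : RF} (hn : 1 ≤ A.n) (hlt : A.Q.natDegree < A.P.natDegree)
    {φ ψ : E →ₐ[ℂ] K} (h : φ (elt A) = ψ (elt A)) {a b t0 : ℂ} (ha : a ∈ fC A t0) {P : Pl K}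
    (hP : P ∈ PS hK φ ψ a b) :
    b ∈ fC A t0 ∧
    (A.e (some a) : ℤ) * P.ord (φ RatFunc.X - algebraMap ℂ K a) =
      P.ord (φ (elt A) - algebraMap ℂ K t0) ∧
    (A.e (some b) : ℤ) * P.ord (ψ RatFunc.X - algebraMap ℂ K b) =
      P.ord (φ (elt A) - algebraMap ℂ K t0) := by
  rw [mem_PS] at hP
  obtain ⟨hPa, hPb⟩ := hP
  obtain ⟨hQa, hA⟩ := (mem_fC' hn).1 ha
  obtain ⟨b', hb', hQb, hAb, -⟩ := place_pair A hlt (hK.fin ψ) h hPa hQa hA
  have hbb : b' = b := P.value_unique hb' hPb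
  subst hbb
  have hb : b' ∈ fC A t0 := (mem_fC' hn).2 ⟨hQb, hAb⟩
  refine ⟨hb, Cnt_ord hn hlt ha hPa, ?_⟩
  rw [h]
  exact Cnt_ord hn hlt hb hPb

/-- A place over `a` lies over `(a, b)` for exactly one `b`.  Proof: `place_pair`,
`Pl.value_unique`. -/
theorem PS_cover (hK : Good K) {A : RF} (hn : 1 ≤ A.n) (hlt : A.Q.natDegree < A.P.natDegree)
    {φ ψ : E →ₐ[ℂ] K} (h : φ (elt A) = ψ (elt A)) {a t0 : ℂ} (ha : a ∈ fC A t0)
    (f : Pl K → ℤ) :
    ∑ P ∈ fibS φ (hK.fin φ) a, f P = ∑ b ∈ fC A t0, ∑ P ∈ PS hK φ ψ a b, f P := by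
  classical
  unfold PS
  refine Cnt_sum _ _ (fun P b => P ∈ fib ψ b) f fun P hP => ?_
  rw [mem_fibS] at hP
  obtain ⟨hQa, hA⟩ := (mem_fC' hn).1 ha
  obtain ⟨b, hb, hQb, hAb, -⟩ := place_pair A hlt (hK.fin ψ) h hP hQa hA
  exact ⟨b, (mem_fC' hn).2 ⟨hQb, hAb⟩, hb, fun b' hb' => P.value_unique hb' hb⟩

/-- The same with the roles exchanged. -/
theorem PS_cover' (hK : Good K) {A : RF} (hn : 1 ≤ A.n) (hlt : A.Q.natDegree < A.P.natDegree)
    {φ ψ : E →ₐ[ℂ] K} (h : φ (elt A) = ψ (elt A)) {b t0 : ℂ} (hb : b ∈ fC A t0)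
    (f : Pl K → ℤ) :
    ∑ P ∈ fibS ψ (hK.fin ψ) b, f P = ∑ a ∈ fC A t0, ∑ P ∈ PS hK φ ψ a b, f P := by
  rw [PS_cover hK hn hlt h.symm hb f]
  refine Finset.sum_congr rfl fun a _ => ?_
  refine Finset.sum_congr ?_ fun _ _ => rfl
  ext P
  rw [mem_PS, mem_PS, and_comm]

/-- The intersection number `I(a, b) = ∑ ord (ψ X - b)` over the places over `(a, b)` is
`m * ord_a mu(b)`.  Proof: `mu_norm`; at the other places over `a` the order of `ψ X - b` is zero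
(`PS_cover` or `Pl.ord_sub_of_ne`).  The `m` is the same for all `a, b`. -/
theorem PS_mu (hK : Good K) {A : RF} (hn : 1 ≤ A.n) (hlt : A.Q.natDegree < A.P.natDegree)
    {φ ψ : E →ₐ[ℂ] K} (h : φ (elt A) = ψ (elt A)) : ∃ m : ℕ, 0 < m ∧
      m * (mu φ (ψ RatFunc.X)).natDegree = deg φ ∧ ∀ a b t0 : ℂ, a ∈ fC A t0 →
        ∑ P ∈ PS hK φ ψ a b, P.ord (ψ RatFunc.X - algebraMap ℂ K b) =
          m * (plE a).ord ((mu φ (ψ RatFunc.X)).eval (algebraMap ℂ E b)) := by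
  obtain ⟨m, hm, hdeg, hmu⟩ := mu_norm φ (hK.fin φ) (ψ RatFunc.X)
  refine ⟨m, hm, hdeg, fun a b t0 ha => ?_⟩
  have hne : ψ RatFunc.X ≠ algebraMap ℂ K b := fun h' => coord_sub_ne ψ b (by rw [h', sub_self])
  rw [← (hmu a b hne).2]
  refine Finset.sum_subset ?_ fun P hP hP' => ?_
  · intro P hP
    rw [mem_fibS]
    exact ((mem_PS hK).1 hP).1
  · rw [mem_fibS] at hP
    rw [mem_PS] at hP'
    obtain ⟨hQa, hA⟩ := (mem_fC' hn).1 ha
    obtain ⟨b', hb', -, -, -⟩ := place_pair A hlt (hK.fin ψ) h hP hQa hA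
    have hbb : b' ≠ b := by
      rintro rfl
      exact hP' ⟨hP, hb'⟩
    exact (P.ord_sub_of_ne hb' hbb).2

/-- The number of places: every `ord (t - t0)` is a positive multiple of `A.e a` and of `A.e b`, hence
at least `lcm`.  So `card * lcm ≤ ∑ ord (t - t0) = A.e b * ∑ ord (ψ X - b)`. -/
theorem PS_card (hK : Good K) {A : RF} (hn : 1 ≤ A.n) (hlt : A.Q.natDegree < A.P.natDegree)
    {φ ψ : E →ₐ[ℂ] K} (h : φ (elt A) = ψ (elt A)) {a b t0 : ℂ} (ha : a ∈ fC A t0) :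
    ((PS hK φ ψ a b).card : ℤ) * Nat.lcm (A.e (some a)) (A.e (some b)) ≤
      A.e (some b) * ∑ P ∈ PS hK φ ψ a b, P.ord (ψ RatFunc.X - algebraMap ℂ K b) := by
  rw [Finset.mul_sum, ← nsmul_eq_mul]
  refine Finset.card_nsmul_le_sum _ _ _ fun P hP => ?_
  obtain ⟨hb, h1, h2⟩ := PS_ord hK hn hlt h ha hP
  have hPb : 0 < P.ord (ψ RatFunc.X - algebraMap ℂ K b) := ((mem_PS hK).1 hP).2
  have heb : 0 < (A.e (some b) : ℤ) := by exact_mod_cast A.one_le_e hn (some b)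
  refine Int.le_of_dvd (mul_pos heb hPb) ?_
  have h3 : (A.e (some a) : ℤ) ∣ (A.e (some b) : ℤ) * P.ord (ψ RatFunc.X - algebraMap ℂ K b) := by
    rw [h2, ← h1]
    exact dvd_mul_right _ _
  have h4 := Int.coe_lcm_dvd h3 (dvd_mul_right (A.e (some b) : ℤ)
    (P.ord (ψ RatFunc.X - algebraMap ℂ K b)))
  exact h4

/-- Row sums.  Proof: `PS_cover` with `f P = ord (t - t0) = A.e a * ord (φ X - a)` and `sum_self`. -/
theorem PS_row (hK : Good K) {A : RF} (hn : 1 ≤ A.n) (hlt : A.Q.natDegree < A.P.natDegree)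
    {φ ψ : E →ₐ[ℂ] K} (h : φ (elt A) = ψ (elt A)) {a t0 : ℂ} (ha : a ∈ fC A t0) :
    ∑ b ∈ fC A t0, (A.e (some b) : ℤ) *
        ∑ P ∈ PS hK φ ψ a b, P.ord (ψ RatFunc.X - algebraMap ℂ K b) =
      A.e (some a) * deg φ := by
  have h1 : ∀ b ∈ fC A t0, (A.e (some b) : ℤ) *
      ∑ P ∈ PS hK φ ψ a b, P.ord (ψ RatFunc.X - algebraMap ℂ K b) =
      ∑ P ∈ PS hK φ ψ a b, P.ord (φ (elt A) - algebraMap ℂ K t0) := by
    intro b _
    rw [Finset.mul_sum]
    exact Finset.sum_congr rfl fun P hP => (PS_ord hK hn hlt h ha hP).2.2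
  rw [Finset.sum_congr rfl h1, ← PS_cover hK hn hlt h ha fun P =>
    P.ord (φ (elt A) - algebraMap ℂ K t0), ← sum_self φ (hK.fin φ) a, Finset.mul_sum]
  refine Finset.sum_congr rfl fun P hP => ?_
  rw [mem_fibS] at hP
  exact (Cnt_ord hn hlt ha hP).symm

/-- Column sums.  Proof: `PS_cover'` with `f P = ord (ψ X - b)`, `sum_self`, `deg_eq`. -/
theorem PS_col (hK : Good K) {A : RF} (hn : 1 ≤ A.n) (hlt : A.Q.natDegree < A.P.natDegree)
    {φ ψ : E →ₐ[ℂ] K} (h : φ (elt A) = ψ (elt A)) {b t0 : ℂ} (hb : b ∈ fC A t0) :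
    ∑ a ∈ fC A t0, ∑ P ∈ PS hK φ ψ a b, P.ord (ψ RatFunc.X - algebraMap ℂ K b) = deg φ := by
  have h1 : ∀ a ∈ fC A t0, ∑ P ∈ PS hK φ ψ a b, P.ord (ψ RatFunc.X - algebraMap ℂ K b) =
      ∑ P ∈ PS hK φ ψ a b, (fun P : Pl K => P.ord (ψ RatFunc.X - algebraMap ℂ K b)) P :=
    fun a _ => rfl
  rw [Finset.sum_congr rfl h1, ← PS_cover' hK hn hlt h hb, deg_eq A hn h]
  exact sum_self ψ (hK.fin ψ) b

/-- Riemann-Hurwitz for `t = A(x)`.

Proof.  Let `α : E → E`, `X ↦ elt A` (`exists_subst`, `elt_nonConst`), `θ = φ.comp α`, so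
`θ X = φ (elt A)` and `deg θ = A.n * deg φ` (`deg_comp`, `deg_elt`).  `P ∈ fib θ t0` iff `P ∈ fib φ a` for
some `a ∈ fC A t0`: if `φ X` has the finite value `a`, then `φ (elt A)` has the value `A(a)` (or a pole),
and if `φ X` has a pole then so has `φ (elt A)` because `A(∞) = ∞` (`exists_value`,
`ord_coord`, `Pair_ord`, `ord_coord_pole`).  So
`fibS θ t0` is the disjoint union of the `PS a b`, `a, b ∈ fC A t0`.  `hK.rh θ` applied to the disjoint
union of the `fibS θ t0`, `t0 ∈ R`, and `sum_self θ`. -/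
theorem PS_rh (hK : Good K) {A : RF} (hn : 1 ≤ A.n) (hlt : A.Q.natDegree < A.P.natDegree)
    {φ ψ : E →ₐ[ℂ] K} (h : φ (elt A) = ψ (elt A)) (R : Finset ℂ) :
    ∑ t0 ∈ R, ((A.n : ℤ) * deg φ -
      ∑ a ∈ fC A t0, ∑ b ∈ fC A t0, ((PS hK φ ψ a b).card : ℤ)) ≤ 2 * (A.n * deg φ) := by
  classical
  obtain ⟨α, hα⟩ := exists_subst (elt_nonConst A hn)
  set θ : E →ₐ[ℂ] K := φ.comp α with hθ
  have hθX : θ RatFunc.X = φ (elt A) := by
    rw [hθ, AlgHom.comp_apply, hα]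
  have hdeg : deg θ = A.n * deg φ := by
    rw [hθ, deg_comp, deg_elt A hn α hα]
  have hfib : ∀ (t0 : ℂ) (P : Pl K), P ∈ fib θ t0 ↔ ∃ a ∈ fC A t0, P ∈ fib φ a := by
    intro t0 P
    constructor
    · intro hP
      have h1 : 0 < P.ord (θ RatFunc.X - algebraMap ℂ K t0) := hP
      rw [hθX] at h1
      exact Cnt_pt hn hlt (hK.fin φ) h1
    · rintro ⟨a, ha, hP⟩
      show 0 < P.ord (θ RatFunc.X - algebraMap ℂ K t0)
      rw [hθX, ← Cnt_ord hn hlt ha hP]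
      have hPa : 0 < P.ord (φ RatFunc.X - algebraMap ℂ K a) := hP
      have hea : 0 < (A.e (some a) : ℤ) := by exact_mod_cast A.one_le_e hn (some a)
      exact mul_pos hea hPa
  have hcard : ∀ t0 : ℂ, ((fibS θ (hK.fin θ) t0).card : ℤ) =
      ∑ a ∈ fC A t0, ∑ b ∈ fC A t0, ((PS hK φ ψ a b).card : ℤ) := by
    intro t0
    have h1 : ∑ P ∈ fibS θ (hK.fin θ) t0, (1 : ℤ) =
        ∑ a ∈ fC A t0, ∑ P ∈ (fibS θ (hK.fin θ) t0).filter fun P => P ∈ fib φ a, (1 : ℤ) := by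
      refine Cnt_sum _ _ (fun P a => P ∈ fib φ a) (fun _ => 1) fun P hP => ?_
      rw [mem_fibS, hfib] at hP
      obtain ⟨a, ha, hPa⟩ := hP
      exact ⟨a, ha, hPa, fun a' ha' => P.value_unique ha' hPa⟩
    have h2 : ∑ P ∈ fibS θ (hK.fin θ) t0, (1 : ℤ) = ((fibS θ (hK.fin θ) t0).card : ℤ) := by
      simp
    rw [← h2, h1]
    refine Finset.sum_congr rfl fun a ha => ?_
    have h3 : ((fibS θ (hK.fin θ) t0).filter fun P => P ∈ fib φ a) = fibS φ (hK.fin φ) a := by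
      ext P
      rw [Finset.mem_filter, mem_fibS, mem_fibS, hfib]
      exact ⟨fun h' => h'.2, fun h' => ⟨⟨a, ha, h'⟩, h'⟩⟩
    rw [h3, PS_cover hK hn hlt h ha fun _ => 1]
    simp
  have hrh := hK.rh θ (R.biUnion fun t0 => fibS θ (hK.fin θ) t0)
    (fun P => if h' : ∃ a, P ∈ fib θ a then h'.choose else 0) (by
      intro P hP
      rw [Finset.mem_biUnion] at hP
      obtain ⟨t0, -, hP⟩ := hP
      rw [mem_fibS] at hP
      have h' : ∃ a, P ∈ fib θ a := ⟨t0, hP⟩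
      rw [dif_pos h']
      exact h'.choose_spec)
  rw [Finset.sum_biUnion] at hrh
  · rw [← Nat.cast_mul, ← hdeg]
    refine le_trans (le_of_eq ?_) hrh
    refine Finset.sum_congr rfl fun t0 _ => ?_
    rw [← hcard, ← sum_self θ (hK.fin θ) t0, Finset.card_eq_sum_ones, Nat.cast_sum,
      ← Finset.sum_sub_distrib]
    refine Finset.sum_congr rfl fun P hP => ?_
    rw [mem_fibS] at hP
    have h' : ∃ a, P ∈ fib θ a := ⟨t0, hP⟩
    rw [dif_pos h', P.value_unique h'.choose_spec hP, Nat.cast_one]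
  · intro t0 _ t1 _ hne
    rw [Function.onFun, Finset.disjoint_left]
    intro P hP hP'
    rw [mem_fibS] at hP hP'
    exact hne (P.value_unique hP hP')

end WildV
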