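import Pool.Agent.helper21.WV.Defs

/-! Factors of `C(T) - C(x)` and pairs of coordinates; doubly transitive functions. -/

namespace WildV

open Polynomial WildRat WildS

variable {K : Type} [Field K] [Algebra ℂ K]

/-- The degree of `P(T) - A(x) Q(T)` in `T` is `n`.  Proof: the coefficient of `T ^ n` is
`p - A(x) q` with complex numbers `(p, q) ≠ (0, 0)`, and `A(x)` is not constant (`elt_nonConst`). -/
theorem GG_natDegree (A : RF) (hn : 1 ≤ A.n) : (GG A).natDegree = A.n := by
  have hcoeff : ∀ k, (GG A).coeff k =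
      algebraMap ℂ E (A.P.coeff k) - elt A * algebraMap ℂ E (A.Q.coeff k) := by
    intro k
    unfold GG
    rw [coeff_sub, coeff_C_mul, coeff_map, coeff_map]
  refine le_antisymm ?_ ?_
  · rw [natDegree_le_iff_coeff_eq_zero]
    intro k hk
    have h1 : A.P.natDegree < k := lt_of_le_of_lt (le_max_left _ _) hk
    have h2 : A.Q.natDegree < k := lt_of_le_of_lt (le_max_right _ _) hk
    rw [hcoeff, coeff_eq_zero_of_natDegree_lt h1, coeff_eq_zero_of_natDegree_lt h2]
    simp
  · apply le_natDegree_of_ne_zero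
    rw [hcoeff]
    intro h0
    by_cases hq : A.Q.coeff A.n = 0
    · have hp : A.P.coeff A.n = 0 := by
        rw [hq, map_zero, mul_zero, sub_zero, map_eq_zero] at h0
        exact h0
      have hnn : A.n = max A.P.natDegree A.Q.natDegree := rfl
      rcases le_total A.P.natDegree A.Q.natDegree with h | h
      · rw [max_eq_right h] at hnn
        rw [hnn] at hq
        have hq0 : A.Q = 0 := leadingCoeff_eq_zero.1 hq
        exact A.Q_ne_zero hn hq0
      · rw [max_eq_left h] at hnn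
        rw [hnn] at hp
        have hp0 : A.P = 0 := leadingCoeff_eq_zero.1 hp
        rw [hp0, natDegree_zero] at hnn
        omega
    · apply elt_nonConst A hn (A.P.coeff A.n / A.Q.coeff A.n)
      rw [map_div₀, eq_div_iff (by rwa [Ne, map_eq_zero])]
      exact (sub_eq_zero.1 h0).symm

/-- `x` is a root of `P(T) - A(x) Q(T)`.  Proof: unfold `GG`, `elt_eq`. -/
theorem GG_root (A : RF) (hn : 1 ≤ A.n) : (GG A).eval (RatFunc.X : E) = 0 := by
  have hQE : algebraMap ℂ[X] E A.Q ≠ 0 := by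
    rw [Ne, map_eq_zero_iff _ (RatFunc.algebraMap_injective ℂ)]
    exact A.Q_ne_zero hn
  have hx0 : algebraMap ℂ[X] E A.P = elt A * algebraMap ℂ[X] E A.Q := by
    rw [elt_eq, div_mul_cancel₀ _ hQE]
  unfold GG
  rw [eval_sub, eval_mul, eval_C, eval_map, eval_map]
  have e1 : ∀ p : ℂ[X], eval₂ (algebraMap ℂ E) RatFunc.X p = algebraMap ℂ[X] E p := fun p => by
    rw [← aeval_X_E]
    rfl
  rw [e1, e1, hx0, sub_self]

/-- Every irreducible factor of `(P(T) - A(x) Q(T)) / (T - x)` gives a pair of coordinates.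

Proof.  `K = AdjoinRoot F` (a field), `φ` = the embedding `E → K` (as a `ℂ`-algebra map), finite; `y` = the
root.  `F(y) = 0`, so `GG A` mapped by `φ` vanishes at `y`: `P(y) = φ(A(x)) Q(y)`; `Q(y) ≠ 0` by
coprimality; `y` is not constant (`elt A` is not constant and `φ` is injective), so there is `ψ` with
`ψ X = y` (`exists_subst`), and `φ (elt A) = ψ (elt A)` (`coord_elt`).  If `φ = ψ`, then `y = φ x`, so
`F(x) = 0`, `T - x` divides `F`, and `(T - x) ^ 2` divides `GG A`, contradicting `GG_separable`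
(`Separable.squarefree`).  `mu φ y` is the minimal polynomial of the root, associated to `F`
(`AdjoinRoot.minpoly_root` up to the leading coefficient, or `minpoly.dvd` and irreducibility; mind
that `mu` uses the algebra structure `φ.toRingHom.toAlgebra`, equal to the given one). -/
theorem exists_factor_pair (A : RF) (hn : 1 ≤ A.n) {F : E[X]} (hF : Irreducible F)
    (hd : (X - C RatFunc.X) * F ∣ GG A) :
    ∃ (K : Type) (_ : Field K) (_ : Algebra ℂ K) (φ ψ : E →ₐ[ℂ] K), FinC φ ∧ φ ≠ ψ ∧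
      φ (elt A) = ψ (elt A) ∧ Associated (mu φ (ψ RatFunc.X)) F := by
  have hfact : Fact (Irreducible F) := ⟨hF⟩
  let φ : E →ₐ[ℂ] AdjoinRoot F := IsScalarTower.toAlgHom ℂ E (AdjoinRoot F)
  have hφ : φ.toRingHom = AdjoinRoot.of F := rfl
  have hφ' : ∀ u : E, φ u = AdjoinRoot.of F u := fun u => rfl
  set y : AdjoinRoot F := AdjoinRoot.root F with hy
  have hFG : F ∣ GG A := (dvd_mul_left _ _).trans hd
  have hroot : (GG A).eval₂ (AdjoinRoot.of F) y = 0 :=
    eval₂_eq_zero_of_dvd_of_eval₂_eq_zero _ _ hFG (AdjoinRoot.eval₂_root F)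
  have hev : ∀ p : ℂ[X], eval₂ (AdjoinRoot.of F) y (p.map (algebraMap ℂ E)) = aeval y p := by
    intro p
    rw [eval₂_map, aeval_def]
    rfl
  have hPQ : aeval y A.P = φ (elt A) * aeval y A.Q := by
    rw [GG, eval₂_sub, eval₂_mul, eval₂_C, hev, hev] at hroot
    exact sub_eq_zero.1 hroot
  have hyN : NonConst y := by
    intro c hc
    rw [hc, aeval_algebraMap_apply_eq_algebraMap_eval,
      aeval_algebraMap_apply_eq_algebraMap_eval] at hPQ
    by_cases hq : A.Q.eval c = 0
    · rw [hq, map_zero, mul_zero, map_eq_zero] at hPQ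
      obtain ⟨u, v, huv⟩ := A.cop
      have := congrArg (Polynomial.eval c) huv
      rw [eval_add, eval_mul, eval_mul, hPQ, hq] at this
      simp at this
    · apply elt_nonConst A hn (A.P.eval c / A.Q.eval c)
      apply coord_inj φ
      rw [coord_C, map_div₀, hPQ, mul_div_assoc, div_self, mul_one]
      rwa [Ne, map_eq_zero]
  obtain ⟨ψ, hψ⟩ := exists_subst hyN
  have hint0 : IsIntegral E y := by
    have : IsAlgebraic E y := ⟨F, hF.ne_zero, by
      rw [aeval_def]; exact AdjoinRoot.eval₂_root F⟩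
    exact this.isIntegral
  refine ⟨AdjoinRoot F, inferInstance, inferInstance, φ, ψ, ?_, ?_, ?_, ?_⟩
  · have hfin : Module.Finite E (AdjoinRoot F) := (AdjoinRoot.powerBasis hF.ne_zero).finite
    have h1 : (algebraMap E (AdjoinRoot F)).Finite := RingHom.finite_algebraMap.2 hfin
    exact h1
  · intro heq
    have h1 : AdjoinRoot.mk F (X - C RatFunc.X) = 0 := by
      rw [map_sub, AdjoinRoot.mk_X, AdjoinRoot.mk_C, sub_eq_zero, ← hy, ← hψ, ← heq]
      rfl
    rw [AdjoinRoot.mk_eq_zero] at h1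
    have h2 : F * F ∣ GG A := (mul_dvd_mul_right h1 F).trans hd
    exact hF.not_isUnit ((GG_separable A hn).squarefree F h2)
  · rw [coord_elt ψ, hψ]
    unfold RF.app
    rw [hPQ, mul_div_assoc, div_self, mul_one]
    exact hyN.aeval_ne_zero (A.Q_ne_zero hn)
  · rw [hψ]
    unfold mu
    let := φ.toRingHom.toAlgebra
    have h1 : aeval (R := E) y F = 0 := by
      rw [aeval_def]
      exact AdjoinRoot.eval₂_root F
    have h2 : IsIntegral E y := by
      have : IsAlgebraic E y := ⟨F, hF.ne_zero, h1⟩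
      exact this.isIntegral
    exact (minpoly.irreducible h2).associated_of_dvd hF (minpoly.dvd E y h1)

/-- A function of degree at least two has a pair.  Proof: `GG A = (T - x) G` (`GG_root`), `G` has
degree `n - 1 ≥ 1` (`GG_natDegree`) and an irreducible factor; `exists_factor_pair`; the degree of
`mu φ (ψ X)` is the degree of the factor. -/
theorem exists_pair (A : RF) (hn : 2 ≤ A.n) :
    ∃ (K : Type) (_ : Field K) (_ : Algebra ℂ K) (φ ψ : E →ₐ[ℂ] K), FinC φ ∧ φ ≠ ψ ∧
      φ (elt A) = ψ (elt A) ∧ (mu φ (ψ RatFunc.X)).natDegree + 1 ≤ A.n := by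
  have hn1 : 1 ≤ A.n := by omega
  have hroot : (X - C RatFunc.X : E[X]) ∣ GG A := by
    rw [dvd_iff_isRoot, IsRoot.def]
    exact GG_root A hn1
  obtain ⟨G, hG⟩ := hroot
  have hG0 : G ≠ 0 := by
    rintro rfl
    rw [mul_zero] at hG
    exact Gauss_GG_ne A hn1 hG
  have hdeg : A.n = 1 + G.natDegree := by
    rw [← GG_natDegree A hn1, hG, natDegree_mul (X_sub_C_ne_zero _) hG0, natDegree_X_sub_C]
  have hGu : ¬ IsUnit G := by
    intro hu
    have := natDegree_eq_zero_of_isUnit hu
    omega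
  obtain ⟨F, hF, hFG⟩ := WfDvdMonoid.exists_irreducible_factor hGu hG0
  obtain ⟨K, i1, i2, φ, ψ, h1, h2, h3, h4⟩ := exists_factor_pair A hn1 hF
    (by rw [hG]; exact mul_dvd_mul_left _ hFG)
  refine ⟨K, i1, i2, φ, ψ, h1, h2, h3, ?_⟩
  have h5 : (mu φ (ψ RatFunc.X)).natDegree = F.natDegree :=
    natDegree_eq_of_degree_eq (degree_eq_degree_of_associated h4)
  have h6 := natDegree_le_of_dvd hFG hG0
  omega

/-- For a doubly transitive `C` every pair has `mu = mu0`.  Proof: `NN_dvd` gives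
`(T - x) mu ∣ GG C = (T - x) mu0`, so `mu ∣ mu0`; `mu` is not a unit (`mu_pos`), so it is associated to
`mu0`; degrees by `GG_natDegree`. -/
theorem DT_deg {C : RF} (hn : 1 ≤ C.n) (hC : DT C) {φ ψ : E →ₐ[ℂ] K} (hφ : FinC φ) (hne : φ ≠ ψ)
    (h : φ (elt C) = ψ (elt C)) : (mu φ (ψ RatFunc.X)).natDegree + 1 = C.n := by
  obtain ⟨mu0, hirr, hGG⟩ := hC
  have h1 := NN_dvd C hn hne h
  unfold NN at h1
  rw [hGG] at h1
  have h2 : mu φ (ψ RatFunc.X) ∣ mu0 := (mul_dvd_mul_iff_left (X_sub_C_ne_zero _)).1 h1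
  obtain ⟨hm, hpos⟩ := mu_pos φ hφ (ψ RatFunc.X)
  have h3 : ¬ IsUnit (mu φ (ψ RatFunc.X)) := by
    intro hu
    have := natDegree_eq_zero_of_isUnit hu
    omega
  have h4 : Associated (mu φ (ψ RatFunc.X)) mu0 := by
    obtain ⟨q, hq⟩ := h2
    rcases hirr.isUnit_or_isUnit hq with h | h
    · exact absurd h h3
    · rw [hq]
      exact (associated_mul_unit_right _ _ h)
  have h5 : (mu φ (ψ RatFunc.X)).natDegree = mu0.natDegree :=
    natDegree_eq_of_degree_eq (degree_eq_degree_of_associated h4)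
  rw [← GG_natDegree C hn, hGG, natDegree_mul (X_sub_C_ne_zero _) hirr.ne_zero,
    natDegree_X_sub_C, h5, add_comm]

/-- `B ∘ C1 = C` makes a pair for `C1` a pair for `C`.  Proof: `elt C = B.app (elt C1)`
(`RF.IsComp`), `app_map`. -/
theorem comp_pair {C B C1 : RF} (h : C.IsComp B C1) {φ ψ : E →ₐ[ℂ] K}
    (h1 : φ (elt C1) = ψ (elt C1)) : φ (elt C) = ψ (elt C) := by
  have h0 : elt C = B.app (elt C1) := h
  rw [h0, app_map, app_map, h1]

/-- Doubly transitive functions are indecomposable.  Proof: if `2 ≤ C1.n`, take the pair of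
`exists_pair C1`, a pair for `C` by `comp_pair`; `DT_deg` gives `C.n ≤ C1.n`, and
`C.n = B.n * C1.n` (`comp_facts`). -/
theorem DT_indec {C B C1 : RF} (hn : 1 ≤ C.n) (hC : DT C) (hC1 : 1 ≤ C1.n)
    (h : C.IsComp B C1) : C1.n = 1 ∨ B.n = 1 := by
  obtain ⟨hBn, hmul, -, -⟩ := comp_facts h hn hC1
  by_cases h1 : C1.n = 1
  · exact Or.inl h1
  · right
    have h2 : 2 ≤ C1.n := by omega
    obtain ⟨K, i1, i2, φ, ψ, hφ, hne, heq, hdeg⟩ := exists_pair C1 h2
    have h3 := DT_deg hn hC hφ hne (comp_pair h heq)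
    have h4 : C.n ≤ C1.n := by omega
    rw [hmul] at h4
    nlinarith

end WildV
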