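import Pool.Agent.helper21.WS.Main

/-!
# Wild rational functions with one simple critical value: definitions (helper21, MP_11236d_an)

Goal: if `A` has at least one simple critical value, then `A` is wild if and only if
`A = B ∘ C` with `C` of degree three or of one of the six types below.
-/

namespace WildV

open Polynomial WildRat WildS

/-- The weight of a partition: `∑ (a - gcd a b)` over all ordered pairs of parts. -/
def wt (L : Multiset ℕ) : ℕ := (L.map fun a => (L.map fun b => a - Nat.gcd a b).sum).sum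

/-- The sum of `gcd a b` over all ordered pairs of parts. -/
def gs (L : Multiset ℕ) : ℕ := (L.map fun a => (L.map fun b => Nat.gcd a b).sum).sum

/-- All parts but at most one are divisible by `m`. -/
def AD (m : ℕ) (L : Multiset ℕ) : Prop := ∃ (x : ℕ) (L' : Multiset ℕ), L = x ::ₘ L' ∧ ∀ e ∈ L', m ∣ e

/-- All parts are divisible by `m`. -/
def DD (m : ℕ) (L : Multiset ℕ) : Prop := ∀ e ∈ L, m ∣ e

open Classical in
/-- The fibre of a rational function over `c` (junk: empty, if it is infinite). -/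
noncomputable def fibP (C : RF) (c : P1) : Finset P1 :=
  if h : {z | C.val z = c}.Finite then h.toFinset else ∅

theorem mem_fibP {C : RF} (hn : 1 ≤ C.n) {c z : P1} : z ∈ fibP C c ↔ C.val z = c := by
  unfold fibP
  rw [dif_pos (C.fiber_finite hn c)]
  simp

theorem fibP_eq {C : RF} (hn : 1 ≤ C.n) (c : P1) :
    fibP C c = (C.fiber_finite hn c).toFinset := by
  ext z
  rw [mem_fibP hn]
  simp

/-- The multiset of the ramification indices over `c`. -/
noncomputable def pas (C : RF) (c : P1) : Multiset ℕ := (fibP C c).val.map C.e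

/-- A totally ramified point, and a fibre with exactly two points: up to Moebius maps
`x ^ a * (1 - x) ^ b`. -/
def TypAB (C : RF) : Prop :=
  2 ≤ C.n ∧ ∃ z z1 z2, C.e z = C.n ∧ z1 ≠ z2 ∧ C.val z1 = C.val z2 ∧ C.e z1 + C.e z2 = C.n

/-- Degree four with a totally ramified point. -/
def Typ4 (C : RF) : Prop := C.n = 4 ∧ ∃ z, C.e z = 4

/-- Degree four, one fibre `[2, 2]`, one fibre `[3, 1]`. -/
def Typ5 (C : RF) : Prop :=
  C.n = 4 ∧ ∃ z1 z2 u, z1 ≠ z2 ∧ C.val z1 = C.val z2 ∧ C.e z1 = 2 ∧ C.e z2 = 2 ∧ C.e u = 3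

/-- Degree five, one fibre `[5]`, one fibre `[2, 2, 1]`. -/
def Typ6 (C : RF) : Prop :=
  C.n = 5 ∧ ∃ z1 z2 u, z1 ≠ z2 ∧ C.val z1 = C.val z2 ∧ C.e z1 = 2 ∧ C.e z2 = 2 ∧ C.e u = 5

/-- Degree six, one fibre `[3, 3]`, one fibre `[4, 2]`. -/
def Typ7 (C : RF) : Prop :=
  C.n = 6 ∧ ∃ z1 z2 u v, z1 ≠ z2 ∧ C.val z1 = C.val z2 ∧ C.e z1 = 3 ∧ C.e z2 = 3 ∧
    C.val u = C.val v ∧ C.e u = 4 ∧ C.e v = 2

/-- Degree six, one fibre `[3, 3]`, one fibre `[2, 2, 2]`, and a point of index three in a third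
fibre. -/
def Typ8 (C : RF) : Prop :=
  C.n = 6 ∧ ∃ z1 z2 w1 w2 w3 u, z1 ≠ z2 ∧ C.val z1 = C.val z2 ∧ C.e z1 = 3 ∧ C.e z2 = 3 ∧
    w1 ≠ w2 ∧ w1 ≠ w3 ∧ w2 ≠ w3 ∧ C.val w1 = C.val w2 ∧ C.val w1 = C.val w3 ∧
    C.e w1 = 2 ∧ C.e w2 = 2 ∧ C.e w3 = 2 ∧ C.e u = 3 ∧ C.val u ≠ C.val z1

/-- The list of the right factors. -/
def Typ (C : RF) : Prop :=
  C.n = 3 ∨ TypAB C ∨ Typ4 C ∨ Typ5 C ∨ Typ6 C ∨ Typ7 C ∨ Typ8 C

/-- Doubly transitive: `(C(T) - C(x)) / (T - x)` is irreducible over `ℂ(x)`. -/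
def DT (C : RF) : Prop :=
  ∃ mu0 : E[X], Irreducible mu0 ∧ GG C = (X - Polynomial.C RatFunc.X) * mu0

end WildV
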