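import Pool.Agent.helper21.WV.Defs

/-! Moving the values; the power function. -/

namespace WildV

open Polynomial WildRat WildS

open Classical in
/-- The point with the homogeneous coordinates `u`, `v`. -/
noncomputable def KleinB_pt (u v : ℂ) : P1 := if v = 0 then none else some (u / v)

theorem KleinB_pt_smul {a : ℂ} (ha : a ≠ 0) (u v : ℂ) : KleinB_pt (a * u) (a * v) = KleinB_pt u v := by
  unfold KleinB_pt
  by_cases hv : v = 0
  · rw [if_pos hv, if_pos (by rw [hv, mul_zero])]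
  · rw [if_neg hv, if_neg (mul_ne_zero ha hv), mul_div_mul_left _ _ ha]

theorem KleinB_pt_eq {u v u' v' : ℂ} (h : u ≠ 0 ∨ v ≠ 0) (h' : u' ≠ 0 ∨ v' ≠ 0)
    (hd : u * v' = u' * v) : KleinB_pt u v = KleinB_pt u' v' := by
  unfold KleinB_pt
  by_cases hv : v = 0
  · have hu : u ≠ 0 := by simpa [hv] using h
    have hv' : v' = 0 := by
      rw [hv, mul_zero] at hd
      exact (mul_eq_zero.1 hd).resolve_left hu
    rw [if_pos hv, if_pos hv']
  · by_cases hv' : v' = 0
    · have hu' : u' ≠ 0 := by simpa [hv'] using h'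
      rw [hv', mul_zero] at hd
      exact absurd hd.symm (mul_ne_zero hu' hv)
    · rw [if_neg hv, if_neg hv', Option.some_inj, div_eq_div_iff hv hv', hd]

theorem KleinB_exists_pt (c : P1) : ∃ u v : ℂ, (u ≠ 0 ∨ v ≠ 0) ∧ c = KleinB_pt u v := by
  cases c with
  | none => exact ⟨1, 0, Or.inl one_ne_zero, by simp [KleinB_pt]⟩
  | some t => exact ⟨t, 1, Or.inr one_ne_zero, by simp [KleinB_pt]⟩

theorem KleinB_moebius (c : Fin 3 → P1) (hc : Function.Injective c) :
    ∃ M : RF, M.n = 1 ∧ M.val (some 0) = c 0 ∧ M.val (some 1) = c 1 ∧ M.val none = c 2 := by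
  obtain ⟨u0, v0, h0, e0⟩ := KleinB_exists_pt (c 0)
  obtain ⟨u1, v1, h1, e1⟩ := KleinB_exists_pt (c 1)
  obtain ⟨u2, v2, h2, e2⟩ := KleinB_exists_pt (c 2)
  have hD : u2 * v0 - u0 * v2 ≠ 0 := by
    intro h
    have : c 2 = c 0 := by
      rw [e2, e0]
      exact KleinB_pt_eq h2 h0 (sub_eq_zero.1 h)
    exact absurd (hc this) (by decide)
  have hA : u1 * v0 - u0 * v1 ≠ 0 := by
    intro h
    have : c 1 = c 0 := by
      rw [e1, e0]
      exact KleinB_pt_eq h1 h0 (sub_eq_zero.1 h)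
    exact absurd (hc this) (by decide)
  have hB : u2 * v1 - u1 * v2 ≠ 0 := by
    intro h
    have : c 2 = c 1 := by
      rw [e2, e1]
      exact KleinB_pt_eq h2 h1 (sub_eq_zero.1 h)
    exact absurd (hc this) (by decide)
  have hcop : IsCoprime (C ((u1 * v0 - u0 * v1) * u2) * X + C ((u2 * v1 - u1 * v2) * u0) : ℂ[X])
      (C ((u1 * v0 - u0 * v1) * v2) * X + C ((u2 * v1 - u1 * v2) * v0)) := by
    have hd : (u1 * v0 - u0 * v1) * (u2 * v1 - u1 * v2) * (u2 * v0 - u0 * v2) ≠ 0 :=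
      mul_ne_zero (mul_ne_zero hA hB) hD
    have h3 : (C ((u1 * v0 - u0 * v1) * (u2 * v1 - u1 * v2) * (u2 * v0 - u0 * v2)) : ℂ[X]) *
        C ((u1 * v0 - u0 * v1) * (u2 * v1 - u1 * v2) * (u2 * v0 - u0 * v2))⁻¹ = 1 := by
      rw [← C_mul, mul_inv_cancel₀ hd, C_1]
    refine ⟨-C ((u1 * v0 - u0 * v1) * v2) *
        C ((u1 * v0 - u0 * v1) * (u2 * v1 - u1 * v2) * (u2 * v0 - u0 * v2))⁻¹,
      C ((u1 * v0 - u0 * v1) * u2) *
        C ((u1 * v0 - u0 * v1) * (u2 * v1 - u1 * v2) * (u2 * v0 - u0 * v2))⁻¹, ?_⟩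
    rw [← h3]
    simp only [C_mul, C_sub]
    ring
  have hn : RF.n ⟨_, _, hcop⟩ = 1 := by
    unfold RF.n
    show max (C ((u1 * v0 - u0 * v1) * u2) * X + C ((u2 * v1 - u1 * v2) * u0) : ℂ[X]).natDegree
      (C ((u1 * v0 - u0 * v1) * v2) * X + C ((u2 * v1 - u1 * v2) * v0) : ℂ[X]).natDegree = 1
    rw [natDegree_add_C, natDegree_add_C]
    rcases h2 with h | h
    · rw [natDegree_C_mul_X _ (mul_ne_zero hA h)]
      exact max_eq_left ((natDegree_C_mul_le _ _).trans natDegree_X_le)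
    · rw [natDegree_C_mul_X _ (mul_ne_zero hA h)]
      exact max_eq_right ((natDegree_C_mul_le _ _).trans natDegree_X_le)
  refine ⟨⟨_, _, hcop⟩, hn, ?_, ?_, ?_⟩
  · rw [e0, ← KleinB_pt_smul hB u0 v0]
    simp only [RF.val, KleinB_pt, eval_add, eval_mul, eval_C, eval_X, mul_zero, zero_add]
  · rw [e1, ← KleinB_pt_smul hD u1 v1]
    have g1 : (u2 * v0 - u0 * v2) * u1 =
        (u1 * v0 - u0 * v1) * u2 + (u2 * v1 - u1 * v2) * u0 := by ring
    have g2 : (u2 * v0 - u0 * v2) * v1 =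
        (u1 * v0 - u0 * v1) * v2 + (u2 * v1 - u1 * v2) * v0 := by ring
    rw [g1, g2]
    simp only [RF.val, KleinB_pt, eval_add, eval_mul, eval_C, eval_X, mul_one]
  · rw [e2, ← KleinB_pt_smul hA u2 v2]
    simp only [RF.val, KleinB_pt]
    rw [hn]
    simp only [coeff_add, coeff_C_mul, coeff_X_one, mul_one, coeff_C_succ, add_zero]

/-- Three distinct values can be moved.  Proof: there is a Moebius map `M` (a rational function with
`M.n = 1`) with `M(0) = c 0`, `M(1) = c 1`, `M(∞) = c 2` (see WS/Normal.lean: `moebius_facts`,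
`Normal_S`, `Normal_T` and the compositions `exists_comp`; or explicitly by cases whether one of the
`c i` is infinite).  Take `B'` with `B'.IsComp M B`; `comp_facts`. -/
theorem klein_move (B : RF) (hB : 1 ≤ B.n) (c : Fin 3 → P1) (hc : Function.Injective c) :
    ∃ B' : RF, B'.n = B.n ∧ (∀ z, B'.e z = B.e z) ∧ (∀ z, B'.val z = c 0 ↔ B.val z = some 0) ∧
      (∀ z, B'.val z = c 1 ↔ B.val z = some 1) ∧ ∀ z, B'.val z = c 2 ↔ B.val z = none := by
  obtain ⟨M, hM, m0, m1, m2⟩ := KleinB_moebius c hc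
  obtain ⟨hMe, hMb, -⟩ := moebius_facts M hM
  obtain ⟨B', hB', hB'n⟩ := exists_comp M B (by rw [hM]) hB
  obtain ⟨-, hn', hv, he⟩ := comp_facts hB' hB'n hB
  refine ⟨B', ?_, ?_, ?_, ?_, ?_⟩
  · rw [hn', hM, one_mul]
  · intro z
    rw [he, hMe, one_mul]
  · intro z
    rw [hv, ← m0]
    exact hMb.1.eq_iff
  · intro z
    rw [hv, ← m1]
    exact hMb.1.eq_iff
  · intro z
    rw [hv, ← m2]
    exact hMb.1.eq_iff

theorem KleinB_pow {d : ℕ} (hd : 1 ≤ d) : ∃ B : RF, B.n = d ∧
    (∀ b, B.val b = some 0 → B.e b = d) ∧ (∀ b, B.val b = none → B.e b = d) ∧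
    ∀ b, B.val b ≠ some 0 → B.val b ≠ none → B.e b = 1 := by
  have hn : RF.n ⟨X ^ d, 1, isCoprime_one_right⟩ = d := by
    simp [RF.n]
  have hn1 : 1 ≤ RF.n ⟨X ^ d, 1, isCoprime_one_right⟩ := by rw [hn]; exact hd
  have hvs : ∀ z : ℂ, RF.val ⟨X ^ d, 1, isCoprime_one_right⟩ (some z) = some (z ^ d) := by
    intro z
    simp [RF.val]
  have hvn : RF.val ⟨X ^ d, 1, isCoprime_one_right⟩ none = none := by
    simp only [RF.val]
    rw [hn, if_pos]
    rw [coeff_one, if_neg (by omega)]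
  refine ⟨⟨X ^ d, 1, isCoprime_one_right⟩, hn, ?_, ?_, ?_⟩
  · intro b hb
    cases b with
    | none => rw [hvn] at hb; exact absurd hb (by simp)
    | some z =>
      have hz : z = 0 := by
        rw [hvs, Option.some_inj] at hb
        exact pow_eq_zero_iff (by omega) |>.1 hb
      unfold RF.e
      rw [hb, hz]
      simp only [RF.mult, RF.F, C_0, zero_mul, sub_zero]
      have := rootMultiplicity_X_sub_C_pow (0 : ℂ) d
      rwa [C_0, sub_zero] at this
  · intro b hb
    cases b with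
    | some z => rw [hvs] at hb; exact absurd hb (by simp)
    | none =>
      unfold RF.e
      rw [hb]
      simp only [RF.mult, RF.F]
      rw [hn, natDegree_one, Nat.sub_zero]
  · intro b hb hb'
    cases b with
    | none => exact absurd hvn hb'
    | some z =>
      have hz : z ^ d ≠ 0 := by
        intro h
        apply hb
        rw [hvs, h]
      refine le_antisymm ?_ (RF.one_le_e _ hn1 _)
      unfold RF.e
      rw [hvs]
      simp only [RF.mult, RF.F, mul_one]
      refine rootMultiplicity_le_one_of_separable ?_ z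
      exact separable_X_pow_sub_C _ (by exact_mod_cast (by omega : d ≠ 0)) hz

/-- The power function, moved to `c, c'`.  Proof: `X ^ d` (`P = X ^ d`, `Q = 1`) has index `d` at `0`
and infinity and index one elsewhere (derivative, or `rh_P1`); compose with a Moebius map
(e.g. `klein_move` with a third value, or directly). -/
theorem exists_power {d : ℕ} (hd : 1 ≤ d) {c c' : P1} (h : c ≠ c') : ∃ B : RF, B.n = d ∧
    (∀ b, B.val b = c → B.e b = d) ∧ (∀ b, B.val b = c' → B.e b = d) ∧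
    ∀ b, B.val b ≠ c → B.val b ≠ c' → B.e b = 1 := by
  classical
  obtain ⟨c1, hc1⟩ := Infinite.exists_notMem_finset ({c, c'} : Finset P1)
  rw [Finset.mem_insert, Finset.mem_singleton, not_or] at hc1
  obtain ⟨B0, hn, h0, hi, h1⟩ := KleinB_pow hd
  have hinj : Function.Injective (![c, c1, c'] : Fin 3 → P1) := by
    intro i j hij
    have a1 := hc1.1
    have a2 := hc1.2
    have a1' := Ne.symm a1
    have a2' := Ne.symm a2
    have h' := Ne.symm h
    fin_cases i <;> fin_cases j <;> simp_all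
  obtain ⟨B, hBn, hBe, b0, -, b2⟩ := klein_move B0 (by rw [hn]; exact hd) _ hinj
  refine ⟨B, by rw [hBn, hn], ?_, ?_, ?_⟩
  · intro b hb
    rw [hBe]
    exact h0 b ((b0 b).1 hb)
  · intro b hb
    rw [hBe]
    exact hi b ((b2 b).1 hb)
  · intro b hb hb'
    rw [hBe]
    exact h1 b (fun hh => hb ((b0 b).2 hh)) (fun hh => hb' ((b2 b).2 hh))

end WildV
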