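import Pool.Agent.helper21.WV.Defs

/-! The dihedral, octahedral and icosahedral functions. -/

namespace WildV

open Polynomial WildRat WildS

/-- If the polynomial of the fibre over `c` is a constant times an `m`-th power and the multiplicity
of infinity is divisible by `m`, then all indices over `c` are divisible by `m`. -/
theorem kleinC_dvd (B : RF) (c : P1) (m : ℕ) (a : ℂ) (ha : a ≠ 0) (g : ℂ[X]) (hg : g ≠ 0)
    (hF : B.F c = C a * g ^ m) (hn : m ∣ B.n - (B.F c).natDegree) (b : P1) (hb : B.val b = c) :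
    m ∣ B.e b := by
  unfold RF.e
  rw [hb]
  cases b with
  | none => exact hn
  | some z =>
    change m ∣ (B.F c).rootMultiplicity z
    have h0 : C a * g ^ m ≠ 0 := mul_ne_zero (by simpa using ha) (pow_ne_zero _ hg)
    rw [hF, rootMultiplicity_mul h0, rootMultiplicity_C, zero_add]
    rcases Nat.eq_zero_or_pos m with rfl | hm
    · simp
    · rw [← count_roots, roots_pow, Multiset.count_nsmul]
      exact dvd_mul_right _ _

/-- The dihedral function `(X ^ k + 1) ^ 2 / (4 X ^ k)`: over `0` all indices are divisible by two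
(`F 0 = (X ^ k + 1) ^ 2`, infinity is not over `0`), over `1` as well (`(X ^ k - 1) ^ 2`), over
infinity they are divisible by `k` (`Q = 4 X ^ k`, degree `2 k`, so the index at infinity is `k`). -/
theorem klein_dihedral (k : ℕ) (hk : 1 ≤ k) : ∃ B : RF, B.n = 2 * k ∧
    (∀ b, B.val b = some 0 → 2 ∣ B.e b) ∧ (∀ b, B.val b = some 1 → 2 ∣ B.e b) ∧
    ∀ b, B.val b = none → k ∣ B.e b := by
  have hcop0 : IsCoprime ((X : ℂ[X]) ^ k + 1) (X ^ k) := ⟨1, -1, by ring⟩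
  have hcop : IsCoprime (((X : ℂ[X]) ^ k + 1) ^ 2) (C 4 * X ^ k) := by
    refine IsCoprime.mul_right ?_ hcop0.pow_left
    exact (isCoprime_one_right).of_isCoprime_of_dvd_right
      (isUnit_C.2 (isUnit_iff_ne_zero.2 (by norm_num))).dvd
  have hd1 : ((X : ℂ[X]) ^ k + 1).natDegree = k := by
    have := natDegree_X_pow_add_C (n := k) (r := (1 : ℂ))
    simpa using this
  have hd2 : ((X : ℂ[X]) ^ k - 1).natDegree = k := by
    have := natDegree_X_pow_sub_C (n := k) (r := (1 : ℂ))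
    simpa using this
  have hdP : (((X : ℂ[X]) ^ k + 1) ^ 2).natDegree = 2 * k := by rw [natDegree_pow, hd1]
  have hdQ : (C (4 : ℂ) * X ^ k).natDegree = k := natDegree_C_mul_X_pow k 4 (by norm_num)
  let B : RF := ⟨_, _, hcop⟩
  have hBn : B.n = 2 * k := by
    change max _ _ = _
    rw [hdP, hdQ]
    omega
  have hF0 : B.F (some 0) = C 1 * ((X : ℂ[X]) ^ k + 1) ^ 2 := by
    change ((X : ℂ[X]) ^ k + 1) ^ 2 - C 0 * (C 4 * X ^ k) = _
    simp
  have hF1 : B.F (some 1) = C 1 * ((X : ℂ[X]) ^ k - 1) ^ 2 := by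
    change ((X : ℂ[X]) ^ k + 1) ^ 2 - C 1 * (C 4 * X ^ k) = _
    have : (C (4 : ℂ) : ℂ[X]) = 4 := map_ofNat C 4
    rw [this, C_1]
    ring
  have hFi : B.F none = C 4 * (X : ℂ[X]) ^ k := rfl
  have hne1 : ((X : ℂ[X]) ^ k + 1) ≠ 0 := by
    intro h
    rw [h, natDegree_zero] at hd1
    omega
  have hne2 : ((X : ℂ[X]) ^ k - 1) ≠ 0 := by
    intro h
    rw [h, natDegree_zero] at hd2
    omega
  refine ⟨B, hBn, ?_, ?_, ?_⟩
  · refine kleinC_dvd B _ 2 1 one_ne_zero _ hne1 hF0 ?_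
    rw [hF0, C_1, one_mul, hdP, hBn]
    simp
  · refine kleinC_dvd B _ 2 1 one_ne_zero _ hne2 hF1 ?_
    rw [hF1, C_1, one_mul, natDegree_pow, hd2, hBn]
    simp
  · refine kleinC_dvd B _ k 4 (by norm_num) X X_ne_zero hFi ?_
    rw [hFi, hdQ, hBn, two_mul, Nat.add_sub_cancel]

/-- The octahedral function.  With `f = X (1 - X ^ 4)` (degree 5 + a zero at infinity),
`W = 1 + 14 X ^ 4 + X ^ 8`, `T = 1 - 33 X ^ 4 - 33 X ^ 8 + X ^ 12` one has
`T ^ 2 = W ^ 3 - 108 f ^ 4`.  Take `P = T ^ 2`, `Q = - 108 f ^ 4`, so `P - Q = W ^ 3`: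
over `0`: divisible by two; over `1`: `P - Q = W ^ 3`, divisible by three; over infinity:
`f ^ 4`, degree 20, the point infinity has index `24 - 20 = 4`.  Coprimality of `P`, `Q`: it suffices that
`W` and `f` are coprime: `W(0) = 1` and `W = (X ^ 4 - 1) (X ^ 4 + 15) + 16`. -/
theorem klein_octa : ∃ B : RF, B.n = 24 ∧
    (∀ b, B.val b = some 0 → 2 ∣ B.e b) ∧ (∀ b, B.val b = some 1 → 3 ∣ B.e b) ∧
    ∀ b, B.val b = none → 4 ∣ B.e b := by
  obtain ⟨T, hT⟩ : ∃ T : ℂ[X], T = X ^ 12 - C 33 * X ^ 8 - C 33 * X ^ 4 + C 1 := ⟨_, rfl⟩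
  obtain ⟨W, hW⟩ : ∃ W : ℂ[X], W = X ^ 8 + C 14 * X ^ 4 + C 1 := ⟨_, rfl⟩
  obtain ⟨f, hf⟩ : ∃ f : ℂ[X], f = X ^ 5 - X := ⟨_, rfl⟩
  have dT : T.natDegree = 12 := by rw [hT]; compute_degree!
  have dW : W.natDegree = 8 := by rw [hW]; compute_degree!
  have df : f.natDegree = 5 := by rw [hf]; compute_degree!
  have hid : T ^ 2 - C (-108) * f ^ 4 = W ^ 3 := by
    rw [hT, hW, hf]
    have e1 : (C (33 : ℂ) : ℂ[X]) = 33 := map_ofNat C 33
    have e2 : (C (14 : ℂ) : ℂ[X]) = 14 := map_ofNat C 14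
    have e3 : (C (-108 : ℂ) : ℂ[X]) = -108 := by rw [map_neg, map_ofNat]
    rw [e1, e2, e3, C_1]
    ring
  have hc1 : IsCoprime T f := by
    have h1 : IsCoprime T (X : ℂ[X]) := by
      refine ⟨1, C 33 * X ^ 3 + C 33 * X ^ 7 - X ^ 11, ?_⟩
      rw [hT, C_1]
      ring
    have h2 : IsCoprime T ((X : ℂ[X]) ^ 4 - 1) := by
      refine ⟨-C (1 / 64), C (1 / 64) * (X ^ 8 - C 32 * X ^ 4 - C 65), ?_⟩
      have e1 : (C (33 : ℂ) : ℂ[X]) = 33 := map_ofNat C 33
      have e2 : (C (32 : ℂ) : ℂ[X]) = 32 := map_ofNat C 32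
      have e3 : (C (65 : ℂ) : ℂ[X]) = 65 := map_ofNat C 65
      have e4 : (C (1 / 64 : ℂ) : ℂ[X]) * 64 = 1 := by
        have : (64 : ℂ[X]) = C 64 := (map_ofNat C 64).symm
        rw [this, ← C_mul]
        norm_num
      rw [hT, e1, e2, e3, C_1]
      linear_combination e4
    have e : f = X * ((X : ℂ[X]) ^ 4 - 1) := by
      rw [hf]
      ring
    rw [e]
    exact h1.mul_right h2
  have hcop : IsCoprime (T ^ 2) (C (-108) * f ^ 4) := by
    refine IsCoprime.mul_right ?_ (hc1.pow)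
    exact (isCoprime_one_right).of_isCoprime_of_dvd_right
      (isUnit_C.2 (isUnit_iff_ne_zero.2 (by norm_num))).dvd
  have neT : T ≠ 0 := fun h => by rw [h, natDegree_zero] at dT; omega
  have neW : W ≠ 0 := fun h => by rw [h, natDegree_zero] at dW; omega
  have nef : f ≠ 0 := fun h => by rw [h, natDegree_zero] at df; omega
  have dP : (T ^ 2).natDegree = 24 := by rw [natDegree_pow, dT]
  have dQ : (C (-108) * f ^ 4).natDegree = 20 := by
    rw [natDegree_C_mul (by norm_num), natDegree_pow, df]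
  let B : RF := ⟨_, _, hcop⟩
  have hBn : B.n = 24 := by
    change max _ _ = _
    rw [dP, dQ]
    rfl
  have hF0 : B.F (some 0) = C 1 * T ^ 2 := by
    change T ^ 2 - C 0 * (C (-108) * f ^ 4) = _
    simp
  have hF1 : B.F (some 1) = C 1 * W ^ 3 := by
    change T ^ 2 - C 1 * (C (-108) * f ^ 4) = _
    rw [C_1, one_mul, one_mul, hid]
  have hFi : B.F none = C (-108) * f ^ 4 := rfl
  refine ⟨B, hBn, ?_, ?_, ?_⟩
  · refine kleinC_dvd B _ 2 1 one_ne_zero _ neT hF0 ?_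
    rw [hF0, C_1, one_mul, dP, hBn]
    decide
  · refine kleinC_dvd B _ 3 1 one_ne_zero _ neW hF1 ?_
    rw [hF1, C_1, one_mul, natDegree_pow, dW, hBn]
    decide
  · refine kleinC_dvd B _ 4 (-108) (by norm_num) _ nef hFi ?_
    rw [hFi, dQ, hBn]

/-- The icosahedral function.  With `f = X (X ^ 10 + 11 X ^ 5 - 1)` (degree 11 + a zero at infinity),
`H = - (X ^ 20 + 1) + 228 (X ^ 15 - X ^ 5) - 494 X ^ 10`,
`T = (X ^ 30 + 1) + 522 (X ^ 25 - X ^ 5) - 10005 (X ^ 20 + X ^ 10)` one has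
`T ^ 2 + H ^ 3 = 1728 f ^ 5`.  Take `P = T ^ 2`, `Q = 1728 f ^ 5`, so `P - Q = - H ^ 3`: over `0`
divisible by two, over `1` divisible by three, over infinity `f ^ 5`, degree 55, the point infinity has
index `60 - 55 = 5`.  Coprimality: `H` and `f` are coprime: `H(0) = -1`, and with `u = X ^ 5`,
`H = - (u ^ 4 + 1) + 228 (u ^ 3 - u) - 494 u ^ 2` is a unit modulo `u ^ 2 + 11 u - 1`
(division with remainder, an explicit certificate). -/
theorem klein_icosa : ∃ B : RF, B.n = 60 ∧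
    (∀ b, B.val b = some 0 → 2 ∣ B.e b) ∧ (∀ b, B.val b = some 1 → 3 ∣ B.e b) ∧
    ∀ b, B.val b = none → 5 ∣ B.e b := by
  obtain ⟨T, hT⟩ : ∃ T : ℂ[X], T = X ^ 30 + C 522 * X ^ 25 - C 10005 * X ^ 20 - C 10005 * X ^ 10
      - C 522 * X ^ 5 + C 1 := ⟨_, rfl⟩
  obtain ⟨H, hH⟩ : ∃ H : ℂ[X], H = -X ^ 20 + C 228 * X ^ 15 - C 494 * X ^ 10 - C 228 * X ^ 5
      - C 1 := ⟨_, rfl⟩
  obtain ⟨f, hf⟩ : ∃ f : ℂ[X], f = X ^ 11 + C 11 * X ^ 6 - X := ⟨_, rfl⟩
  have dT : T.natDegree = 30 := by rw [hT]; compute_degree!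
  have dH : H.natDegree = 20 := by rw [hH]; compute_degree!
  have df : f.natDegree = 11 := by rw [hf]; compute_degree!
  have c522 : (C (522 : ℂ) : ℂ[X]) = 522 := map_ofNat C 522
  have c10005 : (C (10005 : ℂ) : ℂ[X]) = 10005 := map_ofNat C 10005
  have c228 : (C (228 : ℂ) : ℂ[X]) = 228 := map_ofNat C 228
  have c494 : (C (494 : ℂ) : ℂ[X]) = 494 := map_ofNat C 494
  have c11 : (C (11 : ℂ) : ℂ[X]) = 11 := map_ofNat C 11
  have c1728 : (C (1728 : ℂ) : ℂ[X]) = 1728 := map_ofNat C 1728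
  have hid : T ^ 2 - C 1728 * f ^ 5 = -H ^ 3 := by
    rw [hT, hH, hf, c522, c10005, c228, c494, c11, c1728, C_1]
    ring
  have hc1 : IsCoprime T f := by
    have h1 : IsCoprime T (X : ℂ[X]) := by
      refine ⟨1, -(X ^ 29 + C 522 * X ^ 24 - C 10005 * X ^ 19 - C 10005 * X ^ 9
        - C 522 * X ^ 4), ?_⟩
      rw [hT, C_1]
      ring
    have h2 : IsCoprime T ((X : ℂ[X]) ^ 10 + 11 * X ^ 5 - 1) := by
      refine ⟨C (1 / 1953125) * (-15127 - 1364 * X ^ 5), C (1 / 1953125) *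
        (-1968252 - 13755842 * X ^ 5 - 1224871 * X ^ 10 - 13582603 * X ^ 15 + 712131 * X ^ 20 +
          1364 * X ^ 25), ?_⟩
      have e4 : (C (1 / 1953125 : ℂ) : ℂ[X]) * 1953125 = 1 := by
        have : (1953125 : ℂ[X]) = C 1953125 := (map_ofNat C 1953125).symm
        rw [this, ← C_mul]
        norm_num
      rw [hT, c522, c10005, C_1]
      linear_combination e4
    have e : f = X * ((X : ℂ[X]) ^ 10 + 11 * X ^ 5 - 1) := by
      rw [hf, c11]
      ring
    rw [e]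
    exact h1.mul_right h2
  have hcop : IsCoprime (T ^ 2) (C 1728 * f ^ 5) := by
    refine IsCoprime.mul_right ?_ (hc1.pow)
    exact (isCoprime_one_right).of_isCoprime_of_dvd_right
      (isUnit_C.2 (isUnit_iff_ne_zero.2 (by norm_num))).dvd
  have neT : T ≠ 0 := fun h => by rw [h, natDegree_zero] at dT; omega
  have neH : H ≠ 0 := fun h => by rw [h, natDegree_zero] at dH; omega
  have nef : f ≠ 0 := fun h => by rw [h, natDegree_zero] at df; omega
  have dP : (T ^ 2).natDegree = 60 := by rw [natDegree_pow, dT]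
  have dQ : (C 1728 * f ^ 5).natDegree = 55 := by
    rw [natDegree_C_mul (by norm_num), natDegree_pow, df]
  let B : RF := ⟨_, _, hcop⟩
  have hBn : B.n = 60 := by
    change max _ _ = _
    rw [dP, dQ]
    rfl
  have hF0 : B.F (some 0) = C 1 * T ^ 2 := by
    change T ^ 2 - C 0 * (C 1728 * f ^ 5) = _
    simp
  have hF1 : B.F (some 1) = C (-1) * H ^ 3 := by
    change T ^ 2 - C 1 * (C 1728 * f ^ 5) = _
    rw [C_1, one_mul, hid]
    simp
  have hFi : B.F none = C 1728 * f ^ 5 := rfl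
  refine ⟨B, hBn, ?_, ?_, ?_⟩
  · refine kleinC_dvd B _ 2 1 one_ne_zero _ neT hF0 ?_
    rw [hF0, C_1, one_mul, dP, hBn]
    decide
  · refine kleinC_dvd B _ 3 (-1) (by norm_num) _ neH hF1 ?_
    rw [hF1, natDegree_C_mul (by norm_num), natDegree_pow, dH, hBn]
    decide
  · refine kleinC_dvd B _ 5 1728 (by norm_num) _ nef hFi ?_
    rw [hFi, dQ, hBn]

end WildV
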