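import Pool.Agent.helper21.WV.KleinA
import Pool.Agent.helper21.WV.KleinB
import Pool.Agent.helper21.WV.KleinC

/-! The quotient maps of the finite rotation groups. -/

namespace WildV

open Polynomial WildRat WildS

/-- The degree of the rotation group with the indices `m`. -/
def KleinTriple (m : Fin 3 → ℕ) (N : ℕ) : Prop :=
  (m 0 = 2 ∧ m 1 = 2 ∧ 2 ≤ m 2 ∧ N = 2 * m 2) ∨ (m 0 = 2 ∧ m 1 = 3 ∧ m 2 = 4 ∧ N = 24) ∨
    (m 0 = 2 ∧ m 1 = 3 ∧ m 2 = 5 ∧ N = 60)

/-- the common part: from the divisibilities over `0`, `1`, infinity -/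
theorem Klein_of {m : Fin 3 → ℕ} {N : ℕ} (hN : 1 ≤ N) (hm0 : ∀ i, 1 ≤ m i)
    (hm : ∑ i, (N : ℚ) / m i = N + 2) (c : Fin 3 → P1) (hc : Function.Injective c) (B : RF)
    (hB : B.n = N) (h0 : ∀ b, B.val b = some 0 → m 0 ∣ B.e b)
    (h1 : ∀ b, B.val b = some 1 → m 1 ∣ B.e b) (h2 : ∀ b, B.val b = none → m 2 ∣ B.e b) :
    ∃ B : RF, B.n = N ∧ (∀ i b, B.val b = c i → B.e b = m i) ∧
      ∀ b, (∀ i, B.val b ≠ c i) → B.e b = 1 := by
  obtain ⟨B', hn, he, hv0, hv1, hv2⟩ := klein_move B (by rw [hB]; exact hN) c hc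
  refine ⟨B', hn.trans hB, klein_exact B' N hN (hn.trans hB) c hc m hm0 hm ?_⟩
  intro i b hb
  rw [he]
  fin_cases i
  · exact h0 b ((hv0 b).1 hb)
  · exact h1 b ((hv1 b).1 hb)
  · exact h2 b ((hv2 b).1 hb)

/-- Proof: the three functions above, `klein_move`, `klein_exact`. -/
theorem exists_klein {m : Fin 3 → ℕ} {N : ℕ} (h : KleinTriple m N) (c : Fin 3 → P1)
    (hc : Function.Injective c) : ∃ B : RF, B.n = N ∧ (∀ i b, B.val b = c i → B.e b = m i) ∧
      ∀ b, (∀ i, B.val b ≠ c i) → B.e b = 1 := by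
  rcases h with ⟨h0, h1, h2, hN⟩ | ⟨h0, h1, h2, hN⟩ | ⟨h0, h1, h2, hN⟩
  · obtain ⟨B, hB, b0, b1, b2⟩ := klein_dihedral (m 2) (by omega)
    refine Klein_of (by omega) ?_ ?_ c hc B (hB.trans hN.symm) (by rw [h0]; exact b0)
      (by rw [h1]; exact b1) b2
    · intro i
      fin_cases i
      · show 1 ≤ m 0
        omega
      · show 1 ≤ m 1
        omega
      · show 1 ≤ m 2
        omega
    · rw [Fin.sum_univ_three, h0, h1, hN]
      have h3 : (m 2 : ℚ) ≠ 0 := by
        have : m 2 ≠ 0 := by omega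
        exact_mod_cast this
      push_cast
      field_simp
      ring
  · obtain ⟨B, hB, b0, b1, b2⟩ := klein_octa
    refine Klein_of (by omega) ?_ ?_ c hc B (hB.trans hN.symm) (by rw [h0]; exact b0)
      (by rw [h1]; exact b1) (by rw [h2]; exact b2)
    · intro i
      fin_cases i
      · show 1 ≤ m 0
        omega
      · show 1 ≤ m 1
        omega
      · show 1 ≤ m 2
        omega
    · rw [Fin.sum_univ_three, h0, h1, h2, hN]
      norm_num
  · obtain ⟨B, hB, b0, b1, b2⟩ := klein_icosa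
    refine Klein_of (by omega) ?_ ?_ c hc B (hB.trans hN.symm) (by rw [h0]; exact b0)
      (by rw [h1]; exact b1) (by rw [h2]; exact b2)
    · intro i
      fin_cases i
      · show 1 ≤ m 0
        omega
      · show 1 ≤ m 1
        omega
      · show 1 ≤ m 2
        omega
    · rw [Fin.sum_univ_three, h0, h1, h2, hN]
      norm_num

end WildV
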