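import Pool.Agent.helper21.WV.Bdd

/-! An element all of whose derivatives are regular over the finite points is a polynomial. -/

namespace WildV

open Polynomial WildRat WildS

variable {K : Type} [Field K] [Algebra ℂ K]

/-- The kernel of `d / dz` is `ℂ`.  Proof: a nonconstant `u` is `χ X` for a coordinate `χ`
(`exists_subst`), and `Deriv_eq_zero` (WS/Deriv.lean) would give `D = 0`, but `D (φ X) = 1`. -/
theorem Nil_ker (φ : E →ₐ[ℂ] K) (hφ : FinC φ) (D : Derivation ℂ K K)
    (hD : D (φ RatFunc.X) = 1) {u : K} (hu : D u = 0) : ∃ c : ℂ, u = algebraMap ℂ K c := by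
  by_contra hne
  push Not at hne
  obtain ⟨χ, hχ⟩ := exists_subst (U := u) (fun c => hne c)
  have h0 := Deriv_eq_zero χ (finC_all φ hφ χ) D (by rw [hχ]; exact hu) (φ RatFunc.X)
  rw [hD] at h0
  exact one_ne_zero h0

/-- Every polynomial has a primitive. -/
theorem Nil_prim (p : ℂ[X]) : ∃ q : ℂ[X], q.derivative = p := by
  induction p using Polynomial.induction_on' with
  | add p1 p2 h1 h2 =>
    obtain ⟨q1, e1⟩ := h1
    obtain ⟨q2, e2⟩ := h2
    exact ⟨q1 + q2, by rw [derivative_add, e1, e2]⟩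
  | monomial n a =>
    refine ⟨monomial (n + 1) (a / (n + 1)), ?_⟩
    rw [derivative_monomial]
    have : ((n : ℂ) + 1) ≠ 0 := by exact_mod_cast Nat.succ_ne_zero n
    simp only [Nat.add_sub_cancel]
    congr 1
    push_cast
    field_simp

/-- An element killed by a power of `d / dz` is a polynomial in `z`.  Proof: induction on `n`: if
`D u = p(z)`, let `q` be a primitive of `p` (`q.derivative = p`, coefficients divided by `n + 1`);
`D (u - q(z)) = 0`, `Nil_ker`. -/
theorem Nil_poly (φ : E →ₐ[ℂ] K) (hφ : FinC φ) (D : Derivation ℂ K K)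
    (hD : D (φ RatFunc.X) = 1) (n : ℕ) : ∀ u : K, D^[n] u = 0 →
      ∃ p : ℂ[X], u = aeval (φ RatFunc.X) p := by
  induction n with
  | zero =>
    intro u hu
    refine ⟨0, ?_⟩
    rw [map_zero]
    exact hu
  | succ n ih =>
    intro u hu
    rw [Function.iterate_succ_apply] at hu
    obtain ⟨p, hp⟩ := ih (D u) hu
    obtain ⟨q, hq⟩ := Nil_prim p
    have h0 : D (u - aeval (φ RatFunc.X) q) = 0 := by
      rw [map_sub, Derivation.map_aeval, hD, hq, hp, smul_eq_mul, mul_one, sub_self]
    obtain ⟨c, hc⟩ := Nil_ker φ hφ D hD h0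
    refine ⟨q + C c, ?_⟩
    rw [map_add, aeval_C, ← hc]
    ring

/-- Iterating `deriv_inf`. -/
theorem Nil_iter (φ : E →ₐ[ℂ] K) (hφ : FinC φ) (D : Derivation ℂ K K)
    (hD : D (φ RatFunc.X) = 1) (P : Pl K) (hP : P.ord (φ RatFunc.X) < 0) (u : K)
    (hu : ∀ n, D^[n] u ≠ 0) (n : ℕ) : P.ord u + n ≤ P.ord (D^[n] u) := by
  induction n with
  | zero => simp
  | succ n ih =>
    have h1 := deriv_inf φ hφ D hD P hP (D^[n] u) (by
      have := hu (n + 1)
      rwa [Function.iterate_succ_apply'] at this)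
    rw [Function.iterate_succ_apply']
    push_cast
    linarith

/-- Proof.  Let `z = φ X`.  The places `P` with `P.ord z < 0` form a finite set
(`fibS (φ.comp invE) _ 0`, `mem_fib_inv`).  Suppose `D^[n] u ≠ 0` for all `n`.  By `deriv_inf` and
induction `P.ord u + n ≤ P.ord (D^[n] u)` for these `P`, so there is an `n` such that `D^[n] u` has
positive order at all places over infinity, of which there is at least one (`sum_poles`), and
nonnegative order at the others.  This contradicts `product_formula`.  So `D^[n] u = 0` for some `n`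
and `Nil_poly` applies. -/
theorem nil (φ : E →ₐ[ℂ] K) (hφ : FinC φ) (D : Derivation ℂ K K)
    (hD : D (φ RatFunc.X) = 1) (u : K)
    (hu : ∀ P : Pl K, 0 ≤ P.ord (φ RatFunc.X) → ∀ n, 0 ≤ P.ord (D^[n] u)) :
    ∃ p : ℂ[X], u = aeval (φ RatFunc.X) p := by
  classical
  by_cases h : ∃ n, D^[n] u = 0
  · obtain ⟨n, hn⟩ := h
    exact Nil_poly φ hφ D hD n u hn
  · exfalso
    push Not at h
    have hfin : FinC (φ.comp invE) := finC_comp hφ finC_invE
    set S := fibS (φ.comp invE) hfin 0 with hS
    have hmem : ∀ P : Pl K, P ∈ S ↔ P.ord (φ RatFunc.X) < 0 := by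
      intro P
      rw [hS, mem_fibS, mem_fib_inv]
    -- a uniform bound
    obtain ⟨n, hn⟩ : ∃ n : ℕ, ∀ P ∈ S, 0 < P.ord u + n := by
      refine ⟨∑ P ∈ S, ((P.ord u).natAbs + 1), fun P hP => ?_⟩
      have h1 : (P.ord u).natAbs + 1 ≤ ∑ P ∈ S, ((P.ord u).natAbs + 1) :=
        Finset.single_le_sum (f := fun P : Pl K => (P.ord u).natAbs + 1)
          (fun _ _ => Nat.zero_le _) hP
      omega
    have hpos : ∀ P ∈ S, 0 < P.ord (D^[n] u) := by
      intro P hP
      have h1 := Nil_iter φ hφ D hD P ((hmem P).1 hP) u h n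
      have h2 := hn P hP
      omega
    have hnn : ∀ P : Pl K, 0 ≤ P.ord (D^[n] u) := by
      intro P
      by_cases hP : P ∈ S
      · exact (hpos P hP).le
      · rw [hmem] at hP
        exact hu P (not_lt.1 hP) n
    obtain ⟨P0, hP0⟩ : S.Nonempty := by
      rw [Finset.nonempty_iff_ne_empty]
      intro he
      have h1 := sum_poles φ hφ hfin
      rw [← hS, he, Finset.sum_empty] at h1
      have h2 := deg_pos hφ
      omega
    obtain ⟨hfs, hsum⟩ := product_formula φ hφ (h n)
    have h1 := hsum hfs.toFinset (fun P hP => by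
      rw [Set.Finite.mem_toFinset]
      exact hP)
    have h2 : P0.ord (D^[n] u) ≤ ∑ P ∈ hfs.toFinset, P.ord (D^[n] u) := by
      apply Finset.single_le_sum (f := fun P : Pl K => P.ord (D^[n] u)) (fun P _ => hnn P)
      rw [Set.Finite.mem_toFinset]
      exact (hpos P0 hP0).ne'
    have h3 := hpos P0 hP0
    omega

end WildV
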