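import Pool.Agent.helper21.WV.LiftLoc
import Pool.Agent.helper21.WV.Nil

/-! The lifting theorem. -/

namespace WildV

open Polynomial WildRat WildS

variable {K : Type} [Field K] [Algebra ℂ K]

/-- the coordinate itself is regular with all its derivatives -/
theorem Lift_z {D : Derivation ℂ K K} {P : Pl K} {z : K} (hz : 0 ≤ P.ord z) (hD : D z = 1)
    (n : ℕ) : RegN D P n z := by
  have h1 : RegN D P (n + 1) z := by
    rw [RegN.succ_iff]
    refine ⟨hz, ?_⟩
    rw [hD, ← map_one (algebraMap ℂ K)]
    exact RegN.const D P n 1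
  exact fun k hk => h1 k (hk.trans (Nat.le_succ n))

/-- **Lifting theorem.**  If `A(z) = B(w)` and for all finite `a` and all `b` with `B(b) = A(a)` the
index `B.e b` divides `A.e a`, then `w ∈ ℂ(z)`.

Proof.  Let `D` be the derivation with `D z = 1` (`exists_deriv δ hδ`).  Let `h ∈ ℂ[X]` be the product of
`(X - a) ^ A.n` over the finitely many `a : ℂ` with `A(a) = B(∞)` (`RF.fiber_finite`).  Put
`u = h(z) w`.  For every place `P` with `0 ≤ P.ord z` there is `a` with `P ∈ fib δ a`
(`exists_value`).  If `w` has a finite value at `P` (`0 ≤ P.ord w`, `exists_value` for `ω`, finite by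
`finC_all`), `liftLoc_fin` and `RegN.aeval`, `RegN.mul` show that all derivatives of `u` are regular at
`P`.  If `P.ord w < 0`, then `B(∞) = A(a)` (`LiftLoc_val`), `(X - a) ^ A.n` divides `h`, and
`liftLoc_inf` gives the same.  By `nil`, `u = p(z)`, so `w = p(z) / h(z) = δ (p / h)`. -/
theorem lift_main {A B : RF} (hA : 1 ≤ A.n) (hB : 1 ≤ B.n) {δ ω : E →ₐ[ℂ] K} (hδ : FinC δ)
    (h : δ (elt A) = ω (elt B))
    (hdiv : ∀ (a : ℂ) (b : P1), B.val b = A.val (some a) → B.e b ∣ A.e (some a)) :
    ∃ u : E, ω RatFunc.X = δ u := by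
  classical
  obtain ⟨D, hD, -⟩ := exists_deriv δ hδ
  have hω : FinC ω := finC_all δ hδ ω
  set z := δ RatFunc.X with hz
  set w := ω RatFunc.X with hw
  -- the points over the value of `B` at infinity
  have hfin : {a : ℂ | A.val (some a) = B.val none}.Finite :=
    (A.fiber_finite hA (B.val none)).preimage (Option.some_injective ℂ).injOn
  set T : Finset ℂ := hfin.toFinset with hT
  have hmem : ∀ a, a ∈ T ↔ A.val (some a) = B.val none := fun a => by
    rw [hT, Set.Finite.mem_toFinset]
    rfl
  set q : ℂ[X] := ∏ a ∈ T, (X - C a) ^ A.n with hq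
  have hq0 : q ≠ 0 := Finset.prod_ne_zero_iff.2 fun a _ => pow_ne_zero _ (X_sub_C_ne_zero a)
  have hreg : ∀ P : Pl K, 0 ≤ P.ord z → ∀ n, 0 ≤ P.ord (D^[n] (aeval z q * w)) := by
    intro P hP n
    obtain ⟨a, ha⟩ := exists_value δ hδ P hP
    have hzr : RegN D P n z := Lift_z hP hD n
    have key : RegN D P n (aeval z q * w) := by
      rcases le_or_gt 0 (P.ord w) with hpos | hneg
      · obtain ⟨b, hb⟩ := exists_value ω hω P hpos
        have hval := (LiftLoc_val hA hB hδ h ha).1 b hb
        exact (RegN.aeval hzr q).mul (liftLoc_fin hA hB hδ h D hD ha hb (hdiv a (some b) hval) n)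
      · have hval := (LiftLoc_val hA hB hδ h ha).2 hneg
        have haT : a ∈ T := (hmem a).2 hval.symm
        have h1 : q = (∏ x ∈ T.erase a, (X - C x) ^ A.n) * (X - C a) ^ A.n := by
          rw [hq, Finset.prod_erase_mul T _ haT]
        have h2 : aeval z q * w = aeval z (∏ x ∈ T.erase a, (X - C x) ^ A.n) *
            ((z - algebraMap ℂ K a) ^ A.n * w) := by
          rw [h1, map_mul, map_pow, map_sub, aeval_X, aeval_C, mul_assoc]
        rw [h2]
        exact (RegN.aeval hzr _).mul
          (liftLoc_inf hA hB hδ h D hD ha hneg (hdiv a none hval) n)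
    exact key n le_rfl
  obtain ⟨p, hp⟩ := nil δ hδ D hD (aeval z q * w) hreg
  have hqz : aeval z q ≠ 0 := (coord_nonConst δ).aeval_ne_zero hq0
  refine ⟨algebraMap ℂ[X] E p / algebraMap ℂ[X] E q, ?_⟩
  rw [map_div₀, coord_poly, coord_poly, eq_div_iff hqz, mul_comm]
  exact hp

/-- The form which is used: `A = B ∘ H` for some rational function `H`.

Proof.  Let `G = B.P.map (algebraMap ℂ E) - C (elt A) * B.Q.map (algebraMap ℂ E) ∈ E[X]`.  Its degree
is positive: for `B.P`, `B.Q` of degree `n = B.n` the coefficient of `X ^ n` is `p - (elt A) q` with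
`(p, q) ≠ (0, 0)` and `elt A` nonconstant (`elt_nonConst`).  So `G` has an irreducible factor `F`;
`K = AdjoinRoot F` is a field, finite over `E`; `δ = AlgHom` `E → K` (as a `ℂ`-algebra homomorphism),
`FinC δ`; the root `w` of `F` satisfies `P_B(w) = A(x) Q_B(w)`, `Q_B(w) ≠ 0` by `B.cop`, and `w` is not
constant (otherwise `A(x)` would be constant); `exists_subst` gives `ω` with `ω X = w`, and
`δ (elt A) = ω (elt B)`.  `lift_main` gives `u ∈ E` with `w = δ u`, `u` is not constant, `u = elt H`
(`exists_RF`), and `elt A = B.app (elt H)` because `δ` is injective; this is `A.IsComp B H` (unfold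
`RF.IsComp`, `elt`, `RF.app`). -/
theorem lift_comp {A B : RF} (hA : 1 ≤ A.n) (hB : 1 ≤ B.n)
    (hdiv : ∀ (a : ℂ) (b : P1), B.val b = A.val (some a) → B.e b ∣ A.e (some a)) :
    ∃ H : RF, 1 ≤ H.n ∧ A.IsComp B H := by
  classical
  set G : E[X] := B.P.map (algebraMap ℂ E) - C (elt A) * B.Q.map (algebraMap ℂ E) with hG
  have hcoef : G.coeff B.n ≠ 0 := by
    rw [hG, coeff_sub, coeff_C_mul, coeff_map, coeff_map]
    intro h0
    by_cases hq : B.Q.coeff B.n = 0
    · rw [hq, map_zero, mul_zero, sub_zero, map_eq_zero] at h0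
      have h1 : B.P = 0 ∨ B.P.natDegree ≠ B.n := by
        by_contra h2
        push Not at h2
        rw [← h2.2] at h0
        exact h2.1 (leadingCoeff_eq_zero.1 h0)
      have h2 : B.Q = 0 ∨ B.Q.natDegree ≠ B.n := by
        by_contra h2
        push Not at h2
        rw [← h2.2] at hq
        exact h2.1 (leadingCoeff_eq_zero.1 hq)
      have h3 : B.n = max B.P.natDegree B.Q.natDegree := rfl
      have h4 : B.P.natDegree ≠ B.n := by
        rcases h1 with h1 | h1
        · rw [h1, natDegree_zero]
          omega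
        · exact h1
      have h5 : B.Q.natDegree ≠ B.n := by
        rcases h2 with h2 | h2
        · rw [h2, natDegree_zero]
          omega
        · exact h2
      omega
    · have h1 : algebraMap ℂ E (B.Q.coeff B.n) ≠ 0 := by
        rw [Ne, map_eq_zero]
        exact hq
      refine elt_nonConst A hA (B.P.coeff B.n / B.Q.coeff B.n) ?_
      rw [map_div₀, eq_div_iff h1]
      exact (sub_eq_zero.1 h0).symm
  have hGdeg : 0 < G.degree := by
    rw [← natDegree_pos_iff_degree_pos]
    exact lt_of_lt_of_le hB (le_natDegree_of_ne_zero hcoef)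
  obtain ⟨F, hF, hFG⟩ := exists_irreducible_of_degree_pos hGdeg
  haveI : Fact (Irreducible F) := ⟨hF⟩
  let L : Type := AdjoinRoot F
  letI : Field L := inferInstanceAs (Field (AdjoinRoot F))
  letI : Algebra ℂ L := inferInstanceAs (Algebra ℂ (AdjoinRoot F))
  letI : Algebra E L := inferInstanceAs (Algebra E (AdjoinRoot F))
  haveI : IsScalarTower ℂ E L := inferInstanceAs (IsScalarTower ℂ E (AdjoinRoot F))
  let δ : E →ₐ[ℂ] L := IsScalarTower.toAlgHom ℂ E L
  have hδ : FinC δ := by
    haveI : Module.Finite E L := (AdjoinRoot.powerBasis hF.ne_zero).finite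
    have h1 : (algebraMap E L).Finite := RingHom.finite_algebraMap.2 inferInstance
    exact h1
  let w : L := AdjoinRoot.root F
  have hroot : aeval w B.P = δ (elt A) * aeval w B.Q := by
    have h1 : aeval w G = 0 := by
      obtain ⟨R, hR⟩ := hFG
      have h2 : aeval w F = 0 := AdjoinRoot.eval₂_root F
      rw [hR, map_mul, h2, zero_mul]
    rw [hG, map_sub, map_mul, aeval_C, aeval_map_algebraMap, aeval_map_algebraMap,
      sub_eq_zero] at h1
    exact h1
  have hQw : aeval w B.Q ≠ 0 := by
    intro h0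
    rw [h0, mul_zero] at hroot
    obtain ⟨a, b, hab⟩ := B.cop
    have h1 := congrArg (aeval w) hab
    rw [map_add, map_mul, map_mul, h0, hroot, mul_zero, mul_zero, add_zero, map_one] at h1
    exact zero_ne_one h1
  have heq : δ (elt A) = B.app w := by
    unfold RF.app
    rw [eq_div_iff hQw]
    exact hroot.symm
  have hw : NonConst w := by
    intro c hc
    have h1 : B.app w = algebraMap ℂ L (B.P.eval c / B.Q.eval c) := by
      unfold RF.app
      rw [hc, aeval_algebraMap_apply, aeval_algebraMap_apply, map_div₀]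
      simp
    rw [h1, ← coord_C δ] at heq
    exact elt_nonConst A hA _ (coord_inj δ heq)
  obtain ⟨ω, hω⟩ := exists_subst hw
  have heq2 : δ (elt A) = ω (elt B) := by
    rw [coord_elt ω B, hω, heq]
  obtain ⟨u, hu⟩ := lift_main hA hB hδ heq2 hdiv
  rw [hω] at hu
  have hun : NonConst u := by
    intro c hc
    rw [hc, coord_C] at hu
    exact hw c hu
  obtain ⟨H, hH1, hH2, -⟩ := exists_RF u hun
  refine ⟨H, hH2, ?_⟩
  show elt A = B.app (elt H)
  apply coord_inj δ
  rw [app_map, hH1, ← hu, heq]

end WildV
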