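import Pool.Agent.helper21.WV.DTFacts
import Pool.Agent.helper21.WV.Lift
import Pool.Agent.helper21.WV.Klein
import Pool.Agent.helper44.Wild.Moebius

/-! Elimination of the spherical near-coverings. -/

namespace WildV

open Polynomial WildRat WildS

/-- Moebius maps with prescribed values at infinity and zero.  Proof: explicit, by cases; for finite
`z1 ≠ z2`: `(z1 X + z2) / (X + 1)`; for `z1 = ∞`: `X + z2`; for `z2 = ∞`: `(z1 X + 1) / X`. -/
theorem exists_mob {z1 z2 : P1} (h : z1 ≠ z2) :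
    ∃ M : RF, M.n = 1 ∧ M.val none = z1 ∧ M.val (some 0) = z2 := by
  obtain ⟨B, s, hn, -, h1, h2, hv, -, -⟩ := normal_form Normal_id (by rw [Normal_id_n]) h
  refine ⟨B, hn.trans Normal_id_n, ?_, ?_⟩
  · rw [hv, Normal_id_val, h1]
  · rw [hv, Normal_id_val, h2]

/-- No two values `c`, `c'` have all indices divisible by `d ≥ 2`, if there is a point of index two
over a third value.

Proof.  With `B` from `exists_power` (degree `d`) the hypothesis of `lift_comp` holds, so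
`C = B ∘ H`; `DT_indec` gives `H.n = 1`, hence `C.e q = B.e (H q) * 1 = 1`, contradiction. -/
theorem DT_gcd {C : RF} (hn : 2 ≤ C.n) (hC : DT C) {c c' : P1} (hcc : c ≠ c') {d : ℕ} (hd : 2 ≤ d)
    (h : ∀ z, C.val z = c → d ∣ C.e z) (h' : ∀ z, C.val z = c' → d ∣ C.e z) {q : P1}
    (hq : C.val q ≠ c) (hq' : C.val q ≠ c') (hq2 : C.e q = 2) : False := by
  obtain ⟨B, hBn, hBc, hBc', hB1⟩ := exists_power (by omega : 1 ≤ d) hcc
  obtain ⟨H, hH, hcomp⟩ := lift_comp (A := C) (B := B) (by omega) (by omega) (by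
    intro a b hb
    by_cases h1 : B.val b = c
    · rw [hBc b h1]
      exact h _ (hb.symm.trans h1)
    · by_cases h2 : B.val b = c'
      · rw [hBc' b h2]
        exact h' _ (hb.symm.trans h2)
      · rw [hB1 b h1 h2]
        exact one_dvd _)
  obtain ⟨-, -, hv, he⟩ := comp_facts hcomp (by omega) hH
  have hHn : H.n = 1 := by
    rcases DT_indec (by omega) hC hH hcomp with h1 | h1
    · exact h1
    · omega
  obtain ⟨heH, -⟩ := moebius_facts H hHn
  have h3 := he q
  rw [heH, mul_one, hB1 (H.val q) (by rw [← hv]; exact hq) (by rw [← hv]; exact hq')] at h3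
  omega

theorem Elim_N {m : Fin 3 → ℕ} {N : ℕ} (hK : KleinTriple m N) : 4 ≤ N := by
  rcases hK with ⟨-, -, h, h'⟩ | ⟨-, -, -, h⟩ | ⟨-, -, -, h⟩ <;> omega

/-- At most one defect.

Proof.  Let `M` be a Moebius map with `M(∞) = x0` (`exists_mob`), `M'` its inverse (`moebius_facts`),
`A = C ∘ M` (`exists_comp`, `comp_facts`, all indices of `M` are one), `B` the function of
`exists_klein hK c hc`.  The hypothesis of `lift_comp` holds for `A`, `B`: for finite `a`,
`M(a) ≠ x0`; if `B(b) = A(a) = c i`, then `B.e b = m i ∣ C.e (M a) = A.e a`; if `B(b)` is none of the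
`c i`, then `B.e b = 1`.  So `A = B ∘ H`, and `C = A ∘ M' = B ∘ (H ∘ M')` (`exists_comp` for
`H`, `M'`; `RF.IsComp.app_eq`).  `DT_indec` and `B.n = N ≥ 2` give `(H ∘ M').n = 1`, so all its
indices are one and `C.e q = B.e b` for a point `b` with `B(b) = C(q)`, which is none of the `c i`:
`2 = 1`, contradiction. -/
theorem elim0 {C : RF} (hn : 2 ≤ C.n) (hC : DT C) {m : Fin 3 → ℕ} {N : ℕ} (hK : KleinTriple m N)
    (c : Fin 3 → P1) (hc : Function.Injective c) {q : P1} (hq : ∀ i, C.val q ≠ c i)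
    (hq2 : C.e q = 2) (x0 : P1) (hdiv : ∀ x, x ≠ x0 → ∀ i, C.val x = c i → m i ∣ C.e x) :
    False := by
  have hN := Elim_N hK
  obtain ⟨z2, hz2⟩ := exists_ne x0
  obtain ⟨M, hMn, hM1, -⟩ := exists_mob hz2.symm
  obtain ⟨hMe, hMb, M', hM'n, hM'M, hMM', hMapp⟩ := moebius_facts M hMn
  have hM1n : 1 ≤ M.n := by omega
  have hM'1n : 1 ≤ M'.n := by omega
  obtain ⟨A, hA, hAn⟩ := exists_comp C M (by omega) hM1n
  obtain ⟨-, -, hAv, hAe⟩ := comp_facts hA hAn hM1n
  obtain ⟨B, hBn, hBc, hB1⟩ := exists_klein hK c hc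
  have hB1n : 1 ≤ B.n := by omega
  obtain ⟨H, hH, hcomp⟩ := lift_comp (A := A) (B := B) hAn hB1n (by
    intro a b hb
    by_cases h1 : ∃ i, B.val b = c i
    · obtain ⟨i, hi⟩ := h1
      rw [hBc i b hi, hAe, hMe, mul_one]
      refine hdiv _ ?_ i ?_
      · intro h2
        rw [← hM1] at h2
        exact absurd (hMb.1 h2) (by simp)
      · rw [← hAv, ← hb, hi]
    · rw [hB1 b (fun i hi => h1 ⟨i, hi⟩)]
      exact one_dvd _)
  obtain ⟨H', hH', hH'n⟩ := exists_comp H M' hH hM'1n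
  have hX := ratFuncX_nonConst
  have hM'X := M'.app_nonConst hM'1n hX
  have hcompC : C.IsComp B H' := by
    show C.app (RatFunc.X : RatFunc ℂ) = B.app (H'.app (RatFunc.X : RatFunc ℂ))
    rw [hH'.app_eq hX, ← hcomp.app_eq hM'X, hA.app_eq hM'X, (hMapp _ _ hX).1]
  obtain ⟨-, -, hv, he⟩ := comp_facts hcompC (by omega) hH'n
  have hHn : H'.n = 1 := by
    rcases DT_indec (by omega) hC hH'n hcompC with h1 | h1
    · exact h1
    · omega
  obtain ⟨heH, -⟩ := moebius_facts H' hHn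
  have h3 := he q
  rw [heH, mul_one, hB1 (H'.val q) (by intro i; rw [← hv]; exact hq i)] at h3
  omega

/-- The square map.  `P = X ^ 2`, `Q = 1`. -/
theorem exists_sq : ∃ S : RF, S.n = 2 ∧ (∀ a : ℂ, S.val (some a) = some (a ^ 2)) ∧
    S.val none = none ∧ S.e (some 0) = 2 ∧ S.e none = 2 ∧ (∀ a : ℂ, a ≠ 0 → S.e (some a) = 1) ∧
    ∀ {K : Type} [Field K] [Algebra ℂ K] (U : K), S.app U = U ^ 2 := by
  have hn : RF.n ⟨X ^ 2, 1, isCoprime_one_right⟩ = 2 := by
    simp [RF.n]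
  have hn1 : 1 ≤ RF.n ⟨X ^ 2, 1, isCoprime_one_right⟩ := by rw [hn]; omega
  have hvs : ∀ z : ℂ, RF.val ⟨X ^ 2, 1, isCoprime_one_right⟩ (some z) = some (z ^ 2) := by
    intro z
    simp [RF.val]
  have hvn : RF.val ⟨X ^ 2, 1, isCoprime_one_right⟩ none = none := by
    simp only [RF.val]
    rw [hn, if_pos]
    rw [coeff_one, if_neg (by omega)]
  refine ⟨⟨X ^ 2, 1, isCoprime_one_right⟩, hn, hvs, hvn, ?_, ?_, ?_, ?_⟩
  · unfold RF.e
    rw [hvs]
    simp only [RF.mult, RF.F]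
    rw [zero_pow (by omega), C_0, zero_mul, sub_zero]
    have := rootMultiplicity_X_sub_C_pow (0 : ℂ) 2
    rwa [C_0, sub_zero] at this
  · unfold RF.e
    rw [hvn]
    simp only [RF.mult, RF.F]
    rw [hn, natDegree_one, Nat.sub_zero]
  · intro z hz
    refine le_antisymm ?_ (RF.one_le_e _ hn1 _)
    unfold RF.e
    rw [hvs]
    simp only [RF.mult, RF.F, mul_one]
    refine rootMultiplicity_le_one_of_separable ?_ z
    exact separable_X_pow_sub_C _ (by norm_num) (pow_ne_zero 2 hz)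
  · intro K _ _ U
    simp [RF.app]

theorem Elim_fib {H : RF} (hH : H.n = 2) {t : ℂ} (h1 : H.e (some t) = 2) :
    ∃ α : ℂ, H.F (H.val (some t)) = (X - C t) ^ 2 * C α := by
  have hn : 1 ≤ H.n := by omega
  have hF := H.F_ne_zero hn (H.val (some t))
  have hd := H.natDegree_F_le (H.val (some t))
  have h2 : (H.F (H.val (some t))).rootMultiplicity t = 2 := h1
  have h3 : (X - C t) ^ 2 ∣ H.F (H.val (some t)) := by
    rw [← h2]
    exact pow_rootMultiplicity_dvd _ _
  obtain ⟨G, hG⟩ := h3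
  have hG0 : G ≠ 0 := by
    rintro rfl
    rw [mul_zero] at hG
    exact hF hG
  have h4 : (H.F (H.val (some t))).natDegree = 2 + G.natDegree := by
    rw [hG, natDegree_mul (pow_ne_zero _ (X_sub_C_ne_zero t)) hG0, natDegree_pow,
      natDegree_X_sub_C, mul_one]
  obtain ⟨α, hα⟩ := natDegree_eq_zero.1 (by omega : G.natDegree = 0)
  exact ⟨α, by rw [hG, hα]⟩

/-- A function of degree two which is ramified at `t` and `-t` is invariant under `x ↦ t ^ 2 / x`.

Proof.  `H.e (some t) = 2 = H.n`, so `H(t) ≠ H(-t)` (`RF.sum_e`: a fibre has total index two).  Let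
`c = H(t)`, `c' = H(-t)`: `H.F c = α (X - t) ^ 2`, `H.F c' = β (X + t) ^ 2` with `α, β ≠ 0`
(root multiplicity two, degree at most two).  With `x' = t ^ 2 / x`:
`x' - t = - t (x - t) / x`, `x' + t = t (x + t) / x`, so
`(x' - t) ^ 2 (x + t) ^ 2 = (x - t) ^ 2 (x' + t) ^ 2`, and `eqn_of_fibres` (Wild/Moebius.lean) gives
`H.Eqn x' x`, hence `H.app x' = H.app x` (`RF.Eqn.app_eq`). -/
theorem quad_inv {H : RF} (hH : H.n = 2) {t : ℂ} (ht : t ≠ 0) (h1 : H.e (some t) = 2)
    (h2 : H.e (some (-t)) = 2) {K : Type} [Field K] [Algebra ℂ K] {x : K} (hx : NonConst x) :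
    H.app (algebraMap ℂ K (t ^ 2) / x) = H.app x := by
  classical
  have hn : 1 ≤ H.n := by omega
  have hx0 : x ≠ 0 := fun h => hx 0 (by rw [h, map_zero])
  have hne : H.val (some t) ≠ H.val (some (-t)) := by
    intro heq
    have hs := H.sum_e hn (H.val (some t))
    have hsub : ({some t, some (-t)} : Finset P1) ⊆
        (H.fiber_finite hn (H.val (some t))).toFinset := by
      intro z hz
      rw [Set.Finite.mem_toFinset]
      rcases Finset.mem_insert.1 hz with h | h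
      · show H.val z = _
        rw [h]
      · show H.val z = _
        rw [Finset.mem_singleton.1 h, heq]
    have h3 := Finset.sum_le_sum_of_subset (f := H.e) hsub
    have h4 : (some t : P1) ≠ some (-t) := by
      intro h
      rw [Option.some_inj] at h
      exact ht (self_eq_neg.1 h)
    rw [Finset.sum_pair h4, h1, h2, hs, hH] at h3
    omega
  obtain ⟨α, hα⟩ := Elim_fib hH h1
  obtain ⟨β, hβ⟩ := Elim_fib hH h2
  have hE : H.Eqn x (algebraMap ℂ K (t ^ 2) / x) := by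
    refine eqn_of_fibres H hne _ _ ?_
    rw [hα, hβ]
    simp only [map_mul, map_pow, map_sub, aeval_X, aeval_C, map_neg]
    field_simp
    ring
  exact (RF.Eqn.app_eq hn hx hE).symm

/-- Two defects with `m = 2`, and `C.n = N`.

Proof.  Let `M` be a Moebius map with `M(0) = x0`, `M(∞) = x1`, `S` the square map, `A = C ∘ M ∘ S`,
`A.n = 2 N`.  `A.e 0 = 2 C.e(x0)`, `A.e a = C.e (M (a ^ 2))` for `a ≠ 0`.  With `B` from
`exists_klein` the hypothesis of `lift_comp` holds (at `0`: if `B(b) = A(0) = C(x0) = c i`, then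
`B.e b = m i = 2`), so `A = B ∘ H`, `2 N = N * H.n`, `H.n = 2`.  Let `r = M⁻¹(q)`, finite and nonzero
(`q ≠ x0, x1`), `t ^ 2 = r`.  `A.e (±t) = C.e q = 2`, and `B` is unramified over `C(q)`, so
`H.e (±t) = 2`.  By `quad_inv` in `E`: `H.app (t ^ 2 / X) = H.app X`, so
`elt A` is invariant under `X ↦ t ^ 2 / X`: `C(M(t ^ 4 / X ^ 2)) = C(M(X ^ 2))`.  As `X ^ 2` is
transcendental (the substitution `X ↦ X ^ 2` of `E` is injective), `C(M(t ^ 4 / X)) = C(M(X))` in `E`.
Let `φ : X ↦ M(X)`, `ψ : X ↦ M(t ^ 4 / X)`, coordinates of `E`, distinct (`M` is injective and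
`t ^ 4 / X ≠ X`), `φ (elt C) = ψ (elt C)`, and `φ` is bijective (degree one), so `mu φ (ψ X)` has degree
one (`deg φ = 1` by `deg_E`/`deg_elt`, and the degree of a minimal polynomial divides or is at most
the degree, e.g. `mu_norm`).  `DT_deg`: `C.n = 2`, but `N ≥ 4`. -/
theorem elim2 {C : RF} (hC : DT C) {m : Fin 3 → ℕ} {N : ℕ} (hK : KleinTriple m N)
    (hCn : C.n = N) (c : Fin 3 → P1) (hc : Function.Injective c) {q : P1}
    (hq : ∀ i, C.val q ≠ c i) (hq2 : C.e q = 2) {x0 x1 : P1} (hx : x0 ≠ x1) (hq0 : q ≠ x0)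
    (hq1 : q ≠ x1) (hm0 : ∀ i, C.val x0 = c i → m i = 2) (hm1 : ∀ i, C.val x1 = c i → m i = 2)
    (hdiv : ∀ x, x ≠ x0 → x ≠ x1 → ∀ i, C.val x = c i → m i ∣ C.e x) : False := by
  have hN := Elim_N hK
  have hCn1 : 1 ≤ C.n := by omega
  obtain ⟨M, hMn, hM1, hM0⟩ := exists_mob hx.symm
  obtain ⟨hMe, hMb, M', hM'n, hM'M, hMM', hMapp⟩ := moebius_facts M hMn
  have hM1n : 1 ≤ M.n := by omega
  obtain ⟨S, hSn, hSv, hSi, hS0, hSe, hS1, hSapp⟩ := exists_sq
  have hS1n : 1 ≤ S.n := by omega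
  obtain ⟨T, hT, hTn⟩ := exists_comp M S hM1n hS1n
  obtain ⟨-, hTn', hTv, hTe⟩ := comp_facts hT hTn hS1n
  obtain ⟨A, hA, hAn⟩ := exists_comp C T hCn1 hTn
  obtain ⟨-, hAn', hAv, hAe⟩ := comp_facts hA hAn hTn
  obtain ⟨B, hBn, hBc, hB1⟩ := exists_klein hK c hc
  have hB1n : 1 ≤ B.n := by omega
  have hval : ∀ a : ℂ, T.val (some a) = M.val (some (a ^ 2)) := by
    intro a
    rw [hTv, hSv]
  have hidx : ∀ a : ℂ, a ≠ 0 → A.e (some a) = C.e (M.val (some (a ^ 2))) := by
    intro a ha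
    rw [hAe, hTe, hMe, hS1 a ha, mul_one, mul_one, hval]
  obtain ⟨H, hH, hcomp⟩ := lift_comp (A := A) (B := B) hAn hB1n (by
    intro a b hb
    by_cases h1 : ∃ i, B.val b = c i
    · obtain ⟨i, hi⟩ := h1
      rw [hBc i b hi]
      have h2 : C.val (M.val (some (a ^ 2))) = c i := by
        rw [← hval, ← hAv, ← hb, hi]
      by_cases ha : a = 0
      · subst ha
        rw [zero_pow (by omega), hM0] at h2
        rw [hm0 i h2, hAe, hTe, hMe, hS0]
        exact ⟨_, by ring⟩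
      · rw [hidx a ha]
        refine hdiv _ ?_ ?_ i h2
        · intro h3
          rw [← hM0] at h3
          have h4 := hMb.1 h3
          rw [Option.some_inj] at h4
          exact pow_ne_zero 2 ha h4
        · intro h3
          rw [← hM1] at h3
          exact absurd (hMb.1 h3) (by simp)
    · rw [hB1 b (fun i hi => h1 ⟨i, hi⟩)]
      exact one_dvd _)
  obtain ⟨-, hmul, hv, he⟩ := comp_facts hcomp hAn hH
  have hHn : H.n = 2 := by
    rw [hAn', hTn', hMn, hSn, hCn, hBn] at hmul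
    exact (Nat.eq_of_mul_eq_mul_left (by omega : 0 < N) (by linarith)).symm
  -- the point `r`
  obtain ⟨r, hr⟩ : ∃ r : ℂ, M'.val q = some r := by
    apply Option.ne_none_iff_exists'.1
    intro h1
    apply hq1
    rw [← hMM' q, h1, hM1]
  have hMr : M.val (some r) = q := by rw [← hr, hMM']
  have hr0 : r ≠ 0 := by
    rintro rfl
    exact hq0 (hMr.symm.trans hM0)
  obtain ⟨t, ht⟩ := IsAlgClosed.exists_pow_nat_eq r (by omega : 0 < 2)
  have ht0 : t ≠ 0 := by
    rintro rfl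
    apply hr0
    rw [← ht]
    ring
  have key : ∀ s : ℂ, s ^ 2 = r → s ≠ 0 → H.e (some s) = 2 := by
    intro s hs hs0
    have h1 := he (some s)
    have h2 : A.val (some s) = C.val q := by rw [hAv, hval, hs, hMr]
    rw [hidx s hs0, hs, hMr, hq2, hB1 (H.val (some s)) (by
      intro i
      rw [← hv, h2]
      exact hq i), one_mul] at h1
    exact h1.symm
  have hX := ratFuncX_nonConst
  have hX0 : (RatFunc.X : E) ≠ 0 := RatFunc.X_ne_zero
  have hinv : ∀ w : ℂ, w ≠ 0 → NonConst (algebraMap ℂ E w / (RatFunc.X : E)) := by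
    intro w hw u hu
    have hw' : algebraMap ℂ E w ≠ 0 := by
      rwa [Ne, map_eq_zero]
    by_cases hu0 : u = 0
    · rw [hu0, map_zero] at hu
      exact div_ne_zero hw' hX0 hu
    · apply hX (w / u)
      have hu' : algebraMap ℂ E u ≠ 0 := by
        rwa [Ne, map_eq_zero]
      rw [map_div₀, eq_div_iff hu', ← hu, mul_div_cancel₀ _ hX0]
  have h1 := quad_inv hHn ht0 (key t ht ht0) (key (-t) (by rw [neg_sq, ht])
    (neg_ne_zero.2 ht0)) hX
  have hAapp : ∀ U : E, NonConst U → A.app U = C.app (M.app (U ^ 2)) := by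
    intro U hU
    rw [hA.app_eq hU, hT.app_eq hU, hSapp]
  have h2 : C.app (M.app ((algebraMap ℂ E (t ^ 2) / (RatFunc.X : E)) ^ 2)) =
      C.app (M.app ((RatFunc.X : E) ^ 2)) := by
    rw [← hAapp _ (hinv _ (pow_ne_zero 2 ht0)), ← hAapp _ hX, hcomp.app_eq hX,
      hcomp.app_eq (hinv _ (pow_ne_zero 2 ht0)), h1]
  have hX2 : NonConst ((RatFunc.X : E) ^ 2) := by
    rw [← hSapp]
    exact S.app_nonConst hS1n hX
  obtain ⟨σ, hσ⟩ := exists_subst hX2
  have h3 : C.app (M.app (algebraMap ℂ E (t ^ 4) / (RatFunc.X : E))) =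
      C.app (M.app (RatFunc.X : E)) := by
    apply coord_inj σ
    rw [app_map, app_map, app_map, app_map, map_div₀, hσ, coord_C, ← h2]
    congr 2
    rw [div_pow, ← map_pow, ← pow_mul]
  have hMX := M.app_nonConst hM1n hX
  have hMY := M.app_nonConst hM1n (hinv _ (pow_ne_zero 4 ht0))
  obtain ⟨φ, hφ⟩ := exists_subst hMX
  obtain ⟨ψ, hψ⟩ := exists_subst hMY
  have hφF : FinC φ := finC_all (AlgHom.id ℂ E) RatK_finC_id φ
  have hne : φ ≠ ψ := by
    intro h4
    have h5 : M.app (RatFunc.X : E) = M.app (algebraMap ℂ E (t ^ 4) / (RatFunc.X : E)) := by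
      rw [← hφ, ← hψ, h4]
    have h6 : M'.app (M.app (RatFunc.X : E)) =
        M'.app (M.app (algebraMap ℂ E (t ^ 4) / (RatFunc.X : E))) := by rw [h5]
    rw [(hMapp _ _ hX).2, (hMapp _ _ (hinv _ (pow_ne_zero 4 ht0))).2, eq_div_iff hX0] at h6
    exact hX2 (t ^ 4) (by rw [← h6]; ring)
  have heq : φ (elt C) = ψ (elt C) := by
    rw [coord_elt, coord_elt, hφ, hψ, h3]
  have hdeg := DT_deg hCn1 hC hφF hne heq
  have hd1 : deg φ = 1 := (deg_elt M hM1n φ hφ).trans hMn
  obtain ⟨k, hk, hk2, -⟩ := mu_norm φ hφF (ψ RatFunc.X)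
  rw [hd1] at hk2
  have h7 := Nat.eq_one_of_mul_eq_one_left hk2
  omega

end WildV
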