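import Pool.Agent.helper21.WV.WAll
import Pool.Agent.helper21.WV.Normal1
import Pool.Agent.helper21.WV.Asm
import Pool.Agent.helper44.Wild.Compose2

/-! Wild rational functions with one simple critical value. -/

namespace WildV

open Polynomial WildRat WildS

variable {K : Type} [Field K] [Algebra ℂ K]

theorem Final_norm (hK : Good K) {A : RF} {c q : ℂ} (hA : Norm1 A c q)
    {φ ψ : E →ₐ[ℂ] K} (hne : φ ≠ ψ) (h : φ (elt A) = ψ (elt A)) :
    ∃ B C : RF, A.IsComp B C ∧ 1 ≤ C.n ∧ Typ C := by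
  obtain ⟨B, C, mu0, hCl⟩ := exists_Cl hA
  obtain ⟨h2, hB1, hn, hval, he, hBlt, hBun, hCun, hq2, hBq, hq1, hDT⟩ := hCl.facts
  refine ⟨B, C, hCl.comp, by omega, ?_⟩
  have hW := fun T => W_all hK hCl hne h T
  rcases Nat.lt_or_ge C.n 3 with h3 | h3
  · exact Or.inr (Or.inl (typ_two (by omega)))
  · refine typ_of_W h3 hDT hq2 (fun w hw hvw => ?_) hW
    have hAq : A.val (some q) = some c := (Normal_val_some A).2 ⟨hA.Qne, hA.val⟩
    have hAw : A.val w = some c := by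
      rw [hval, hvw, ← hval, hAq]
    exact (hq1 w hw hAw).1

theorem Final_good (hK : Good K) (A : RF) (hn : 2 ≤ A.n) (c : P1) (hs : A.SimpleVal c)
    (hsol : A.SolIn K) : ∃ B C : RF, A.IsComp B C ∧ Typ C := by
  obtain ⟨U, V, hU, hUV, hE⟩ := hsol
  have hn1 : 1 ≤ A.n := by omega
  have hV : NonConst V := RF.Eqn.nonConst hn1 hU hE
  obtain ⟨φ, hφ⟩ := exists_subst hU
  obtain ⟨ψ, hψ⟩ := exists_subst hV
  have hne : φ ≠ ψ := by
    rintro rfl
    exact hUV (hφ.symm.trans hψ)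
  have h : φ (elt A) = ψ (elt A) := by
    rw [coord_elt, coord_elt, hφ, hψ]
    exact RF.Eqn.app_eq hn1 hU hE
  obtain ⟨A', c', q', hA', htr, hback⟩ := normalise1 A hn c hs
  obtain ⟨φ', ψ', hne', h'⟩ := htr K φ ψ hne h
  obtain ⟨B', C', hcomp', h1', htyp⟩ := Final_norm hK hA' hne' h'
  obtain ⟨B, C, hcomp, hCn, σ, hσ, hv, he⟩ := hback B' C' hcomp' h1'
  exact ⟨B, C, hcomp, Typ_transport hCn hσ hv he htyp⟩

/-- The hard direction. -/
theorem main_hard1 (A : RF) (hn : 2 ≤ A.n) (c : P1) (hs : A.SimpleVal c) (hw : A.Wild) :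
    ∃ B C : RF, A.IsComp B C ∧ Typ C := by
  rcases hw with hr | ⟨f, hf3, hsq, hsol⟩
  · exact Final_good good_E A hn c hs hr
  · have := kf_fact f (by rw [hf3]; decide)
    exact Final_good (good_KF f hf3 hsq) A hn c hs hsol

theorem Typ_two_le {C : RF} (h : Typ C) : 2 ≤ C.n := by
  rcases h with h | h | h | h | h | h | h
  · omega
  · exact h.1
  all_goals
    have := h.1
    omega

/-- The classification. -/
theorem main_iff (A : RF) (hn : 2 ≤ A.n) (c : P1) (hs : A.SimpleVal c) :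
    A.Wild ↔ ∃ B C : RF, A.IsComp B C ∧ Typ C := by
  refine ⟨main_hard1 A hn c hs, ?_⟩
  rintro ⟨B, C, hcomp, h⟩
  have := Typ_two_le h
  exact wild_of_comp hcomp (by omega) (by omega) (typ_wild C h)

end WildV
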