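import Pool.Agent.helper21.WV.Wt

/-! Positivity of the gcd kernel, and the two combinatorial counts of case II. -/

namespace WildV

/-- The gcd as a sum of totients over a common range. -/
theorem gcdK_sum {u v B : ℕ} (hu : 1 ≤ u) (huB : u ≤ B) :
    Nat.gcd u v = ∑ r ∈ Finset.Icc 1 B, Nat.totient r * ((if r ∣ u then 1 else 0) *
      (if r ∣ v then 1 else 0)) := by
  have h1 : (∑ r ∈ (Nat.gcd u v).divisors, Nat.totient r) = Nat.gcd u v :=
    Nat.sum_totient _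
  have hg : 1 ≤ Nat.gcd u v := Nat.gcd_pos_of_pos_left _ hu
  have h2 : (∑ r ∈ Finset.Icc 1 B, Nat.totient r * ((if r ∣ u then 1 else 0) *
      (if r ∣ v then 1 else 0))) = ∑ r ∈ (Finset.Icc 1 B).filter (fun r => r ∣ Nat.gcd u v),
        Nat.totient r := by
    rw [Finset.sum_filter]
    refine Finset.sum_congr rfl fun r _ => ?_
    by_cases h : r ∣ Nat.gcd u v
    · have hu' : r ∣ u := h.trans (Nat.gcd_dvd_left u v)
      have hv' : r ∣ v := h.trans (Nat.gcd_dvd_right u v)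
      simp [h, hu', hv']
    · have : ¬ (r ∣ u ∧ r ∣ v) := fun hh => h (Nat.dvd_gcd hh.1 hh.2)
      by_cases hu' : r ∣ u
      · have hv' : ¬ r ∣ v := fun hh => this ⟨hu', hh⟩
        simp [h, hv']
      · simp [h, hu']
  have h3 : (Finset.Icc 1 B).filter (fun r => r ∣ Nat.gcd u v) = (Nat.gcd u v).divisors := by
    ext r
    simp only [Finset.mem_filter, Finset.mem_Icc, Nat.mem_divisors]
    constructor
    · rintro ⟨_, h⟩
      exact ⟨h, by omega⟩
    · rintro ⟨h, _⟩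
      have hr : r ≤ Nat.gcd u v := Nat.le_of_dvd hg h
      have hgu : Nat.gcd u v ≤ u := Nat.gcd_le_left v hu
      exact ⟨⟨Nat.pos_of_dvd_of_pos h hg, by omega⟩, h⟩
  rw [h2, h3, h1]

/-- Double sums of gcds as sums over the totients. -/
theorem gcdK_double {α β : Type} (X : Finset α) (Y : Finset β) (u : α → ℕ) (v : β → ℕ) {B : ℕ}
    (hu : ∀ a ∈ X, 1 ≤ u a) (huB : ∀ a ∈ X, u a ≤ B) :
    ∑ a ∈ X, ∑ b ∈ Y, Nat.gcd (u a) (v b) = ∑ r ∈ Finset.Icc 1 B, Nat.totient r *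
      ((∑ a ∈ X, if r ∣ u a then 1 else 0) * (∑ b ∈ Y, if r ∣ v b then 1 else 0)) := by
  calc ∑ a ∈ X, ∑ b ∈ Y, Nat.gcd (u a) (v b)
      = ∑ a ∈ X, ∑ b ∈ Y, ∑ r ∈ Finset.Icc 1 B, Nat.totient r *
          ((if r ∣ u a then 1 else 0) * (if r ∣ v b then 1 else 0)) := by
        refine Finset.sum_congr rfl fun a ha => Finset.sum_congr rfl fun b _ => ?_
        exact gcdK_sum (hu a ha) (huB a ha)
    _ = ∑ r ∈ Finset.Icc 1 B, ∑ a ∈ X, ∑ b ∈ Y, Nat.totient r *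
          ((if r ∣ u a then 1 else 0) * (if r ∣ v b then 1 else 0)) := by
        rw [Finset.sum_comm' (s := X) (t := fun _ => Y) (t' := Y) (s' := fun _ => X)
          (by intro x y; tauto)]
        rw [Finset.sum_comm' (s := Y) (t := fun _ => X) (t' := X) (s' := fun _ => Y)
          (by intro x y; tauto)]
        have h1 : ∀ a ∈ X, (∑ b ∈ Y, ∑ r ∈ Finset.Icc 1 B, Nat.totient r *
            ((if r ∣ u a then 1 else 0) * (if r ∣ v b then 1 else 0))) =
            ∑ r ∈ Finset.Icc 1 B, ∑ b ∈ Y, Nat.totient r *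
            ((if r ∣ u a then 1 else 0) * (if r ∣ v b then 1 else 0)) :=
          fun a _ => Finset.sum_comm
        rw [Finset.sum_congr rfl h1, Finset.sum_comm]
    _ = _ := by
        refine Finset.sum_congr rfl fun r _ => ?_
        rw [Finset.sum_mul_sum, Finset.mul_sum]
        refine Finset.sum_congr rfl fun a _ => ?_
        rw [Finset.mul_sum]

/-- `2 ∑ gcd (E x_a, E' y_b) ≤ E' ∑ gcd (x_a, x_a') + E ∑ gcd (y_b, y_b')`.

Proof.  `gcd (u, v) = ∑ φ(r)` over all `r` dividing `u` and `v` (`Nat.sum_totient`).  Let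
`F r` be the number of `a` with `r ∣ E x_a`, `G r` the number of `b` with `r ∣ E' y_b`.  Then
`∑ gcd (E x_a, E' y_b) = ∑ r, φ(r) F r G r`, `E ∑ gcd (x_a, x_a') = ∑ r, φ(r) (F r) ^ 2`,
`E' ∑ gcd (y_b, y_b') = ∑ r, φ(r) (G r) ^ 2` (sums over `r ≤` a bound), and
`2 E E' F G ≤ E' ^ 2 F ^ 2 + E ^ 2 G ^ 2`; divide by `E E'`. -/
theorem gcd_psd {α β : Type} (X : Finset α) (Y : Finset β) (x : α → ℕ) (y : β → ℕ) {e e' : ℕ}
    (he : 1 ≤ e) (he' : 1 ≤ e') (hx : ∀ a ∈ X, 1 ≤ x a) (hy : ∀ b ∈ Y, 1 ≤ y b) :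
    2 * ∑ a ∈ X, ∑ b ∈ Y, Nat.gcd (e * x a) (e' * y b) ≤
      e' * ∑ a ∈ X, ∑ a' ∈ X, Nat.gcd (x a) (x a') +
        e * ∑ b ∈ Y, ∑ b' ∈ Y, Nat.gcd (y b) (y b') := by
  obtain ⟨B, hB⟩ : ∃ B, B = ∑ a ∈ X, e * x a + ∑ b ∈ Y, e' * y b := ⟨_, rfl⟩
  have hxB : ∀ a ∈ X, e * x a ≤ B := by
    intro a ha
    have := Finset.single_le_sum (f := fun a => e * x a) (fun _ _ => Nat.zero_le _) ha
    omega
  have hyB : ∀ b ∈ Y, e' * y b ≤ B := by
    intro b hb
    have := Finset.single_le_sum (f := fun b => e' * y b) (fun _ _ => Nat.zero_le _) hb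
    omega
  have hx1 : ∀ a ∈ X, 1 ≤ e * x a := fun a ha => Nat.mul_pos he (hx a ha)
  have hy1 : ∀ b ∈ Y, 1 ≤ e' * y b := fun b hb => Nat.mul_pos he' (hy b hb)
  have hxy := gcdK_double X Y (fun a => e * x a) (fun b => e' * y b) hx1 hxB
  have hxx := gcdK_double X X (fun a => e * x a) (fun a => e * x a) hx1 hxB
  have hyy := gcdK_double Y Y (fun b => e' * y b) (fun b => e' * y b) hy1 hyB
  have hxx' : e * ∑ a ∈ X, ∑ a' ∈ X, Nat.gcd (x a) (x a') =
      ∑ a ∈ X, ∑ a' ∈ X, Nat.gcd (e * x a) (e * x a') := by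
    simp only [Finset.mul_sum, Nat.gcd_mul_left]
  have hyy' : e' * ∑ b ∈ Y, ∑ b' ∈ Y, Nat.gcd (y b) (y b') =
      ∑ b ∈ Y, ∑ b' ∈ Y, Nat.gcd (e' * y b) (e' * y b') := by
    simp only [Finset.mul_sum, Nat.gcd_mul_left]
  simp only at hxy hxx hyy
  refine Nat.le_of_mul_le_mul_left ?_ (Nat.mul_pos he he')
  have key : 2 * (e * e') * ∑ a ∈ X, ∑ b ∈ Y, Nat.gcd (e * x a) (e' * y b) ≤
      e' ^ 2 * (∑ a ∈ X, ∑ a' ∈ X, Nat.gcd (e * x a) (e * x a')) +
      e ^ 2 * (∑ b ∈ Y, ∑ b' ∈ Y, Nat.gcd (e' * y b) (e' * y b')) := by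
    rw [hxy, hxx, hyy, Finset.mul_sum, Finset.mul_sum, Finset.mul_sum, ← Finset.sum_add_distrib]
    refine Finset.sum_le_sum fun r _ => ?_
    generalize (∑ a ∈ X, if r ∣ e * x a then 1 else 0) = F
    generalize (∑ b ∈ Y, if r ∣ e' * y b then 1 else 0) = G
    generalize Nat.totient r = t
    have h : 2 * (e' * F) * (e * G) ≤ (e' * F) ^ 2 + (e * G) ^ 2 := two_mul_le_add_sq _ _
    calc 2 * (e * e') * (t * (F * G)) = t * (2 * (e' * F) * (e * G)) := by ring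
      _ ≤ t * ((e' * F) ^ 2 + (e * G) ^ 2) := Nat.mul_le_mul_left _ h
      _ = _ := by ring
  calc e * e' * (2 * ∑ a ∈ X, ∑ b ∈ Y, Nat.gcd (e * x a) (e' * y b))
      = 2 * (e * e') * ∑ a ∈ X, ∑ b ∈ Y, Nat.gcd (e * x a) (e' * y b) := by ring
    _ ≤ _ := key
    _ = _ := by rw [← hxx', ← hyy']; ring

/-- The count over a general value.

Data: a finite set `I` (the points `p` over `t0` under `B`), indices `eB p`, for every `p` the finite
fibre `X p` with indices `x a`, nonnegative numbers `M p p'`, the numbers `N a b` of places.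

Proof.  From `hN`: `N a b * eB p ≤ m * M p p' * gcd (eB p x_a, eB p' x_b)` (multiply `hN` by the gcd,
`gcd * lcm = product`, cancel `x_a`, `eB p' x_b`).  Sum over `a, b` and use `gcd_psd`:
`2 eB p ∑ N ≤ m M p p' (eB p' g_p + eB p g_p')`, with `g_p = ∑ gcd (x_a, x_a')`.  Divide by `eB p`
(rational numbers) and sum over `p, p'`: the first part gives
`m ∑ p, g_p / eB p * ∑ p', M p p' eB p' = m ∑ g_p d'` (`hrow`), the second `m ∑ p', g_p' ∑ p, M p p' =
m ∑ g_p' d'` (`hcol`). -/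
theorem gcd_count {ι α : Type} (I : Finset ι) (eB : ι → ℕ) (X : ι → Finset α) (x : α → ℕ)
    (M : ι → ι → ℕ) (N : α → α → ℕ) {m d' : ℕ} (hB : ∀ p ∈ I, 1 ≤ eB p)
    (hx : ∀ p ∈ I, ∀ a ∈ X p, 1 ≤ x a)
    (hN : ∀ p ∈ I, ∀ p' ∈ I, ∀ a ∈ X p, ∀ b ∈ X p',
      N a b * Nat.lcm (eB p * x a) (eB p' * x b) ≤ eB p' * x b * (m * (x a * M p p')))
    (hrow : ∀ p ∈ I, ∑ p' ∈ I, eB p' * M p p' = eB p * d')
    (hcol : ∀ p' ∈ I, ∑ p ∈ I, M p p' = d') :
    ∑ p ∈ I, ∑ p' ∈ I, ∑ a ∈ X p, ∑ b ∈ X p', N a b ≤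
      m * d' * ∑ p ∈ I, ∑ a ∈ X p, ∑ a' ∈ X p, Nat.gcd (x a) (x a') := by
  obtain ⟨g, hg⟩ : ∃ g : ι → ℕ, ∀ p, g p = ∑ a ∈ X p, ∑ a' ∈ X p, Nat.gcd (x a) (x a') :=
    ⟨_, fun _ => rfl⟩
  obtain ⟨S, hS⟩ : ∃ S : ι → ι → ℕ, ∀ p p', S p p' = ∑ a ∈ X p, ∑ b ∈ X p', N a b :=
    ⟨_, fun _ _ => rfl⟩
  -- the bound for one pair
  have h1 : ∀ p ∈ I, ∀ p' ∈ I, 2 * (eB p * S p p') ≤
      m * M p p' * (eB p' * g p + eB p * g p') := by
    intro p hp p' hp'
    have h2 : ∀ a ∈ X p, ∀ b ∈ X p', eB p * N a b ≤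
        m * M p p' * Nat.gcd (eB p * x a) (eB p' * x b) := by
      intro a ha b hb
      have hxa := hx p hp a ha
      have hxb := hx p' hp' b hb
      have hpp := hB p hp
      have hpp' := hB p' hp'
      have h := hN p hp p' hp' a ha b hb
      have hgl : Nat.gcd (eB p * x a) (eB p' * x b) * Nat.lcm (eB p * x a) (eB p' * x b) =
          (eB p * x a) * (eB p' * x b) := Nat.gcd_mul_lcm _ _
      refine Nat.le_of_mul_le_mul_left ?_ (Nat.mul_pos hxa (Nat.mul_pos hpp' hxb))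
      calc x a * (eB p' * x b) * (eB p * N a b) = N a b * ((eB p * x a) * (eB p' * x b)) := by ring
        _ = (N a b * Nat.lcm (eB p * x a) (eB p' * x b)) *
            Nat.gcd (eB p * x a) (eB p' * x b) := by rw [← hgl]; ring
        _ ≤ (eB p' * x b * (m * (x a * M p p'))) * Nat.gcd (eB p * x a) (eB p' * x b) :=
            Nat.mul_le_mul_right _ h
        _ = _ := by ring
    have h3 : eB p * S p p' ≤ m * M p p' * ∑ a ∈ X p, ∑ b ∈ X p',
        Nat.gcd (eB p * x a) (eB p' * x b) := by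
      rw [hS]
      simp only [Finset.mul_sum]
      exact Finset.sum_le_sum fun a ha => Finset.sum_le_sum fun b hb => h2 a ha b hb
    have h4 := gcd_psd (X p) (X p') x x (hB p hp) (hB p' hp') (hx p hp) (hx p' hp')
    rw [← hg, ← hg] at h4
    calc 2 * (eB p * S p p') ≤ 2 * (m * M p p' * ∑ a ∈ X p, ∑ b ∈ X p',
          Nat.gcd (eB p * x a) (eB p' * x b)) := Nat.mul_le_mul_left _ h3
      _ = m * M p p' * (2 * ∑ a ∈ X p, ∑ b ∈ X p', Nat.gcd (eB p * x a) (eB p' * x b)) := by ring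
      _ ≤ _ := Nat.mul_le_mul_left _ h4
  -- divide by `eB p`
  have h5 : ∀ p ∈ I, ∀ p' ∈ I, (2 : ℚ) * (S p p' : ℚ) ≤
      m * (g p : ℚ) / (eB p : ℚ) * ((eB p' : ℚ) * (M p p' : ℚ)) + m * (g p' : ℚ) * (M p p' : ℚ) := by
    intro p hp p' hp'
    have hpos : (0 : ℚ) < (eB p : ℚ) := by exact_mod_cast hB p hp
    have h := h1 p hp p' hp'
    have h' : (2 : ℚ) * ((eB p : ℚ) * (S p p' : ℚ)) ≤
        (m : ℚ) * (M p p' : ℚ) * ((eB p' : ℚ) * (g p : ℚ) + (eB p : ℚ) * (g p' : ℚ)) := by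
      exact_mod_cast h
    have e1 : m * (g p : ℚ) / (eB p : ℚ) * ((eB p' : ℚ) * (M p p' : ℚ)) +
        m * (g p' : ℚ) * (M p p' : ℚ) = ((m : ℚ) * (M p p' : ℚ) * ((eB p' : ℚ) * (g p : ℚ) +
          (eB p : ℚ) * (g p' : ℚ))) / (eB p : ℚ) := by
      field_simp
    rw [e1, le_div_iff₀ hpos]
    linarith [h']
  have h6 : (2 : ℚ) * ∑ p ∈ I, ∑ p' ∈ I, (S p p' : ℚ) ≤
      ∑ p ∈ I, ∑ p' ∈ I, (m * (g p : ℚ) / (eB p : ℚ) * ((eB p' : ℚ) * (M p p' : ℚ)) +
        m * (g p' : ℚ) * (M p p' : ℚ)) := by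
    rw [Finset.mul_sum]
    refine Finset.sum_le_sum fun p hp => ?_
    rw [Finset.mul_sum]
    exact Finset.sum_le_sum fun p' hp' => h5 p hp p' hp'
  have h7 : ∑ p ∈ I, ∑ p' ∈ I, (m * (g p : ℚ) / (eB p : ℚ) * ((eB p' : ℚ) * (M p p' : ℚ)) +
        m * (g p' : ℚ) * (M p p' : ℚ)) = 2 * (m * d' * ∑ p ∈ I, (g p : ℚ)) := by
    simp only [Finset.sum_add_distrib]
    have e1 : ∑ p ∈ I, ∑ p' ∈ I, m * (g p : ℚ) / (eB p : ℚ) * ((eB p' : ℚ) * (M p p' : ℚ)) =
        m * d' * ∑ p ∈ I, (g p : ℚ) := by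
      rw [Finset.mul_sum]
      refine Finset.sum_congr rfl fun p hp => ?_
      rw [← Finset.mul_sum]
      have hpos : (eB p : ℚ) ≠ 0 := by
        have := hB p hp
        have : (eB p) ≠ 0 := by omega
        exact_mod_cast this
      have hr : ∑ p' ∈ I, (eB p' : ℚ) * (M p p' : ℚ) = (eB p : ℚ) * d' := by
        exact_mod_cast hrow p hp
      rw [hr]
      field_simp
    have e2 : ∑ p ∈ I, ∑ p' ∈ I, m * (g p' : ℚ) * (M p p' : ℚ) =
        m * d' * ∑ p ∈ I, (g p : ℚ) := by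
      rw [Finset.sum_comm, Finset.mul_sum]
      refine Finset.sum_congr rfl fun p' hp' => ?_
      rw [← Finset.mul_sum]
      have hr : ∑ p ∈ I, (M p p' : ℚ) = d' := by exact_mod_cast hcol p' hp'
      rw [hr]
      ring
    rw [e1, e2]
    ring
  have h8 : (∑ p ∈ I, ∑ p' ∈ I, (S p p' : ℚ)) ≤ m * d' * ∑ p ∈ I, (g p : ℚ) := by
    rw [h7] at h6
    linarith
  have h9 : (∑ p ∈ I, ∑ p' ∈ I, S p p') ≤ m * d' * ∑ p ∈ I, g p := by exact_mod_cast h8
  simpa only [hS, hg] using h9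

/-- The count over the simple value: all `eB p = 1`, over `p1` there is one index two (at `a1`) and
`s - 2` indices one, over the other `p` there are `s` indices one, and `M p1 p1 = 0`.

Proof.  `lcm (x_a, x_b) N a b ≤ m x_a x_b M`, so `N a b ≤ m M gcd (x_a, x_b)`, and the gcd is one except
for `a = b = a1`, where `M = 0`.  So the sum is at most
`m (s ^ 2 ∑_{p, p' ≠ p1} M + s (s - 1) (∑_{p' ≠ p1} M p1 p' + ∑_{p ≠ p1} M p p1))
= m (s ^ 2 (k - 2) d' + 2 s (s - 1) d') = m d' (k s ^ 2 - 2 s)`, `k = card I`, while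
`∑ g_p = (k - 1) s ^ 2 + (s - 1) ^ 2 + 1 = k s ^ 2 - 2 s + 2`. -/
theorem gcd_count_simple {ι α : Type} [DecidableEq ι] [DecidableEq α] (I : Finset ι)
    (X : ι → Finset α) (x : α → ℕ)
    (M : ι → ι → ℕ) (N : α → α → ℕ) {m d' s : ℕ} {p1 : ι} (hp1 : p1 ∈ I) {a1 : α}
    (ha1 : a1 ∈ X p1) (hx1 : x a1 = 2) (hx1' : ∀ a ∈ X p1, a ≠ a1 → x a = 1)
    (hx : ∀ p ∈ I, p ≠ p1 → ∀ a ∈ X p, x a = 1) (hs1 : (X p1).card + 1 = s)
    (hs : ∀ p ∈ I, p ≠ p1 → (X p).card = s)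
    (hN : ∀ p ∈ I, ∀ p' ∈ I, ∀ a ∈ X p, ∀ b ∈ X p',
      N a b * Nat.lcm (x a) (x b) ≤ x b * (m * (x a * M p p')))
    (hrow : ∀ p ∈ I, ∑ p' ∈ I, M p p' = d') (hcol : ∀ p' ∈ I, ∑ p ∈ I, M p p' = d')
    (hM : M p1 p1 = 0) :
    ∑ p ∈ I, ∑ p' ∈ I, ∑ a ∈ X p, ∑ b ∈ X p', N a b + 2 * (m * d') ≤
      m * d' * ∑ p ∈ I, ∑ a ∈ X p, ∑ a' ∈ X p, Nat.gcd (x a) (x a') := by
  have hxpos : ∀ p ∈ I, ∀ a ∈ X p, 1 ≤ x a := by
    intro p hp a ha
    by_cases hpp : p = p1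
    · subst hpp
      by_cases haa : a = a1
      · subst haa; omega
      · rw [hx1' a ha haa]
    · rw [hx p hp hpp a ha]
  have hb : ∀ p ∈ I, ∀ p' ∈ I, ∀ a ∈ X p, ∀ b ∈ X p', N a b ≤ m * M p p' := by
    intro p hp p' hp' a ha b hb
    have h := hN p hp p' hp' a ha b hb
    have hxa := hxpos p hp a ha
    have hxb := hxpos p' hp' b hb
    have hl : 1 ≤ Nat.lcm (x a) (x b) := Nat.lcm_pos hxa hxb
    by_cases hh : p = p1 ∧ p' = p1
    · obtain ⟨rfl, rfl⟩ := hh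
      rw [hM] at h ⊢
      simp only [mul_zero] at h ⊢
      have h0 : N a b * Nat.lcm (x a) (x b) = 0 := by omega
      rcases Nat.mul_eq_zero.1 h0 with h0 | h0
      · omega
      · omega
    · have hcop : Nat.lcm (x a) (x b) = x a * x b := by
        by_cases hp1' : p = p1
        · have hp2' : p' ≠ p1 := fun e => hh ⟨hp1', e⟩
          rw [hx p' hp' hp2' b hb]
          simp
        · rw [hx p hp hp1' a ha]
          simp
      rw [hcop] at h
      refine Nat.le_of_mul_le_mul_left ?_ (Nat.mul_pos hxa hxb)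
      calc x a * x b * N a b = N a b * (x a * x b) := by ring
        _ ≤ _ := h
        _ = _ := by ring
  obtain ⟨S, hS⟩ : ∃ S : ι → ι → ℕ, ∀ p p', S p p' = ∑ a ∈ X p, ∑ b ∈ X p', N a b :=
    ⟨_, fun _ _ => rfl⟩
  have hSb : ∀ p ∈ I, ∀ p' ∈ I, S p p' ≤ m * M p p' * ((X p).card * (X p').card) := by
    intro p hp p' hp'
    rw [hS]
    calc ∑ a ∈ X p, ∑ b ∈ X p', N a b ≤ ∑ _a ∈ X p, ∑ _b ∈ X p', m * M p p' :=
          Finset.sum_le_sum fun a ha => Finset.sum_le_sum fun b hb' => hb p hp p' hp' a ha b hb'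
      _ = _ := by
          rw [Finset.sum_const, Finset.sum_const]
          simp only [smul_eq_mul]
          ring
  obtain ⟨g, hg⟩ : ∃ g : ι → ℕ, ∀ p, g p = ∑ a ∈ X p, ∑ a' ∈ X p, Nat.gcd (x a) (x a') :=
    ⟨_, fun _ => rfl⟩
  have hg0 : ∀ p ∈ I, p ≠ p1 → g p = s * s := by
    intro p hp hpp
    rw [hg]
    have : ∀ a ∈ X p, ∀ a' ∈ X p, Nat.gcd (x a) (x a') = 1 := by
      intro a ha a' ha'
      rw [hx p hp hpp a ha]
      simp
    rw [Finset.sum_congr rfl fun a ha => Finset.sum_congr rfl fun a' ha' => this a ha a' ha']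
    simp [hs p hp hpp]
  have hg1 : g p1 = (X p1).card * (X p1).card + 1 := by
    rw [hg]
    have h1 : ∀ a ∈ X p1, ∀ a' ∈ X p1, Nat.gcd (x a) (x a') =
        1 + (if a = a1 then (if a' = a1 then 1 else 0) else 0) := by
      intro a ha a' ha'
      by_cases h : a = a1
      · by_cases h' : a' = a1
        · rw [h, h', hx1]
          simp
        · rw [hx1' a' ha' h']
          simp [h']
      · rw [hx1' a ha h]
        simp [h]
    rw [Finset.sum_congr rfl fun a ha => Finset.sum_congr rfl fun a' ha' => h1 a ha a' ha']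
    simp only [Finset.sum_add_distrib, Finset.sum_const, smul_eq_mul, mul_one]
    congr 1
    have h2 : ∀ a ∈ X p1, (∑ a' ∈ X p1, if a = a1 then (if a' = a1 then 1 else 0) else 0) =
        if a = a1 then 1 else 0 := by
      intro a _
      by_cases h : a = a1
      · simp [h, ha1]
      · simp [h]
    rw [Finset.sum_congr rfl h2]
    simp [ha1]
  -- everything over the integers
  have hc : ∀ p ∈ I, ((X p).card : ℤ) = s - (if p = p1 then 1 else 0) := by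
    intro p hp
    by_cases h : p = p1
    · subst h
      rw [if_pos rfl, ← hs1]
      push_cast
      ring
    · rw [if_neg h, hs p hp h]
      ring
  have hsumM : ∑ p ∈ I, ∑ p' ∈ I, (M p p' : ℤ) * (((X p).card : ℤ) * ((X p').card : ℤ)) =
      s * s * (I.card * d') - 2 * (s * d') := by
    have e1 : ∀ p ∈ I, ∑ p' ∈ I, (M p p' : ℤ) * (((X p).card : ℤ) * ((X p').card : ℤ)) =
        (s - (if p = p1 then 1 else 0)) * (s * d' - M p p1) := by
      intro p hp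
      have e2 : ∀ p' ∈ I, (M p p' : ℤ) * (((X p).card : ℤ) * ((X p').card : ℤ)) =
          (s - (if p = p1 then 1 else 0)) * (s * M p p' -
            (if p' = p1 then (M p p1 : ℤ) else 0)) := by
        intro p' hp'
        rw [hc p hp, hc p' hp']
        by_cases h' : p' = p1
        · subst h'
          simp only [if_true]
          ring
        · simp only [if_neg h']
          ring
      rw [Finset.sum_congr rfl e2, ← Finset.mul_sum, Finset.sum_sub_distrib, ← Finset.mul_sum]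
      have hr : ∑ p' ∈ I, (M p p' : ℤ) = d' := by exact_mod_cast hrow p hp
      rw [hr, Finset.sum_ite_eq' I p1]
      simp [hp1]
    rw [Finset.sum_congr rfl e1]
    have e3 : ∀ p ∈ I, ((s : ℤ) - (if p = p1 then 1 else 0)) * (s * d' - M p p1) =
        s * (s * d') - s * M p p1 - (if p = p1 then (s * d' - (M p1 p1 : ℤ)) else 0) := by
      intro p _
      by_cases h : p = p1
      · subst h
        simp only [if_true]
        ring
      · simp only [if_neg h]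
        ring
    have hcc : ∑ p ∈ I, (s : ℤ) * (M p p1 : ℤ) = s * d' := by
      rw [← Finset.mul_sum]
      have : ∑ p ∈ I, (M p p1 : ℤ) = d' := by exact_mod_cast hcol p1 hp1
      rw [this]
    rw [Finset.sum_congr rfl e3, Finset.sum_sub_distrib, Finset.sum_sub_distrib,
      Finset.sum_ite_eq' I p1, if_pos hp1, hM, hcc]
    simp only [Finset.sum_const, nsmul_eq_mul, Nat.cast_zero, sub_zero]
    ring
  have hsumg : (∑ p ∈ I, (g p : ℤ)) = I.card * (s * s) - 2 * s + 2 := by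
    have e1 : ∀ p ∈ I, (g p : ℤ) = s * s + (if p = p1 then (2 - 2 * (s : ℤ)) else 0) := by
      intro p hp
      by_cases h : p = p1
      · subst h
        rw [if_pos rfl, hg1]
        push_cast
        rw [hc p hp, if_pos rfl]
        ring
      · rw [if_neg h, hg0 p hp h]
        push_cast
        ring
    rw [Finset.sum_congr rfl e1, Finset.sum_add_distrib, Finset.sum_ite_eq' I p1, if_pos hp1]
    simp only [Finset.sum_const, nsmul_eq_mul]
    ring
  have hfin : (∑ p ∈ I, ∑ p' ∈ I, (S p p' : ℤ)) + 2 * (m * d') ≤ m * d' * ∑ p ∈ I, (g p : ℤ) := by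
    have e1 : (∑ p ∈ I, ∑ p' ∈ I, (S p p' : ℤ)) ≤
        m * ∑ p ∈ I, ∑ p' ∈ I, (M p p' : ℤ) * (((X p).card : ℤ) * ((X p').card : ℤ)) := by
      rw [Finset.mul_sum]
      refine Finset.sum_le_sum fun p hp => ?_
      rw [Finset.mul_sum]
      refine Finset.sum_le_sum fun p' hp' => ?_
      have h := hSb p hp p' hp'
      have h' : (S p p' : ℤ) ≤ (m : ℤ) * M p p' * (((X p).card : ℤ) * ((X p').card : ℤ)) := by
        exact_mod_cast h
      linarith
    rw [hsumM] at e1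
    rw [hsumg]
    nlinarith [e1]
  have hfin' : (∑ p ∈ I, ∑ p' ∈ I, S p p') + 2 * (m * d') ≤ m * d' * ∑ p ∈ I, g p := by
    exact_mod_cast hfin
  simpa only [hS, hg] using hfin'

end WildV
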