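import Pool.Agent.helper21.WV.Defs

/-! Exactness by Riemann-Hurwitz. -/

namespace WildV

open Polynomial WildRat WildS

/-- If the indices over three values are divisible by `m i` with `∑ 1 / m i = 1 + 2 / N`, then they
are equal to `m i`, and everything else is unramified.

Proof.  Riemann-Hurwitz (`rh_P1`): the sum of `B.e z - 1` over the (finite) set `R` of ramified points
is `2 N - 2`.  Let `F i = fibP B (c i)`, pairwise disjoint.  `∑ z ∈ F i, B.e z = N` (`RF.sum_e`) and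
`m i ≤ B.e z` on `F i`, so `m i * card (F i) ≤ N`.  Sum over the three fibres:
`∑ i, (N - card (F i)) ≤ ∑ z ∈ R, (B.e z - 1) = 2 N - 2` (points of `F i` outside `R` contribute zero;
the remaining points of `R` contribute positive numbers), so `N + 2 ≤ ∑ i, card (F i)`.  With `hm`
(i.e. `∑ i, N / m i = N + 2` as rational numbers) all the inequalities are equalities:
`m i * card (F i) = N`, so `∑ z ∈ F i, (B.e z - m i) = 0`, and there is no further ramified point. -/
theorem klein_exact (B : RF) (N : ℕ) (hN : 1 ≤ N) (hBn : B.n = N) (c : Fin 3 → P1)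
    (hc : Function.Injective c) (m : Fin 3 → ℕ) (hm0 : ∀ i, 1 ≤ m i)
    (hm : ∑ i, (N : ℚ) / m i = N + 2)
    (hdiv : ∀ i b, B.val b = c i → m i ∣ B.e b) :
    (∀ i b, B.val b = c i → B.e b = m i) ∧ ∀ b, (∀ i, B.val b ≠ c i) → B.e b = 1 := by
  classical
  have hn : 1 ≤ B.n := by omega
  -- the ramified points, the fibres
  obtain ⟨R, hR⟩ : ∃ R : Finset P1, R = (B.ramified_finite hn).toFinset := ⟨_, rfl⟩
  have hRmem : ∀ z, z ∈ R ↔ B.e z ≠ 1 := by
    intro z
    rw [hR]
    simp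
  have hRH : ∑ z ∈ R, ((B.e z : ℤ) - 1) = 2 * N - 2 := by
    rw [hR, rh_P1 B hn, hBn]
  have hsum : ∀ i, ∑ z ∈ fibP B (c i), B.e z = N := by
    intro i
    rw [fibP_eq hn, B.sum_e hn, hBn]
  obtain ⟨U, hU⟩ : ∃ U : Finset P1, U = Finset.univ.biUnion fun i => fibP B (c i) := ⟨_, rfl⟩
  have hUmem : ∀ z, z ∈ U ↔ ∃ i, B.val z = c i := by
    intro z
    rw [hU, Finset.mem_biUnion]
    constructor
    · rintro ⟨i, -, hi⟩
      exact ⟨i, (mem_fibP hn).1 hi⟩
    · rintro ⟨i, hi⟩
      exact ⟨i, Finset.mem_univ _, (mem_fibP hn).2 hi⟩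
  have hUsum : ∑ z ∈ U, ((B.e z : ℤ) - 1) = 3 * N - ∑ i, ((fibP B (c i)).card : ℤ) := by
    rw [hU, Finset.sum_biUnion]
    · have h1 : ∀ i, ∑ z ∈ fibP B (c i), ((B.e z : ℤ) - 1) = N - ((fibP B (c i)).card : ℤ) := by
        intro i
        rw [Finset.sum_sub_distrib, ← hsum i]
        push_cast
        simp
      rw [Finset.sum_congr rfl fun i _ => h1 i, Finset.sum_sub_distrib]
      simp
    · intro i _ j _ hij
      rw [Function.onFun, Finset.disjoint_left]
      intro z hz hz'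
      rw [mem_fibP hn] at hz hz'
      exact hij (hc (hz.symm.trans hz'))
  -- the sum over the remaining ramified points
  have hrest : ∑ z ∈ R \ U, ((B.e z : ℤ) - 1) = ∑ i, ((fibP B (c i)).card : ℤ) - N - 2 := by
    have h1 : ∑ z ∈ R ∩ U, ((B.e z : ℤ) - 1) = ∑ z ∈ U, ((B.e z : ℤ) - 1) := by
      refine Finset.sum_subset Finset.inter_subset_right fun z hz hz' => ?_
      have h2 : z ∉ R := fun h => hz' (Finset.mem_inter.2 ⟨h, hz⟩)
      rw [hRmem, not_not] at h2
      rw [h2]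
      norm_num
    have h3 := Finset.sum_sdiff (s₁ := R ∩ U) (s₂ := R) (f := fun z => ((B.e z : ℤ) - 1))
      Finset.inter_subset_left
    rw [Finset.sdiff_inter_self_left] at h3
    rw [h1, hUsum, hRH] at h3
    linarith
  have hle : ∀ i, ∀ z ∈ fibP B (c i), m i ≤ B.e z := by
    intro i z hz
    exact Nat.le_of_dvd (B.one_le_e hn z) (hdiv i z ((mem_fibP hn).1 hz))
  have hcard : ∀ i, (fibP B (c i)).card * m i ≤ N := by
    intro i
    rw [← hsum i, ← smul_eq_mul]
    exact Finset.card_nsmul_le_sum _ _ _ (hle i)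
  have hcardQ : ∀ i, ((fibP B (c i)).card : ℚ) ≤ (N : ℚ) / m i := by
    intro i
    have h1 : (0 : ℚ) < m i := by exact_mod_cast hm0 i
    rw [le_div_iff₀ h1]
    exact_mod_cast hcard i
  have hpos : ∀ z, (0 : ℤ) ≤ (B.e z : ℤ) - 1 := by
    intro z
    have := B.one_le_e hn z
    omega
  have hge : (0 : ℤ) ≤ ∑ z ∈ R \ U, ((B.e z : ℤ) - 1) := Finset.sum_nonneg fun z _ => hpos z
  have hsumle : ∑ i, ((fibP B (c i)).card : ℚ) ≤ N + 2 := by
    rw [← hm]
    exact Finset.sum_le_sum fun i _ => hcardQ i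
  have hsumge : (N : ℤ) + 2 ≤ ∑ i, ((fibP B (c i)).card : ℤ) := by
    rw [hrest] at hge
    linarith
  have hsumeq : ∑ i, ((fibP B (c i)).card : ℚ) = N + 2 := by
    refine le_antisymm hsumle ?_
    exact_mod_cast hsumge
  have hsumeqZ : ∑ i, ((fibP B (c i)).card : ℤ) = N + 2 := by exact_mod_cast hsumeq
  have hcardeq : ∀ i, ((fibP B (c i)).card : ℚ) = (N : ℚ) / m i := by
    have h1 : ∑ i, ((fibP B (c i)).card : ℚ) = ∑ i, (N : ℚ) / m i := by rw [hsumeq, hm]
    have h2 := (Finset.sum_eq_sum_iff_of_le fun i _ => hcardQ i).1 h1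
    exact fun i => h2 i (Finset.mem_univ _)
  have hcardN : ∀ i, (fibP B (c i)).card * m i = N := by
    intro i
    have h1 : (0 : ℚ) < m i := by exact_mod_cast hm0 i
    have h2 := hcardeq i
    rw [eq_div_iff h1.ne'] at h2
    exact_mod_cast h2
  constructor
  · intro i b hb
    have h1 : ∑ z ∈ fibP B (c i), m i = ∑ z ∈ fibP B (c i), B.e z := by
      rw [Finset.sum_const, smul_eq_mul, hcardN, hsum]
    have h2 := (Finset.sum_eq_sum_iff_of_le (hle i)).1 h1
    exact (h2 b ((mem_fibP hn).2 hb)).symm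
  · intro b hb
    by_contra hne
    have h1 : b ∈ R \ U := by
      rw [Finset.mem_sdiff, hRmem, hUmem]
      refine ⟨hne, ?_⟩
      rintro ⟨i, hi⟩
      exact hb i hi
    have h2 : ∑ z ∈ R \ U, ((B.e z : ℤ) - 1) = 0 := by
      rw [hrest, hsumeqZ]
      ring
    have h3 := (Finset.sum_eq_zero_iff_of_nonneg fun z _ => hpos z).1 h2 b h1
    omega

end WildV
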