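import Pool.Agent.helper21.WV.Wt

/-! Partitions with weight at most the sum and at least seven parts. -/

namespace WildV

open Multiset

/-- the three possibilities for a part -/
theorem LemD_dec {d y : ℕ} (hd : 1 ≤ d) (hy : 1 ≤ y) (hyd : y ≠ d) :
    (y = Nat.gcd d y ∧ 2 * y ≤ d ∧ (2 * y = d ∨ 3 * y ≤ d)) ∨
    (y = 2 * Nat.gcd d y) ∨ (3 * Nat.gcd d y ≤ y) := by
  obtain ⟨g, hg⟩ : ∃ g, g = Nat.gcd d y := ⟨_, rfl⟩
  obtain ⟨a, ha⟩ := Nat.gcd_dvd_left d y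
  obtain ⟨b, hb⟩ := Nat.gcd_dvd_right d y
  have hg1 : 1 ≤ g := by
    rw [hg]
    exact Nat.gcd_pos_of_pos_left _ hd
  rw [← hg] at ha hb ⊢
  have hb0 : b ≠ 0 := by
    rintro rfl
    rw [mul_zero] at hb
    omega
  have ha0 : a ≠ 0 := by
    rintro rfl
    rw [mul_zero] at ha
    omega
  rcases Nat.lt_or_ge b 2 with h1 | h1
  · have hb1 : b = 1 := by omega
    rw [hb1, mul_one] at hb
    left
    have ha1 : a ≠ 1 := by
      rintro rfl
      rw [mul_one] at ha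
      exact hyd (hb.trans ha.symm)
    refine ⟨hb, ?_, ?_⟩
    · have : g * 2 ≤ g * a := Nat.mul_le_mul_left g (by omega)
      omega
    · rcases Nat.lt_or_ge a 3 with h2 | h2
      · have ha2 : a = 2 := by omega
        rw [ha2] at ha
        left
        omega
      · right
        have : g * 3 ≤ g * a := Nat.mul_le_mul_left g h2
        omega
  · rcases Nat.lt_or_ge b 3 with h2 | h2
    · have hb2 : b = 2 := by omega
      rw [hb2] at hb
      right; left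
      omega
    · right; right
      have : g * 3 ≤ g * b := Nat.mul_le_mul_left g h2
      omega

/-- One exceptional part.  Proof: `y = g y'`, `g = gcd d y`; the inequality gives
`m (y - 2 g) ≤ y`, so `m (y' - 2) ≤ y'`, and `y' ≥ 3` is impossible for `m ≥ 4`.  `y' = 1`: `y ∣ d`.
`y' = 2`: `y = 2 g`, and `d / g` is odd because `gcd d (2 g) = g`. -/
theorem lemD_one {m d y : ℕ} (hm : 4 ≤ m) (hd : 1 ≤ d) (hy : 1 ≤ y) (hyd : y ≠ d)
    (h : m * ((d - Nat.gcd d y) + (y - Nat.gcd d y)) ≤ m * d + y) :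
    (y ∣ d) ∨ ∃ g, 1 ≤ g ∧ y = 2 * g ∧ g ∣ d ∧ Odd (d / g) := by
  have hg1 : 1 ≤ Nat.gcd d y := Nat.gcd_pos_of_pos_left _ hd
  have hgd : Nat.gcd d y ≤ d := Nat.gcd_le_left y hd
  have hgy : Nat.gcd d y ≤ y := Nat.gcd_le_right d hy
  rcases LemD_dec hd hy hyd with h1 | h1 | h1
  · left
    rw [h1.1]
    exact Nat.gcd_dvd_left d y
  · right
    refine ⟨Nat.gcd d y, hg1, h1, Nat.gcd_dvd_left d y, ?_⟩
    obtain ⟨g, hg⟩ : ∃ g, g = Nat.gcd d y := ⟨_, rfl⟩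
    obtain ⟨a, ha⟩ := Nat.gcd_dvd_left d y
    rw [← hg] at ha h1 hg1 ⊢
    have hda : d / g = a := by
      rw [ha]
      exact Nat.mul_div_cancel_left a (by omega)
    rw [hda]
    by_contra hodd
    rw [Nat.not_odd_iff_even] at hodd
    obtain ⟨c, hc⟩ := hodd
    have h2 : 2 * g ∣ Nat.gcd d y := by
      apply Nat.dvd_gcd
      · rw [ha, hc]
        exact ⟨c, by ring⟩
      · rw [h1]
    rw [← hg] at h2
    have := Nat.le_of_dvd (by omega) h2
    omega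
  · exfalso
    obtain ⟨g, hg⟩ : ∃ g, g = Nat.gcd d y := ⟨_, rfl⟩
    rw [← hg] at h1 h hg1 hgd hgy
    obtain ⟨a, rfl⟩ := Nat.exists_eq_add_of_le hgd
    obtain ⟨b, rfl⟩ := Nat.exists_eq_add_of_le hgy
    have e1 : g + a - g = a := by omega
    have e2 : g + b - g = b := by omega
    rw [e1, e2] at h
    have h3 : m * b ≤ m * g + (g + b) := by nlinarith
    have h4 : 2 * g ≤ b := by omega
    -- m (b - g) ≤ g + b
    obtain ⟨c, rfl⟩ := Nat.exists_eq_add_of_le (show g ≤ b by omega)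
    have h5 : m * c ≤ 2 * g + c := by nlinarith
    have h6 : 4 * c ≤ m * c := Nat.mul_le_mul_right c hm
    omega

/-- Two exceptional parts.  Proof.  Let `g_l = gcd d y_l`, `y_l = g_l y_l'`, `G = gcd y1 y2`.  The
inequality says `m (d + (y1 - 2 g1) + (y2 - 2 g2)) ≤ 2 G` (integers; the bracket is nonnegative since
`y_l - 2 g_l ≥ - d / 2`: if `y_l' = 1` then `y_l = g_l` is a proper divisor of `d`, if `y_l' ≥ 2` the
term is nonnegative).
Case `y1' = y2' = 1`: `y_l = d / k_l`, `k1 ≤ k2` say, `2 ≤ k1`.  If `k2 = 2` we are done.  If `k2 ≥ 4`: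
`1 - 1/k1 - 1/k2 ≥ 1/2 - 1/k2` and `G ≤ d / k2` give `m (k2 - 2) ≤ 4`.  If `k2 = 3`, `k1 = 2`:
`G = d / 6` and `m / 6 ≤ 2 / 6`; `k1 = 3`: `m / 3 ≤ 2 / 3`.
Case `y1' = 1`, `y2' ≥ 2`: `m d (1 - 1/k1) ≤ 2 G ≤ 2 y1 = 2 d / k1`, so `m (k1 - 1) ≤ 2`.
Case `y1' = 2`, `y2' ≥ 2`: `m d ≤ 2 G ≤ 2 y1 = 4 g1 ≤ 4 d`, so `m ≤ 4`.
Case `y1', y2' ≥ 3`: `y_l - 2 g_l ≥ y_l / 3`, so `m (d + (y1 + y2) / 3) ≤ 2 G ≤ y1 + y2`, `m < 3`.
All contradict `m ≥ 5`. -/
theorem lemD_two {m d y1 y2 : ℕ} (hm : 5 ≤ m) (hd : 1 ≤ d) (h1 : 1 ≤ y1) (h2 : 1 ≤ y2)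
    (hy1 : y1 ≠ d) (hy2 : y2 ≠ d)
    (h : m * (((d - Nat.gcd d y1) + (y1 - Nat.gcd d y1)) +
        ((d - Nat.gcd d y2) + (y2 - Nat.gcd d y2))) +
      ((y1 - Nat.gcd y1 y2) + (y2 - Nat.gcd y1 y2)) ≤ m * d + y1 + y2) :
    2 * y1 = d ∧ 2 * y2 = d := by
  have a1 : Nat.gcd d y1 ≤ d := Nat.gcd_le_left y1 hd
  have a2 : Nat.gcd d y1 ≤ y1 := Nat.gcd_le_right d h1
  have a3 : Nat.gcd d y2 ≤ d := Nat.gcd_le_left y2 hd
  have a4 : Nat.gcd d y2 ≤ y2 := Nat.gcd_le_right d h2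
  have a5 : Nat.gcd y1 y2 ≤ y1 := Nat.gcd_le_left y2 h1
  have a6 : Nat.gcd y1 y2 ≤ y2 := Nat.gcd_le_right y1 h2
  have a7 : 1 ≤ Nat.gcd y1 y2 := Nat.gcd_pos_of_pos_left _ h1
  have a8 : y1 < y2 → Nat.gcd y1 y2 ≤ y2 - y1 := fun hlt =>
    Nat.le_of_dvd (by omega) (Nat.dvd_sub (Nat.gcd_dvd_right y1 y2) (Nat.gcd_dvd_left y1 y2))
  have a9 : y2 < y1 → Nat.gcd y1 y2 ≤ y1 - y2 := fun hlt =>
    Nat.le_of_dvd (by omega) (Nat.dvd_sub (Nat.gcd_dvd_left y1 y2) (Nat.gcd_dvd_right y1 y2))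
  have b1 := LemD_dec hd h1 hy1
  have b2 := LemD_dec hd h2 hy2
  obtain ⟨g1, hg1⟩ : ∃ g, g = Nat.gcd d y1 := ⟨_, rfl⟩
  obtain ⟨g2, hg2⟩ : ∃ g, g = Nat.gcd d y2 := ⟨_, rfl⟩
  obtain ⟨G, hG⟩ : ∃ g, g = Nat.gcd y1 y2 := ⟨_, rfl⟩
  rw [← hg1, ← hg2, ← hG] at h
  rw [← hg1] at a1 a2 b1
  rw [← hg2] at a3 a4 b2
  rw [← hG] at a5 a6 a7 a8 a9
  have hk : 5 * ((d : ℤ) + (y1 - 2 * g1) + (y2 - 2 * g2)) ≤ 2 * G := by
    have h' : (m : ℤ) * ((d : ℤ) + (y1 - 2 * g1) + (y2 - 2 * g2)) ≤ 2 * G := by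
      zify [a1, a2, a3, a4, a5, a6] at h
      linarith
    rcases le_or_gt 0 ((d : ℤ) + (y1 - 2 * g1) + (y2 - 2 * g2)) with h0 | h0
    · have : (5 : ℤ) * ((d : ℤ) + (y1 - 2 * g1) + (y2 - 2 * g2)) ≤
          m * ((d : ℤ) + (y1 - 2 * g1) + (y2 - 2 * g2)) :=
        mul_le_mul_of_nonneg_right (by exact_mod_cast hm) h0
      linarith
    · have : (0 : ℤ) ≤ G := Int.natCast_nonneg G
      linarith
  rcases b1 with b1 | b1 | b1 <;> rcases b2 with b2 | b2 | b2 <;> omega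

/-- Three exceptional parts are impossible.  Proof.  The inequality gives (dropping the pairs of
exceptional parts) `m (2 d + ∑ (y_l - 2 g_l)) ≤ ∑ y_l`; the bracket is nonnegative
(`y_l - 2 g_l ≥ - d / 2`), so `m` may be replaced by `4`:
`∑ (8 d / 3 + 3 y_l - 8 g_l) ≤ 0`.  But every term is positive: if `y_l = g_l` (a proper divisor of
`d`, at most `d / 2`) it is `8 d / 3 - 5 y_l > 0`; otherwise `y_l ≥ 2 g_l` and it is at least
`8 d / 3 - 2 g_l > 0`. -/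
theorem lemD_three {m d y1 y2 y3 : ℕ} (hm : 4 ≤ m) (hd : 1 ≤ d) (h1 : 1 ≤ y1) (h2 : 1 ≤ y2)
    (h3 : 1 ≤ y3) (hy1 : y1 ≠ d) (hy2 : y2 ≠ d) (hy3 : y3 ≠ d)
    (h : m * (((d - Nat.gcd d y1) + (y1 - Nat.gcd d y1)) +
        ((d - Nat.gcd d y2) + (y2 - Nat.gcd d y2)) +
        ((d - Nat.gcd d y3) + (y3 - Nat.gcd d y3))) ≤ m * d + y1 + y2 + y3) : False := by
  have a1 : Nat.gcd d y1 ≤ d := Nat.gcd_le_left y1 hd
  have a2 : Nat.gcd d y1 ≤ y1 := Nat.gcd_le_right d h1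
  have a3 : Nat.gcd d y2 ≤ d := Nat.gcd_le_left y2 hd
  have a4 : Nat.gcd d y2 ≤ y2 := Nat.gcd_le_right d h2
  have a5 : Nat.gcd d y3 ≤ d := Nat.gcd_le_left y3 hd
  have a6 : Nat.gcd d y3 ≤ y3 := Nat.gcd_le_right d h3
  have b1 := LemD_dec hd h1 hy1
  have b2 := LemD_dec hd h2 hy2
  have b3 := LemD_dec hd h3 hy3
  obtain ⟨g1, hg1⟩ : ∃ g, g = Nat.gcd d y1 := ⟨_, rfl⟩
  obtain ⟨g2, hg2⟩ : ∃ g, g = Nat.gcd d y2 := ⟨_, rfl⟩
  obtain ⟨g3, hg3⟩ : ∃ g, g = Nat.gcd d y3 := ⟨_, rfl⟩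
  rw [← hg1, ← hg2, ← hg3] at h
  rw [← hg1] at a1 a2 b1
  rw [← hg2] at a3 a4 b2
  rw [← hg3] at a5 a6 b3
  have hk : 4 * (2 * (d : ℤ) + (y1 - 2 * g1) + (y2 - 2 * g2) + (y3 - 2 * g3)) ≤ y1 + y2 + y3 := by
    have h' : (m : ℤ) * (2 * (d : ℤ) + (y1 - 2 * g1) + (y2 - 2 * g2) + (y3 - 2 * g3)) ≤
        y1 + y2 + y3 := by
      zify [a1, a2, a3, a4, a5, a6] at h
      linarith
    rcases le_or_gt 0 (2 * (d : ℤ) + (y1 - 2 * g1) + (y2 - 2 * g2) + (y3 - 2 * g3)) with h0 | h0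
    · have : (4 : ℤ) * (2 * (d : ℤ) + (y1 - 2 * g1) + (y2 - 2 * g2) + (y3 - 2 * g3)) ≤
          m * (2 * (d : ℤ) + (y1 - 2 * g1) + (y2 - 2 * g2) + (y3 - 2 * g3)) :=
        mul_le_mul_of_nonneg_right (by exact_mod_cast hm) h0
      linarith
    · linarith
  rcases b1 with b1 | b1 | b1 <;> rcases b2 with b2 | b2 | b2 <;> rcases b3 with b3 | b3 | b3 <;>
    omega

/-- The shape of a partition with at least seven parts and weight at most the sum: homogeneous; one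
part `y` properly dividing `d`; one part `2 g` with `d / g` odd; two parts `d / 2`.

Proof: `wt_dom`, `wt_replicate_add`, `lemD_one`, `lemD_two`, `lemD_three` (the number `m` of parts
equal to `d` is `card L - card M ≥ 4`, and `≥ 5` if `card M = 2`).  The weights are computed by
`wt_replicate_add`. -/
theorem lemD {L : Multiset ℕ} {s r : ℕ} (h : ∀ e ∈ L, 1 ≤ e) (hs : L.sum = s) (hr : card L = r)
    (h7 : 7 ≤ r) (hw : wt L ≤ s) :
    (∃ d, 1 ≤ d ∧ L = replicate r d ∧ s = d * r ∧ wt L = 0) ∨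
    (∃ y k, 1 ≤ y ∧ 2 ≤ k ∧ L = y ::ₘ replicate (r - 1) (y * k) ∧ s = y * k * (r - 1) + y ∧
      wt L = (r - 1) * (y * k - y)) ∨
    (∃ g q, 1 ≤ g ∧ Odd q ∧ L = (2 * g) ::ₘ replicate (r - 1) (g * q) ∧
      s = g * q * (r - 1) + 2 * g ∧ wt L = (r - 1) * (g * q)) ∨
    (∃ y, 1 ≤ y ∧ L = y ::ₘ y ::ₘ replicate (r - 2) (2 * y) ∧ s = 2 * y * (r - 1) ∧
      wt L = (r - 2) * (2 * y)) := by
  have hL0 : L ≠ 0 := by
    rintro rfl
    simp at hr
    omega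
  obtain ⟨d, m, M, hL, hdM, hM3⟩ := wt_dom h hL0 (by rw [hs]; exact hw)
  have hcard : m + card M = r := by
    rw [← hr, hL, Multiset.card_add, Multiset.card_replicate]
  have hsum : m * d + M.sum = s := by
    rw [← hs, hL, Multiset.sum_add, Multiset.sum_replicate, smul_eq_mul]
  have hm1 : 4 ≤ m := by omega
  have hd1 : 1 ≤ d := h d (by
    rw [hL]
    exact Multiset.mem_add.2 (Or.inl (Multiset.mem_replicate.2 ⟨by omega, rfl⟩)))
  have hMh : ∀ y ∈ M, 1 ≤ y := fun y hy => h y (by rw [hL]; exact Multiset.mem_add.2 (Or.inr hy))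
  have hwt := wt_replicate_add m d M
  rw [← hL] at hwt
  have hc : card M = 0 ∨ card M = 1 ∨ card M = 2 ∨ card M = 3 := by omega
  rcases hc with hc | hc | hc | hc
  · -- homogeneous
    have hM0 : M = 0 := Multiset.card_eq_zero.1 hc
    subst hM0
    left
    refine ⟨d, hd1, ?_, ?_, ?_⟩
    · rw [hL, add_zero, show m = r by omega]
    · rw [← hsum, Multiset.sum_zero, add_zero, show m = r by omega, mul_comm]
    · rw [hwt]
      simp [wt]
  · obtain ⟨y, rfl⟩ := Multiset.card_eq_one.1 hc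
    have hy1 : 1 ≤ y := hMh y (Multiset.mem_singleton_self y)
    have hyd : y ≠ d := fun h5 => hdM (by rw [h5]; exact Multiset.mem_singleton_self d)
    have hmr : m = r - 1 := by omega
    have hwy : wt ({y} : Multiset ℕ) = 0 := by
      simp [wt]
    rw [hwy, zero_add, Multiset.map_singleton, Multiset.sum_singleton] at hwt
    rw [Multiset.sum_singleton] at hsum
    have hLy : L = y ::ₘ replicate (r - 1) d := by
      rw [hL, hmr, add_comm, Multiset.singleton_add]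
    have hone := lemD_one (m := m) hm1 hd1 hy1 hyd (by rw [← hwt, hsum]; exact hw)
    rcases hone with hdv | ⟨g, hg1, hyg, hgd, hodd⟩
    · right; left
      obtain ⟨k, hk⟩ := hdv
      have hk0 : k ≠ 0 := by
        rintro rfl
        rw [mul_zero] at hk
        omega
      have hk1 : k ≠ 1 := by
        rintro rfl
        rw [mul_one] at hk
        exact hyd hk.symm
      have hgcd : Nat.gcd d y = y := Nat.gcd_eq_right ⟨k, hk⟩
      refine ⟨y, k, hy1, by omega, ?_, ?_, ?_⟩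
      · rw [hLy, hk]
      · rw [← hsum, hk, hmr, mul_comm (r - 1)]
      · rw [hwt, hgcd, hmr, Nat.sub_self, add_zero, hk]
    · right; right; left
      obtain ⟨q, hq⟩ := hgd
      have hdq : d / g = q := by
        rw [hq]
        exact Nat.mul_div_cancel_left q (by omega)
      rw [hdq] at hodd
      have hgcd : Nat.gcd d y = g := by
        rw [hq, hyg, mul_comm 2 g, Nat.gcd_mul_left]
        have : Nat.gcd q 2 = 1 := (Nat.coprime_two_right).2 hodd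
        rw [this, mul_one]
      refine ⟨g, q, hg1, hodd, ?_, ?_, ?_⟩
      · rw [hLy, hq, hyg]
      · rw [← hsum, hq, hmr, hyg, mul_comm (r - 1)]
      · rw [hwt, hgcd, hmr, hyg, show 2 * g - g = g by omega, hq]
        have hqpos : 1 ≤ q := hodd.pos
        have : g ≤ g * q := Nat.le_mul_of_pos_right g hqpos
        rw [Nat.sub_add_cancel this]
  · obtain ⟨y1, y2, rfl⟩ := Multiset.card_eq_two.1 hc
    have hy1 : 1 ≤ y1 := hMh y1 (by simp)
    have hy2 : 1 ≤ y2 := hMh y2 (by simp)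
    have hn1 : y1 ≠ d := fun h5 => hdM (by rw [h5]; simp)
    have hn2 : y2 ≠ d := fun h5 => hdM (by rw [h5]; simp)
    have hmr : m = r - 2 := by omega
    have hwM : wt ({y1, y2} : Multiset ℕ) =
        (y1 - Nat.gcd y1 y2) + (y2 - Nat.gcd y1 y2) := by
      simp [wt, Nat.gcd_comm y2 y1]
    have hsM : (({y1, y2} : Multiset ℕ).map fun y => (d - Nat.gcd d y) + (y - Nat.gcd d y)).sum =
        ((d - Nat.gcd d y1) + (y1 - Nat.gcd d y1)) +
        ((d - Nat.gcd d y2) + (y2 - Nat.gcd d y2)) := by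
      simp
    have hsum2 : m * d + y1 + y2 = s := by
      rw [← hsum]
      simp [add_assoc]
    rw [hwM, hsM] at hwt
    have htwo := lemD_two (m := m) (by omega) hd1 hy1 hy2 hn1 hn2 (by
      rw [hsum2]
      omega)
    right; right; right
    obtain ⟨e1, e2⟩ := htwo
    have e3 : y2 = y1 := by omega
    subst e3
    subst e1
    have hg2 : Nat.gcd (2 * y2) y2 = y2 := Nat.gcd_eq_right ⟨2, by ring⟩
    refine ⟨y2, hy1, ?_, ?_, ?_⟩
    · rw [hL, hmr, add_comm]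
      rfl
    · rw [← hsum2, hmr]
      obtain ⟨r', rfl⟩ : ∃ r', r = r' + 2 := ⟨r - 2, by omega⟩
      rw [show r' + 2 - 2 = r' by omega, show r' + 2 - 1 = r' + 1 by omega]
      ring
    · rw [hwt, hg2, Nat.gcd_self, hmr, Nat.sub_self, zero_add, zero_add]
      congr 1
      omega
  · exfalso
    obtain ⟨y1, y2, y3, rfl⟩ := Multiset.card_eq_three.1 hc
    have hy1 : 1 ≤ y1 := hMh y1 (by simp)
    have hy2 : 1 ≤ y2 := hMh y2 (by simp)
    have hy3 : 1 ≤ y3 := hMh y3 (by simp)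
    have hn1 : y1 ≠ d := fun h5 => hdM (by rw [h5]; simp)
    have hn2 : y2 ≠ d := fun h5 => hdM (by rw [h5]; simp)
    have hn3 : y3 ≠ d := fun h5 => hdM (by rw [h5]; simp)
    have hsM : (({y1, y2, y3} : Multiset ℕ).map fun y =>
        (d - Nat.gcd d y) + (y - Nat.gcd d y)).sum =
        ((d - Nat.gcd d y1) + (y1 - Nat.gcd d y1)) +
        ((d - Nat.gcd d y2) + (y2 - Nat.gcd d y2)) +
        ((d - Nat.gcd d y3) + (y3 - Nat.gcd d y3)) := by
      simp [add_assoc]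
    have hsum2 : m * d + y1 + y2 + y3 = s := by
      rw [← hsum]
      simp [add_assoc]
    rw [hsM] at hwt
    refine lemD_three (m := m) (by omega) hd1 hy1 hy2 hy3 hn1 hn2 hn3 ?_
    rw [hsum2]
    refine le_trans ?_ hw
    rw [hwt]
    exact Nat.le_add_left _ _

end WildV
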