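import Pool.Agent.helper21.WV.Loc

/-! Lifting: regularity of the derivatives of `w`, where `B(w) = A(z)`. -/

namespace WildV

open Polynomial WildRat WildS

variable {K : Type} [Field K] [Algebra ℂ K]

/-- The second polynomial of the local coordinate at the value `c`: `A - c = A.F c / A.G c` for finite
`c`, and `1 / A = A.F c / A.G c` for `c = ∞`. -/
noncomputable def GP (A : RF) : P1 → ℂ[X]
  | none => A.P
  | some _ => A.Q

/-- `A(z) = B(w)` in the coordinate of `c`.  Proof: `δ (elt A) = ω (elt B)` says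
`P_A(z) Q_B(w) = P_B(w) Q_A(z)` (`coord_elt`, `RF.app`, the denominators do not vanish since `z`, `w`
are nonconstant, `coord_nonConst`, `NonConst.aeval_ne_zero`); expand `RF.F`. -/
theorem LiftLoc_rel {A B : RF} (hA : 1 ≤ A.n) (hB : 1 ≤ B.n) {δ ω : E →ₐ[ℂ] K}
    (h : δ (elt A) = ω (elt B)) (c : P1) :
    aeval (δ RatFunc.X) (A.F c) * aeval (ω RatFunc.X) (GP B c) =
      aeval (δ RatFunc.X) (GP A c) * aeval (ω RatFunc.X) (B.F c) := by
  have hQA : aeval (δ RatFunc.X) A.Q ≠ 0 := (coord_nonConst δ).aeval_ne_zero (A.Q_ne_zero hA)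
  have hQB : aeval (ω RatFunc.X) B.Q ≠ 0 := (coord_nonConst ω).aeval_ne_zero (B.Q_ne_zero hB)
  rw [coord_elt, coord_elt] at h
  unfold RF.app at h
  rw [div_eq_div_iff hQA hQB] at h
  cases c with
  | none =>
    show aeval (δ RatFunc.X) A.Q * aeval (ω RatFunc.X) B.P =
      aeval (δ RatFunc.X) A.P * aeval (ω RatFunc.X) B.Q
    linear_combination -h
  | some c =>
    show aeval (δ RatFunc.X) (A.P - C c * A.Q) * aeval (ω RatFunc.X) B.Q =
      aeval (δ RatFunc.X) A.Q * aeval (ω RatFunc.X) (B.P - C c * B.Q)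
    rw [map_sub, map_sub, map_mul, map_mul, aeval_C, aeval_C]
    linear_combination h

/-- `A.F c` and `GP A c` at a point over `c`: `A.F c = (X - a) ^ e * V` with `e = A.e a`,
`V(a) ≠ 0`, and `GP A c` does not vanish at `a`.  Proof: `RF.e`, `RF.mult`, `rootMultiplicity`
(`exists_eq_pow_rootMultiplicity_mul_and_not_dvd`), `RF.F_ne_zero`, and `A.cop`. -/
theorem LiftLoc_fin {A : RF} (hA : 1 ≤ A.n) {a : ℂ} {c : P1} (hc : A.val (some a) = c) :
    ∃ V : ℂ[X], A.F c = (X - C a) ^ (A.e (some a)) * V ∧ V.eval a ≠ 0 ∧ (GP A c).eval a ≠ 0 := by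
  have hF := A.F_ne_zero hA c
  have hm : 0 < (A.F c).rootMultiplicity a := (A.val_eq_iff hA (some a) c).1 hc
  have he : A.e (some a) = (A.F c).rootMultiplicity a := by
    unfold RF.e
    rw [hc]
    rfl
  obtain ⟨V, hV, hV2⟩ := exists_eq_pow_rootMultiplicity_mul_and_not_dvd (A.F c) hF a
  refine ⟨V, by rw [he]; exact hV, fun h0 => hV2 (dvd_iff_isRoot.2 h0), fun h0 => ?_⟩
  have hr : (A.F c).eval a = 0 := (rootMultiplicity_pos hF).1 hm
  obtain ⟨u, v, huv⟩ := A.cop
  have h1 := congrArg (fun f => f.eval a) huv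
  simp only [eval_add, eval_mul, eval_one] at h1
  cases c with
  | none =>
    have hP : A.P.eval a = 0 := h0
    have hQ : A.Q.eval a = 0 := hr
    rw [hP, hQ, mul_zero, mul_zero, add_zero] at h1
    exact zero_ne_one h1
  | some c =>
    have hQ : A.Q.eval a = 0 := h0
    have hP : (A.P - C c * A.Q).eval a = 0 := hr
    rw [eval_sub, eval_mul, hQ, mul_zero, sub_zero] at hP
    rw [hP, hQ, mul_zero, mul_zero, add_zero] at h1
    exact zero_ne_one h1

/-- The same at infinity: `A.F c` has degree `n - e`, and `GP A c` has degree `n`.  Proof: `RF.e`,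
`RF.mult`, `RF.val` and `A.cop`. -/
theorem LiftLoc_inf {A : RF} (hA : 1 ≤ A.n) {c : P1} (hc : A.val none = c) :
    (A.F c).natDegree + A.e none = A.n ∧ (GP A c).natDegree = A.n := by
  have hm : 0 < A.n - (A.F c).natDegree := (A.val_eq_iff hA none c).1 hc
  have he : A.e none = A.n - (A.F c).natDegree := by
    unfold RF.e
    rw [hc]
    rfl
  have hn : A.n = max A.P.natDegree A.Q.natDegree := rfl
  refine ⟨by omega, ?_⟩
  cases c with
  | none =>
    have h1 : (A.F none).natDegree = A.Q.natDegree := rfl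
    show A.P.natDegree = A.n
    omega
  | some c =>
    show A.Q.natDegree = A.n
    by_contra hcon
    have h1 : (C c * A.Q).natDegree ≤ A.Q.natDegree := natDegree_C_mul_le c A.Q
    have h2 : (C c * A.Q).natDegree < A.P.natDegree := by omega
    have h3 : (A.F (some c)).natDegree = A.P.natDegree :=
      natDegree_sub_eq_left_of_natDegree_lt h2
    omega

/-- orders of polynomials in a coordinate -/
theorem LiftLoc_ord {φ : E →ₐ[ℂ] K} {P : Pl K} {a : ℂ} (ha : P ∈ fib φ a) {p : ℂ[X]}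
    (hp : p ≠ 0) : P.ord (aeval (φ RatFunc.X) p) =
      p.rootMultiplicity a * P.ord (φ RatFunc.X - algebraMap ℂ K a) := by
  have h0 : algebraMap ℂ[X] E p ≠ 0 := by
    rw [Ne, map_eq_zero_iff _ (IsFractionRing.injective ℂ[X] E)]
    exact hp
  rw [← coord_poly, ord_coord ha h0, plE_poly a hp]

theorem LiftLoc_ord_pole {φ : E →ₐ[ℂ] K} {P : Pl K} (h : P.ord (φ RatFunc.X) < 0) {p : ℂ[X]}
    (hp : p ≠ 0) : P.ord (aeval (φ RatFunc.X) p) = p.natDegree * P.ord (φ RatFunc.X) := by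
  rw [← coord_poly, ord_coord_pole h hp]

theorem LiftLoc_GP_le (B : RF) (c : P1) : (GP B c).natDegree ≤ B.n := by
  cases c with
  | none => exact le_max_left _ _
  | some c => exact le_max_right _ _

/-- Values match: if `z` has the value `a` at `P` and `w` has the finite value `b`, then
`B(b) = A(a)`; if `w` has a pole, then `B(∞) = A(a)`.

Proof.  Let `c = A.val (some a)` and use `LiftLoc_rel`, `LiftLoc_fin` for `A`: the left side of the
relation divided by `aeval z (GP A c)` (a unit at `P`) shows that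
`aeval w (B.F c)` has at `P` a strictly larger order than `aeval w (GP B c)`.  If `w` has the finite
value `b`: `aeval w p` has order zero or positive according to `p(b) ≠ 0` or `p(b) = 0`
(`ord_coord` in WS/Fibre with `plE_poly`), so `B.F c` vanishes at `b`, hence `0 < B.mult c b` and
`RF.val_eq_iff`.  If `w` has a pole: `P.ord (aeval w p) = natDegree p * P.ord w`
(`ord_coord_pole`), so `natDegree (B.F c) < natDegree (GP B c) ≤ B.n`, `0 < B.mult c none`. -/
theorem LiftLoc_val {A B : RF} (hA : 1 ≤ A.n) (hB : 1 ≤ B.n) {δ ω : E →ₐ[ℂ] K} (hδ : FinC δ)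
    (h : δ (elt A) = ω (elt B)) {P : Pl K} {a : ℂ} (ha : P ∈ fib δ a) :
    (∀ b : ℂ, P ∈ fib ω b → B.val (some b) = A.val (some a)) ∧
    (P.ord (ω RatFunc.X) < 0 → B.val none = A.val (some a)) := by
  obtain ⟨c, hc⟩ : ∃ c, A.val (some a) = c := ⟨_, rfl⟩
  obtain ⟨V, hV1, hV2, hV3⟩ := LiftLoc_fin hA hc
  have hrel := LiftLoc_rel hA hB h c
  have hz := coord_nonConst δ
  have hw := coord_nonConst ω
  have hFA := A.F_ne_zero hA c
  have hFB := B.F_ne_zero hB c
  have hGA : GP A c ≠ 0 := by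
    intro h0
    rw [h0, eval_zero] at hV3
    exact hV3 rfl
  have n1 := hz.aeval_ne_zero hFA
  have n2 := hz.aeval_ne_zero hGA
  have n3 := hw.aeval_ne_zero hFB
  have hGB : GP B c ≠ 0 := by
    intro h0
    rw [h0, map_zero, mul_zero] at hrel
    exact mul_ne_zero n2 n3 hrel.symm
  have n4 := hw.aeval_ne_zero hGB
  have ha' : 0 < P.ord (δ RatFunc.X - algebraMap ℂ K a) := ha
  have hord := congrArg P.ord hrel
  rw [P.ord_mul n1 n4, P.ord_mul n2 n3, LiftLoc_ord ha hFA, LiftLoc_ord ha hGA] at hord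
  have hm : 0 < (A.F c).rootMultiplicity a := (A.val_eq_iff hA (some a) c).1 hc
  have hm0 : (GP A c).rootMultiplicity a = 0 := rootMultiplicity_eq_zero hV3
  rw [hm0, Nat.cast_zero, zero_mul, zero_add] at hord
  have hm1 : (0 : ℤ) < (A.F c).rootMultiplicity a := by exact_mod_cast hm
  have hpos : 0 < ((A.F c).rootMultiplicity a : ℤ) * P.ord (δ RatFunc.X - algebraMap ℂ K a) :=
    mul_pos hm1 ha'
  rw [hc]
  refine ⟨fun b hb => ?_, fun hp => ?_⟩
  · have hb' : 0 < P.ord (ω RatFunc.X - algebraMap ℂ K b) := hb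
    rw [LiftLoc_ord hb hFB, LiftLoc_ord hb hGB] at hord
    rw [B.val_eq_iff hB]
    show 0 < (B.F c).rootMultiplicity b
    by_contra hcon
    have h0 : (B.F c).rootMultiplicity b = 0 := by omega
    rw [h0, Nat.cast_zero, zero_mul] at hord
    have h1 : 0 ≤ ((GP B c).rootMultiplicity b : ℤ) *
        P.ord (ω RatFunc.X - algebraMap ℂ K b) := mul_nonneg (by positivity) hb'.le
    linarith
  · rw [LiftLoc_ord_pole hp hFB, LiftLoc_ord_pole hp hGB] at hord
    rw [B.val_eq_iff hB]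
    show 0 < B.n - (B.F c).natDegree
    have h1 : (B.F c).natDegree < (GP B c).natDegree := by
      by_contra hcon
      push Not at hcon
      have h2 : ((GP B c).natDegree : ℤ) ≤ (B.F c).natDegree := by exact_mod_cast hcon
      nlinarith
    have h2 := LiftLoc_GP_le B c
    omega

/-- the coordinate itself -/
theorem LiftLoc_reg {D : Derivation ℂ K K} {P : Pl K} {z : K} (hz : 0 ≤ P.ord z)
    (hD : D z = 1) (n : ℕ) : RegN D P n z := by
  cases n with
  | zero =>
    intro k hk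
    obtain rfl : k = 0 := by omega
    exact hz
  | succ n =>
    rw [RegN.succ_iff]
    refine ⟨hz, ?_⟩
    rw [hD, ← map_one (algebraMap ℂ K)]
    exact RegN.const D P n 1

/-- `w` finite at `P`.  Proof: with `c = A.val (some a) = B.val (some b)` (`LiftLoc_val`), `e = B.e b`,
`A.e a = e * k` (hypothesis), the relation of `LiftLoc_rel` and the two factorisations of
`LiftLoc_fin` give
`(w - b) ^ e * U(w) * (GP A c)(z) = (z - a) ^ (e k) * V(z) * (GP B c)(w)`.  Apply `loc` with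
`v = w - b`, `U1 = U.comp (X + C b)`, `U2 = (GP B c).comp (X + C b)`, `V1 = V`, `V2 = GP A c`:
`y = (w - b) / (z - a) ^ k` and then `w = b + (z - a) ^ k * y` satisfy `RegN D P n`. -/
theorem liftLoc_fin {A B : RF} (hA : 1 ≤ A.n) (hB : 1 ≤ B.n) {δ ω : E →ₐ[ℂ] K} (hδ : FinC δ)
    (h : δ (elt A) = ω (elt B)) (D : Derivation ℂ K K) (hD : D (δ RatFunc.X) = 1) {P : Pl K}
    {a b : ℂ} (ha : P ∈ fib δ a) (hb : P ∈ fib ω b) (hdiv : B.e (some b) ∣ A.e (some a)) (n : ℕ) :
    RegN D P n (ω RatFunc.X) := by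
  obtain ⟨c, hc⟩ : ∃ c, A.val (some a) = c := ⟨_, rfl⟩
  have hcB : B.val (some b) = c := ((LiftLoc_val hA hB hδ h ha).1 b hb).trans hc
  obtain ⟨V, hV1, hV2, hV3⟩ := LiftLoc_fin hA hc
  obtain ⟨U, hU1, hU2, hU3⟩ := LiftLoc_fin hB hcB
  obtain ⟨k, hk⟩ := hdiv
  have he := B.one_le_e hB (some b)
  have hrel := LiftLoc_rel hA hB h c
  have ha' : 0 < P.ord (δ RatFunc.X - algebraMap ℂ K a) := ha
  have hb' : 0 < P.ord (ω RatFunc.X - algebraMap ℂ K b) := hb
  have hcomp : ∀ p : ℂ[X], aeval (ω RatFunc.X - algebraMap ℂ K b) (p.comp (X + C b)) =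
      aeval (ω RatFunc.X) p := by
    intro p
    rw [aeval_comp, map_add, aeval_X, aeval_C, sub_add_cancel]
  have hev : ∀ p : ℂ[X], (p.comp (X + C b)).eval 0 = p.eval b := by
    intro p
    rw [eval_comp, eval_add, eval_X, eval_C, zero_add]
  have hmain : (ω RatFunc.X - algebraMap ℂ K b) ^ B.e (some b) *
      aeval (ω RatFunc.X - algebraMap ℂ K b) (U.comp (X + C b)) *
        aeval (δ RatFunc.X) (GP A c) =
      (δ RatFunc.X - algebraMap ℂ K a) ^ (B.e (some b) * k) * aeval (δ RatFunc.X) V *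
        aeval (ω RatFunc.X - algebraMap ℂ K b) ((GP B c).comp (X + C b)) := by
    rw [hcomp, hcomp]
    rw [hV1, hU1, hk, map_mul, map_mul, map_pow, map_pow, map_sub, map_sub, aeval_X, aeval_X,
      aeval_C, aeval_C] at hrel
    linear_combination -hrel
  have hloc := (loc D P ha' hD hb' he (U.comp (X + C b)) ((GP B c).comp (X + C b)) V (GP A c)
    (by rw [hev]; exact hU2) (by rw [hev]; exact hU3) hV2 hV3 hmain n).1
  have hz : RegN D P n (δ RatFunc.X) := LiftLoc_reg (P.ord_nonneg_of_value ha') hD n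
  have hzk : RegN D P n ((δ RatFunc.X - algebraMap ℂ K a) ^ k) := by
    have h1 := hz.aeval ((X - C a) ^ k)
    rwa [map_pow, map_sub, aeval_X, aeval_C] at h1
  have hne : (δ RatFunc.X - algebraMap ℂ K a) ^ k ≠ 0 := pow_ne_zero k (coord_sub_ne δ a)
  have h2 := (RegN.const D P n b).add (hzk.mul hloc)
  rw [mul_div_cancel₀ _ hne] at h2
  rwa [add_sub_cancel] at h2

/-- `w` infinite at `P`.  Proof: `c = A.val (some a) = B.val none`, `e = B.e none`, `A.e a = e * k`.
With `v = w⁻¹`: `aeval w F = w ^ (natDegree F) * aeval v F.reverse` (`eval₂_reverse_mul_pow` or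
`Polynomial.reverse` lemmas), so by `LiftLoc_inf` the relation becomes
`v ^ e * (B.F c).reverse(v) * (GP A c)(z) = (z - a) ^ (e k) * V(z) * (GP B c).reverse(v)`.
`(reverse p).eval 0 = leadingCoeff p ≠ 0`.  `loc` gives `RegN` for `(z - a) ^ k / v = (z - a) ^ k w`,
and `k ≤ A.n` (`RF.e_le`), so multiply by `(z - a) ^ (A.n - k)`. -/
theorem liftLoc_inf {A B : RF} (hA : 1 ≤ A.n) (hB : 1 ≤ B.n) {δ ω : E →ₐ[ℂ] K} (hδ : FinC δ)
    (h : δ (elt A) = ω (elt B)) (D : Derivation ℂ K K) (hD : D (δ RatFunc.X) = 1) {P : Pl K}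
    {a : ℂ} (ha : P ∈ fib δ a) (hb : P.ord (ω RatFunc.X) < 0)
    (hdiv : B.e none ∣ A.e (some a)) (n : ℕ) :
    RegN D P n ((δ RatFunc.X - algebraMap ℂ K a) ^ A.n * ω RatFunc.X) := by
  obtain ⟨c, hc⟩ : ∃ c, A.val (some a) = c := ⟨_, rfl⟩
  have hcB : B.val none = c := ((LiftLoc_val hA hB hδ h ha).2 hb).trans hc
  obtain ⟨V, hV1, hV2, hV3⟩ := LiftLoc_fin hA hc
  obtain ⟨hd1, hd2⟩ := LiftLoc_inf hB hcB
  obtain ⟨k, hk⟩ := hdiv
  have he := B.one_le_e hB none
  have hrel := LiftLoc_rel hA hB h c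
  have ha' : 0 < P.ord (δ RatFunc.X - algebraMap ℂ K a) := ha
  have hw0 : ω RatFunc.X ≠ 0 := by
    intro h0
    rw [h0, P.ord_zero] at hb
    exact lt_irrefl _ hb
  have hFB := B.F_ne_zero hB c
  have hGB : GP B c ≠ 0 := by
    intro h0
    rw [h0, natDegree_zero] at hd2
    omega
  have hrev : ∀ p : ℂ[X], aeval (ω RatFunc.X) p =
      aeval (ω RatFunc.X)⁻¹ p.reverse * (ω RatFunc.X) ^ p.natDegree := by
    intro p
    letI : Invertible (ω RatFunc.X) := invertibleOfNonzero hw0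
    have h1 := eval₂_reverse_mul_pow (algebraMap ℂ K) (ω RatFunc.X) p
    rw [invOf_eq_inv] at h1
    rw [aeval_def, aeval_def]
    exact h1.symm
  have hr0 : ∀ p : ℂ[X], p ≠ 0 → p.reverse.eval 0 ≠ 0 := by
    intro p hp
    rw [← coeff_zero_eq_eval_zero, coeff_zero_reverse]
    exact leadingCoeff_ne_zero.2 hp
  have hmain : (ω RatFunc.X)⁻¹ ^ B.e none * aeval (ω RatFunc.X)⁻¹ (B.F c).reverse *
        aeval (δ RatFunc.X) (GP A c) =
      (δ RatFunc.X - algebraMap ℂ K a) ^ (B.e none * k) * aeval (δ RatFunc.X) V *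
        aeval (ω RatFunc.X)⁻¹ (GP B c).reverse := by
    rw [hrev (GP B c), hrev (B.F c), hd2, ← hd1, hV1, hk, map_mul, map_pow, map_sub, aeval_X,
      aeval_C, pow_add] at hrel
    have h1 : (ω RatFunc.X) ^ (B.F c).natDegree ≠ 0 := pow_ne_zero _ hw0
    have h2 : (ω RatFunc.X)⁻¹ ^ B.e none * (ω RatFunc.X) ^ B.e none = 1 := by
      rw [← mul_pow, inv_mul_cancel₀ hw0, one_pow]
    apply mul_right_cancel₀ h1
    linear_combination (-(ω RatFunc.X)⁻¹ ^ B.e none) * hrel +
      ((δ RatFunc.X - algebraMap ℂ K a) ^ (B.e none * k) * aeval (δ RatFunc.X) V *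
        aeval (ω RatFunc.X)⁻¹ (GP B c).reverse * (ω RatFunc.X) ^ (B.F c).natDegree) * h2
  have hv : 0 < P.ord (ω RatFunc.X)⁻¹ := by
    rw [P.ord_inv]
    omega
  have hloc := (loc D P ha' hD hv he (B.F c).reverse (GP B c).reverse V (GP A c)
    (hr0 _ hFB) (hr0 _ hGB) hV2 hV3 hmain n).2
  have hz : RegN D P n (δ RatFunc.X) := LiftLoc_reg (P.ord_nonneg_of_value ha') hD n
  have hkn : k ≤ A.n := by
    have h1 := A.e_le hA (some a)
    rw [hk] at h1
    exact (Nat.le_mul_of_pos_left k he).trans h1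
  have hzk : RegN D P n ((δ RatFunc.X - algebraMap ℂ K a) ^ (A.n - k)) := by
    have h1 := hz.aeval ((X - C a) ^ (A.n - k))
    rwa [map_pow, map_sub, aeval_X, aeval_C] at h1
  have h2 := hzk.mul hloc
  rw [div_inv_eq_mul, ← mul_assoc, ← pow_add, Nat.sub_add_cancel hkn] at h2
  exact h2

end WildV
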