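import Pool.Agent.helper21.WV.Defs

/-! Regularity of all derivatives of an element which is locally a root of a unit. -/

namespace WildV

open Polynomial WildRat WildS

variable {K : Type} [Field K] [Algebra ℂ K]

/-- All derivatives of `f` up to the order `n` are regular at `P`. -/
def RegN (D : Derivation ℂ K K) (P : Pl K) (n : ℕ) (f : K) : Prop :=
  ∀ k ≤ n, 0 ≤ P.ord (D^[k] f)

theorem Loc_mono {D : Derivation ℂ K K} {P : Pl K} {m n : ℕ} (h : m ≤ n) {f : K}
    (hf : RegN D P n f) : RegN D P m f := fun k hk => hf k (hk.trans h)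

theorem Loc_zero {D : Derivation ℂ K K} {P : Pl K} {n : ℕ} {f : K} (hf : RegN D P n f) :
    0 ≤ P.ord f := hf 0 (Nat.zero_le n)

/-- Sums (`Pl.ord_nonneg_add`), negatives, constants. -/
theorem RegN.add {D : Derivation ℂ K K} {P : Pl K} {n : ℕ} {f g : K} (hf : RegN D P n f)
    (hg : RegN D P n g) : RegN D P n (f + g) := by
  intro k hk
  rw [iterate_map_add]
  exact P.ord_nonneg_add (hf k hk) (hg k hk)

theorem RegN.neg {D : Derivation ℂ K K} {P : Pl K} {n : ℕ} {f : K} (hf : RegN D P n f) :
    RegN D P n (-f) := by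
  intro k hk
  rw [iterate_map_neg, P.ord_neg]
  exact hf k hk

theorem RegN.const (D : Derivation ℂ K K) (P : Pl K) (n : ℕ) (c : ℂ) :
    RegN D P n (algebraMap ℂ K c) := by
  intro k _
  cases k with
  | zero => exact (P.ord_C c).ge
  | succ k =>
    rw [Function.iterate_succ_apply, D.map_algebraMap, iterate_map_zero, P.ord_zero]

/-- `f` is regular together with its first `n + 1` derivatives iff `f` is regular and `D f` is
regular together with its first `n` derivatives. -/
theorem RegN.succ_iff {D : Derivation ℂ K K} {P : Pl K} {n : ℕ} {f : K} :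
    RegN D P (n + 1) f ↔ 0 ≤ P.ord f ∧ RegN D P n (D f) := by
  constructor
  · intro h
    refine ⟨h 0 (Nat.zero_le _), fun k hk => ?_⟩
    have := h (k + 1) (by omega)
    rwa [Function.iterate_succ_apply] at this
  · rintro ⟨h0, h1⟩ k hk
    cases k with
    | zero => exact h0
    | succ k =>
      rw [Function.iterate_succ_apply]
      exact h1 k (by omega)

/-- Products.  Induction on `n`: `D (f g) = f D g + g D f`. -/
theorem RegN.mul {D : Derivation ℂ K K} {P : Pl K} {n : ℕ} {f g : K} (hf : RegN D P n f)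
    (hg : RegN D P n g) : RegN D P n (f * g) := by
  induction n generalizing f g with
  | zero =>
    intro k hk
    have hk0 : k = 0 := by omega
    subst hk0
    exact P.ord_nonneg_mul (Loc_zero hf) (Loc_zero hg)
  | succ n ih =>
    rw [RegN.succ_iff]
    refine ⟨P.ord_nonneg_mul (Loc_zero hf) (Loc_zero hg), ?_⟩
    rw [D.leibniz, smul_eq_mul, smul_eq_mul]
    exact (ih (Loc_mono n.le_succ hf) (RegN.succ_iff.1 hg).2).add
      (ih (Loc_mono n.le_succ hg) (RegN.succ_iff.1 hf).2)

theorem Loc_pow {D : Derivation ℂ K K} {P : Pl K} {n : ℕ} {f : K} (hf : RegN D P n f) (m : ℕ) :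
    RegN D P n (f ^ m) := by
  induction m with
  | zero =>
    rw [pow_zero, ← map_one (algebraMap ℂ K)]
    exact RegN.const D P n 1
  | succ m ih =>
    rw [pow_succ]
    exact ih.mul hf

theorem Loc_nat (D : Derivation ℂ K K) (P : Pl K) (n m : ℕ) : RegN D P n (m : K) := by
  have h : (m : K) = algebraMap ℂ K (m : ℂ) := by simp
  rw [h]
  exact RegN.const D P n _

/-- Polynomials in one element. -/
theorem RegN.aeval {D : Derivation ℂ K K} {P : Pl K} {n : ℕ} {f : K} (hf : RegN D P n f)
    (p : ℂ[X]) : RegN D P n (Polynomial.aeval f p) := by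
  induction p using Polynomial.induction_on' with
  | add p q hp hq =>
    rw [map_add]
    exact hp.add hq
  | monomial m c =>
    rw [aeval_monomial]
    exact (RegN.const D P n c).mul (Loc_pow hf m)

/-- Inverses of units.  Induction on `n`: `D f⁻¹ = - D f * f⁻¹ * f⁻¹`. -/
theorem RegN.inv {D : Derivation ℂ K K} {P : Pl K} {n : ℕ} {f : K} (hf : RegN D P n f)
    (h0 : f ≠ 0) (h : P.ord f = 0) : RegN D P n f⁻¹ := by
  induction n with
  | zero =>
    intro k hk
    have hk0 : k = 0 := by omega
    subst hk0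
    change 0 ≤ P.ord f⁻¹
    rw [P.ord_inv, h, neg_zero]
  | succ n ih =>
    rw [RegN.succ_iff]
    refine ⟨by rw [P.ord_inv, h, neg_zero], ?_⟩
    have h1 := ih (Loc_mono n.le_succ hf)
    rw [D.leibniz_inv, smul_eq_mul, neg_mul]
    exact ((Loc_pow h1 2).mul (RegN.succ_iff.1 hf).2).neg

/-- a polynomial in an element which has a value, not vanishing at the value, is a unit -/
theorem Loc_unit (P : Pl K) {x : K} {a : ℂ} (hx : 0 < P.ord (x - algebraMap ℂ K a)) {V : ℂ[X]}
    (hV : V.eval a ≠ 0) : Polynomial.aeval x V ≠ 0 ∧ P.ord (Polynomial.aeval x V) = 0 := by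
  have h1 : V = C (V.eval a) + (X - C a) * (V /ₘ (X - C a)) := by
    conv_lhs => rw [← modByMonic_add_div V (X - C a), modByMonic_X_sub_C_eq_C_eval]
  have h2 : Polynomial.aeval x V = algebraMap ℂ K (V.eval a) +
      (x - algebraMap ℂ K a) * Polynomial.aeval x (V /ₘ (X - C a)) := by
    conv_lhs => rw [h1]
    simp
  have h3 : 0 ≤ P.ord (Polynomial.aeval x (V /ₘ (X - C a))) := by
    have h4 : 0 ≤ P.ord x := P.ord_nonneg_of_value hx
    have h5 : ∀ p : ℂ[X], 0 ≤ P.ord (Polynomial.aeval x p) := by
      intro p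
      induction p using Polynomial.induction_on' with
      | add p q hp hq =>
        rw [map_add]
        exact P.ord_nonneg_add hp hq
      | monomial m c =>
        rw [aeval_monomial]
        refine P.ord_nonneg_mul (P.ord_C c).ge ?_
        rw [P.ord_pow]
        positivity
    exact h5 _
  have h6 : algebraMap ℂ K (V.eval a) ≠ 0 := by
    rw [Ne, map_eq_zero]
    exact hV
  have h7 := P.ord_add_eq (u := algebraMap ℂ K (V.eval a))
    (w := (x - algebraMap ℂ K a) * Polynomial.aeval x (V /ₘ (X - C a))) h6 (by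
      by_cases h8 : Polynomial.aeval x (V /ₘ (X - C a)) = 0
      · left
        rw [h8, mul_zero]
      · right
        have h9 : x - algebraMap ℂ K a ≠ 0 := by
          intro h
          rw [h, P.ord_zero] at hx
          exact lt_irrefl _ hx
        rw [P.ord_C, P.ord_mul h9 h8]
        omega)
  rw [← h2, P.ord_C] at h7
  exact h7

theorem Loc_aeval (D : Derivation ℂ K K) (f : K) (p : ℂ[X]) :
    D (Polynomial.aeval f p) = Polynomial.aeval f (derivative p) * D f := by
  induction p using Polynomial.induction_on' with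
  | add p q hp hq =>
    rw [map_add, map_add, hp, hq, derivative_add, map_add, add_mul]
  | monomial m c =>
    rw [aeval_monomial, D.leibniz, D.map_algebraMap, smul_zero, add_zero, D.leibniz_pow,
      derivative_monomial, aeval_monomial, map_mul, map_natCast]
    simp only [smul_eq_mul, nsmul_eq_mul]
    ring

/-- The local lemma.  `z` has the value `a` at `P` and `D z = 1`; `v` vanishes at `P` and
`v ^ e * U1(v) * V2(z) = (z - a) ^ (e k) * V1(z) * U2(v)` with polynomials which do not vanish at
`0`, respectively `a`.  Then all derivatives of `y = v / (z - a) ^ k` and of `1 / y` are regular.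

Proof.  Put `s = z - a`, `y = v / s ^ k`, `F = U1(v) V2(z)`, `G = V1(z) U2(v)`.  The four polynomial
factors are units at `P` (`v` and `s` have positive order; `Pl.ord_add_eq` with the constant
term, or `aeval v U1 - U1.eval 0` has positive order), so `y ^ e F = G` and `P.ord y = 0`
(`s ≠ 0`, `v ≠ 0` because the orders are positive).  `k ≥ 1`: otherwise `e * P.ord v = 0`.
It suffices to show `RegN D P n y` for all `n` by induction (then `RegN.inv`).  For `n = 0` this is
`P.ord y = 0`.  Step: `v = s ^ k y` and `s` satisfy `RegN D P n` (`D s = 1`).  Differentiate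
`y ^ e F = G`, where
`D F = U1'(v) V2(z) D v + U1(v) V2'(z)`, `D G = V1'(z) U2(v) + V1(z) U2'(v) D v`,
`D v = k s ^ (k - 1) y + s ^ k D y`:
`D y * B = N` with
`B = e y ^ (e - 1) F + y ^ e U1'(v) V2(z) s ^ k - V1(z) U2'(v) s ^ k`,
`N = V1'(z) U2(v) + V1(z) U2'(v) k s ^ (k - 1) y - y ^ e (U1'(v) V2(z) k s ^ (k - 1) y + U1(v) V2'(z))`.
`B` and `N` satisfy `RegN D P n`, and `P.ord B = 0` (the first term has order zero, the others have
positive order or vanish, because `k ≥ 1`).  So `D y = N * B⁻¹` satisfies `RegN D P n`, and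
`RegN.succ_iff` gives `RegN D P (n + 1) y`. -/
theorem loc (D : Derivation ℂ K K) (P : Pl K) {z v : K} {a : ℂ} (hz : 0 < P.ord (z - algebraMap ℂ K a))
    (hD : D z = 1) (hv : 0 < P.ord v) {e k : ℕ} (he : 1 ≤ e) (U1 U2 V1 V2 : ℂ[X])
    (hU1 : U1.eval 0 ≠ 0) (hU2 : U2.eval 0 ≠ 0) (hV1 : V1.eval a ≠ 0) (hV2 : V2.eval a ≠ 0)
    (h : v ^ e * aeval v U1 * aeval z V2 =
      (z - algebraMap ℂ K a) ^ (e * k) * aeval z V1 * aeval v U2) (n : ℕ) :
    RegN D P n (v / (z - algebraMap ℂ K a) ^ k) ∧ RegN D P n ((z - algebraMap ℂ K a) ^ k / v) := by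
  set s := z - algebraMap ℂ K a with hs
  have hs0 : s ≠ 0 := by
    intro h0
    rw [h0, P.ord_zero] at hz
    exact lt_irrefl _ hz
  have hv0 : v ≠ 0 := by
    intro h0
    rw [h0, P.ord_zero] at hv
    exact lt_irrefl _ hv
  have hv' : 0 < P.ord (v - algebraMap ℂ K 0) := by rwa [map_zero, sub_zero]
  obtain ⟨u1, o1⟩ := Loc_unit P hv' hU1
  obtain ⟨u2, o2⟩ := Loc_unit P hv' hU2
  obtain ⟨w1, p1⟩ := Loc_unit P hz hV1
  obtain ⟨w2, p2⟩ := Loc_unit P hz hV2
  set y := v / s ^ k with hy
  have hsk : s ^ k ≠ 0 := pow_ne_zero _ hs0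
  have hy0 : y ≠ 0 := div_ne_zero hv0 hsk
  have hvy : v = s ^ k * y := by
    rw [hy]
    field_simp
  have hF : y ^ e * (aeval v U1 * aeval z V2) = aeval z V1 * aeval v U2 := by
    have h1 : s ^ (e * k) ≠ 0 := pow_ne_zero _ hs0
    apply mul_left_cancel₀ h1
    have h2 : s ^ (e * k) * (y ^ e * (aeval v U1 * aeval z V2)) =
        v ^ e * aeval v U1 * aeval z V2 := by
      have h3 : v ^ e = s ^ (e * k) * y ^ e := by
        conv_lhs => rw [hvy]
        rw [mul_pow, ← pow_mul, mul_comm k e]
      rw [h3]
      ring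
    rw [h2, h]
    ring
  have hye : y ^ e ≠ 0 := pow_ne_zero _ hy0
  have hoy : P.ord y = 0 := by
    have h1 := congrArg P.ord hF
    rw [P.ord_mul hye (mul_ne_zero u1 w2), P.ord_mul u1 w2, P.ord_mul w1 u2, P.ord_pow, o1, o2,
      p1, p2] at h1
    have h2 : (e : ℤ) * P.ord y = 0 := by linarith
    rcases mul_eq_zero.1 h2 with h3 | h3
    · omega
    · exact h3
  have hk : 1 ≤ k := by
    by_contra hk
    have hk0 : k = 0 := by omega
    rw [hk0, pow_zero, div_one] at hy
    rw [hy] at hoy
    omega
  have hDs : D s = 1 := by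
    rw [hs, map_sub, hD, D.map_algebraMap, sub_zero]
  have hrs : ∀ m, RegN D P m s := by
    intro m
    cases m with
    | zero =>
      intro j hj
      have hj0 : j = 0 := by omega
      subst hj0
      exact hz.le
    | succ m =>
      rw [RegN.succ_iff]
      refine ⟨hz.le, ?_⟩
      rw [hDs, ← map_one (algebraMap ℂ K)]
      exact RegN.const D P m 1
  have hrz : ∀ m, RegN D P m z := by
    intro m
    have h1 : z = s + algebraMap ℂ K a := by rw [hs]; ring
    rw [h1]
    exact (hrs m).add (RegN.const D P m a)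
  -- the derivative equation
  obtain ⟨k', hk'⟩ : ∃ k', k = k' + 1 := ⟨k - 1, by omega⟩
  obtain ⟨e', he'⟩ : ∃ e', e = e' + 1 := ⟨e - 1, by omega⟩
  have hDv : D v = (k : K) * s ^ k' * y + s ^ k * D y := by
    conv_lhs => rw [hvy]
    rw [D.leibniz, D.leibniz_pow, hDs, hk']
    simp only [smul_eq_mul, nsmul_eq_mul, Nat.add_sub_cancel]
    ring
  set B := (e : K) * y ^ e' * (aeval v U1 * aeval z V2) +
    s ^ k * (y ^ e * aeval v (derivative U1) * aeval z V2 -
      aeval z V1 * aeval v (derivative U2)) with hB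
  set N := aeval z (derivative V1) * aeval v U2 +
    aeval z V1 * aeval v (derivative U2) * ((k : K) * s ^ k' * y) -
    y ^ e * (aeval v (derivative U1) * aeval z V2 * ((k : K) * s ^ k' * y) +
      aeval v U1 * aeval z (derivative V2)) with hN
  have hBN : D y * B = N := by
    have h1 := congrArg D hF
    rw [D.leibniz, D.leibniz_pow, D.leibniz, D.leibniz, Loc_aeval, Loc_aeval, Loc_aeval, Loc_aeval,
      hD, hDv] at h1
    simp only [smul_eq_mul, nsmul_eq_mul] at h1
    have h2 : e - 1 = e' := by omega
    rw [h2] at h1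
    rw [hB, hN]
    linear_combination h1
  have hmain : ∀ m, RegN D P m y := by
    intro m
    induction m with
    | zero =>
      intro j hj
      have hj0 : j = 0 := by omega
      subst hj0
      exact hoy.ge
    | succ m ih =>
      have hrv : RegN D P m v := by
        rw [hvy]
        exact (Loc_pow (hrs m) k).mul ih
      have hrN : RegN D P m N := by
        rw [hN, sub_eq_add_neg]
        refine RegN.add (RegN.add ?_ ?_) (RegN.neg ?_)
        · exact ((hrz m).aeval _).mul (hrv.aeval _)
        · exact (((hrz m).aeval _).mul (hrv.aeval _)).mul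
            (((Loc_nat D P m k).mul (Loc_pow (hrs m) k')).mul ih)
        · refine (Loc_pow ih e).mul (RegN.add ?_ ?_)
          · exact ((hrv.aeval _).mul ((hrz m).aeval _)).mul
              (((Loc_nat D P m k).mul (Loc_pow (hrs m) k')).mul ih)
          · exact (hrv.aeval _).mul ((hrz m).aeval _)
      have hrW : RegN D P m (y ^ e * aeval v (derivative U1) * aeval z V2 -
          aeval z V1 * aeval v (derivative U2)) := by
        rw [sub_eq_add_neg]
        exact (((Loc_pow ih e).mul (hrv.aeval _)).mul ((hrz m).aeval _)).add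
          (((hrz m).aeval _).mul (hrv.aeval _)).neg
      have hrB : RegN D P m B := by
        rw [hB]
        refine RegN.add ?_ ((Loc_pow (hrs m) k).mul hrW)
        exact ((Loc_nat D P m e).mul (Loc_pow ih e')).mul ((hrv.aeval _).mul ((hrz m).aeval _))
      have hfirst : (e : K) * y ^ e' * (aeval v U1 * aeval z V2) ≠ 0 ∧
          P.ord ((e : K) * y ^ e' * (aeval v U1 * aeval z V2)) = 0 := by
        have : CharZero K := charZero_of_injective_algebraMap (algebraMap ℂ K).injective
        have he0 : (e : K) ≠ 0 := Nat.cast_ne_zero.2 (by omega)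
        have hc : P.ord (e : K) = 0 := by
          have h9 : (e : K) = algebraMap ℂ K (e : ℂ) := by simp
          rw [h9, P.ord_C]
        have hy' : y ^ e' ≠ 0 := pow_ne_zero _ hy0
        refine ⟨mul_ne_zero (mul_ne_zero he0 hy') (mul_ne_zero u1 w2), ?_⟩
        rw [P.ord_mul (mul_ne_zero he0 hy') (mul_ne_zero u1 w2), P.ord_mul he0 hy',
          P.ord_mul u1 w2, P.ord_pow, hc, hoy, o1, p2]
        ring
      have hBu : B ≠ 0 ∧ P.ord B = 0 := by
        have h7 := P.ord_add_eq (u := (e : K) * y ^ e' * (aeval v U1 * aeval z V2))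
          (w := s ^ k * (y ^ e * aeval v (derivative U1) * aeval z V2 -
            aeval z V1 * aeval v (derivative U2))) hfirst.1 (by
            by_cases h8 : y ^ e * aeval v (derivative U1) * aeval z V2 -
              aeval z V1 * aeval v (derivative U2) = 0
            · left
              rw [h8, mul_zero]
            · right
              rw [hfirst.2, P.ord_mul hsk h8, P.ord_pow]
              have h9 := Loc_zero hrW
              have h10 : 0 < (k : ℤ) * P.ord s := by
                have : (0 : ℤ) < k := by omega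
                positivity
              omega)
        rw [hfirst.2] at h7
        exact h7
      rw [RegN.succ_iff]
      refine ⟨hoy.ge, ?_⟩
      have h11 : D y = N * B⁻¹ := by
        rw [← hBN, mul_assoc, mul_inv_cancel₀ hBu.1, mul_one]
      rw [h11]
      exact hrN.mul (hrB.inv hBu.1 hBu.2)
  refine ⟨hmain n, ?_⟩
  have h12 : s ^ k / v = y⁻¹ := by
    rw [hy, inv_div]
  rw [h12]
  exact (hmain n).inv hy0 hoy

end WildV
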