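import Pool.Agent.helper21.WV.NumDefs

/-! Numerical classification, `s ≥ 22`: a second simple fibre. -/

namespace WildV

open Multiset

theorem NumA1_wt0 (m : ℕ) : m ≤ wt (2 ::ₘ replicate m 1) := by
  unfold wt
  simp only [Multiset.map_cons, Multiset.sum_cons, Multiset.map_replicate, Multiset.sum_replicate,
    Nat.gcd_self, smul_eq_mul]
  simp

theorem NumA1_tri {a b c ra rb rc s : ℕ} (hs : 22 ≤ s) (ha : 2 ≤ a) (hab : a < b) (hbc : b < c)
    (cab : Nat.Coprime a b) (cac : Nat.Coprime a c) (cbc : Nat.Coprime b c)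
    (ea : s = a * ra) (eb : s = b * rb) (ec : s = c * rc) (hsum : ra + rb + rc = s + 4) :
    a = 2 ∧ b = 3 ∧ c = 5 := by
  have hra : 0 < ra := Nat.pos_of_ne_zero (by rintro rfl; omega)
  have hrb : 0 < rb := Nat.pos_of_ne_zero (by rintro rfl; omega)
  have hrc : 0 < rc := Nat.pos_of_ne_zero (by rintro rfl; omega)
  have key : ∀ {u r k : ℕ}, k ≤ u → s = u * r → k * r ≤ s := by
    intro u r k h e
    rw [e]
    exact Nat.mul_le_mul_right _ h
  have h2 : a = 2 := by
    by_contra h
    have h1 := key (k := 3) (by omega) ea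
    have h2 := key (k := 4) (by omega) eb
    have h3 := key (k := 5) (by omega) ec
    omega
  subst h2
  have hb : b = 3 := by
    by_contra h
    have hb4 : b ≠ 4 := by
      rintro rfl
      revert cab
      decide
    have hc6 : c ≠ 6 := by
      rintro rfl
      revert cac
      decide
    have h1 := key (k := 2) (by omega) ea
    have h2 := key (k := 5) (by omega) eb
    have h3 := key (k := 7) (by omega) ec
    omega
  subst hb
  refine ⟨rfl, rfl, ?_⟩
  by_contra h
  have hc4 : c ≠ 4 := by
    rintro rfl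
    revert cac
    decide
  have hc6 : c ≠ 6 := by
    rintro rfl
    revert cac
    decide
  have h1 := key (k := 2) (by omega) ea
  have h2 := key (k := 3) (by omega) eb
  have h3 := key (k := 7) (by omega) ec
  omega

/-- A homogeneous partition with parts `d` has index `s - s / d`; pairwise coprime `d`'s.

If there is a further simple fibre `c0`, its index is one and its weight is `s - 2`, so all other
fibres have total weight at most two and are homogeneous (`hom_of_small`, `s ≥ 7`), `L c = [d_c ^ r_c]`,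
`d_c r_c = s`, `d_c ≥ 2` (`lt`), pairwise coprime (`gcd`), and `∑ (s - r_c) = 2 s - 4`, that is
`∑ (1 - 1 / d_c) = 2 - 4 / s`.
At least four fibres: `1/2 + 2/3 + 3/4 + 4/5 > 2`, impossible (the `d_c` are distinct).
Three: `1/a + 1/b + 1/c = 1 + 4 / s` with `a < b < c` pairwise coprime: `(2, 3, c)`, `c ≥ 7` gives
`41/42 < 1`; `a = 2`, `b ≥ 5`: `1/2 + 1/5 + 1/7 < 1`; `a ≥ 3`: `< 1`; remains `(2, 3, 5)`.
Two: `s (a + b) = 4 a b` and `a b ≤ s` (coprime divisors) give `a + b ≤ 4`, but `a + b ≥ 5`.
One or none: `s - r ≤ s - 1 < 2 s - 4`.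
So the others are `c1, c2, c3` with `DD 2`, `DD 3`, `DD 5`, hence `Exc0` (`DD 2 L` implies `AD 2 L` for
`L ≠ 0`). -/
theorem numA {ι : Type} [DecidableEq ι] {T : Finset ι} {L : ι → Multiset ℕ} {s : ℕ}
    (h : NumHyp T L s) (hs : 22 ≤ s) {c0 : ι} (hc0 : c0 ∈ T)
    (h0 : L c0 = 2 ::ₘ replicate (s - 2) 1) : NumConcl T L s := by
  have hw0 : s - 2 ≤ wt (L c0) := by
    rw [h0]
    exact NumA1_wt0 _
  have hk0 : card (L c0) = s - 1 := by
    rw [h0, Multiset.card_cons, Multiset.card_replicate]
    omega
  have hwt := h.wt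
  rw [← Finset.add_sum_erase T _ hc0] at hwt
  have hrh := h.rh
  rw [← Finset.add_sum_erase T _ hc0, hk0] at hrh
  have hT' : ∀ c ∈ T.erase c0, ∃ d, 2 ≤ d ∧ s = d * card (L c) ∧ DD d (L c) ∧ 1 ≤ card (L c) := by
    intro c hc
    have hcT : c ∈ T := Finset.mem_of_mem_erase hc
    have h1 : wt (L c) ≤ ∑ c ∈ T.erase c0, wt (L c) :=
      Finset.single_le_sum (f := fun c => wt (L c)) (fun _ _ => Nat.zero_le _) hc
    have hcard : 1 ≤ card (L c) := by
      rw [Nat.one_le_iff_ne_zero]
      intro h0
      rw [Multiset.card_eq_zero] at h0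
      have := h.sum c hcT
      rw [h0] at this
      simp at this
      omega
    obtain ⟨d, hd1, -, hd3, hd4⟩ := hom_of_small (h.pos c hcT) (h.sum c hcT) hcard (by omega)
    refine ⟨d, ?_, hd3, hd4, hcard⟩
    have hlt := h.lt c hcT
    rcases Nat.lt_or_ge d 2 with h2 | h2
    · exfalso
      have : d = 1 := by omega
      subst this
      omega
    · exact h2
  choose! d hd2 hds hdd hcd using hT'
  have hco : ∀ x ∈ T.erase c0, ∀ y ∈ T.erase c0, x ≠ y → Nat.Coprime (d x) (d y) := by
    intro x hx y hy hxy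
    by_contra hn
    have hg : 2 ≤ Nat.gcd (d x) (d y) := by
      have h1 : Nat.gcd (d x) (d y) ≠ 0 := by
        intro h0
        have := Nat.eq_zero_of_gcd_eq_zero_left h0
        have := hd2 x hx
        omega
      have h2 : Nat.gcd (d x) (d y) ≠ 1 := hn
      omega
    refine h.gcd x (Finset.mem_of_mem_erase hx) y (Finset.mem_of_mem_erase hy) hxy _ hg ⟨?_, ?_⟩
    · intro e he
      exact (Nat.gcd_dvd_left _ _).trans (hdd x hx e he)
    · intro e he
      exact (Nat.gcd_dvd_right _ _).trans (hdd y hy e he)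
  have key : ∀ x ∈ T.erase c0, ∀ y ∈ T.erase c0, ∀ z ∈ T.erase c0, x ≠ y → x ≠ z → y ≠ z →
      card (L x) + card (L y) + card (L z) = s + 4 → d x < d y → d y < d z → NumConcl T L s := by
    intro x hx y hy z hz hxy hxz hyz hsum h1 h2
    obtain ⟨e1, e2, e3⟩ := NumA1_tri hs (hd2 x hx) h1 h2 (hco x hx y hy hxy) (hco x hx z hz hxz)
      (hco y hy z hz hyz) (hds x hx) (hds y hy) (hds z hz) hsum
    right; right; right; right; right; right
    refine ⟨x, Finset.mem_of_mem_erase hx, y, Finset.mem_of_mem_erase hy, z,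
      Finset.mem_of_mem_erase hz, hxy, hxz, hyz, Or.inl (Or.inl ⟨?_, ?_, ?_⟩)⟩
    · have hc := hcd x hx
      obtain ⟨a, ha⟩ := Multiset.card_pos_iff_exists_mem.1 (show 0 < card (L x) by omega)
      obtain ⟨L', hL'⟩ := Multiset.exists_cons_of_mem ha
      refine ⟨a, L', hL', fun e he => ?_⟩
      have := hdd x hx e (by rw [hL']; exact Multiset.mem_cons_of_mem he)
      rwa [e1] at this
    · have := hdd y hy
      rwa [e2] at this
    · have := hdd z hz
      rwa [e3] at this
  -- the number of other fibres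
  have hhalf : ∀ c ∈ T.erase c0, s ≤ 2 * (s - card (L c)) := by
    intro c hc
    have h1 := hds c hc
    have h2 := hd2 c hc
    have h3 : 2 * card (L c) ≤ s := by
      conv_rhs => rw [h1]
      exact Nat.mul_le_mul_right _ h2
    omega
  have hsum' : ∑ c ∈ T.erase c0, (s - card (L c)) = 2 * s - 4 := by omega
  have hcard3 : (T.erase c0).card ≤ 3 := by
    by_contra hn
    have h1 : (T.erase c0).card • s ≤ ∑ c ∈ T.erase c0, 2 * (s - card (L c)) :=
      Finset.card_nsmul_le_sum _ _ _ hhalf
    rw [← Finset.mul_sum, hsum', smul_eq_mul] at h1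
    have h2 : 4 * s ≤ (T.erase c0).card * s := Nat.mul_le_mul_right _ (by omega)
    omega
  have hne : ∀ x ∈ T.erase c0, ∀ y ∈ T.erase c0, x ≠ y → d x ≠ d y := by
    intro x hx y hy hxy he
    have h1 := hco x hx y hy hxy
    rw [he, Nat.coprime_self] at h1
    have := hd2 y hy
    omega
  rcases Nat.lt_or_ge (T.erase c0).card 3 with h3 | h3
  · exfalso
    rcases Nat.lt_or_ge (T.erase c0).card 2 with h2 | h2
    · rcases Nat.lt_or_ge (T.erase c0).card 1 with h1 | h1
      · have h0 : T.erase c0 = ∅ := Finset.card_eq_zero.1 (by omega)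
        rw [h0] at hsum'
        simp at hsum'
        omega
      · obtain ⟨x, hx⟩ := Finset.card_eq_one.1 (show (T.erase c0).card = 1 by omega)
        rw [hx, Finset.sum_singleton] at hsum'
        have := hcd x (by rw [hx]; exact Finset.mem_singleton_self _)
        omega
    · obtain ⟨x, y, hxy, hxy'⟩ := Finset.card_eq_two.1 (show (T.erase c0).card = 2 by omega)
      have hx : x ∈ T.erase c0 := by rw [hxy']; simp
      have hy : y ∈ T.erase c0 := by rw [hxy']; simp
      rw [hxy', Finset.sum_pair hxy] at hsum'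
      have hlx := h.lt x (Finset.mem_of_mem_erase hx)
      have hly := h.lt y (Finset.mem_of_mem_erase hy)
      have hc := hco x hx y hy hxy
      have ex := hds x hx
      have ey := hds y hy
      have dx := hd2 x hx
      have dy := hd2 y hy
      have hdvd : d x * d y ∣ s := hc.mul_dvd_of_dvd_of_dvd ⟨_, ex⟩ ⟨_, ey⟩
      obtain ⟨k, hk⟩ := hdvd
      have hk0 : 1 ≤ k := by
        rw [Nat.one_le_iff_ne_zero]
        rintro rfl
        omega
      have e1 : card (L x) = d y * k := by
        have : d x * card (L x) = d x * (d y * k) := by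
          rw [← ex, hk]
          ring
        exact Nat.eq_of_mul_eq_mul_left (by omega) this
      have e2 : card (L y) = d x * k := by
        have : d y * card (L y) = d y * (d x * k) := by
          rw [← ey, hk]
          ring
        exact Nat.eq_of_mul_eq_mul_left (by omega) this
      have i1 : d y ≤ card (L x) := by
        rw [e1]
        exact Nat.le_mul_of_pos_right _ hk0
      have i2 : d x ≤ card (L y) := by
        rw [e2]
        exact Nat.le_mul_of_pos_right _ hk0
      have := hne x hx y hy hxy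
      omega
  · obtain ⟨x, y, z, hxy, hxz, hyz, hT⟩ := Finset.card_eq_three.1
      (show (T.erase c0).card = 3 by omega)
    have hx : x ∈ T.erase c0 := by rw [hT]; simp
    have hy : y ∈ T.erase c0 := by rw [hT]; simp
    have hz : z ∈ T.erase c0 := by rw [hT]; simp
    have hlx := h.lt x (Finset.mem_of_mem_erase hx)
    have hly := h.lt y (Finset.mem_of_mem_erase hy)
    have hlz := h.lt z (Finset.mem_of_mem_erase hz)
    rw [hT, Finset.sum_insert (by simp [hxy, hxz]), Finset.sum_pair hyz] at hsum'
    have n1 := hne x hx y hy hxy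
    have n2 := hne x hx z hz hxz
    have n3 := hne y hy z hz hyz
    rcases Nat.lt_or_gt_of_ne n1 with a1 | a1
    · rcases Nat.lt_or_gt_of_ne n3 with a3 | a3
      · exact key x hx y hy z hz hxy hxz hyz (by omega) a1 a3
      · rcases Nat.lt_or_gt_of_ne n2 with a2 | a2
        · exact key x hx z hz y hy hxz hxy hyz.symm (by omega) a2 a3
        · exact key z hz x hx y hy hxz.symm hyz.symm hxy (by omega) a2 a1
    · rcases Nat.lt_or_gt_of_ne n2 with a2 | a2
      · exact key y hy x hx z hz hxy.symm hyz hxz (by omega) a1 a2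
      · rcases Nat.lt_or_gt_of_ne n3 with a3 | a3
        · exact key y hy z hz x hx hyz hxy.symm hxz.symm (by omega) a3 a2
        · exact key z hz y hy x hx hyz.symm hxz.symm hxy.symm (by omega) a3 a1

end WildV
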