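import Pool.Agent.helper21.WV.NumDefs

/-! Numerical classification, `s ≥ 22`: the number of fibres. -/

namespace WildV

open Multiset

/-- A nontrivial partition which is not `[2, 1, .., 1]`, with weight at most `s`, has at most
`s / 2 + 1` parts; if it has more than `s / 2` parts it is `[2, .., 2, 1]` (weight `(s - 1) / 2`) or
`[2, .., 2, 1, 1]` (weight `s - 2`).

Proof: if `card L ≤ 6` clear (`s ≥ 22`).  Otherwise `lemD`.  In each case the common part is `d ≥ 1` and
`d (r - 1) ≤ s`.  `d = 1` gives `[1, .., 1]` (excluded) or `[2, 1, .., 1]` (excluded) (cases 1 and 4 have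
`d ≥ 2`).  `d = 2`: `[2 ^ v]`, `[1, 2 ^ v]`, `[4, 2 ^ v]`, `[1, 1, 2 ^ v]`.  `d ≥ 3`:
`r ≤ s / 3 + 1 ≤ s / 2`. -/
theorem numHalf {L : Multiset ℕ} {s : ℕ} (hs : 22 ≤ s) (h : ∀ e ∈ L, 1 ≤ e) (hsum : L.sum = s)
    (hlt : card L < s) (h2 : L ≠ 2 ::ₘ replicate (s - 2) 1) (hw : wt L ≤ s) :
    2 * card L ≤ s ∨ (∃ v, s = 2 * v + 1 ∧ L = 1 ::ₘ replicate v 2 ∧ card L = v + 1 ∧ wt L = v) ∨
      (∃ v, s = 2 * v + 2 ∧ L = 1 ::ₘ 1 ::ₘ replicate v 2 ∧ card L = v + 2 ∧ wt L = 2 * v) := by
  by_cases hr : card L ≤ 6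
  · left
    omega
  · obtain ⟨r, hr'⟩ : ∃ r, card L = r := ⟨_, rfl⟩
    have h7 : 7 ≤ r := by omega
    rcases lemD h hsum hr' h7 hw with ⟨d, hd, hL, hsd, hwt⟩ | ⟨y, k, hy, hk, hL, hsd, hwt⟩ |
      ⟨g, q, hg, hq, hL, hsd, hwt⟩ | ⟨y, hy, hL, hsd, hwt⟩
    · left
      rcases Nat.lt_or_ge d 2 with h3 | h3
      · have h4 : d = 1 := by omega
        rw [h4, one_mul] at hsd
        omega
      · have h4 : 2 * r ≤ d * r := Nat.mul_le_mul_right r h3
        omega
    · rcases Nat.lt_or_ge (y * k) 3 with h3 | h3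
      · have h4 : y = 1 := by
          by_contra hne
          have h5 : 2 * 2 ≤ y * k := Nat.mul_le_mul (by omega) hk
          omega
        rw [h4, one_mul] at h3 hL hsd hwt
        have h5 : k = 2 := by omega
        rw [h5] at hL hsd hwt
        right
        left
        refine ⟨r - 1, hsd, hL, by omega, ?_⟩
        rw [hwt]
        omega
      · left
        have h4 : 3 * (r - 1) ≤ y * k * (r - 1) := Nat.mul_le_mul_right _ h3
        omega
    · left
      rcases Nat.lt_or_ge (g * q) 3 with h3 | h3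
      · obtain ⟨j, hj⟩ := hq
        have h4 : j = 0 := by
          by_contra hne
          have h5 : 1 * 3 ≤ g * q := Nat.mul_le_mul hg (by omega)
          omega
        have h5 : q = 1 := by omega
        rw [h5, mul_one] at h3 hL hsd
        rcases Nat.lt_or_ge g 2 with h6 | h6
        · exfalso
          have h8 : g = 1 := by omega
          rw [h8] at hL hsd
          apply h2
          rw [hL, show s - 2 = r - 1 by omega]
        · have h8 : g = 2 := by omega
          rw [h8] at hsd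
          omega
      · have h4 : 3 * (r - 1) ≤ g * q * (r - 1) := Nat.mul_le_mul_right _ h3
        omega
    · rcases Nat.lt_or_ge y 2 with h3 | h3
      · have h4 : y = 1 := by omega
        rw [h4] at hL hsd hwt
        right
        right
        refine ⟨r - 2, by omega, hL, by omega, ?_⟩
        rw [hwt]
        omega
      · left
        have h4 : 4 * (r - 1) ≤ 2 * y * (r - 1) := Nat.mul_le_mul_right _ (by omega)
        omega

/-- Without a further simple fibre there are two or three fibres.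

Proof.  `∑ card (L c) = (N - 2) s + 3` with `N = card T`.  By `numHalf` every `card (L c)` is at most
`s / 2 + 1`, so `N ≤ 4` (`N (s / 2 - 1) ≤ 2 s - 3`).  `N = 0, 1` are impossible.  `N = 4`:
`∑ card = 2 s + 3`.  At most one fibre is `[2, .., 2, 1, 1]` (weight `s - 2`), and then `s` is even, so
the other three have at most `s / 2` parts: total `≤ 2 s + 1`.  Otherwise at most two are
`[2, .., 2, 1]` (three would have weight `3 (s - 1) / 2 > s`), `s` odd, the others have at most
`(s - 1) / 2` parts: total `≤ 2 s`. -/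
theorem numCard {ι : Type} [DecidableEq ι] {T : Finset ι} {L : ι → Multiset ℕ} {s : ℕ}
    (h : NumHyp T L s) (hs : 22 ≤ s) (h2 : ∀ c ∈ T, L c ≠ 2 ::ₘ replicate (s - 2) 1) :
    T.card = 2 ∨ T.card = 3 := by
  have hcast : (∑ c ∈ T, ((s : ℤ) - card (L c))) + 3 = 2 * s := by
    have h3 : ∀ c ∈ T, ((s - card (L c) : ℕ) : ℤ) = (s : ℤ) - card (L c) := fun c hc =>
      Nat.cast_sub (h.lt c hc).le
    rw [← Finset.sum_congr rfl h3]
    exact_mod_cast h.rh
  have hwt : (∑ c ∈ T, (wt (L c) : ℤ)) ≤ s := by exact_mod_cast h.wt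
  have key : ∀ c ∈ T, ((s : ℤ) - 2) * (2 * card (L c) - s) ≤ 2 * wt (L c) := by
    intro c hc
    have hs2 : (0 : ℤ) ≤ (s : ℤ) - 2 := by omega
    rcases numHalf hs (h.pos c hc) (h.sum c hc) (h.lt c hc) (h2 c hc)
      ((Finset.single_le_sum (f := fun c => wt (L c)) (fun _ _ => Nat.zero_le _) hc).trans h.wt)
      with h3 | ⟨v, hv, -, h3, h4⟩ | ⟨v, hv, -, h3, h4⟩
    · have h4 : (2 * card (L c) - s : ℤ) ≤ 0 := by omega
      have h5 := mul_nonneg hs2 (neg_nonneg.2 h4)
      have h6 : (0 : ℤ) ≤ wt (L c) := Nat.cast_nonneg _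
      linarith
    · have h5 : (2 * card (L c) - s : ℤ) = 1 := by omega
      rw [h5]
      omega
    · have h5 : (2 * card (L c) - s : ℤ) = 2 := by omega
      rw [h5]
      omega
  have hsum := Finset.sum_le_sum key
  rw [← Finset.mul_sum, ← Finset.mul_sum, Finset.sum_sub_distrib, ← Finset.mul_sum,
    Finset.sum_const, nsmul_eq_mul] at hsum
  rw [Finset.sum_sub_distrib, Finset.sum_const, nsmul_eq_mul] at hcast
  have hN3 : T.card ≤ 3 := by
    by_contra hcon
    have h4 : (4 : ℤ) ≤ T.card := by omega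
    have hs22 : (22 : ℤ) ≤ s := by omega
    have h5 : (2 : ℤ) * ∑ c ∈ T, (card (L c) : ℤ) - T.card * s = (T.card - 4) * s + 6 := by
      linarith
    rw [h5] at hsum
    have h6 : (0 : ℤ) ≤ (T.card - 4) * s := mul_nonneg (by linarith) (by linarith)
    nlinarith [mul_nonneg (by linarith : (0 : ℤ) ≤ (s : ℤ) - 2) h6]
  have hN0 : T.card ≠ 0 := by
    intro h0
    rw [Finset.card_eq_zero] at h0
    have h3 := h.rh
    rw [h0, Finset.sum_empty] at h3
    omega
  have hN1 : T.card ≠ 1 := by
    intro h0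
    obtain ⟨c, hc⟩ := Finset.card_eq_one.1 h0
    have h3 := h.rh
    rw [hc, Finset.sum_singleton] at h3
    omega
  omega

/-- Two fibres: the numbers of parts are one and two. -/
theorem numTwo {ι : Type} [DecidableEq ι] {T : Finset ι} {L : ι → Multiset ℕ} {s : ℕ}
    (h : NumHyp T L s) (hs : 4 ≤ s) (h2 : T.card = 2) : NumConcl T L s := by
  obtain ⟨c, c', hne, hT⟩ := Finset.card_eq_two.1 h2
  have hc : c ∈ T := by rw [hT]; simp
  have hc' : c' ∈ T := by rw [hT]; simp
  have h3 := h.rh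
  rw [hT, Finset.sum_pair hne] at h3
  have hp : ∀ b ∈ T, 1 ≤ card (L b) := by
    intro b hb
    by_contra h0
    have h4 : L b = 0 := Multiset.card_eq_zero.1 (by omega)
    have h5 := h.sum b hb
    rw [h4, Multiset.sum_zero] at h5
    omega
  have h4 := hp c hc
  have h5 := hp c' hc'
  have h6 := h.lt c hc
  have h7 := h.lt c' hc'
  left
  rcases Nat.lt_or_ge (card (L c)) 2 with h8 | h8
  · exact ⟨c, hc, c', hc', by omega, by omega⟩
  · exact ⟨c', hc', c, hc, by omega, by omega⟩

end WildV
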