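import Pool.Agent.helper21.WV.NumDefs

/-! Numerical classification, `s ≥ 22`, three fibres: possible shapes of the first two. -/

namespace WildV

open Multiset

/-- The fibre with the most parts (at least `s / 3 + 1`).

Proof: `card L ≥ 9`, so `lemD` applies.  The common part is `d`.  `d = 1`: excluded by `hlt`, `h2`.
`d = 2`: the four cases of the conclusion.  `d = 3`: `r = s / 3`, `(s + 2) / 3`, `(s + 1) / 3`,
`s / 3 - 1`, all less than `s / 3 + 1`.  `d ≥ 4`: `d (r - 1) ≤ s`, `r ≤ s / 4 + 1 < s / 3 + 1`. -/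
theorem numL1 {L : Multiset ℕ} {s : ℕ} (hs : 22 ≤ s) (h : ∀ e ∈ L, 1 ≤ e) (hsum : L.sum = s)
    (hlt : card L < s) (h2 : L ≠ 2 ::ₘ replicate (s - 2) 1) (hw : wt L ≤ s)
    (hr : s + 3 ≤ 3 * card L) :
    (∃ v, s = 2 * v ∧ L = replicate v 2 ∧ wt L = 0) ∨
    (∃ v, s = 2 * v + 1 ∧ L = 1 ::ₘ replicate v 2 ∧ wt L = v) ∨
    (∃ v, s = 2 * v + 4 ∧ L = 4 ::ₘ replicate v 2 ∧ wt L = 2 * v) ∨
    (∃ v, s = 2 * v + 2 ∧ L = 1 ::ₘ 1 ::ₘ replicate v 2 ∧ wt L = 2 * v) := by
  have h7 : 7 ≤ card L := by omega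
  obtain ⟨r, hrc⟩ : ∃ r, card L = r := ⟨_, rfl⟩
  rcases lemD h hsum hrc (by omega) hw with
    ⟨d, hd, hL, hsd, hwt⟩ | ⟨y, k, hy, hk, hL, hsd, hwt⟩ | ⟨g, q, hg, hq, hL, hsd, hwt⟩ |
      ⟨y, hy, hL, hsd, hwt⟩
  · -- homogeneous
    rcases Nat.lt_or_ge d 3 with hd3 | hd3
    · interval_cases d
      · omega
      · exact Or.inl ⟨r, hsd, hL, hwt⟩
    · exfalso
      have : 3 * r ≤ d * r := Nat.mul_le_mul_right r hd3
      omega
  · -- one part properly dividing
    obtain ⟨D, hD⟩ : ∃ D, y * k = D := ⟨_, rfl⟩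
    rw [hD] at hL hsd hwt
    rcases Nat.lt_or_ge D 3 with hD3 | hD3
    · have hy2 : y * 2 ≤ y * k := Nat.mul_le_mul_left y hk
      have hy1 : y = 1 := by omega
      subst hy1
      have hD2 : D = 2 := by omega
      subst hD2
      exact Or.inr (Or.inl ⟨r - 1, by omega, hL, by omega⟩)
    · exfalso
      have : 3 * (r - 1) ≤ D * (r - 1) := Nat.mul_le_mul_right _ hD3
      omega
  · -- one part `2 g`
    obtain ⟨D, hD⟩ : ∃ D, g * q = D := ⟨_, rfl⟩
    rw [hD] at hL hsd hwt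
    have hq1 : 1 ≤ q := hq.pos
    have hgD : g * 1 ≤ g * q := Nat.mul_le_mul_left g hq1
    rcases Nat.lt_or_ge D 3 with hD3 | hD3
    · have hD1 : D = 1 ∨ D = 2 := by omega
      rcases hD1 with rfl | rfl
      · exfalso
        have hg1 : g = 1 := by omega
        subst hg1
        apply h2
        rw [hL]
        have : r - 1 = s - 2 := by omega
        rw [this]
      · have hg2 : g = 1 ∨ g = 2 := by omega
        rcases hg2 with rfl | rfl
        · exfalso
          have hq2 : q = 2 := by omega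
          subst hq2
          exact absurd hq (by decide)
        · exact Or.inr (Or.inr (Or.inl ⟨r - 1, by omega, hL, by omega⟩))
    · exfalso
      have : 3 * (r - 1) ≤ D * (r - 1) := Nat.mul_le_mul_right _ hD3
      omega
  · -- two parts `d / 2`
    rcases Nat.lt_or_ge y 2 with hy2 | hy2
    · have hy1 : y = 1 := by omega
      subst hy1
      exact Or.inr (Or.inr (Or.inr ⟨r - 2, by omega, hL, by omega⟩))
    · exfalso
      have : 4 * (r - 1) ≤ 2 * y * (r - 1) := Nat.mul_le_mul_right _ (by omega)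
      omega

/-- The second fibre if the first is `[2, .., 2]`.

Proof: `card L ≥ 7`, `lemD`.  `d = 1`: more than `s / 2` parts.  `d = 2`: `[2 ^ v]` and `[4, 2 ^ v]` are
excluded by `h2`; `[1, 2 ^ v]` has odd sum; `[1, 1, 2 ^ v]` has `s / 2 + 1` parts.  `d = 3`: the four
cases.  `d ≥ 4`: `d (r - 1) ≤ s`, `r ≤ s / 4 + 1 < s / 4 + 3 / 2`. -/
theorem numL2 {L : Multiset ℕ} {s : ℕ} (hs : 22 ≤ s) (hev : Even s) (h : ∀ e ∈ L, 1 ≤ e)
    (hsum : L.sum = s) (h2 : ¬ DD 2 L) (hw : wt L ≤ s) (hr : s + 6 ≤ 4 * card L)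
    (hr' : 2 * card L ≤ s) :
    (∃ u, s = 3 * u ∧ L = replicate u 3 ∧ wt L = 0) ∨
    (∃ u, s = 3 * u + 1 ∧ L = 1 ::ₘ replicate u 3 ∧ wt L = 2 * u) ∨
    (∃ u, s = 3 * u + 2 ∧ L = 2 ::ₘ replicate u 3 ∧ wt L = 3 * u) ∨
    (∃ u, s = 3 * u + 6 ∧ L = 6 ::ₘ replicate u 3 ∧ wt L = 3 * u) := by
  obtain ⟨r, hrc⟩ : ∃ r, card L = r := ⟨_, rfl⟩
  rcases lemD h hsum hrc (by omega) hw with
    ⟨d, hd, hL, hsd, hwt⟩ | ⟨y, k, hy, hk, hL, hsd, hwt⟩ | ⟨g, q, hg, hq, hL, hsd, hwt⟩ |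
      ⟨y, hy, hL, hsd, hwt⟩
  · -- homogeneous
    rcases Nat.lt_or_ge d 4 with hd4 | hd4
    · interval_cases d
      · omega
      · exfalso
        apply h2
        intro e he
        rw [hL] at he
        rw [Multiset.eq_of_mem_replicate he]
      · exact Or.inl ⟨r, hsd, hL, hwt⟩
    · exfalso
      have : 4 * r ≤ d * r := Nat.mul_le_mul_right r hd4
      omega
  · -- one part properly dividing
    obtain ⟨D, hD⟩ : ∃ D, y * k = D := ⟨_, rfl⟩
    rw [hD] at hL hsd hwt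
    rcases Nat.lt_or_ge D 4 with hD4 | hD4
    · have hy2 : y * 2 ≤ y * k := Nat.mul_le_mul_left y hk
      have hy1 : y = 1 := by omega
      subst hy1
      have hD2 : D = 2 ∨ D = 3 := by omega
      rcases hD2 with rfl | rfl
      · exfalso
        obtain ⟨t, ht⟩ := hev
        omega
      · exact Or.inr (Or.inl ⟨r - 1, by omega, hL, by omega⟩)
    · exfalso
      have : 4 * (r - 1) ≤ D * (r - 1) := Nat.mul_le_mul_right _ hD4
      omega
  · -- one part `2 g`
    obtain ⟨D, hD⟩ : ∃ D, g * q = D := ⟨_, rfl⟩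
    rw [hD] at hL hsd hwt
    have hq1 : 1 ≤ q := hq.pos
    have hgD : g * 1 ≤ g * q := Nat.mul_le_mul_left g hq1
    rcases Nat.lt_or_ge D 4 with hD4 | hD4
    · have hD1 : D = 1 ∨ D = 2 ∨ D = 3 := by omega
      rcases hD1 with rfl | rfl | rfl
      · exfalso
        omega
      · exfalso
        apply h2
        intro e he
        rw [hL] at he
        rcases Multiset.mem_cons.1 he with rfl | he
        · exact ⟨g, rfl⟩
        · rw [Multiset.eq_of_mem_replicate he]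
      · have hg2 : g = 1 ∨ g = 2 ∨ g = 3 := by omega
        rcases hg2 with rfl | rfl | rfl
        · exact Or.inr (Or.inr (Or.inl ⟨r - 1, by omega, hL, by omega⟩))
        · exfalso
          omega
        · exact Or.inr (Or.inr (Or.inr ⟨r - 1, by omega, hL, by omega⟩))
    · exfalso
      have : 4 * (r - 1) ≤ D * (r - 1) := Nat.mul_le_mul_right _ hD4
      omega
  · -- two parts `d / 2`
    exfalso
    rcases Nat.lt_or_ge y 2 with hy2 | hy2
    · have hy1 : y = 1 := by omega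
      subst hy1
      omega
    · have : 4 * (r - 1) ≤ 2 * y * (r - 1) := Nat.mul_le_mul_right _ (by omega)
      omega

end WildV
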