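import Pool.Agent.helper21.WV.NumDefs

/-! Numerical classification, `s ≥ 22`, three fibres: first fibre `[2, .., 2, 1, 1]` or `[4, 2, .., 2]`. -/

namespace WildV

open Multiset

theorem NumB2_hom {L : Multiset ℕ} {s : ℕ} (hs : 22 ≤ s) (h : ∀ e ∈ L, 1 ≤ e) (hsum : L.sum = s)
    (hl : card L < s) (hw : wt L ≤ 4) : ∃ a, 2 ≤ a ∧ s = a * card L ∧ DD a L ∧ 1 ≤ card L := by
  have hc : 1 ≤ card L := by
    by_contra hc
    have h0 : L = 0 := card_eq_zero.1 (by omega)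
    rw [h0, sum_zero] at hsum
    omega
  obtain ⟨a, ha, -, hsa, hD⟩ := hom_of_small h hsum hc (by omega)
  refine ⟨a, ?_, hsa, hD, hc⟩
  by_contra h2
  have h3 : a = 1 := by omega
  rw [h3, one_mul] at hsa
  omega

theorem NumB2_dd {L : Multiset ℕ} {a d : ℕ} (h : DD a L) (hd : d ∣ a) : DD d L :=
  fun e he => hd.trans (h e he)

theorem NumB2_le {a b r2 r3 s : ℕ} (h2 : s = a * r2) (h3 : s = b * r3) (hr : r3 ≤ r2)
    (h1 : 1 ≤ r3) : a ≤ b := by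
  by_contra hab
  push Not at hab
  have h4 : b * r3 < a * r3 := Nat.mul_lt_mul_of_pos_right hab h1
  have h5 : a * r3 ≤ a * r2 := Nat.mul_le_mul_left a hr
  omega

/-- First fibre `[2 ^ v, 1, 1]`.

Proof.  `L2`, `L3` are homogeneous (`hom_of_small`): parts `a ≤ b` (`card L3 ≤ card L2`), coprime
(`hG`: a common prime divisor is excluded), `a, b ≥ 2`, `s = a r2 = b r3`,
`r2 + r3 = v + 3 = s / 2 + 2`: `1/a + 1/b = 1/2 + 2/s`.  `a = 2`: `b = s / 2`.  `a = 3`: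
`1/b = 1/6 + 2/s`, so `b ≤ 5`, `b = 4`: `s = 24`, `b = 5`: `s = 60`.  `a ≥ 4`: `1/4 + 1/5 < 1/2`. -/
theorem numC1 {L2 L3 : Multiset ℕ} {s v : ℕ} (hs : 22 ≤ s) (hsv : s = 2 * v + 2)
    (h2 : ∀ e ∈ L2, 1 ≤ e) (h3 : ∀ e ∈ L3, 1 ≤ e) (hs2 : L2.sum = s) (hs3 : L3.sum = s)
    (hl2 : card L2 < s) (hl3 : card L3 < s) (hr : card L2 + card L3 = v + 3)
    (h23 : card L3 ≤ card L2) (hw : wt L2 + wt L3 ≤ 2)
    (hG : ∀ d, 2 ≤ d → ¬ (DD d L2 ∧ DD d L3)) :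
    (DD 2 L2 ∧ ∃ k, 2 ≤ k ∧ DD k L3 ∧ s = 2 * k) ∨ (s = 24 ∧ DD 3 L2 ∧ DD 4 L3) ∨
      (s = 60 ∧ DD 3 L2 ∧ DD 5 L3) := by
  have hw2 : wt L2 ≤ 4 := by omega
  have hw3 : wt L3 ≤ 4 := by omega
  obtain ⟨a, ha, hsa, hDa, hc2⟩ := NumB2_hom hs h2 hs2 hl2 hw2
  obtain ⟨b, hb, hsb, hDb, hc3⟩ := NumB2_hom hs h3 hs3 hl3 hw3
  have hab := NumB2_le hsa hsb h23 hc3
  have hne : a ≠ b := by
    intro h
    subst h
    exact hG a ha ⟨hDa, hDb⟩
  generalize card L2 = r2 at *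
  generalize card L3 = r3 at *
  rcases Nat.lt_or_ge a 3 with h | h
  · have h' : a = 2 := by omega
    subst h'
    refine Or.inl ⟨hDa, b, hb, hDb, ?_⟩
    have : r3 = 2 := by omega
    subst this
    omega
  · rcases Nat.lt_or_ge a 4 with h4 | h4
    · have h' : a = 3 := by omega
      subst h'
      have hb6 : b < 6 := by
        by_contra hcon
        push Not at hcon
        have : 6 * r3 ≤ b * r3 := Nat.mul_le_mul_right r3 hcon
        omega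
      have hb4 : b = 4 ∨ b = 5 := by omega
      rcases hb4 with h | h
      · subst h
        exact Or.inr (Or.inl ⟨by omega, hDa, hDb⟩)
      · subst h
        exact Or.inr (Or.inr ⟨by omega, hDa, hDb⟩)
    · exfalso
      have e1 : 4 * r2 ≤ a * r2 := Nat.mul_le_mul_right r2 h4
      have e2 : 4 * r3 ≤ b * r3 := Nat.mul_le_mul_right r3 (by omega)
      omega

/-- First fibre `[2 ^ v, 4]`.

Proof.  Homogeneous as before, odd parts `a < b` coprime, `1/a + 1/b = 1/2 + 4/s`: `a = 3`, `b = 5`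
(`1/3 + 1/7 < 1/2`, `1/5 + 1/7 < 1/2`). -/
theorem numC4 {L2 L3 : Multiset ℕ} {s v : ℕ} (hs : 22 ≤ s) (hsv : s = 2 * v + 4)
    (h2 : ∀ e ∈ L2, 1 ≤ e) (h3 : ∀ e ∈ L3, 1 ≤ e) (hs2 : L2.sum = s) (hs3 : L3.sum = s)
    (hl2 : card L2 < s) (hl3 : card L3 < s) (hr : card L2 + card L3 = v + 6)
    (h23 : card L3 ≤ card L2) (hw : wt L2 + wt L3 ≤ 4) (hd2 : ¬ DD 2 L2) (hd3 : ¬ DD 2 L3)
    (hG : ∀ d, 2 ≤ d → ¬ (DD d L2 ∧ DD d L3)) : DD 3 L2 ∧ DD 5 L3 := by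
  have hw2 : wt L2 ≤ 4 := by omega
  have hw3 : wt L3 ≤ 4 := by omega
  obtain ⟨a, ha, hsa, hDa, hc2⟩ := NumB2_hom hs h2 hs2 hl2 hw2
  obtain ⟨b, hb, hsb, hDb, hc3⟩ := NumB2_hom hs h3 hs3 hl3 hw3
  have hab := NumB2_le hsa hsb h23 hc3
  have hne : a ≠ b := by
    intro h
    subst h
    exact hG a ha ⟨hDa, hDb⟩
  have ha2 : ¬ 2 ∣ a := fun h => hd2 (NumB2_dd hDa h)
  have hb2 : ¬ 2 ∣ b := fun h => hd3 (NumB2_dd hDb h)
  generalize card L2 = r2 at *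
  generalize card L3 = r3 at *
  rcases Nat.lt_or_ge a 4 with h4 | h4
  · have h' : a = 3 := by omega
    subst h'
    have hb6 : b < 6 := by
      by_contra hcon
      push Not at hcon
      have : 6 * r3 ≤ b * r3 := Nat.mul_le_mul_right r3 hcon
      omega
    have hb5 : b = 5 := by omega
    subst hb5
    exact ⟨hDa, hDb⟩
  · exfalso
    have e1 : 4 * r2 ≤ a * r2 := Nat.mul_le_mul_right r2 h4
    have e2 : 4 * r3 ≤ b * r3 := Nat.mul_le_mul_right r3 (by omega)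
    omega

end WildV
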