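import Pool.Agent.helper21.WV.NumDefs

/-! Numerical classification, `s ≥ 22`, three fibres: first fibre `[2, .., 2, 1]`. -/

namespace WildV

open Multiset

/-- a homogeneous partition of an odd number which is not trivial -/
theorem NumB3_hom {L : Multiset ℕ} {s v d : ℕ} (hsv : s = 2 * v + 1) (hs : L.sum = s)
    (hl : card L < s) (h : L = replicate (card L) d) :
    s = card L * d ∧ 3 ≤ d ∧ Odd d ∧ DD d L := by
  have h1 : s = card L * d := by
    rw [← hs]
    conv_lhs => rw [h]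
    rw [sum_replicate, smul_eq_mul]
  have hodd : Odd s := ⟨v, hsv⟩
  have h2 : Odd d := by
    rw [h1] at hodd
    exact (Nat.odd_mul.1 hodd).2
  have h3 : d ≠ 1 := by
    intro h3
    rw [h3, mul_one] at h1
    omega
  obtain ⟨k, hk⟩ := h2
  refine ⟨h1, by omega, ⟨k, hk⟩, ?_⟩
  intro e he
  rw [h] at he
  rw [eq_of_mem_replicate he]

theorem NumB3_mixed {L M : Multiset ℕ} {s v d : ℕ} (hs : 22 ≤ s) (hsv : s = 2 * v + 1)
    (hM : ∀ e ∈ M, 1 ≤ e) (hs1 : L.sum = s) (hs2 : M.sum = s) (hl1 : card L < s)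
    (hr : card L + card M = v + 3) (hw : wt M ≤ v + 1) (hL : L = replicate (card L) d)
    (hn : ∀ d, M ≠ replicate (card M) d) : False := by
  obtain ⟨h1, h2, -, -⟩ := NumB3_hom hsv hs1 hl1 hL
  have h3 : 3 * card L ≤ s := by
    rw [h1]
    nlinarith
  obtain ⟨r, hr'⟩ : ∃ r, card M = r := ⟨_, rfl⟩
  rw [hr'] at hr
  have h7 : 7 ≤ r := by omega
  rcases lemD hM hs2 hr' h7 (by omega) with ⟨e, -, h4, -⟩ | ⟨y, k, hy, hk, -, h5, h6⟩ |
    ⟨g, q, hg, hq, -, h5, h6⟩ | ⟨y, -, -, h5, -⟩
  · exact hn e (by rw [hr']; exact h4)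
  · obtain ⟨m, rfl⟩ : ∃ m, r = m + 1 := ⟨r - 1, by omega⟩
    rw [Nat.add_sub_cancel] at h5 h6
    rw [h6] at hw
    obtain ⟨j, rfl⟩ : ∃ j, k = j + 2 := ⟨k - 2, by omega⟩
    have h8 : y * (j + 2) - y = y * (j + 1) := by
      have : y * (j + 2) = y * (j + 1) + y := by ring
      omega
    rw [h8] at hw
    have h9 : 2 * (m * (y * (j + 1))) ≤ y * (j + 2) * m + y + 1 := by omega
    have h10 : m * y * j ≤ y + 1 := by nlinarith
    have hj : j = 0 := by
      by_contra hj
      have hj1 : 1 ≤ j := Nat.one_le_iff_ne_zero.2 hj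
      have : m * y * 1 ≤ m * y * j := Nat.mul_le_mul_left _ hj1
      nlinarith
    subst hj
    have h11 : s = y * (2 * m + 1) := by
      rw [h5]
      ring
    have hyodd : Odd y := by
      have hodd : Odd s := ⟨v, hsv⟩
      rw [h11] at hodd
      exact (Nat.odd_mul.1 hodd).1
    obtain ⟨c, hc⟩ := hyodd
    rcases Nat.eq_zero_or_pos c with h0 | h0
    · have hy1 : y = 1 := by omega
      rw [hy1, one_mul] at h11
      have h12 : card L = 2 := by omega
      rw [h12] at h1
      omega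
    · have hy3 : 3 ≤ y := by omega
      have h12 : 3 * (2 * m + 1) ≤ s := by
        rw [h11]
        exact Nat.mul_le_mul_right _ hy3
      omega
  · obtain ⟨m, rfl⟩ : ∃ m, r = m + 1 := ⟨r - 1, by omega⟩
    rw [Nat.add_sub_cancel] at h5 h6
    rw [h6] at hw
    obtain ⟨c, hc⟩ := hq
    have h9 : 2 * (m * (g * q)) ≤ g * q * m + 2 * g + 1 := by omega
    have h10 : m * (g * q) ≤ 2 * g + 1 := by nlinarith
    have h11 : g ≤ g * q := Nat.le_mul_of_pos_right g (by omega)
    have h12 : 6 * (g * q) ≤ m * (g * q) := Nat.mul_le_mul_right _ (by omega)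
    omega
  · have h8 : s = 2 * (y * (r - 1)) := by
      rw [h5]
      ring
    omega

/-- First fibre `[2 ^ v, 1]`.

Proof.  `s` is odd.  Both homogeneous: odd coprime parts `a < b`, `1/a + 1/b = 1/2 + 5/(2 s)`, so
`a = 3`, `b = 5` (`10/21 < 1/2`).  Both nonhomogeneous: `wt_nonhom` gives weight more than `v + 1`.
Exactly one homogeneous, parts `d`, odd, `≥ 3`; the other one, `M`, has
`card M = v + 3 - s / d ≥ (s + 5) / 2 - s / 3 > 6`, so `lemD` applies to `M` with weight `≤ v + 1`: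
- case `2 g`: weight `s - 2 g ≤ (s + 1) / 2` but `s ≥ 6 g q + 2 g ≥ 8 g`: impossible;
- case `y, y`: weight `s - 2 y ≤ (s + 1) / 2`, `s ≥ 12 y`: impossible;
- case `y ∣ y k`: weight `(r - 1) y (k - 1) ≤ (s + 1) / 2` with `s = y k (r - 1) + y`, `r ≥ 7`:
  `k ≥ 3` is impossible; `k = 2`: `s = y (2 r - 1)`, `y` odd (as `s` is odd), and
  `card M + s / d = (s + 5) / 2` becomes `1/y + 2/d = 1 + 4/s`: `y = 1` gives `d = s / 2`, impossible for
  odd `s`; `y ≥ 3`, `d ≥ 3` gives `1/y + 2/d ≤ 1`: impossible. -/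
theorem numC2 {L2 L3 : Multiset ℕ} {s v : ℕ} (hs : 22 ≤ s) (hsv : s = 2 * v + 1)
    (h2 : ∀ e ∈ L2, 1 ≤ e) (h3 : ∀ e ∈ L3, 1 ≤ e) (hs2 : L2.sum = s) (hs3 : L3.sum = s)
    (hl2 : card L2 < s) (hl3 : card L3 < s) (hr : card L2 + card L3 = v + 3)
    (h23 : card L3 ≤ card L2) (hw : wt L2 + wt L3 ≤ v + 1)
    (hG : ∀ d, 2 ≤ d → ¬ (DD d L2 ∧ DD d L3)) : DD 3 L2 ∧ DD 5 L3 := by
  by_cases hom2 : ∃ d, L2 = replicate (card L2) d
  · obtain ⟨a, ha⟩ := hom2
    by_cases hom3 : ∃ d, L3 = replicate (card L3) d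
    · obtain ⟨b, hb⟩ := hom3
      obtain ⟨a1, a2, ⟨i, hi⟩, a4⟩ := NumB3_hom hsv hs2 hl2 ha
      obtain ⟨b1, b2, ⟨j, hj⟩, b4⟩ := NumB3_hom hsv hs3 hl3 hb
      have hcop : ∀ d, 2 ≤ d → d ∣ a → d ∣ b → False := by
        intro d hd hda hdb
        exact hG d hd ⟨fun e he => hda.trans (a4 e he), fun e he => hdb.trans (b4 e he)⟩
      have hab : a ≤ b := by
        by_contra hlt
        push Not at hlt
        have hc : 0 < card L3 := by
          rcases Nat.eq_zero_or_pos (card L3) with h0 | h0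
          · rw [h0, zero_mul] at b1
            omega
          · exact h0
        have h1 : card L3 * b < card L2 * a := by
          calc card L3 * b < card L3 * a := Nat.mul_lt_mul_of_pos_left hlt hc
            _ ≤ card L2 * a := Nat.mul_le_mul_right _ h23
        omega
      have ha3 : a = 3 := by
        by_contra hne
        have h5 : 5 ≤ a := by omega
        have h6 : 5 * card L2 ≤ s := by
          rw [a1]
          nlinarith
        have h7 : 5 * card L3 ≤ s := by
          rw [b1]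
          nlinarith
        omega
      have hb5 : b = 5 := by
        by_contra hne
        have hb3 : b ≠ 3 := by
          intro h3
          exact hcop 3 (by norm_num) (by rw [ha3]) (by rw [h3])
        have h7 : 7 ≤ b := by omega
        have h8 : 7 * card L3 ≤ s := by
          rw [b1]
          nlinarith
        rw [ha3] at a1
        omega
      rw [ha3] at a4
      rw [hb5] at b4
      exact ⟨a4, b4⟩
    · push Not at hom3
      exact (NumB3_mixed hs hsv h3 hs2 hs3 hl2 hr (by omega) ha hom3).elim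
  · push Not at hom2
    by_cases hom3 : ∃ d, L3 = replicate (card L3) d
    · obtain ⟨b, hb⟩ := hom3
      exact (NumB3_mixed hs hsv h2 hs3 hs2 hl3 (by omega) (by omega) hb hom2).elim
    · push Not at hom3
      have h4 := wt_nonhom h2 hom2
      have h5 := wt_nonhom h3 hom3
      omega

end WildV
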