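import Pool.Agent.helper21.WV.NumB1

/-! Numerical classification, `s ≥ 22`, three fibres, the first one `[2, .., 2]`. -/

namespace WildV

open Multiset

/-- Divisibility of the parts of a homogeneous partition. -/
private theorem NumC_dd_mul {L : Multiset ℕ} {a d : ℕ} (h : DD d L) (had : a ∣ d) : DD a L :=
  fun e he => had.trans (h e he)

private theorem NumC_five {L : Multiset ℕ} {s c d k : ℕ} (hk : 1 ≤ k) (hsd : s = d * c)
    (h6 : 6 * c = s + k) (hk5 : s = 6 * c - k) (h1 : 5 * s ≠ k) (hd1 : 1 ≤ d) (hdd : DD d L)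
    (h2 : ¬ DD 2 L) (h3 : d ≠ 3) : DD 5 L := by
  have hc : 1 ≤ c := by omega
  have hd5 : d ≤ 5 := by
    by_contra hcon
    have h7 : 6 * c ≤ d * c := Nat.mul_le_mul_right c (by omega)
    omega
  interval_cases d
  · omega
  · exact absurd hdd h2
  · exact absurd rfl h3
  · exact absurd (NumC_dd_mul hdd (by norm_num)) h2
  · exact hdd

/-- Second fibre `[1, 3 ^ u]`.  Proof: `wt L3 ≤ s - 2 u = (s + 2) / 3` and `card L3 = s / 6 + 7 / 3 ≥ 6`, so
`wt_nonhom` shows that `L3` is homogeneous: parts `d`, `d (s + 14) = 6 s`, `d ≤ 5`; `d` odd and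
`d ≠ 3` (`3 ∤ s`), `d ≠ 1` (`card L3 < s`), so `d = 5`. -/
theorem numC3i {L3 : Multiset ℕ} {s u v : ℕ} (hs : 22 ≤ s) (hsv : s = 2 * v) (hsu : s = 3 * u + 1)
    (h3 : ∀ e ∈ L3, 1 ≤ e) (hs3 : L3.sum = s) (hr : (u + 1) + card L3 = v + 3)
    (hw : 2 * u + wt L3 ≤ s) (hd3 : ¬ DD 2 L3) : DD 5 L3 := by
  have hc : 6 * card L3 = s + 14 := by omega
  obtain ⟨d, hd1, -, hsd, hdd⟩ := hom_of_small h3 hs3 (by omega) (by omega)
  have hd3' : d ≠ 3 := by
    rintro rfl
    omega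
  exact NumC_five (k := 14) (by omega) hsd hc (by omega) (by omega) hd1 hdd hd3 hd3'

/-- Second fibre `[2, 3 ^ u]`.  Proof: `wt L3 ≤ 2`, homogeneous (`hom_of_small`), parts `d`,
`d (s + 16) = 6 s`, `d ≤ 5`, odd, `3 ∤ s`: `d = 5`. -/
theorem numC3ii {L3 : Multiset ℕ} {s u v : ℕ} (hs : 22 ≤ s) (hsv : s = 2 * v)
    (hsu : s = 3 * u + 2) (h3 : ∀ e ∈ L3, 1 ≤ e) (hs3 : L3.sum = s)
    (hr : (u + 1) + card L3 = v + 3) (hw : 3 * u + wt L3 ≤ s) (hd3 : ¬ DD 2 L3) : DD 5 L3 := by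
  have hc : 6 * card L3 = s + 16 := by omega
  obtain ⟨d, hd1, -, hsd, hdd⟩ := hom_of_small h3 hs3 (by omega) (by omega)
  have hd3' : d ≠ 3 := by
    rintro rfl
    omega
  exact NumC_five (k := 16) (by omega) hsd hc (by omega) (by omega) hd1 hdd hd3 hd3'

/-- Second fibre `[6, 3 ^ u]`.  Proof: `wt L3 ≤ 6`, homogeneous (`hom_of_small`, `s ≥ 22`), parts `d`,
`d (s + 24) = 6 s`, `d ≤ 5`, odd, `d ≠ 3` by `hd'`: `d = 5`. -/
theorem numC3iv {L3 : Multiset ℕ} {s u v : ℕ} (hs : 22 ≤ s) (hsv : s = 2 * v)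
    (hsu : s = 3 * u + 6) (h3 : ∀ e ∈ L3, 1 ≤ e) (hs3 : L3.sum = s)
    (hr : (u + 1) + card L3 = v + 3) (hw : 3 * u + wt L3 ≤ s) (hd3 : ¬ DD 2 L3)
    (hd' : ¬ DD 3 L3) : DD 5 L3 := by
  have hc : 6 * card L3 = s + 24 := by omega
  obtain ⟨d, hd1, -, hsd, hdd⟩ := hom_of_small h3 hs3 (by omega) (by omega)
  have hd3' : d ≠ 3 := by
    rintro rfl
    exact hd' hdd
  exact NumC_five (k := 24) (by omega) hsd hc (by omega) (by omega) hd1 hdd hd3 hd3'

/-- Second fibre `[3 ^ u]`.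

Proof.  `6 ∣ s`, so `s ≥ 24`, `r = card L3 = s / 6 + 3 ≥ 7`, `s = 6 r - 18`, and `lemD` applies.
- `[d ^ r]`: `d r = 6 r - 18`, `d ≤ 5`, not divisible by `2`, `3`, `d ≠ 1` (`r ≤ 3` otherwise):
  `d = 5`: `DD 5`.
- `[y, (y k) ^ (r - 1)]`, `k ≥ 2`: `L3` is divisible by `y`, so `2 ∤ y`, `3 ∤ y`.
  `(6 - y k) (r - 1) = 12 + y` (integers), so `y k ≤ 5`, hence `y = 1` (`y = 5` would give `k < 2`),
  `(6 - k) (r - 1) = 13`: `k = 5`, `r = 14`: `AD 5`.
- `[2 g, (g q) ^ (r - 1)]`, `q` odd: `L3` is divisible by `g`, so `2 ∤ g`, `3 ∤ g`.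
  `(6 - g q) (r - 1) = 12 + 2 g`, `g q ≤ 5`, odd: `g q = 5` (`AD 5`), or `g q = 3`: `g = 1`,
  `3 (r - 1) = 14`, no; `g q = 1`: `5 (r - 1) = 14`, no.
- `[y, y, (2 y) ^ (r - 2)]`: divisible by `y`, so `y` is odd and not divisible by three;
  `(6 - 2 y) (r - 1) = 12`, `y = 1`: `r = 4`, no; `y = 2` excluded. -/
theorem numC3iii {L3 : Multiset ℕ} {s u v : ℕ} (hs : 22 ≤ s) (hsv : s = 2 * v)
    (hsu : s = 3 * u) (h3 : ∀ e ∈ L3, 1 ≤ e) (hs3 : L3.sum = s)
    (hr : u + card L3 = v + 3) (hw : wt L3 ≤ s) (hd3 : ¬ DD 2 L3) (hd' : ¬ DD 3 L3) :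
    AD 5 L3 := by
  have hc : 6 * card L3 = s + 18 := by omega
  have h7 : 7 ≤ card L3 := by omega
  obtain ⟨R, hR⟩ : ∃ R, card L3 = R + 1 := ⟨card L3 - 1, by omega⟩
  have hR1 : card L3 - 1 = R := by omega
  have hsR : s + 12 = 6 * R := by omega
  have hR6 : 6 ≤ R := by omega
  rcases lemD h3 hs3 rfl h7 hw with ⟨d, hd1, hL, hsd, -⟩ | ⟨y, k, hy, hk, hL, hsy, -⟩ |
    ⟨g, q, hg, hq, hL, hsg, -⟩ | ⟨y, hy, hL, hsy, -⟩
  · have hdd : DD d L3 := by
      intro e he
      rw [hL] at he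
      rw [eq_of_mem_replicate he]
    have hd3' : d ≠ 3 := by
      rintro rfl
      exact hd' hdd
    have h5 : DD 5 L3 :=
      NumC_five (k := 18) (by omega) hsd hc (by omega) (by omega) hd1 hdd hd3 hd3'
    rw [hR, replicate_succ] at hL
    refine ⟨d, replicate R d, hL, fun e he => h5 e ?_⟩
    rw [hL]
    exact mem_cons_of_mem he
  · rw [hR1] at hL hsy
    have hyk : y * k ≤ 5 := by
      by_contra hcon
      have h8 : 6 * R ≤ y * k * R := Nat.mul_le_mul_right R (by omega)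
      omega
    have hdy : DD y L3 := by
      intro e he
      rw [hL] at he
      rcases mem_cons.1 he with h8 | h8
      · rw [h8]
      · rw [eq_of_mem_replicate h8]
        exact dvd_mul_right _ _
    have hy2 : y ≤ 2 := by nlinarith
    have hy1 : y = 1 := by
      rcases Nat.lt_or_ge y 2 with h8 | h8
      · omega
      · have h9 : y = 2 := by omega
        rw [h9] at hdy
        exact absurd hdy hd3
    subst hy1
    rw [one_mul] at hyk hsy hL
    have hk5 : k = 5 := by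
      interval_cases k
      · omega
      · omega
      · omega
      · rfl
    refine ⟨1, replicate R k, hL, fun e he => ?_⟩
    rw [eq_of_mem_replicate he, hk5]
  · rw [hR1] at hL hsg
    have hgq : g * q ≤ 5 := by
      by_contra hcon
      have h8 : 6 * R ≤ g * q * R := Nat.mul_le_mul_right R (by omega)
      omega
    have hdg : DD g L3 := by
      intro e he
      rw [hL] at he
      rcases mem_cons.1 he with h8 | h8
      · rw [h8]
        exact dvd_mul_left _ _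
      · rw [eq_of_mem_replicate h8]
        exact dvd_mul_right _ _
    have hq1 : 1 ≤ q := hq.pos
    have hg5 : g ≤ 5 := le_trans (Nat.le_mul_of_pos_right g hq1) hgq
    have hq5 : q ≤ 5 := le_trans (Nat.le_mul_of_pos_left q hg) hgq
    have hfin : 5 ∣ g * q := by
      interval_cases g
      · rw [one_mul] at hsg ⊢
        interval_cases q
        · omega
        · exact absurd hq (by decide)
        · omega
        · exact absurd hq (by decide)
        · rfl
      · exact absurd hdg hd3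
      · exact absurd hdg hd'
      · exact absurd (NumC_dd_mul hdg (by norm_num)) hd3
      · exact dvd_mul_right _ _
    refine ⟨2 * g, replicate R (g * q), hL, fun e he => ?_⟩
    rw [eq_of_mem_replicate he]
    exact hfin
  · rw [hR1] at hsy
    have hy2 : y ≤ 2 := by
      by_contra hcon
      have h8 : 6 * R ≤ 2 * y * R := Nat.mul_le_mul_right R (by omega)
      omega
    have hdy : DD y L3 := by
      intro e he
      rw [hL] at he
      rcases mem_cons.1 he with h8 | h8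
      · rw [h8]
      · rcases mem_cons.1 h8 with h9 | h9
        · rw [h9]
        · rw [eq_of_mem_replicate h9]
          exact dvd_mul_left _ _
    interval_cases y
    · omega
    · exact absurd hdy hd3

/-- First fibre `[2 ^ v]`.  Proof: `card L2 ≥ (v + 3) / 2`, `numL2`, and the four lemmas above. -/
theorem numC3 {L2 L3 : Multiset ℕ} {s v : ℕ} (hs : 22 ≤ s) (hsv : s = 2 * v)
    (h2 : ∀ e ∈ L2, 1 ≤ e) (h3 : ∀ e ∈ L3, 1 ≤ e) (hs2 : L2.sum = s) (hs3 : L3.sum = s)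
    (hr : card L2 + card L3 = v + 3) (h23 : card L3 ≤ card L2) (h12 : card L2 ≤ v)
    (hw : wt L2 + wt L3 ≤ s) (hd2 : ¬ DD 2 L2) (hd3 : ¬ DD 2 L3)
    (hG : ∀ d, 2 ≤ d → ¬ (DD d L2 ∧ DD d L3)) :
    (DD 3 L2 ∧ AD 5 L3) ∨ (AD 3 L2 ∧ DD 5 L3) := by
  rcases numL2 hs ⟨v, by omega⟩ h2 hs2 hd2 (by omega) (by omega) (by omega) with
    ⟨u, hu, hL, hwt⟩ | ⟨u, hu, hL, hwt⟩ | ⟨u, hu, hL, hwt⟩ | ⟨u, hu, hL, hwt⟩
  · have hcard : card L2 = u := by rw [hL, card_replicate]
    have hdd : DD 3 L2 := by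
      intro e he
      rw [hL] at he
      rw [eq_of_mem_replicate he]
    have hd' : ¬ DD 3 L3 := fun h => hG 3 (by norm_num) ⟨hdd, h⟩
    exact Or.inl ⟨hdd, numC3iii hs hsv hu h3 hs3 (by omega) (by omega) hd3 hd'⟩
  · have hcard : card L2 = u + 1 := by rw [hL, card_cons, card_replicate]
    have had : AD 3 L2 := ⟨1, replicate u 3, hL, fun e he => by rw [eq_of_mem_replicate he]⟩
    exact Or.inr ⟨had, numC3i hs hsv hu h3 hs3 (by omega) (by omega) hd3⟩
  · have hcard : card L2 = u + 1 := by rw [hL, card_cons, card_replicate]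
    have had : AD 3 L2 := ⟨2, replicate u 3, hL, fun e he => by rw [eq_of_mem_replicate he]⟩
    exact Or.inr ⟨had, numC3ii hs hsv hu h3 hs3 (by omega) (by omega) hd3⟩
  · have hcard : card L2 = u + 1 := by rw [hL, card_cons, card_replicate]
    have had : AD 3 L2 := ⟨6, replicate u 3, hL, fun e he => by rw [eq_of_mem_replicate he]⟩
    have hdd : DD 3 L2 := by
      intro e he
      rw [hL] at he
      rcases mem_cons.1 he with h8 | h8
      · rw [h8]
        norm_num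
      · rw [eq_of_mem_replicate h8]
    have hd' : ¬ DD 3 L3 := fun h => hG 3 (by norm_num) ⟨hdd, h⟩
    exact Or.inr ⟨had, numC3iv hs hsv hu h3 hs3 (by omega) (by omega) hd3 hd'⟩

end WildV
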