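import Pool.Agent.helper21.WV.NumA1
import Pool.Agent.helper21.WV.NumA2
import Pool.Agent.helper21.WV.NumB2
import Pool.Agent.helper21.WV.NumB3
import Pool.Agent.helper21.WV.NumC

/-! Numerical classification, `s ≥ 22`. -/

namespace WildV

open Multiset

/-- Three fibres in the order of the number of parts.

Proof.  `3 card L1 ≥ s + 3`, so `numL1` applies.  In each of its cases the hypotheses for `L2`, `L3` of
`numC3`, `numC2`, `numC4`, `numC1` follow (`card L1 = v, v + 1, v + 1, v + 2`; if `DD 2 L1`, then `hG12`,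
`hG13` give `¬ DD 2 L2`, `¬ DD 2 L3`).  `[2 ^ v]` and `[4, 2 ^ v]` satisfy `DD 2`; `[1, 2 ^ v]` satisfies
`AD 2`; `DD` implies `AD` for nonempty partitions. -/
theorem numThree {L1 L2 L3 : Multiset ℕ} {s : ℕ} (hs : 22 ≤ s)
    (h1 : ∀ e ∈ L1, 1 ≤ e) (h2 : ∀ e ∈ L2, 1 ≤ e) (h3 : ∀ e ∈ L3, 1 ≤ e)
    (hs1 : L1.sum = s) (hs2 : L2.sum = s) (hs3 : L3.sum = s)
    (hl1 : card L1 < s) (hl2 : card L2 < s) (hl3 : card L3 < s)
    (hn1 : L1 ≠ 2 ::ₘ replicate (s - 2) 1)
    (hr : card L1 + card L2 + card L3 = s + 3) (h12 : card L2 ≤ card L1)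
    (h23 : card L3 ≤ card L2) (hw : wt L1 + wt L2 + wt L3 ≤ s)
    (hG12 : ∀ d, 2 ≤ d → ¬ (DD d L1 ∧ DD d L2)) (hG13 : ∀ d, 2 ≤ d → ¬ (DD d L1 ∧ DD d L3))
    (hG23 : ∀ d, 2 ≤ d → ¬ (DD d L2 ∧ DD d L3)) :
    Exc0 L1 L2 L3 ∨ Exc2 L1 L2 L3 s := by
  have hrep : ∀ v : ℕ, ∀ e ∈ replicate v 2, 2 ∣ e := by
    intro v e he
    rw [eq_of_mem_replicate he]
  rcases numL1 hs h1 hs1 hl1 hn1 (by omega) (by omega) with ⟨v, hv, hL, hwt⟩ | ⟨v, hv, hL, hwt⟩ |
    ⟨v, hv, hL, hwt⟩ | ⟨v, hv, hL, hwt⟩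
  · have hc : card L1 = v := by rw [hL, card_replicate]
    have hD : DD 2 L1 := by
      rw [hL]
      exact hrep v
    have hd2 : ¬ DD 2 L2 := fun h => hG12 2 le_rfl ⟨hD, h⟩
    have hd3 : ¬ DD 2 L3 := fun h => hG13 2 le_rfl ⟨hD, h⟩
    rcases numC3 hs hv h2 h3 hs2 hs3 (by omega) h23 (by omega) (by omega) hd2 hd3 hG23 with h | h
    · exact Or.inl (Or.inr (Or.inr ⟨hD, h.1, h.2⟩))
    · exact Or.inl (Or.inr (Or.inl ⟨hD, h.1, h.2⟩))
  · have hc : card L1 = v + 1 := by rw [hL, card_cons, card_replicate]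
    have h := numC2 hs hv h2 h3 hs2 hs3 hl2 hl3 (by omega) h23 (by omega) hG23
    exact Or.inl (Or.inl ⟨⟨1, replicate v 2, hL, hrep v⟩, h.1, h.2⟩)
  · have hc : card L1 = v + 1 := by rw [hL, card_cons, card_replicate]
    have hD : DD 2 L1 := by
      intro e he
      rw [hL] at he
      rcases mem_cons.1 he with h | h
      · rw [h]
        norm_num
      · exact hrep v e h
    have hd2 : ¬ DD 2 L2 := fun h => hG12 2 le_rfl ⟨hD, h⟩
    have hd3 : ¬ DD 2 L3 := fun h => hG13 2 le_rfl ⟨hD, h⟩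
    have h := numC4 hs hv h2 h3 hs2 hs3 hl2 hl3 (by omega) h23 (by omega) hd2 hd3 hG23
    exact Or.inl (Or.inl ⟨⟨4, replicate v 2, hL, hrep v⟩, h.1, h.2⟩)
  · have hc : card L1 = v + 2 := by rw [hL, card_cons, card_cons, card_replicate]
    have h := numC1 hs hv h2 h3 hs2 hs3 hl2 hl3 (by omega) h23 (by omega) hG23
    exact Or.inr ⟨⟨replicate v 2, hL, hrep v⟩, h⟩

theorem NumD_sorted {ι : Type} [DecidableEq ι] {T : Finset ι} {L : ι → Multiset ℕ} {s : ℕ}
    (h : NumHyp T L s) (hs : 22 ≤ s) (h2 : ∀ c ∈ T, L c ≠ 2 ::ₘ replicate (s - 2) 1)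
    {a b c : ι} (hab : a ≠ b) (hac : a ≠ c) (hbc : b ≠ c) (hT : T = {a, b, c})
    (h12 : card (L b) ≤ card (L a)) (h23 : card (L c) ≤ card (L b)) : NumConcl T L s := by
  have ha : a ∈ T := by rw [hT]; simp
  have hb : b ∈ T := by rw [hT]; simp
  have hc : c ∈ T := by rw [hT]; simp
  have hrh := h.rh
  have hw := h.wt
  rw [hT, Finset.sum_insert (by simp [hab, hac]), Finset.sum_pair hbc] at hrh hw
  have la := h.lt a ha
  have lb := h.lt b hb
  have lc := h.lt c hc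
  have key := numThree hs (h.pos a ha) (h.pos b hb) (h.pos c hc) (h.sum a ha) (h.sum b hb)
    (h.sum c hc) la lb lc (h2 a ha) (by omega) h12 h23 (by omega) (h.gcd a ha b hb hab)
    (h.gcd a ha c hc hac) (h.gcd b hb c hc hbc)
  exact Or.inr (Or.inr (Or.inr (Or.inr (Or.inr (Or.inr
    ⟨a, ha, b, hb, c, hc, hab, hac, hbc, key⟩)))))

/-- Proof: if some `L c0` is simple, `numA`.  Otherwise `numCard`; `numTwo`; for three fibres sort them
by the number of parts and use `numThree`. -/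
theorem numeric_large {ι : Type} [DecidableEq ι] {T : Finset ι} {L : ι → Multiset ℕ} {s : ℕ}
    (h : NumHyp T L s) (hs : 22 ≤ s) : NumConcl T L s := by
  by_cases hA : ∃ c0 ∈ T, L c0 = 2 ::ₘ replicate (s - 2) 1
  · obtain ⟨c0, hc0, h0⟩ := hA
    exact numA h hs hc0 h0
  · have h2 : ∀ c ∈ T, L c ≠ 2 ::ₘ replicate (s - 2) 1 := fun c hc h0 => hA ⟨c, hc, h0⟩
    rcases numCard h hs h2 with hcard | hcard
    · exact numTwo h (by omega) hcard
    · obtain ⟨a, b, c, hab, hac, hbc, hT⟩ := Finset.card_eq_three.1 hcard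
      rcases le_total (card (L b)) (card (L a)) with e1 | e1 <;>
        rcases le_total (card (L c)) (card (L b)) with e2 | e2 <;>
        rcases le_total (card (L c)) (card (L a)) with e3 | e3
      · exact NumD_sorted h hs h2 hab hac hbc hT e1 e2
      · exact NumD_sorted h hs h2 hab hac hbc hT e1 e2
      · exact NumD_sorted h hs h2 hac hab hbc.symm (by rw [hT]; ext x; simp; tauto) e3 e2
      · exact NumD_sorted h hs h2 hac.symm hbc.symm hab (by rw [hT]; ext x; simp; tauto) e3 e1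
      · exact NumD_sorted h hs h2 hab.symm hbc hac (by rw [hT]; ext x; simp; tauto) e1 e3
      · exact NumD_sorted h hs h2 hbc hab.symm hac.symm (by rw [hT]; ext x; simp; tauto) e2 e3
      · exact NumD_sorted h hs h2 hbc.symm hac.symm hab.symm (by rw [hT]; ext x; simp; tauto)
          e2 e1
      · exact NumD_sorted h hs h2 hbc.symm hac.symm hab.symm (by rw [hT]; ext x; simp; tauto)
          e2 e1

end WildV
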