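import Pool.Agent.helper21.WV.LemD

/-! The conclusion of the numerical classification. -/

namespace WildV

open Multiset

/-- One defect at most, type `(2, 3, 5)`. -/
def Exc0 (L1 L2 L3 : Multiset ℕ) : Prop :=
  (AD 2 L1 ∧ DD 3 L2 ∧ DD 5 L3) ∨ (DD 2 L1 ∧ AD 3 L2 ∧ DD 5 L3) ∨ (DD 2 L1 ∧ DD 3 L2 ∧ AD 5 L3)

/-- Two parts `1` in the first partition, all other parts divisible; `s` is the order of the
rotation group. -/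
def Exc2 (L1 L2 L3 : Multiset ℕ) (s : ℕ) : Prop :=
  (∃ L', L1 = 1 ::ₘ 1 ::ₘ L' ∧ DD 2 L') ∧
    ((DD 2 L2 ∧ ∃ k, 2 ≤ k ∧ DD k L3 ∧ s = 2 * k) ∨ (s = 24 ∧ DD 3 L2 ∧ DD 4 L3) ∨
      (s = 60 ∧ DD 3 L2 ∧ DD 5 L3))

/-- The result of the numerical classification. -/
def NumConcl {ι : Type} (T : Finset ι) (L : ι → Multiset ℕ) (s : ℕ) : Prop :=
  (∃ c ∈ T, ∃ c' ∈ T, card (L c) = 1 ∧ card (L c') = 2) ∨
  (s = 4 ∧ ∃ c ∈ T, L c = {4}) ∨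
  (s = 4 ∧ ∃ c ∈ T, ∃ c' ∈ T, L c = {2, 2} ∧ L c' = {3, 1}) ∨
  (s = 5 ∧ ∃ c ∈ T, ∃ c' ∈ T, L c = {5} ∧ L c' = {2, 2, 1}) ∨
  (s = 6 ∧ ∃ c ∈ T, ∃ c' ∈ T, L c = {3, 3} ∧ L c' = {4, 2}) ∨
  (s = 6 ∧ ∃ c ∈ T, ∃ c' ∈ T, ∃ c'' ∈ T, L c = {3, 3} ∧ L c' = {2, 2, 2} ∧
    L c'' = {3, 1, 1, 1}) ∨
  (∃ c1 ∈ T, ∃ c2 ∈ T, ∃ c3 ∈ T, c1 ≠ c2 ∧ c1 ≠ c3 ∧ c2 ≠ c3 ∧
    (Exc0 (L c1) (L c2) (L c3) ∨ Exc2 (L c1) (L c2) (L c3) s))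

/-- The hypotheses of the numerical classification: the ramified fibres other than one simple fibre
of a map of degree `s`. -/
structure NumHyp {ι : Type} (T : Finset ι) (L : ι → Multiset ℕ) (s : ℕ) : Prop where
  pos : ∀ c ∈ T, ∀ e ∈ L c, 1 ≤ e
  sum : ∀ c ∈ T, (L c).sum = s
  lt : ∀ c ∈ T, card (L c) < s
  rh : ∑ c ∈ T, (s - card (L c)) + 3 = 2 * s
  wt : ∑ c ∈ T, wt (L c) ≤ s
  gcd : ∀ c ∈ T, ∀ c' ∈ T, c ≠ c' → ∀ d, 2 ≤ d → ¬ (DD d (L c) ∧ DD d (L c'))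

/-- A partition of small weight is homogeneous.  Proof: `wt_nonhom`. -/
theorem hom_of_small {L : Multiset ℕ} {s : ℕ} (h : ∀ e ∈ L, 1 ≤ e) (hs : L.sum = s)
    (hc : 1 ≤ card L) (hw : 3 * wt L + 2 < s + card L) :
    ∃ d, 1 ≤ d ∧ L = replicate (card L) d ∧ s = d * card L ∧ DD d L := by
  by_cases hn : ∀ d, L ≠ replicate (card L) d
  · have h1 := wt_nonhom h hn
    omega
  · push Not at hn
    obtain ⟨d, hd⟩ := hn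
    have hm : ∀ e ∈ L, e = d := (Multiset.eq_replicate.1 hd).2
    have hdm : d ∈ L := by
      rw [hd, Multiset.mem_replicate]
      exact ⟨by omega, rfl⟩
    refine ⟨d, h d hdm, hd, ?_, fun e he => ?_⟩
    · rw [← hs]
      conv_lhs => rw [hd, Multiset.sum_replicate, smul_eq_mul, mul_comm]
    · rw [hm e he]

end WildV
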