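import Pool.Agent.helper21.WV.Clique

/-! Every transposition inside a clique extends to an automorphism over `ℂ(t)`. -/

namespace WildV

open Polynomial WildRat WildS

variable {K : Type} [Field K] [Algebra ℂ K]

/-- The function field of the clique pair embeds.

Proof.  Let `K1 = AdjoinRoot mu0` (a field, finite over `E`), `φ1` = the embedding of `E`, `y1` = the
root.  `GG C` mapped by `φ1` vanishes at `y1` (`gg`), so `P_C(y1) = φ1 (elt C) Q_C(y1)`, `Q_C(y1) ≠ 0`
(coprime), `y1` is not constant, `ψ1 : X ↦ y1` (`exists_subst`), `φ1 (elt C) = ψ1 (elt C)`, hence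
`φ1 (elt A) = ψ1 (elt A)` (`comp_pair`).  `φ1 ≠ ψ1`: otherwise `mu0(x) = 0` and `(T - x) ^ 2 ∣ GG C`,
contradicting `GG_separable` (compare `exists_factor_pair`).  `mu φ1 (ψ1 X) = mu0` (monic, irreducible),
so `place_qq` and `ordq` give the place `P` over `(q, q)` (`FinC ψ1` by `finC_all`).  Let
`ζ : E →ₐ[ℂ] L`, `ζ X = z` (`exists_subst`).  `GG C` mapped by `ζ` vanishes at `z'` (`hC`,
`ζ (elt C) = C.app z`) and `z' ≠ z`, so `mu0` mapped by `ζ` vanishes at `z'` (`gg`), and
`AdjoinRoot.lift` gives `θ : K1 → L` extending `ζ` with `θ y1 = z'`. -/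
theorem Swap_embed {A B C : RF} {c q : ℂ} {mu0 : E[X]} (h : Cl A B C c q mu0)
    {L : Type} [Field L] [Algebra ℂ L] {z z' : L} (hz : NonConst z)
    (hC : aeval z C.P * aeval z' C.Q = aeval z' C.P * aeval z C.Q) (hne : z ≠ z') :
    ∃ (K1 : Type) (_ : Field K1) (_ : Algebra ℂ K1) (φ1 ψ1 : E →ₐ[ℂ] K1) (P : Pl K1)
      (θ : K1 →ₐ[ℂ] L), FinC φ1 ∧ φ1 ≠ ψ1 ∧ φ1 (elt A) = ψ1 (elt A) ∧ P ∈ fib φ1 q ∧
      P ∈ fib ψ1 q ∧ θ (φ1 RatFunc.X) = z ∧ θ (ψ1 RatFunc.X) = z' := by
  classical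
  obtain ⟨hC2, -, -, -, -, -, -, -, -, -, -, -⟩ := h.facts
  have hn : 1 ≤ C.n := by omega
  have hfact : Fact (Irreducible mu0) := ⟨h.irr⟩
  let φ1 : E →ₐ[ℂ] AdjoinRoot mu0 := IsScalarTower.toAlgHom ℂ E (AdjoinRoot mu0)
  have hφ1 : φ1.toRingHom = AdjoinRoot.of mu0 := rfl
  set y : AdjoinRoot mu0 := AdjoinRoot.root mu0 with hy
  have hfin : FinC φ1 := by
    have h0 : Module.Finite E (AdjoinRoot mu0) := (AdjoinRoot.powerBasis h.irr.ne_zero).finite
    have h1 : (algebraMap E (AdjoinRoot mu0)).Finite := RingHom.finite_algebraMap.2 h0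
    exact h1
  have hroot : (GG C).eval₂ (AdjoinRoot.of mu0) y = 0 :=
    eval₂_eq_zero_of_dvd_of_eval₂_eq_zero _ _ ⟨_, by rw [h.gg, mul_comm]⟩
      (AdjoinRoot.eval₂_root mu0)
  have hPQ : aeval y C.P = φ1 (elt C) * aeval y C.Q := by
    have hev : ∀ p : ℂ[X], eval₂ (AdjoinRoot.of mu0) y (p.map (algebraMap ℂ E)) = aeval y p := by
      intro p
      rw [eval₂_map, aeval_def]
      rfl
    rw [GG, eval₂_sub, eval₂_mul, eval₂_C, hev, hev] at hroot
    exact sub_eq_zero.1 hroot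
  have hyN : NonConst y := by
    intro c hc
    rw [hc, aeval_algebraMap_apply_eq_algebraMap_eval,
      aeval_algebraMap_apply_eq_algebraMap_eval] at hPQ
    by_cases hq : C.Q.eval c = 0
    · rw [hq, map_zero, mul_zero, map_eq_zero] at hPQ
      obtain ⟨u, v, huv⟩ := C.cop
      have := congrArg (Polynomial.eval c) huv
      rw [eval_add, eval_mul, eval_mul, hPQ, hq] at this
      simp at this
    · apply elt_nonConst C hn (C.P.eval c / C.Q.eval c)
      apply coord_inj φ1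
      rw [coord_C, map_div₀, hPQ, mul_div_assoc, div_self, mul_one]
      rwa [Ne, map_eq_zero]
  obtain ⟨ψ1, hψ1⟩ := exists_subst hyN
  have hne1 : φ1 ≠ ψ1 := by
    intro heq
    have h1 : AdjoinRoot.mk mu0 (X - Polynomial.C RatFunc.X) = 0 := by
      rw [map_sub, AdjoinRoot.mk_X, AdjoinRoot.mk_C, sub_eq_zero, ← hy, ← hψ1, ← heq]
      rfl
    rw [AdjoinRoot.mk_eq_zero] at h1
    have h2 : mu0 * mu0 ∣ GG C := by
      rw [h.gg]
      exact mul_dvd_mul_right h1 mu0
    exact h.irr.not_isUnit ((GG_separable C hn).squarefree mu0 h2)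
  have heltC : φ1 (elt C) = ψ1 (elt C) := by
    rw [coord_elt ψ1, hψ1]
    unfold RF.app
    rw [hPQ, mul_div_assoc, div_self, mul_one]
    exact hyN.aeval_ne_zero (C.Q_ne_zero hn)
  have heltA : φ1 (elt A) = ψ1 (elt A) := comp_pair h.comp heltC
  have hmu : mu φ1 (ψ1 RatFunc.X) = mu0 := by
    rw [hψ1]
    unfold mu
    let := φ1.toRingHom.toAlgebra
    have h1 : aeval (R := E) y mu0 = 0 := by
      rw [aeval_def]
      exact AdjoinRoot.eval₂_root mu0
    exact (minpoly.eq_of_irreducible_of_monic h.irr h1 h.mon0).symm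
  have hψ1f : FinC ψ1 := finC_all φ1 hfin ψ1
  obtain ⟨P, hP, hP'⟩ := (place_qq h.norm hfin hψ1f hne1 heltA).2 (by
    rw [hmu, h.ordq]
    exact one_ne_zero)
  obtain ⟨ζ, hζ⟩ := exists_subst hz
  have hzQ : aeval z C.Q ≠ 0 := hz.aeval_ne_zero (C.Q_ne_zero hn)
  have hev2 : ∀ p : ℂ[X], eval₂ ζ.toRingHom z' (p.map (algebraMap ℂ E)) = aeval z' p := by
    intro p
    have h1 : ζ.toRingHom.comp (algebraMap ℂ E) = algebraMap ℂ L := by
      ext c
      exact ζ.commutes c
    rw [eval₂_map, aeval_def, h1]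
  have h0 : (GG C).eval₂ ζ.toRingHom z' = 0 := by
    have h1 : ζ.toRingHom (elt C) = aeval z C.P / aeval z C.Q := by
      have h2 := coord_elt ζ C
      rw [hζ] at h2
      exact h2
    rw [GG, eval₂_sub, eval₂_mul, eval₂_C, hev2, hev2, h1, sub_eq_zero, div_mul_eq_mul_div,
      eq_div_iff hzQ, hC]
  have hmu0 : mu0.eval₂ ζ.toRingHom z' = 0 := by
    rw [h.gg, eval₂_mul, eval₂_sub, eval₂_X, eval₂_C] at h0
    rcases mul_eq_zero.1 h0 with h1 | h1
    · exfalso
      apply hne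
      have h2 : ζ.toRingHom RatFunc.X = z := hζ
      rw [h2] at h1
      exact (sub_eq_zero.1 h1).symm
    · exact h1
  let θr : AdjoinRoot mu0 →+* L := AdjoinRoot.lift ζ.toRingHom z' hmu0
  let θ : AdjoinRoot mu0 →ₐ[ℂ] L :=
    { toRingHom := θr
      commutes' := by
        intro c
        have h1 : algebraMap ℂ (AdjoinRoot mu0) c = AdjoinRoot.of mu0 (algebraMap ℂ E c) := rfl
        show θr (algebraMap ℂ (AdjoinRoot mu0) c) = algebraMap ℂ L c
        rw [h1, AdjoinRoot.lift_of]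
        exact ζ.commutes c }
  refine ⟨AdjoinRoot mu0, inferInstance, inferInstance, φ1, ψ1, P, θ, hfin, hne1, heltA, hP, hP',
    ?_, ?_⟩
  · show θr (AdjoinRoot.of mu0 RatFunc.X) = z
    rw [AdjoinRoot.lift_of]
    exact hζ
  · rw [hψ1]
    show θr (AdjoinRoot.root mu0) = z'
    exact AdjoinRoot.lift_root hmu0

/-- **Swaps.**  Proof.  Let `L = AlgebraicClosure K`, `θ : K1 → L` from `Swap_embed` (`z` is not constant
because `A(z) = φ (elt A)` is not).  `L` is algebraic over `θ (K1)`: `L / K` is algebraic, `K` is finite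
over `φ (E)`, hence algebraic over `ℂ(φ (elt A))`, and `φ (elt A) = A(z) = θ (φ1 (elt A))`.  So `L` is an
algebraic closure of `K1` via `θ` (`IsAlgClosure`), and `IsAlgClosure.equiv` gives an isomorphism
`i : AlgebraicClosure K1 ≃ L` over `K1`.  `exists_transp` (WS/Transp, hypotheses from `h.norm`) gives `τ0`
on `AlgebraicClosure K1` exchanging `φ1 X`, `ψ1 X` and fixing the other roots of
`P_A - φ1 (elt A) Q_A`.  Put `τ = i τ0 i⁻¹`. -/
theorem swap {A B C : RF} {c q : ℂ} {mu0 : E[X]} (h : Cl A B C c q mu0) {φ : E →ₐ[ℂ] K}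
    (hφ : FinC φ) {z z' : AlgebraicClosure K}
    (hz : aeval z A.P = algebraMap K _ (φ (elt A)) * aeval z A.Q)
    (hC : aeval z C.P * aeval z' C.Q = aeval z' C.P * aeval z C.Q) (hne : z ≠ z') :
    ∃ τ : AlgebraicClosure K →ₐ[ℂ] AlgebraicClosure K, τ z = z' ∧ τ z' = z ∧
      ∀ w : AlgebraicClosure K, w ≠ z → w ≠ z' →
        aeval w A.P = algebraMap K _ (φ (elt A)) * aeval w A.Q → τ w = w := by
  classical
  obtain ⟨hC2, hB1, hAn, -, -, -, -, -, -, -, -, -⟩ := h.facts
  have hn : 1 ≤ A.n := by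
    rw [hAn]
    exact Nat.mul_pos hB1 (by omega)
  have htN : NonConst (φ (elt A)) := by
    intro c hc
    apply elt_nonConst A hn c
    apply coord_inj φ
    rw [hc, coord_C]
  have hzN : NonConst z := by
    intro c hc
    have hz2 := hz
    rw [hc, aeval_algebraMap_apply_eq_algebraMap_eval,
      aeval_algebraMap_apply_eq_algebraMap_eval] at hz2
    by_cases hq : A.Q.eval c = 0
    · rw [hq, map_zero, mul_zero, map_eq_zero] at hz2
      obtain ⟨u, v, huv⟩ := A.cop
      have := congrArg (Polynomial.eval c) huv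
      rw [eval_add, eval_mul, eval_mul, hz2, hq] at this
      simp at this
    · apply htN (A.P.eval c / A.Q.eval c)
      apply (algebraMap K (AlgebraicClosure K)).injective
      have h1 : algebraMap K (AlgebraicClosure K) (algebraMap ℂ K (A.P.eval c / A.Q.eval c)) =
          algebraMap ℂ (AlgebraicClosure K) (A.P.eval c / A.Q.eval c) :=
        (IsScalarTower.algebraMap_apply ℂ K (AlgebraicClosure K) _).symm
      rw [h1, map_div₀, hz2, mul_div_assoc, div_self, mul_one]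
      rwa [Ne, map_eq_zero]
  obtain ⟨K1, _, _, φ1, ψ1, P, θ, hφ1, hne1, helt, hP, hP', hθ1, hθ2⟩ :=
    Swap_embed h hzN hC hne
  -- the value of `A`
  have hzQ : aeval z A.Q ≠ 0 := hzN.aeval_ne_zero (A.Q_ne_zero hn)
  have ht : algebraMap K (AlgebraicClosure K) (φ (elt A)) = θ (φ1 (elt A)) := by
    have h1 := coord_elt (θ.comp φ1) A
    have h2 : (θ.comp φ1) RatFunc.X = z := hθ1
    rw [h2] at h1
    have h3 : A.app z = algebraMap K (AlgebraicClosure K) (φ (elt A)) := by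
      unfold RF.app
      rw [div_eq_iff hzQ, hz]
    rw [← h3, ← h1]
    rfl
  obtain ⟨α, hα⟩ := exists_subst (elt_nonConst A hn)
  have hαf : FinC α := finC_all (AlgHom.id ℂ E) RatK_finC_id α
  have hφα : FinC (φ.comp α) := finC_comp hφ hαf
  let ι : K →ₐ[ℂ] AlgebraicClosure K := IsScalarTower.toAlgHom ℂ K (AlgebraicClosure K)
  have hcomp : ι.comp (φ.comp α) = θ.comp (φ1.comp α) := by
    apply coord_ext
    show ι (φ (α RatFunc.X)) = θ (φ1 (α RatFunc.X))
    rw [hα]
    exact ht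
  let a1 : Algebra E K := (φ.comp α).toRingHom.toAlgebra
  let a3 : Algebra E K1 := (φ1.comp α).toRingHom.toAlgebra
  let a4 : Algebra K1 (AlgebraicClosure K) := θ.toRingHom.toAlgebra
  have t1 : IsScalarTower E K (AlgebraicClosure K) := inferInstance
  have t2 : IsScalarTower E K1 (AlgebraicClosure K) := IsScalarTower.of_algebraMap_eq fun x => by
    rw [IsScalarTower.algebraMap_apply E K (AlgebraicClosure K)]
    show (ι.comp (φ.comp α)) x = θ ((φ1.comp α) x)
    rw [hcomp]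
    rfl
  have t3 : IsScalarTower ℂ K1 (AlgebraicClosure K) := IsScalarTower.of_algebraMap_eq fun x =>
    (θ.commutes x).symm
  have f1 : Module.Finite E K := hφα
  have f2 : Algebra.IsAlgebraic E K := Algebra.IsAlgebraic.of_finite E K
  have f3 : Algebra.IsAlgebraic E (AlgebraicClosure K) :=
    Algebra.IsAlgebraic.trans E K (AlgebraicClosure K)
  have f4 : Algebra.IsAlgebraic K1 (AlgebraicClosure K) :=
    Algebra.IsAlgebraic.tower_top (K := E) K1
  have f5 : IsAlgClosure K1 (AlgebraicClosure K) := ⟨inferInstance, f4⟩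
  let i0 : AlgebraicClosure K1 ≃ₐ[K1] AlgebraicClosure K :=
    IsAlgClosure.equiv K1 (AlgebraicClosure K1) (AlgebraicClosure K)
  let i : AlgebraicClosure K1 ≃ₐ[ℂ] AlgebraicClosure K := i0.restrictScalars ℂ
  have hi : ∀ u : K1, i (algebraMap K1 (AlgebraicClosure K1) u) = θ u := fun u => i0.commutes u
  have hi' : ∀ u : K1, i.symm (θ u) = algebraMap K1 (AlgebraicClosure K1) u := fun u => by
    rw [← hi, AlgEquiv.symm_apply_apply]
  obtain ⟨τ0, g1, g2, g3⟩ := exists_transp h.norm.monic h.norm.lt h.norm.val h.norm.mult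
    h.norm.simple hφ1 hne1 helt hP hP'
  refine ⟨(i : AlgebraicClosure K1 →ₐ[ℂ] AlgebraicClosure K).comp (τ0.comp
    (i.symm : AlgebraicClosure K →ₐ[ℂ] AlgebraicClosure K1)), ?_, ?_, ?_⟩
  · show i (τ0 (i.symm z)) = z'
    rw [← hθ1, hi', g1, hi, hθ2]
  · show i (τ0 (i.symm z')) = z
    rw [← hθ2, hi', g2, hi, hθ1]
  · intro w hw hw' hwA
    show i (τ0 (i.symm w)) = w
    rw [g3 (i.symm w) ?_ ?_ ?_, AlgEquiv.apply_symm_apply]
    · intro h1
      apply hw
      rw [← hθ1, ← hi, ← h1, AlgEquiv.apply_symm_apply]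
    · intro h1
      apply hw'
      rw [← hθ2, ← hi, ← h1, AlgEquiv.apply_symm_apply]
    · have h1 := congrArg i.symm hwA
      rw [map_mul, ht, hi'] at h1
      have h2 : ∀ p : ℂ[X], i.symm (aeval w p) = aeval (i.symm w) p := fun p =>
        (aeval_algHom_apply i.symm w p).symm
      rw [h2, h2] at h1
      exact h1

end WildV
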