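import Pool.Agent.helper21.WV.WOne
import Pool.Agent.helper21.WV.WTwo

/-! The inequality (W) for the clique function of a wild function. -/

namespace WildV

open Polynomial WildRat WildS

variable {K : Type} [Field K] [Algebra ℂ K]

/-- `C` is unramified over infinity -/
theorem WAll_un {A B C : RF} {c q : ℂ} {mu0 : E[X]} (h : Cl A B C c q mu0) :
    ∀ z, C.val z = none → C.e z = 1 := by
  obtain ⟨-, -, -, hval, -, hBlt, -, hun, -⟩ := h.facts
  intro z hz
  apply hun
  rw [hval z, hz]
  exact Quad_val_none B hBlt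

/-- Proof: `W_one` (with `Cl.facts`) if `φ (elt C) = ψ (elt C)`, otherwise `W_two`.  `C` is unramified
over infinity: `C.val z = none` implies `A.val z = none` (`B(∞) = ∞`), `Cl.facts`. -/
theorem W_fin (hK : Good K) {A B C : RF} {c q : ℂ} {mu0 : E[X]} (h : Cl A B C c q mu0)
    {φ ψ : E →ₐ[ℂ] K} (hne : φ ≠ ψ) (hA : φ (elt A) = ψ (elt A)) (T : Finset ℂ) :
    ∑ p ∈ T, (wt (pasF C p) : ℤ) ≤ 2 * C.n - 2 := by
  by_cases h1 : φ (elt C) = ψ (elt C)
  · exact W_one hK h.facts.1 h.lt (WAll_un h) h.irr h.mon0 h.gg hne h1 T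
  · exact W_two hK h hA h1 T

/-- The same for values in the Riemann sphere.  Proof: over infinity all indices are one, so the
weight is zero; `pasF_eq`. -/
theorem W_all (hK : Good K) {A B C : RF} {c q : ℂ} {mu0 : E[X]} (h : Cl A B C c q mu0)
    {φ ψ : E →ₐ[ℂ] K} (hne : φ ≠ ψ) (hA : φ (elt A) = ψ (elt A)) (T : Finset P1) :
    ∑ p ∈ T, wt (pas C p) ≤ 2 * C.n - 2 := by
  classical
  have h2 : 2 ≤ C.n := h.facts.1
  have hC : 1 ≤ C.n := by omega
  have h0 : wt (pas C none) = 0 := by
    have h3 : pas C none = Multiset.replicate (Multiset.card (pas C none)) 1 := by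
      rw [Multiset.eq_replicate]
      refine ⟨rfl, fun b hb => ?_⟩
      unfold pas at hb
      rw [Multiset.mem_map] at hb
      obtain ⟨z, hz, rfl⟩ := hb
      exact WAll_un h z ((mem_fibP hC).1 hz)
    rw [h3]
    exact wt_replicate _ _
  have hsub : T ⊆ insert (none : P1) ((Finset.eraseNone T).map ⟨some, Option.some_injective ℂ⟩) := by
    intro z hz
    cases z with
    | none => exact Finset.mem_insert_self _ _
    | some a =>
      exact Finset.mem_insert_of_mem (Finset.mem_map.2 ⟨a, Finset.mem_eraseNone.2 hz, rfl⟩)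
  have h3 : (none : P1) ∉ (Finset.eraseNone T).map ⟨some, Option.some_injective ℂ⟩ := by
    intro h3
    obtain ⟨a, -, ha⟩ := Finset.mem_map.1 h3
    exact Option.some_ne_none a ha
  have h4 : ∑ p ∈ T, wt (pas C p) ≤ ∑ a ∈ Finset.eraseNone T, wt (pasF C a) := by
    refine (Finset.sum_le_sum_of_subset hsub).trans (le_of_eq ?_)
    rw [Finset.sum_insert h3, h0, zero_add, Finset.sum_map]
    refine Finset.sum_congr rfl fun a _ => ?_
    show wt (pas C (some a)) = _
    rw [pasF_eq hC h.lt]
  have h5 := W_fin hK h hne hA (Finset.eraseNone T)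
  rw [← Nat.cast_sum] at h5
  omega

end WildV
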