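import Pool.Agent.helper21.WV.Defs

/-! Basic facts about the weight of a partition. -/

namespace WildV

open Multiset

/-- `∑ (a - gcd) + ∑ gcd = ∑ a` over ordered pairs. -/
theorem wt_add_gs (L : Multiset ℕ) (h : ∀ e ∈ L, 1 ≤ e) : wt L + gs L = card L * L.sum := by
  unfold wt gs
  rw [← Multiset.sum_map_add]
  have h1 : (L.map fun a => (L.map fun b => a - Nat.gcd a b).sum +
      (L.map fun b => Nat.gcd a b).sum) = L.map fun a => card L * a := by
    refine Multiset.map_congr rfl fun a ha => ?_
    rw [← Multiset.sum_map_add]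
    have h2 : (L.map fun b => a - Nat.gcd a b + Nat.gcd a b) = L.map fun _ => a := by
      refine Multiset.map_congr rfl fun b _ => ?_
      exact Nat.sub_add_cancel (Nat.gcd_le_left b (h a ha))
    rw [h2, Multiset.map_const', Multiset.sum_replicate, smul_eq_mul]
  rw [h1, Multiset.sum_map_mul_left, Multiset.map_id']

theorem wt_replicate (m d : ℕ) : wt (replicate m d) = 0 := by
  unfold wt
  simp

/-- The weight of `d, .., d` (m times) together with `M`. -/
theorem wt_replicate_add (m d : ℕ) (M : Multiset ℕ) :
    wt (replicate m d + M) =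
      wt M + m * (M.map fun y => (d - Nat.gcd d y) + (y - Nat.gcd d y)).sum := by
  unfold wt
  have h1 : ∀ a, ((replicate m d + M).map fun b => a - Nat.gcd a b).sum =
      m * (a - Nat.gcd a d) + (M.map fun b => a - Nat.gcd a b).sum := by
    intro a
    rw [Multiset.map_add, Multiset.sum_add, Multiset.map_replicate, Multiset.sum_replicate,
      smul_eq_mul]
  simp only [h1]
  rw [Multiset.map_add, Multiset.sum_add, Multiset.map_replicate, Multiset.sum_replicate,
    smul_eq_mul, Nat.gcd_self, Nat.sub_self, mul_zero, zero_add, Multiset.sum_map_add,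
    Multiset.sum_map_mul_left, Multiset.sum_map_add, mul_add]
  have h2 : (M.map fun y => y - Nat.gcd y d) = M.map fun y => y - Nat.gcd d y := by
    refine Multiset.map_congr rfl fun y _ => ?_
    rw [Nat.gcd_comm]
  rw [h2]
  ring

/-- For `a ≠ b` positive, `a + b ≥ 3 gcd a b`. -/
theorem three_gcd_le {a b : ℕ} (ha : 1 ≤ a) (hb : 1 ≤ b) (h : a ≠ b) :
    3 * Nat.gcd a b ≤ a + b := by
  obtain ⟨g, hg⟩ : ∃ g, g = Nat.gcd a b := ⟨_, rfl⟩
  obtain ⟨x, hx⟩ := Nat.gcd_dvd_left a b
  obtain ⟨y, hy⟩ := Nat.gcd_dvd_right a b
  rw [← hg] at hx hy ⊢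
  have hx1 : 1 ≤ x := by
    rcases Nat.eq_zero_or_pos x with h0 | h0
    · rw [h0, mul_zero] at hx
      omega
    · exact h0
  have hy1 : 1 ≤ y := by
    rcases Nat.eq_zero_or_pos y with h0 | h0
    · rw [h0, mul_zero] at hy
      omega
    · exact h0
  have hxy : x ≠ y := by
    rintro rfl
    exact h (hx.trans hy.symm)
  have h3 : 3 ≤ x + y := by omega
  rw [hx, hy, ← mul_add, mul_comm 3 g]
  exact Nat.mul_le_mul_left g h3

/-- `a * (number of parts different from a)` as a sum -/
theorem Wt_count (L : Multiset ℕ) (a : ℕ) :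
    a * (card L - count a L) = (L.map fun b => if a = b then 0 else a).sum := by
  induction L using Multiset.induction_on with
  | empty => simp
  | cons b L ih =>
    rw [Multiset.map_cons, Multiset.sum_cons, ← ih, Multiset.card_cons, Multiset.count_cons]
    have hle : count a L ≤ card L := Multiset.count_le_card a L
    by_cases hab : a = b
    · rw [if_pos hab, if_pos hab, zero_add]
      congr 1
      omega
    · rw [if_neg hab, if_neg hab, add_zero,
        show card L + 1 - count a L = 1 + (card L - count a L) by omega, mul_add, mul_one]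

/-- `∑ a * (number of parts different from a) ≤ 3 wt`.  Proof: for `a ≠ b`,
`3 (a - g) + 3 (b - g) ≥ a + b` by `three_gcd_le`; sum over all ordered pairs of different parts and
divide by two. -/
theorem wt_ge (L : Multiset ℕ) (h : ∀ e ∈ L, 1 ≤ e) :
    (L.map fun a => a * (card L - count a L)).sum ≤ 3 * wt L := by
  have h1 : (L.map fun a => a * (card L - count a L)).sum =
      (L.map fun a => (L.map fun b => if a = b then 0 else a).sum).sum := by
    congr 1
    exact Multiset.map_congr rfl fun a _ => Wt_count L a
  have h2 : (L.map fun a => (L.map fun b => if a = b then 0 else a).sum).sum =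
      (L.map fun a => (L.map fun b => if a = b then 0 else b).sum).sum := by
    rw [Multiset.sum_map_sum_map]
    congr 1
    refine Multiset.map_congr rfl fun a _ => ?_
    congr 1
    refine Multiset.map_congr rfl fun b _ => ?_
    by_cases hab : a = b
    · rw [if_pos hab, if_pos hab.symm]
    · rw [if_neg hab, if_neg (Ne.symm hab)]
  have h3 : wt L = (L.map fun a => (L.map fun b => b - Nat.gcd a b).sum).sum := by
    unfold wt
    rw [Multiset.sum_map_sum_map]
    congr 1
    refine Multiset.map_congr rfl fun a _ => ?_
    congr 1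
    refine Multiset.map_congr rfl fun b _ => ?_
    rw [Nat.gcd_comm]
  have h4 : (L.map fun a => (L.map fun b => if a = b then 0 else a).sum).sum +
      (L.map fun a => (L.map fun b => if a = b then 0 else b).sum).sum ≤
      3 * (L.map fun a => (L.map fun b => a - Nat.gcd a b).sum).sum +
        3 * (L.map fun a => (L.map fun b => b - Nat.gcd a b).sum).sum := by
    rw [← Multiset.sum_map_add, ← mul_add, ← Multiset.sum_map_add, ← Multiset.sum_map_mul_left]
    refine Multiset.sum_map_le_sum_map _ _ fun a ha => ?_
    rw [← Multiset.sum_map_add, ← Multiset.sum_map_add, ← Multiset.sum_map_mul_left]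
    refine Multiset.sum_map_le_sum_map _ _ fun b hb => ?_
    by_cases hab : a = b
    · rw [if_pos hab, if_pos hab]
      exact Nat.zero_le _
    · rw [if_neg hab, if_neg hab]
      have e1 := three_gcd_le (h a ha) (h b hb) hab
      have e2 := Nat.gcd_le_left b (h a ha)
      have e3 := Nat.gcd_le_right a (h b hb)
      omega
  rw [← h2, ← h1, ← h3] at h4
  unfold wt at h3 h4 ⊢
  omega

/-- a value and the other parts -/
theorem Wt_split (L : Multiset ℕ) (d : ℕ) :
    L = replicate (count d L) d + L.filter (fun x => ¬ x = d) ∧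
      d ∉ L.filter (fun x => ¬ x = d) ∧
      count d L + card (L.filter fun x => ¬ x = d) = card L := by
  have h1 : L = replicate (count d L) d + L.filter (fun x => ¬ x = d) := by
    conv_lhs => rw [← Multiset.filter_add_not (fun x => x = d) L, Multiset.filter_eq']
  refine ⟨h1, fun hm => ?_, ?_⟩
  · exact (Multiset.mem_filter.1 hm).2 rfl
  · have h2 := congrArg card h1
    rw [Multiset.card_add, Multiset.card_replicate] at h2
    exact h2.symm

theorem Wt_card_le {L : Multiset ℕ} (h : ∀ e ∈ L, 1 ≤ e) : card L ≤ L.sum := by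
  have h1 := Multiset.card_nsmul_le_sum h
  rwa [smul_eq_mul, mul_one] at h1

/-- A partition which is not homogeneous has weight at least `(s + r - 2) / 3`.

Proof from `wt_ge`.  If some value `d` occurs exactly `r - 1` times and `b` is the other part, the sum
is `(r - 1) d + (r - 1) b = s + (r - 2) b ≥ s + r - 2`.  Otherwise every count is at most `r - 2`
(if a count were `r`, then `L` would be homogeneous), and the sum is at least `2 s ≥ s + r`. -/
theorem wt_nonhom {L : Multiset ℕ} (h : ∀ e ∈ L, 1 ≤ e) (hn : ∀ d, L ≠ replicate (card L) d) :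
    L.sum + card L ≤ 3 * wt L + 2 := by
  have hge := wt_ge L h
  by_cases hd : ∃ d, count d L + 1 = card L
  · obtain ⟨d, hd⟩ := hd
    obtain ⟨h1, h2, h3⟩ := Wt_split L d
    have h4 : card (L.filter fun x => ¬ x = d) = 1 := by omega
    obtain ⟨b, hb⟩ := Multiset.card_eq_one.1 h4
    rw [hb] at h1 h2
    have hbd : b ≠ d := fun h5 => h2 (by rw [h5]; exact Multiset.mem_singleton_self d)
    obtain ⟨r, hr⟩ : ∃ r, count d L = r := ⟨_, rfl⟩
    rw [hr] at h1 hd
    have hb1 : 1 ≤ b := h b (by rw [h1]; exact Multiset.mem_add.2 (Or.inr (Multiset.mem_singleton_self b)))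
    have hcb : count b L = 1 := by
      rw [h1, Multiset.count_add, Multiset.count_replicate, if_neg (Ne.symm hbd), zero_add,
        Multiset.count_singleton_self]
    have hsum : L.sum = r * d + b := by
      rw [h1, Multiset.sum_add, Multiset.sum_replicate, Multiset.sum_singleton, smul_eq_mul]
    have hS : (L.map fun a => a * (card L - count a L)).sum =
        r * (d * (card L - r)) + b * (card L - 1) := by
      have e1 : (L.map fun a => a * (card L - count a L)) =
          replicate r (d * (card L - r)) + {b * (card L - 1)} := by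
        conv_lhs =>
          arg 2
          rw [h1]
        rw [Multiset.map_add, Multiset.map_replicate, Multiset.map_singleton, hcb, hr]
      rw [e1, Multiset.sum_add, Multiset.sum_replicate, Multiset.sum_singleton, smul_eq_mul]
    rw [hS, ← hd, show r + 1 - r = 1 by omega, show r + 1 - 1 = r by omega, mul_one] at hge
    have hr1 : r ≤ b * r := Nat.le_mul_of_pos_left r hb1
    rw [hsum, ← hd]
    rcases Nat.eq_zero_or_pos r with h0 | h0
    · exfalso
      apply hn b
      rw [← hd, h0, h1, h0]
      simp
    · have e2 : b + r ≤ b * r + 1 := by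
        obtain ⟨b', rfl⟩ : ∃ b', b = b' + 1 := ⟨b - 1, by omega⟩
        obtain ⟨r', rfl⟩ : ∃ r', r = r' + 1 := ⟨r - 1, by omega⟩
        have e3 : (b' + 1) * (r' + 1) = b' * r' + b' + r' + 1 := by ring
        have e4 := Nat.zero_le (b' * r')
        omega
      omega
  · have h1 : ∀ a ∈ L, 2 ≤ card L - count a L := by
      intro a ha
      have h2 : count a L ≤ card L := Multiset.count_le_card a L
      have h3 : count a L ≠ card L := by
        intro h4
        apply hn a
        rw [Multiset.eq_replicate]
        refine ⟨rfl, fun b hb => ?_⟩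
        exact ((Multiset.count_eq_card.1 h4) b hb).symm
      have h4 : count a L + 1 ≠ card L := fun h5 => hd ⟨a, h5⟩
      omega
    have h2 : (L.map fun a => a * 2).sum ≤ (L.map fun a => a * (card L - count a L)).sum :=
      Multiset.sum_map_le_sum_map _ _ fun a ha => Nat.mul_le_mul_left a (h1 a ha)
    rw [Multiset.sum_map_mul_right, Multiset.map_id'] at h2
    have h3 := Wt_card_le h
    omega

/-- If the weight is at most the sum, all parts but at most three are equal.  Proof: otherwise
`wt_ge` gives `4 s ≤ 3 wt ≤ 3 s`. -/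
theorem wt_dom {L : Multiset ℕ} (h : ∀ e ∈ L, 1 ≤ e) (h0 : L ≠ 0) (hw : wt L ≤ L.sum) :
    ∃ (d m : ℕ) (M : Multiset ℕ), L = replicate m d + M ∧ d ∉ M ∧ card M ≤ 3 := by
  by_contra hcon
  have h1 : ∀ a ∈ L, 4 ≤ card L - count a L := by
    intro a _
    obtain ⟨e1, e2, e3⟩ := Wt_split L a
    by_contra h4
    exact hcon ⟨a, _, _, e1, e2, by omega⟩
  have h2 : (L.map fun a => a * 4).sum ≤ (L.map fun a => a * (card L - count a L)).sum :=
    Multiset.sum_map_le_sum_map _ _ fun a ha => Nat.mul_le_mul_left a (h1 a ha)
  rw [Multiset.sum_map_mul_right, Multiset.map_id'] at h2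
  have hge := wt_ge L h
  have h3 := Wt_card_le h
  have h4 : 0 < card L := Multiset.card_pos.2 h0
  omega

end WildV
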