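import Pool.Agent.helper21.WV.Cnt
import Pool.Agent.helper21.WV.Wt

/-! Case I: the field covers the curve of `C` itself. -/

namespace WildV

open Polynomial WildRat WildS

variable {K : Type} [Field K] [Algebra ℂ K]

/-- The order of `mu0(b)` at `a`, for `a, b` in one fibre.  Proof: `gg` evaluated at `b`; `ord_GG`
gives `ord_a (GG C)(b) = C.e a`; `ord_a (b - x)` is `1` if `a = b` and `0` otherwise. -/
theorem ord_mu0 {C : RF} (hn : 1 ≤ C.n) {mu0 : E[X]}
    (hgg : GG C = (X - Polynomial.C RatFunc.X) * mu0) {a b p : ℂ} (ha : a ∈ fC C p)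
    (hb : b ∈ fC C p) :
    (plE a).ord (mu0.eval (algebraMap ℂ E b)) =
      (C.e (some a) : ℤ) - if a = b then 1 else 0 := by
  obtain ⟨hQa, hPa⟩ := (mem_fC' hn).1 ha
  obtain ⟨hQb, hPb⟩ := (mem_fC' hn).1 hb
  obtain ⟨h1, h2⟩ := ord_GG C hn hPa hQa hPb hQb
  rw [← e_fC hn ha, hgg, eval_mul, eval_sub, eval_X, eval_C] at h2
  rw [hgg, eval_mul, eval_sub, eval_X, eval_C] at h1
  have h4 : (algebraMap ℂ E b - RatFunc.X : E) ≠ 0 := left_ne_zero_of_mul h1
  have h5 : mu0.eval (algebraMap ℂ E b) ≠ 0 := right_ne_zero_of_mul h1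
  have h6 : (plE a).ord (algebraMap ℂ E b - RatFunc.X : E) = if a = b then 1 else 0 := by
    have h7 : (algebraMap ℂ E b - RatFunc.X : E) =
        -(algebraMap ℂ[X] E (X - Polynomial.C b)) := by
      rw [map_sub, RatFunc.algebraMap_X, algC_E]
      ring
    rw [h7, Pl.ord_neg, plE_poly a (X_sub_C_ne_zero b), rootMultiplicity_X_sub_C]
    split_ifs <;> rfl
  rw [(plE a).ord_mul h4 h5, h6] at h2
  linarith

theorem WOne_e_pos {C : RF} (hn : 1 ≤ C.n) {a p : ℂ} (ha : a ∈ fC C p) : 1 ≤ C.e (some a) := by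
  rw [e_fC hn ha]
  have h1 : C.P - Polynomial.C p * C.Q ≠ 0 := C.F_ne_zero hn (some p)
  have h2 := ((mem_fC' hn).1 ha).2
  exact (rootMultiplicity_pos h1).2 (by
    rw [IsRoot.def, eval_sub, eval_mul, eval_C, h2, sub_self])

theorem WOne_gs {C : RF} (p : ℂ) :
    (gs (pasF C p) : ℤ) =
      ∑ a ∈ fC C p, ∑ b ∈ fC C p, (Nat.gcd (C.e (some a)) (C.e (some b)) : ℤ) := by
  unfold gs pasF
  rw [Multiset.map_map]
  have h1 : ∀ a : ℕ, (((fC C p).val.map fun a => C.e (some a)).map fun b => Nat.gcd a b).sum =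
      ∑ b ∈ fC C p, Nat.gcd a (C.e (some b)) := by
    intro a
    rw [Multiset.map_map]
    rfl
  have h2 : (Multiset.map ((fun a => (((fC C p).val.map fun a => C.e (some a)).map
      fun b => Nat.gcd a b).sum) ∘ fun a => C.e (some a)) (fC C p).val).sum =
      ∑ a ∈ fC C p, ∑ b ∈ fC C p, Nat.gcd (C.e (some a)) (C.e (some b)) := by
    show ∑ a ∈ fC C p, _ = _
    exact Finset.sum_congr rfl fun a _ => h1 _
  rw [h2]
  push_cast
  rfl

theorem WOne_pair (hK : Good K) {C : RF} (hn : 1 ≤ C.n) (hlt : C.Q.natDegree < C.P.natDegree)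
    {mu0 : E[X]} (hgg : GG C = (X - Polynomial.C RatFunc.X) * mu0) {φ ψ : E →ₐ[ℂ] K}
    (h : φ (elt C) = ψ (elt C)) (hmu : mu φ (ψ RatFunc.X) = mu0) {m : ℕ}
    (hm : ∀ a b t0 : ℂ, a ∈ fC C t0 →
        ∑ P ∈ PS hK φ ψ a b, P.ord (ψ RatFunc.X - algebraMap ℂ K b) =
          m * (plE a).ord ((mu φ (ψ RatFunc.X)).eval (algebraMap ℂ E b))) {p a b : ℂ}
    (ha : a ∈ fC C p) (hb : b ∈ fC C p) :
    ((PS hK φ ψ a b).card : ℤ) ≤
      m * (Nat.gcd (C.e (some a)) (C.e (some b)) : ℤ) - if a = b then (m : ℤ) else 0 := by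
  have h1 := PS_card hK hn hlt h (b := b) ha
  rw [hm a b p ha, hmu, ord_mu0 hn hgg ha hb] at h1
  have hea := WOne_e_pos hn ha
  have heb := WOne_e_pos hn hb
  have hl : 0 < Nat.lcm (C.e (some a)) (C.e (some b)) := Nat.lcm_pos hea heb
  have hgl : (Nat.gcd (C.e (some a)) (C.e (some b)) : ℤ) * Nat.lcm (C.e (some a)) (C.e (some b)) =
      C.e (some a) * C.e (some b) := by
    exact_mod_cast Nat.gcd_mul_lcm (C.e (some a)) (C.e (some b))
  have hl' : (0 : ℤ) < Nat.lcm (C.e (some a)) (C.e (some b)) := by exact_mod_cast hl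
  refine le_of_mul_le_mul_right ?_ hl'
  refine h1.trans (le_of_eq ?_)
  by_cases hab : a = b
  · subst hab
    rw [if_pos rfl, if_pos rfl, Nat.gcd_self, Nat.lcm_self]
    ring
  · rw [if_neg hab, if_neg hab, sub_zero, sub_zero, mul_assoc, hgl]
    ring

/-- The bound for the number of places.  Proof: `PS_card`, `PS_mu`, `ord_mu0`: for `a ≠ b`,
`card * lcm ≤ e_b m e_a`, so `card ≤ m gcd`; for `a = b`: `card * e_a ≤ e_a m (e_a - 1)`.  Sum over the
fibre. -/
theorem WOne_fibre (hK : Good K) {C : RF} (hn : 1 ≤ C.n) (hlt : C.Q.natDegree < C.P.natDegree)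
    {mu0 : E[X]} (hgg : GG C = (X - Polynomial.C RatFunc.X) * mu0) {φ ψ : E →ₐ[ℂ] K}
    (h : φ (elt C) = ψ (elt C)) (hmu : mu φ (ψ RatFunc.X) = mu0) {m : ℕ}
    (hm : ∀ a b t0 : ℂ, a ∈ fC C t0 →
        ∑ P ∈ PS hK φ ψ a b, P.ord (ψ RatFunc.X - algebraMap ℂ K b) =
          m * (plE a).ord ((mu φ (ψ RatFunc.X)).eval (algebraMap ℂ E b))) (p : ℂ) :
    ∑ a ∈ fC C p, ∑ b ∈ fC C p, ((PS hK φ ψ a b).card : ℤ) ≤
      m * (gs (pasF C p) - (fC C p).card) := by
  have h1 : ∀ a ∈ fC C p, ∑ b ∈ fC C p, ((PS hK φ ψ a b).card : ℤ) ≤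
      m * ∑ b ∈ fC C p, (Nat.gcd (C.e (some a)) (C.e (some b)) : ℤ) - m := by
    intro a ha
    have h2 := Finset.sum_le_sum fun b (hb : b ∈ fC C p) =>
      WOne_pair hK hn hlt hgg h hmu hm ha hb
    refine h2.trans (le_of_eq ?_)
    rw [Finset.sum_sub_distrib, ← Finset.mul_sum, Finset.sum_ite_eq, if_pos ha]
  refine (Finset.sum_le_sum h1).trans (le_of_eq ?_)
  rw [Finset.sum_sub_distrib, ← Finset.mul_sum, ← WOne_gs, Finset.sum_const, nsmul_eq_mul]
  ring

/-- **Case I.**  Proof.  `mu φ (ψ X) ∣ mu0` (`NN_dvd`, `gg`), so they are equal (monic, irreducible), of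
degree `n - 1`, `n = C.n`.  Let `R` contain `T` and all critical values of `C` (`ramified_finite`).  By
`PS_rh` and `WOne_fibre`, with `deg φ = m (n - 1)` and dividing by `m`:
`∑ p ∈ R, (n (n - 1) - gs_p + r_p) ≤ 2 n (n - 1)`, `r_p = card (fC C p)`.  `gs_p = n r_p - wt_p`
(`wt_add_gs`, `sum_fC`), so `∑ ((n - 1) (n - r_p) + wt_p) ≤ 2 n (n - 1)`, and
`∑ (n - r_p) = 2 n - 2` (`rh_fin`) gives `∑ wt_p ≤ 2 n - 2`. -/
theorem W_one (hK : Good K) {C : RF} (hn : 2 ≤ C.n) (hlt : C.Q.natDegree < C.P.natDegree)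
    (hun : ∀ z, C.val z = none → C.e z = 1) {mu0 : E[X]} (hirr : Irreducible mu0)
    (hmon : mu0.Monic) (hgg : GG C = (X - Polynomial.C RatFunc.X) * mu0) {φ ψ : E →ₐ[ℂ] K}
    (hne : φ ≠ ψ) (h : φ (elt C) = ψ (elt C)) (T : Finset ℂ) :
    ∑ p ∈ T, (wt (pasF C p) : ℤ) ≤ 2 * C.n - 2 := by
  classical
  have hn1 : 1 ≤ C.n := by omega
  -- the minimal polynomial is `mu0`
  have hmu : mu φ (ψ RatFunc.X) = mu0 := by
    have h1 := NN_dvd C hn1 hne h
    unfold NN at h1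
    rw [hgg] at h1
    have h2 := (mul_dvd_mul_iff_left (X_sub_C_ne_zero (RatFunc.X : E))).1 h1
    obtain ⟨hm1, hm2⟩ := mu_pos φ (hK.fin φ) (ψ RatFunc.X)
    have h3 : ¬ IsUnit (mu φ (ψ RatFunc.X)) := by
      intro hu
      have := natDegree_eq_zero_of_isUnit hu
      omega
    have h4 : Associated (mu φ (ψ RatFunc.X)) mu0 := by
      obtain ⟨w, hw⟩ := h2
      rcases hirr.isUnit_or_isUnit hw with h5 | h5
      · exact absurd h5 h3
      · rw [hw]
        exact (associated_mul_unit_right _ _ h5)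
    exact eq_of_monic_of_associated hm1 hmon h4
  have hPn : C.P.natDegree = C.n := by
    unfold RF.n
    exact (max_eq_left hlt.le).symm
  have hdeg : mu0.natDegree + 1 = C.n := by
    have h1 : (GG C).natDegree = C.P.natDegree := by
      unfold GG
      have h2 : (C.P.map (algebraMap ℂ E)).natDegree = C.P.natDegree :=
        natDegree_map_eq_of_injective (algebraMap ℂ E).injective _
      have h3 : (Polynomial.C (elt C) * C.Q.map (algebraMap ℂ E)).natDegree ≤ C.Q.natDegree :=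
        (natDegree_C_mul_le _ _).trans natDegree_map_le
      rw [natDegree_sub_eq_left_of_natDegree_lt (by rw [h2]; omega), h2]
    rw [hgg, (monic_X_sub_C _).natDegree_mul hmon, natDegree_X_sub_C] at h1
    omega
  obtain ⟨m, hm0, hmd, hm⟩ := PS_mu hK hn1 hlt h
  rw [hmu] at hmd
  -- all critical values
  set R : Finset ℂ := T ∪ ((C.ramified_finite hn1).toFinset.image fun z =>
    (C.val z).getD 0) with hR
  have hRc : ∀ a p : ℂ, C.val (some a) = some p → C.e (some a) ≠ 1 → p ∈ R := by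
    intro a p hv he
    rw [hR, Finset.mem_union]
    right
    rw [Finset.mem_image]
    refine ⟨some a, ?_, ?_⟩
    · rw [Set.Finite.mem_toFinset]
      exact he
    · rw [hv]
      rfl
  have hrh := rh_fin hn1 hlt hun R hRc
  have hrh2 := PS_rh hK hn1 hlt h R
  have hwg : ∀ p, (wt (pasF C p) : ℤ) + gs (pasF C p) = (fC C p).card * C.n := by
    intro p
    have h1 := wt_add_gs (pasF C p) (by
      intro e he
      unfold pasF at he
      rw [Multiset.mem_map] at he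
      obtain ⟨a, ha, rfl⟩ := he
      exact WOne_e_pos hn1 ha)
    have h2 : (pasF C p).sum = C.n := sum_fC hn1 hlt p
    have h3 : Multiset.card (pasF C p) = (fC C p).card := by
      unfold pasF
      rw [Multiset.card_map]
      rfl
    rw [h2, h3] at h1
    exact_mod_cast h1
  have hdφ : (deg φ : ℤ) = m * (C.n - 1) := by
    have h1 : (mu0.natDegree : ℤ) = C.n - 1 := by
      have : ((mu0.natDegree + 1 : ℕ) : ℤ) = C.n := by rw [hdeg]
      push_cast at this
      linarith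
    rw [← hmd]
    push_cast
    rw [h1]
  have hle : ∀ p ∈ R, (m : ℤ) * ((C.n - 1) * (C.n - (fC C p).card) + wt (pasF C p)) ≤
      (C.n : ℤ) * deg φ - ∑ a ∈ fC C p, ∑ b ∈ fC C p, ((PS hK φ ψ a b).card : ℤ) := by
    intro p _
    have h1 := WOne_fibre hK hn1 hlt hgg h hmu hm p
    have h2 := hwg p
    have h3 : (gs (pasF C p) : ℤ) = (fC C p).card * C.n - wt (pasF C p) := by linarith
    rw [h3] at h1
    rw [hdφ]
    linarith
  have hsum := (Finset.sum_le_sum hle).trans hrh2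
  rw [← Finset.mul_sum, Finset.sum_add_distrib, ← Finset.mul_sum, hrh, hdφ] at hsum
  have hm0' : (0 : ℤ) < m := by exact_mod_cast hm0
  have h5 : (m : ℤ) * (((C.n : ℤ) - 1) * (2 * C.n - 2) + ∑ p ∈ R, (wt (pasF C p) : ℤ)) ≤
      m * (2 * (C.n * (C.n - 1))) := by
    refine hsum.trans (le_of_eq ?_)
    ring
  have h6 := le_of_mul_le_mul_left h5 hm0'
  have h7 : ∑ p ∈ T, (wt (pasF C p) : ℤ) ≤ ∑ p ∈ R, (wt (pasF C p) : ℤ) :=
    Finset.sum_le_sum_of_subset_of_nonneg Finset.subset_union_left fun _ _ _ => by positivity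
  nlinarith

end WildV
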